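import Pool.Agent.Lib.MP_b573ec_lc_ST.LinBNS

/-! # Few star-closed sets do not cover the zero inputs

Three blocks of `20 g` bits, cut into `g` groups of `20` columns.  The triples all of whose groups
have even `∑ x_s y_s z_s` are not covered by fewer than `2 ^ g` star-closed sets of such triples. -/

set_option autoImplicit false

namespace Pool.Agent.ST.Lin

open Finset

/-- the inner product of group `t` -/
def grp {g : ℕ} (x y z : Fin (20 * g) → Bool) (t : ℕ) : ℕ :=
  ∑ s ∈ Finset.univ.filter (fun s : Fin (20 * g) => s.val / 20 = t), (x s && y s && z s).toNat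

/-- all groups have even inner product -/
def Zero {g : ℕ} (x y z : Fin (20 * g) → Bool) : Prop := ∀ t < g, grp x y z t % 2 = 0

theorem sg_eq (b : Bool) : sg b = (-1) ^ b.toNat := by cases b <;> simp [sg]

theorem chi_eq_one {g : ℕ} {x y z : Fin (20 * g) → Bool} (h : Zero x y z) : chi x y z = 1 := by
  have h1 : chi x y z = (-1) ^ (∑ s, (x s && y s && z s).toNat) := by
    unfold chi
    simp only [sg_eq]
    exact Finset.prod_pow_eq_pow_sum _ _ _
  rw [h1]
  apply Even.neg_one_pow
  have h2 : ∑ s : Fin (20 * g), (x s && y s && z s).toNat = ∑ t ∈ Finset.range g, grp x y z t := by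
    unfold grp
    rw [Finset.sum_fiberwise_of_maps_to]
    intro s _
    rw [Finset.mem_range]
    have := s.isLt
    omega
  rw [h2]
  rw [even_iff_two_dvd]
  refine Finset.dvd_sum fun t ht => ?_
  exact Nat.dvd_of_mod_eq_zero (h t (Finset.mem_range.mp ht))

theorem grp_xor {g : ℕ} (x y z z' : Fin (20 * g) → Bool) (t : ℕ) :
    grp x y (fun s => xor (z s) (z' s)) t % 2 = (grp x y z t + grp x y z' t) % 2 := by
  unfold grp
  rw [← Finset.sum_add_distrib]
  conv_lhs => rw [Finset.sum_nat_mod]
  conv_rhs => rw [Finset.sum_nat_mod]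
  congr 1
  refine Finset.sum_congr rfl fun s _ => ?_
  have key : ∀ a b c d : Bool, (a && b && xor c d).toNat % 2 =
      ((a && b && c).toNat + (a && b && d).toNat) % 2 := by decide
  exact key _ _ _ _

/-- for two fixed blocks a fraction at least `2 ^ (-g)` of the third blocks is a zero -/
theorem card_zero_z {g : ℕ} (x y : Fin (20 * g) → Bool) :
    2 ^ (20 * g) ≤ 2 ^ g * Nat.card {z : Fin (20 * g) → Bool // Zero x y z} := by
  classical
  let f : (Fin (20 * g) → Bool) → (Fin g → Bool) := fun z t => decide (grp x y z t % 2 = 1)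
  let K : Finset (Fin (20 * g) → Bool) := Finset.univ.filter (fun z => Zero x y z)
  have hK : Nat.card {z : Fin (20 * g) → Bool // Zero x y z} = K.card := by
    rw [Nat.card_eq_fintype_card, Fintype.card_subtype]
  rw [hK]
  have hfib : ∀ v ∈ (Finset.univ : Finset (Fin g → Bool)),
      ((Finset.univ : Finset (Fin (20 * g) → Bool)).filter (fun z => f z = v)).card ≤ K.card := by
    intro v _
    rcases (Finset.univ.filter (fun z => f z = v)).eq_empty_or_nonempty with h | ⟨z0, hz0⟩
    · rw [h]; simp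
    · refine Finset.card_le_card_of_injOn (fun z s => xor (z s) (z0 s)) ?_ ?_
      · intro z hz
        simp only [Finset.coe_filter, Finset.mem_univ, true_and, Set.mem_ofPred_eq] at hz
        simp only [Finset.mem_filter, Finset.mem_univ, true_and] at hz0
        simp only [K, Finset.coe_filter, Finset.mem_univ, true_and, Set.mem_ofPred_eq]
        intro t ht
        rw [grp_xor]
        have h1 : f z ⟨t, ht⟩ = f z0 ⟨t, ht⟩ := by rw [hz, hz0]
        simp only [f] at h1
        rw [decide_eq_decide] at h1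
        omega
      · intro z _ z' _ h
        funext s
        have := congrFun h s
        simpa using this
  have h := Finset.card_le_mul_card_image_of_maps_to (s := (Finset.univ : Finset (Fin (20 * g) → Bool)))
    (t := (Finset.univ : Finset (Fin g → Bool))) (f := f) (fun _ _ => Finset.mem_univ _) K.card hfib
  simp only [Finset.card_univ, Fintype.card_pi, Fintype.card_bool, Finset.prod_const,
    Fintype.card_fin] at h
  exact h.trans (le_of_eq (mul_comm _ _))

/-- a fraction at least `2 ^ (-g)` of all triples is a zero -/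
theorem card_zero {g : ℕ} (Z : Finset ((Fin (20 * g) → Bool) × (Fin (20 * g) → Bool) ×
    (Fin (20 * g) → Bool))) (hZ : ∀ x y z, (x, y, z) ∈ Z ↔ Zero x y z) :
    8 ^ (20 * g) ≤ 2 ^ g * Z.card := by
  classical
  have h1 : Z.card = ∑ p : (Fin (20 * g) → Bool) × (Fin (20 * g) → Bool),
      Nat.card {z : Fin (20 * g) → Bool // Zero p.1 p.2 z} := by
    have h2 : ∀ p : (Fin (20 * g) → Bool) × (Fin (20 * g) → Bool),
        Nat.card {z : Fin (20 * g) → Bool // Zero p.1 p.2 z} =
        (Z.filter (fun q => (q.1, q.2.1) = p)).card := by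
      intro p
      rw [Nat.card_eq_fintype_card, Fintype.card_subtype]
      refine Finset.card_bij (fun z _ => (p.1, p.2, z)) ?_ ?_ ?_
      · intro z hz
        simp only [Finset.mem_filter, Finset.mem_univ, true_and] at hz
        exact Finset.mem_filter.mpr ⟨(hZ _ _ _).mpr hz, rfl⟩
      · intro z _ z' _ h
        simpa using h
      · intro q hq
        simp only [Finset.mem_filter] at hq
        obtain ⟨hq1, hq2⟩ := hq
        refine ⟨q.2.2, ?_, ?_⟩
        · simp only [Finset.mem_filter, Finset.mem_univ, true_and]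
          rw [← hq2]
          exact (hZ _ _ _).mp hq1
        · rw [← hq2]
    simp only [h2]
    exact Finset.card_eq_sum_card_fiberwise (fun _ _ => Finset.mem_coe.mpr (Finset.mem_univ _))
  rw [h1, Finset.mul_sum]
  calc 8 ^ (20 * g) = ∑ _p : (Fin (20 * g) → Bool) × (Fin (20 * g) → Bool), 2 ^ (20 * g) := by
        rw [Finset.sum_const, Finset.card_univ, Fintype.card_prod]
        simp only [Fintype.card_pi, Fintype.card_bool, Finset.prod_const, Finset.card_univ,
          Fintype.card_fin, smul_eq_mul]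
        rw [← mul_pow, ← mul_pow]
        norm_num
    _ ≤ _ := Finset.sum_le_sum fun p _ => card_zero_z p.1 p.2

/-- the covering bound -/
theorem no_cover (g K : ℕ) (T : Fin K → Set ((Fin (20 * g) → Bool) × (Fin (20 * g) → Bool) ×
      (Fin (20 * g) → Bool)))
    (hstar : ∀ k x x' y y' z z', (x', y, z) ∈ T k → (x, y', z) ∈ T k → (x, y, z') ∈ T k →
      (x, y, z) ∈ T k)
    (hT : ∀ k x y z, (x, y, z) ∈ T k → Zero x y z)
    (hcov : ∀ x y z, Zero x y z → ∃ k, (x, y, z) ∈ T k) : 2 ^ g ≤ K := by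
  classical
  let Z : Finset ((Fin (20 * g) → Bool) × (Fin (20 * g) → Bool) × (Fin (20 * g) → Bool)) :=
    Finset.univ.filter (fun p => Zero p.1 p.2.1 p.2.2)
  have hZ : ∀ x y z, (x, y, z) ∈ Z ↔ Zero x y z := by
    intro x y z
    simp [Z]
  let S : Fin K → Finset ((Fin (20 * g) → Bool) × (Fin (20 * g) → Bool) ×
      (Fin (20 * g) → Bool)) := fun k => Finset.univ.filter (fun p => p ∈ T k)
  have hS : ∀ k, (S k).card * 2 ^ (2 * g) ≤ 8 ^ (20 * g) := by
    intro k
    have h := card_star (20 * g) (S k)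
      (by
        intro x x' y y' z z' h1 h2 h3
        simp only [S, Finset.mem_filter, Finset.mem_univ, true_and] at *
        exact hstar k x x' y y' z z' h1 h2 h3)
      (by
        intro p hp
        simp only [S, Finset.mem_filter, Finset.mem_univ, true_and] at hp
        exact chi_eq_one (hT k _ _ _ hp))
    by_contra hlt
    push Not at hlt
    have h2 : (8 ^ (20 * g)) ^ 4 < ((S k).card * 2 ^ (2 * g)) ^ 4 :=
      Nat.pow_lt_pow_left hlt (by norm_num)
    have h3 : 4 ^ (20 * g) * ((S k).card * 2 ^ (2 * g)) ^ 4 ≤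
        (8 ^ (20 * g)) ^ 4 * (3 ^ (20 * g) * 2 ^ (8 * g)) := by
      calc 4 ^ (20 * g) * ((S k).card * 2 ^ (2 * g)) ^ 4
          = (4 ^ (20 * g) * (S k).card ^ 4) * 2 ^ (8 * g) := by
            rw [mul_pow, ← pow_mul]
            ring
        _ ≤ (3 ^ (20 * g) * 8 ^ (4 * (20 * g))) * 2 ^ (8 * g) := Nat.mul_le_mul_right _ h
        _ = _ := by
            rw [mul_comm 4 (20 * g), pow_mul 8 (20 * g) 4]
            ring
    have h4 : 3 ^ (20 * g) * 2 ^ (8 * g) ≤ 4 ^ (20 * g) := by
      rw [pow_mul, pow_mul, pow_mul, ← mul_pow]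
      exact Nat.pow_le_pow_left (by norm_num) g
    have h5 : 4 ^ (20 * g) * ((S k).card * 2 ^ (2 * g)) ^ 4 ≤ 4 ^ (20 * g) * (8 ^ (20 * g)) ^ 4 := by
      calc _ ≤ (8 ^ (20 * g)) ^ 4 * (3 ^ (20 * g) * 2 ^ (8 * g)) := h3
        _ ≤ (8 ^ (20 * g)) ^ 4 * 4 ^ (20 * g) := Nat.mul_le_mul_left _ h4
        _ = _ := mul_comm _ _
    have h6 := Nat.le_of_mul_le_mul_left h5 (by positivity)
    omega
  have h1 : Z.card ≤ ∑ k, (S k).card := by
    have : Z ⊆ Finset.univ.biUnion S := by
      intro p hp
      obtain ⟨x, y, z⟩ := p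
      obtain ⟨k, hk⟩ := hcov x y z ((hZ x y z).mp hp)
      rw [Finset.mem_biUnion]
      exact ⟨k, Finset.mem_univ _, by simpa [S] using hk⟩
    exact (Finset.card_le_card this).trans Finset.card_biUnion_le
  have h2 : Z.card * 2 ^ (2 * g) ≤ K * 8 ^ (20 * g) := by
    calc Z.card * 2 ^ (2 * g) ≤ (∑ k, (S k).card) * 2 ^ (2 * g) := Nat.mul_le_mul_right _ h1
      _ = ∑ k, (S k).card * 2 ^ (2 * g) := Finset.sum_mul _ _ _
      _ ≤ ∑ _k : Fin K, 8 ^ (20 * g) := Finset.sum_le_sum fun k _ => hS k
      _ = K * 8 ^ (20 * g) := by simp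
  have h3 := card_zero Z hZ
  have h4 : 8 ^ (20 * g) * 2 ^ g ≤ 8 ^ (20 * g) * K := by
    have e : 2 ^ (2 * g) = 2 ^ g * 2 ^ g := by rw [two_mul, pow_add]
    have h5 : 8 ^ (20 * g) * 2 ^ (2 * g) ≤ 2 ^ g * (K * 8 ^ (20 * g)) := by
      calc 8 ^ (20 * g) * 2 ^ (2 * g) ≤ (2 ^ g * Z.card) * 2 ^ (2 * g) :=
            Nat.mul_le_mul_right _ h3
        _ = 2 ^ g * (Z.card * 2 ^ (2 * g)) := by ring
        _ ≤ _ := Nat.mul_le_mul_left _ h2
    have h6 : 2 ^ g * (8 ^ (20 * g) * 2 ^ g) ≤ 2 ^ g * (8 ^ (20 * g) * K) := by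
      rw [e] at h5
      calc _ = 8 ^ (20 * g) * (2 ^ g * 2 ^ g) := by ring
        _ ≤ _ := h5
        _ = _ := by ring
    exact Nat.le_of_mul_le_mul_left h6 (by positivity)
  exact Nat.le_of_mul_le_mul_left h4 (by positivity)

end Pool.Agent.ST.Lin
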