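import Mathlib
import Pool.Agent.Lib.MP_b573ec_lc_LT.Model

/-!
# Stack programs: nonuniform machines with a stack and few passes over the input

A stack program on `n` Boolean variables with `p` passes and width `w` has a read-only input of `n`
bits, `w` internal states (space `log2 w`) and a stack with `w` symbols; the height of the stack and
the number of moves are not bounded.  The input head makes `p` passes over the input, each of them
from one end to the other, in a direction which is fixed in advance.
-/

namespace Pool.Agent.ST

open Pool.Agent.LT (Inp)

/-! ## Moves and configurations -/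

/-- The moves of a stack program with `w` states and `w` stack symbols: go to the state `q` and
push the symbol `a`; go to the state `q` and remove the top symbol (if the stack is empty it stays
empty); go to the state `q` and advance the input head to the next cell of the pass (after the last
cell of a pass: to the first cell of the next pass). -/
inductive Move (w : ℕ)
  | push (q a : Fin w)
  | pop (q : Fin w)
  | next (q : Fin w)

/-- A configuration of a stack program: the number `pos` of moves of the input head made so far,
the state, and the stack (top symbol first). -/
structure Conf (w : ℕ) where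
  pos : ℕ
  state : Fin w
  stack : List (Fin w)

/-- the configuration after a move -/
def Conf.after {w : ℕ} (c : Conf w) : Move w → Conf w
  | .push q a => ⟨c.pos, q, a :: c.stack⟩
  | .pop q => ⟨c.pos, q, c.stack.tail⟩
  | .next q => ⟨c.pos + 1, q, c.stack⟩

/-- The cell (the variable) on which the head stands after `t < p * n` moves of the head: it is in
the pass `t / n`, and has moved `t % n` times in this pass; `forward k` tells whether pass `k` goes
from the first to the last variable or from the last to the first one. -/
def cell {n p : ℕ} (forward : Fin p → Bool) (t : Fin (p * n)) : Fin n :=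
  if forward t.divNat then t.modNat else t.modNat.rev

/-! ## Deterministic stack programs -/

/-- A deterministic stack program on `n` Boolean variables, with `p` passes and width `w`.
The move depends on the pass, on the cell on which the head stands, on the state, on the top symbol
of the stack (`none` if the stack is empty) and on the value of the variable.  At the start the
stack is empty.  After the last cell of the last pass the program stops, and its output is the value
of `acc` at its state. -/
structure StackProg (n p w : ℕ) where
  forward : Fin p → Bool
  start : Fin w
  move : Fin p → Fin n → Fin w → Option (Fin w) → Bool → Move w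
  acc : Fin w → Bool

/-- one step of a stack program on the input `x`; nothing changes after the last pass -/
def StackProg.step {n p w : ℕ} (P : StackProg n p w) (x : Inp n) (c : Conf w) : Conf w :=
  if h : c.pos < p * n then
    c.after (P.move (⟨c.pos, h⟩ : Fin (p * n)).divNat (cell P.forward ⟨c.pos, h⟩) c.state
      c.stack.head? (x (cell P.forward ⟨c.pos, h⟩)))
  else c

/-- the configuration after `k` steps on the input `x` -/
def StackProg.conf {n p w : ℕ} (P : StackProg n p w) (x : Inp n) (k : ℕ) : Conf w :=
  (P.step x)^[k] ⟨0, P.start, []⟩

/-- `P` finishes all its passes on the input `x`, with output `b` -/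
def StackProg.Outputs {n p w : ℕ} (P : StackProg n p w) (x : Inp n) (b : Bool) : Prop :=
  ∃ k, (P.conf x k).pos = p * n ∧ P.acc (P.conf x k).state = b

/-- `f` is computed by a deterministic stack program with `p` passes and width `w` -/
def StackDet {n : ℕ} (f : Inp n → Bool) (p w : ℕ) : Prop :=
  ∃ P : StackProg n p w, ∀ x, P.Outputs x (f x)

/-- `f` is computed by stack programs with `p` passes and width `w` with one-sided error: the
program may depend on `ρ` uniform random bits `c`; if `f x = 1` it has output `1` with probability
at least `1/2`, if `f x = 0` it always has output `0`. -/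
def StackOneSided {n : ℕ} (f : Inp n → Bool) (p w : ℕ) : Prop :=
  ∃ (ρ : ℕ) (P : (Fin ρ → Bool) → StackProg n p w),
    (∀ x, f x = true → 2 ^ ρ ≤ 2 * Nat.card {c : Fin ρ → Bool // (P c).Outputs x true}) ∧
    ∀ x, f x = false → ∀ c, (P c).Outputs x false

/-- `f` is computed by stack programs with `p` passes and width `w` with two-sided error `1/3` -/
def StackTwoSided {n : ℕ} (f : Inp n → Bool) (p w : ℕ) : Prop :=
  ∃ (ρ : ℕ) (P : (Fin ρ → Bool) → StackProg n p w),
    ∀ x, 2 * 2 ^ ρ ≤ 3 * Nat.card {c : Fin ρ → Bool // (P c).Outputs x (f x)}

/-! ## Nondeterministic stack programs -/

/-- A nondeterministic stack program: `start` tells which states are start states, `move` tells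
which moves are allowed. -/
structure NStackProg (n p w : ℕ) where
  forward : Fin p → Bool
  start : Fin w → Prop
  move : Fin p → Fin n → Fin w → Option (Fin w) → Bool → Move w → Prop
  acc : Fin w → Prop

/-- the steps of a nondeterministic stack program on the input `x` -/
def NStackProg.Step {n p w : ℕ} (P : NStackProg n p w) (x : Inp n) (c c' : Conf w) : Prop :=
  ∃ (h : c.pos < p * n) (mv : Move w),
    P.move (⟨c.pos, h⟩ : Fin (p * n)).divNat (cell P.forward ⟨c.pos, h⟩) c.state c.stack.head?
      (x (cell P.forward ⟨c.pos, h⟩)) mv ∧ c' = c.after mv

/-- `P` has a computation on the input `x` which finishes all passes, in an accepting state -/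
def NStackProg.Accepts {n p w : ℕ} (P : NStackProg n p w) (x : Inp n) : Prop :=
  ∃ q c, P.start q ∧ Relation.ReflTransGen (P.Step x) ⟨0, q, []⟩ c ∧ c.pos = p * n ∧ P.acc c.state

/-- `f` is computed by a nondeterministic stack program with `p` passes and width `w` -/
def StackNondet {n : ℕ} (f : Inp n → Bool) (p w : ℕ) : Prop :=
  ∃ P : NStackProg n p w, ∀ x, f x = true ↔ P.Accepts x

/-! ## The languages -/

/-- bit `k` of the input (`false` if there is no such bit) -/
def getBit {n : ℕ} (x : Inp n) (k : ℕ) : Bool := if h : k < n then x ⟨k, h⟩ else false

/-- the number of ones among the first `⌊log2 n⌋` bits -/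
def expo (n : ℕ) (x : Inp n) : ℕ := ∑ k ∈ Finset.range (Nat.log 2 n), (getBit x k).toNat

/-- the number of blocks -/
def numBlocks (n : ℕ) (x : Inp n) : ℕ := 2 ^ expo n x

/-- the length of the blocks -/
def blockLen (n : ℕ) (x : Inp n) : ℕ := (n - Nat.log 2 n) / numBlocks n x

/-- bit `t` of block `i`; the blocks follow each other after the first `⌊log2 n⌋` bits -/
def blockBit (n : ℕ) (x : Inp n) (i t : ℕ) : Bool :=
  getBit x (Nat.log 2 n + i * blockLen n x + t)

/-- The language `langA`: the first `⌊log2 n⌋` bits, with `g` ones, give the number `m = 2 ^ g` of
blocks; `m` blocks of the same length `b = ⌊(n - ⌊log2 n⌋) / m⌋` follow; `x` belongs to the language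
if the sum modulo `2` of the `m` blocks (as vectors with `b` entries) is not zero. -/
def langA (n : ℕ) (x : Inp n) : Bool :=
  decide (∃ t < blockLen n x,
    (∑ i ∈ Finset.range (numBlocks n x), (blockBit n x i t).toNat) % 2 = 1)

/-- The language `langB`: the blocks are as in `langA`; `x` belongs to the language if for some `t`
with `2 * t + 1 < b` the number of ones among the entries `2 * t` and `2 * t + 1` of all blocks is
congruent to `2` modulo `3`. -/
def langB (n : ℕ) (x : Inp n) : Bool :=
  decide (∃ t < blockLen n x / 2, (∑ i ∈ Finset.range (numBlocks n x),
    ((blockBit n x i (2 * t)).toNat + (blockBit n x i (2 * t + 1)).toNat)) % 3 = 2)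

end Pool.Agent.ST
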