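import Mathlib
import Pool.Agent.Lib.MP_b573ec_lc_ST.Model

/-!
# Derivations and skeletons: definitions

`Rel w` : transition relations of machines with a stack which read a stream of bits from time `0` to
time `T` (the time is the number of moves of the input head).
-/

namespace Pool.Agent.ST

open Pool.Agent.LT (Inp)

/-- transition relations: allowed moves, depending on time, state, top symbol and bit -/
abbrev Rel (w : ℕ) := ℕ → Fin w → Option (Fin w) → Bool → Move w → Prop

/-- deterministic transition relations -/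
def Rel.Det {w : ℕ} (Δ : Rel w) : Prop :=
  ∀ t q g b mv mv', Δ t q g b mv → Δ t q g b mv' → mv = mv'

/-- `Pop Δ T z t q g t' q' l`: derivation of a piece of a computation on the stream `z`, from time
`t` and state `q`, with `g` on top of the stack (`none`: empty stack), until `g` is removed, at time
`t'` and with the state `q'`.  At time `T` everything is removed from the stack without any move
(rule `fin`).  The list `l` holds the pairs (time, time of the removal of the top symbol) of the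
nodes of the derivation. -/
inductive Pop {w : ℕ} (Δ : Rel w) (T : ℕ) (z : ℕ → Bool) :
    ℕ → Fin w → Option (Fin w) → ℕ → Fin w → List (ℕ × ℕ) → Prop
  | fin (q : Fin w) (g : Option (Fin w)) : Pop Δ T z T q g T q []
  | pop (t : ℕ) (q a q' : Fin w) : t < T → Δ t q (some a) (z t) (.pop q') →
      Pop Δ T z t q (some a) t q' []
  | bot (t : ℕ) (q q1 : Fin w) (t' : ℕ) (q' : Fin w) (l : List (ℕ × ℕ)) : t < T →
      Δ t q none (z t) (.pop q1) → Pop Δ T z t q1 none t' q' l → Pop Δ T z t q none t' q' l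
  | next (t : ℕ) (q : Fin w) (g : Option (Fin w)) (q1 : Fin w) (t' : ℕ) (q' : Fin w)
      (l : List (ℕ × ℕ)) : t < T → Δ t q g (z t) (.next q1) → Pop Δ T z (t + 1) q1 g t' q' l →
      Pop Δ T z t q g t' q' ((t, t') :: l)
  | push (t : ℕ) (q : Fin w) (g : Option (Fin w)) (q1 a : Fin w) (t1 : ℕ) (q2 : Fin w) (t' : ℕ)
      (q' : Fin w) (l1 l2 : List (ℕ × ℕ)) : t < T → Δ t q g (z t) (.push q1 a) →
      Pop Δ T z t q1 (some a) t1 q2 l1 → Pop Δ T z t1 q2 g t' q' l2 →
      Pop Δ T z t q g t' q' ((t, t') :: (l1 ++ l2))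

/-- nodes: time, state, top symbol, time of removal of the top symbol, state after the removal -/
@[ext]
structure Nd (w : ℕ) where
  t : ℕ
  q : Fin w
  g : Option (Fin w)
  e : ℕ
  r : Fin w
  deriving DecidableEq

/-- One step of a chain, on the stream `z`; `ph t` is the phase of the time `t`.  The phases of the
time and of the time of removal do not change: the left subtree of a push is passed over if it
belongs to the phase of the time, the right one if it belongs to the phase of the removal. -/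
inductive Cs {w : ℕ} (Δ : Rel w) (T : ℕ) (ph : ℕ → ℕ) (z : ℕ → Bool) : Nd w → Nd w → Prop
  | bot (t : ℕ) (q q1 : Fin w) (e : ℕ) (r : Fin w) : t < T → Δ t q none (z t) (.pop q1) →
      Cs Δ T ph z ⟨t, q, none, e, r⟩ ⟨t, q1, none, e, r⟩
  | next (t : ℕ) (q : Fin w) (g : Option (Fin w)) (q1 : Fin w) (e : ℕ) (r : Fin w) : t < T →
      Δ t q g (z t) (.next q1) → ph (t + 1) = ph t →
      Cs Δ T ph z ⟨t, q, g, e, r⟩ ⟨t + 1, q1, g, e, r⟩
  | left (t : ℕ) (q : Fin w) (g : Option (Fin w)) (q1 a : Fin w) (t1 : ℕ) (q2 : Fin w) (e : ℕ)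
      (r : Fin w) (l : List (ℕ × ℕ)) : t < T → Δ t q g (z t) (.push q1 a) →
      Pop Δ T z t q1 (some a) t1 q2 l → ph t1 = ph t →
      Cs Δ T ph z ⟨t, q, g, e, r⟩ ⟨t1, q2, g, e, r⟩
  | right (t : ℕ) (q : Fin w) (g : Option (Fin w)) (q1 a : Fin w) (t1 : ℕ) (q2 : Fin w) (e : ℕ)
      (r : Fin w) (l : List (ℕ × ℕ)) : t < T → Δ t q g (z t) (.push q1 a) →
      Pop Δ T z t1 q2 g e r l → ph t1 = ph e →
      Cs Δ T ph z ⟨t, q, g, e, r⟩ ⟨t, q1, some a, t1, q2⟩

/-- skeletons -/
inductive Sk (w : ℕ)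
  | int
  | nxt (ν : Nd w) (q : Fin w) (s : Sk w)
  | br (ν : Nd w) (q a : Fin w) (t1 : ℕ) (q2 : Fin w) (s s' : Sk w)

/-- `Dv Δ T ph z ν s`: `s` is the skeleton of a derivation from the node `ν` on the stream `z`.
`int`: the derivation belongs to one phase.  Otherwise a chain leads to a node at which the head
enters a new phase (`nxt`) or at which a symbol is pushed whose removal belongs neither to the phase
of the time nor to that of the removal (`br`). -/
inductive Dv {w : ℕ} (Δ : Rel w) (T : ℕ) (ph : ℕ → ℕ) (z : ℕ → Bool) : Nd w → Sk w → Prop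
  | int (t : ℕ) (q : Fin w) (g : Option (Fin w)) (e : ℕ) (r : Fin w) (l : List (ℕ × ℕ)) :
      ph t = ph e → Pop Δ T z t q g e r l → Dv Δ T ph z ⟨t, q, g, e, r⟩ .int
  | nxt (ν : Nd w) (t : ℕ) (q : Fin w) (g : Option (Fin w)) (q1 : Fin w) (e : ℕ) (r : Fin w)
      (s : Sk w) : ph ν.t < ph ν.e → Relation.ReflTransGen (Cs Δ T ph z) ν ⟨t, q, g, e, r⟩ →
      t < T → Δ t q g (z t) (.next q1) → ph t < ph (t + 1) → ph (t + 1) ≤ ph e →
      Dv Δ T ph z ⟨t + 1, q1, g, e, r⟩ s → Dv Δ T ph z ν (.nxt ⟨t, q, g, e, r⟩ q1 s)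
  | br (ν : Nd w) (t : ℕ) (q : Fin w) (g : Option (Fin w)) (q1 a : Fin w) (t1 : ℕ) (q2 : Fin w)
      (e : ℕ) (r : Fin w) (s s' : Sk w) : ph ν.t < ph ν.e →
      Relation.ReflTransGen (Cs Δ T ph z) ν ⟨t, q, g, e, r⟩ →
      t < T → Δ t q g (z t) (.push q1 a) → ph t < ph t1 → ph t1 < ph e →
      Dv Δ T ph z ⟨t, q1, some a, t1, q2⟩ s → Dv Δ T ph z ⟨t1, q2, g, e, r⟩ s' →
      Dv Δ T ph z ν (.br ⟨t, q, g, e, r⟩ q1 a t1 q2 s s')

/-- labels of phases -/
inductive Lab
  | a
  | b
  | c
  deriving DecidableEq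

/-- compatible labels: all pairs except `a, b` and `b, a` -/
def Lab.Ok (l o : Lab) : Prop := ¬ (l = .a ∧ o = .b) ∧ ¬ (l = .b ∧ o = .a)

/-- all nodes of a skeleton have compatible labels -/
def Sk.Ok {w : ℕ} (lb : ℕ → Lab) (ph : ℕ → ℕ) : Sk w → Prop
  | .int => True
  | .nxt ν _ s => (lb (ph ν.t)).Ok (lb (ph ν.e)) ∧ s.Ok lb ph
  | .br ν _ _ _ _ s s' => (lb (ph ν.t)).Ok (lb (ph ν.e)) ∧ s.Ok lb ph ∧ s'.Ok lb ph

/-- number of nodes of a skeleton -/
def Sk.size {w : ℕ} : Sk w → ℕ
  | .int => 1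
  | .nxt _ _ s => s.size + 1
  | .br _ _ _ _ _ s s' => s.size + s'.size + 1

/-- all times in a skeleton are at most `T` -/
def Sk.Bdd {w : ℕ} (T : ℕ) : Sk w → Prop
  | .int => True
  | .nxt ν _ s => ν.t ≤ T ∧ ν.e ≤ T ∧ s.Bdd T
  | .br ν _ _ t1 _ s s' => ν.t ≤ T ∧ ν.e ≤ T ∧ t1 ≤ T ∧ s.Bdd T ∧ s'.Bdd T

/-- the mixed stream: that of `z'` at the times of the phases with label `b`, that of `z` at the
others -/
def mixz (lb : ℕ → Lab) (ph : ℕ → ℕ) (z z' : ℕ → Bool) : ℕ → Bool := fun t =>
  if lb (ph t) = .b then z' t else z t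

/-! ## Streams and transition relations of stack programs -/

/-- the stream of bits read on the input `x` -/
def stream {n p : ℕ} (forward : Fin p → Bool) (x : Inp n) : ℕ → Bool := fun t =>
  if h : t < p * n then x (cell forward ⟨t, h⟩) else false

/-- the transition relation of a nondeterministic stack program -/
def NStackProg.rel {n p w : ℕ} (P : NStackProg n p w) : Rel w := fun t q g b mv =>
  ∃ h : t < p * n, P.move (⟨t, h⟩ : Fin (p * n)).divNat (cell P.forward ⟨t, h⟩) q g b mv

/-- the deterministic nondeterministic stack programs -/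
def NStackProg.Det {n p w : ℕ} (P : NStackProg n p w) : Prop :=
  (∀ k c q g b mv mv', P.move k c q g b mv → P.move k c q g b mv' → mv = mv') ∧
    ∀ q q', P.start q → P.start q' → q = q'

/-- a deterministic stack program as a nondeterministic one which accepts when the output is `b` -/
def StackProg.toN {n p w : ℕ} (P : StackProg n p w) (b : Bool) : NStackProg n p w where
  forward := P.forward
  start q := q = P.start
  move k c q g y mv := mv = P.move k c q g y
  acc q := P.acc q = b

/-! ## Blocks -/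

/-- cell `c` belongs to block `i` (blocks of `b` cells after the first `L` cells) -/
def InBlk (L b i c : ℕ) : Prop := L + i * b ≤ c ∧ c < L + (i + 1) * b

instance (L b i c : ℕ) : Decidable (InBlk L b i c) := by unfold InBlk; infer_instance

/-- the input `x` with block `j` replaced by that of `y` -/
def mixIn {n : ℕ} (L b j : ℕ) (x y : Inp n) : Inp n := fun c => if InBlk L b j c then y c else x c

/-- the inputs `x` and `y` agree outside the blocks `i` and `j` -/
def Agree {n : ℕ} (L b i j : ℕ) (x y : Inp n) : Prop :=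
  ∀ c : Fin n, ¬ InBlk L b i c → ¬ InBlk L b j c → x c = y c

/-- The input of length `n` with `g` ones at the beginning and with the bits `B i t` in block `i`. -/
def encM (n g : ℕ) (B : ℕ → ℕ → Bool) : Inp n := fun c =>
  if (c : ℕ) < Nat.log 2 n then decide ((c : ℕ) < g)
  else if (c : ℕ) - Nat.log 2 n < 2 ^ g * ((n - Nat.log 2 n) / 2 ^ g) then
    B (((c : ℕ) - Nat.log 2 n) / ((n - Nat.log 2 n) / 2 ^ g))
      (((c : ℕ) - Nat.log 2 n) % ((n - Nat.log 2 n) / 2 ^ g))
  else false

end Pool.Agent.ST
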