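import Mathlib
import Pool.Agent.Lib.MP_b573ec_lc_ST.Core

/-!
# Project SPASS, module T1: derivations
-/

namespace Pool.Agent.ST

section T1
variable {w : ℕ} {Δ : Rel w} {T : ℕ} {z z' : ℕ → Bool} {t e e' : ℕ} {q r r' : Fin w}
  {g : Option (Fin w)} {l l' : List (ℕ × ℕ)}

theorem Pop.bounds (h : Pop Δ T z t q g e r l) : t ≤ e ∧ e ≤ T := by
  induction h with
  | fin q g => exact ⟨le_rfl, le_rfl⟩
  | pop t q a q' ht _ => exact ⟨le_rfl, ht.le⟩
  | bot t q q1 t' q' l ht _ _ ih => exact ih
  | next t q g q1 t' q' l ht _ _ ih => exact ⟨by omega, ih.2⟩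
  | push t q g q1 a t1 q2 t' q' l1 l2 ht _ _ _ ih1 ih2 => exact ⟨by omega, ih2.2⟩

theorem Pop.none_end (h : Pop Δ T z t q none e r l) : e = T := by
  have key : ∀ {t : ℕ} {q : Fin w} {g : Option (Fin w)} {e : ℕ} {r : Fin w} {l : List (ℕ × ℕ)},
      Pop Δ T z t q g e r l → g = none → e = T := by
    intro t q g e r l h
    induction h with
    | fin q g => exact fun _ => rfl
    | pop t q a q' ht _ => exact fun h => absurd h (Option.some_ne_none a)
    | bot t q q1 t' q' l ht _ _ ih => exact ih
    | next t q g q1 t' q' l ht _ _ ih => exact ih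
    | push t q g q1 a t1 q2 t' q' l1 l2 ht _ _ _ ih1 ih2 => exact ih2
  exact key h rfl

theorem Pop.mem (h : Pop Δ T z t q g e r l) (hlt : t < e) : (t, e) ∈ l := by
  induction h with
  | fin q g => exact absurd hlt (lt_irrefl _)
  | pop t q a q' ht _ => exact absurd hlt (lt_irrefl _)
  | bot t q q1 t' q' l ht _ _ ih => exact ih hlt
  | next t q g q1 t' q' l ht _ _ ih => exact List.mem_cons_self
  | push t q g q1 a t1 q2 t' q' l1 l2 ht _ _ _ ih1 ih2 => exact List.mem_cons_self

theorem Pop.within (h : Pop Δ T z t q g e r l) : ∀ x ∈ l, t ≤ x.1 ∧ x.1 ≤ x.2 ∧ x.2 ≤ e := by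
  induction h with
  | fin q g => exact fun x hx => absurd hx List.not_mem_nil
  | pop t q a q' ht _ => exact fun x hx => absurd hx List.not_mem_nil
  | bot t q q1 t' q' l ht _ _ ih => exact ih
  | next t q g q1 t' q' l ht _ h1 ih =>
    intro x hx
    have hb := h1.bounds
    rcases List.mem_cons.1 hx with rfl | hx
    · exact ⟨le_rfl, by show t ≤ t'; omega, le_rfl⟩
    · have := ih x hx
      exact ⟨by omega, this.2.1, this.2.2⟩
  | push t q g q1 a t1 q2 t' q' l1 l2 ht _ h1 h2 ih1 ih2 =>
    intro x hx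
    have hb1 := h1.bounds
    have hb2 := h2.bounds
    rcases List.mem_cons.1 hx with rfl | hx
    · exact ⟨le_rfl, by show t ≤ t'; omega, le_rfl⟩
    · rcases List.mem_append.1 hx with hx | hx
      · have := ih1 x hx
        exact ⟨this.1, this.2.1, by omega⟩
      · have := ih2 x hx
        exact ⟨by omega, this.2.1, this.2.2⟩

theorem Pop.noncross (h : Pop Δ T z t q g e r l) :
    ∀ x ∈ l, ∀ y ∈ l, ¬ (x.1 < y.1 ∧ y.1 < x.2 ∧ x.2 < y.2) := by
  induction h with
  | fin q g => exact fun x hx => absurd hx List.not_mem_nil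
  | pop t q a q' ht _ => exact fun x hx => absurd hx List.not_mem_nil
  | bot t q q1 t' q' l ht _ _ ih => exact ih
  | next t q g q1 t' q' l ht _ h1 ih =>
    intro x hx y hy
    have hw := h1.within
    rcases List.mem_cons.1 hx with rfl | hx
    · rcases List.mem_cons.1 hy with rfl | hy
      · rintro ⟨h1, -, -⟩
        exact lt_irrefl _ h1
      · rintro ⟨-, -, h3⟩
        have h4 := (hw y hy).2.2
        dsimp only at h3
        omega
    · rcases List.mem_cons.1 hy with rfl | hy
      · rintro ⟨h1, -, -⟩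
        have h4 := (hw x hx).1
        dsimp only at h1
        omega
      · exact ih x hx y hy
  | push t q g q1 a t1 q2 t' q' l1 l2 ht _ h1 h2 ih1 ih2 =>
    intro x hx y hy
    have hw1 := h1.within
    have hw2 := h2.within
    have hb1 := h1.bounds
    have hb2 := h2.bounds
    have hw : ∀ x ∈ l1 ++ l2, t ≤ x.1 ∧ x.2 ≤ t' := by
      intro x hx
      rcases List.mem_append.1 hx with hx | hx
      · have := hw1 x hx
        omega
      · have := hw2 x hx
        omega
    rcases List.mem_cons.1 hx with rfl | hx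
    · rcases List.mem_cons.1 hy with rfl | hy
      · rintro ⟨h1, -, -⟩
        exact lt_irrefl _ h1
      · rintro ⟨-, -, h3⟩
        have h4 := (hw y hy).2
        dsimp only at h3
        omega
    · rcases List.mem_cons.1 hy with rfl | hy
      · rintro ⟨h1, -, -⟩
        have h4 := (hw x hx).1
        dsimp only at h1
        omega
      · rcases List.mem_append.1 hx with hx | hx
        · rcases List.mem_append.1 hy with hy | hy
          · exact ih1 x hx y hy
          · rintro ⟨-, h3, -⟩
            have h4 := hw1 x hx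
            have h5 := hw2 y hy
            omega
        · rcases List.mem_append.1 hy with hy | hy
          · rintro ⟨h3, -, -⟩
            have h4 := hw2 x hx
            have h5 := hw1 y hy
            omega
          · exact ih2 x hx y hy

theorem Pop.congr (hz : ∀ s, t ≤ s → s ≤ e → s < T → z s = z' s) (h : Pop Δ T z t q g e r l) :
    Pop Δ T z' t q g e r l := by
  induction h with
  | fin q g => exact .fin q g
  | pop t q a q' ht hm =>
    rw [hz t le_rfl le_rfl ht] at hm
    exact .pop t q a q' ht hm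
  | bot t q q1 t' q' l ht hm h1 ih =>
    rw [hz t le_rfl h1.bounds.1 ht] at hm
    exact .bot t q q1 t' q' l ht hm (ih hz)
  | next t q g q1 t' q' l ht hm h1 ih =>
    have hb := h1.bounds
    rw [hz t le_rfl (by omega) ht] at hm
    exact .next t q g q1 t' q' l ht hm (ih fun s h2 h3 h4 => hz s (by omega) h3 h4)
  | push t q g q1 a t1 q2 t' q' l1 l2 ht hm h1 h2 ih1 ih2 =>
    have hb1 := h1.bounds
    have hb2 := h2.bounds
    rw [hz t le_rfl (by omega) ht] at hm
    exact .push t q g q1 a t1 q2 t' q' l1 l2 ht hm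
      (ih1 fun s h3 h4 h5 => hz s h3 (by omega) h5)
      (ih2 fun s h3 h4 h5 => hz s (by omega) h4 h5)

theorem Pop.det (hΔ : Δ.Det) (h : Pop Δ T z t q g e r l) (h' : Pop Δ T z t q g e' r' l') :
    e = e' ∧ r = r' ∧ l = l' := by
  induction h generalizing e' r' l' with
  | fin q g =>
    cases h' with
    | fin => exact ⟨rfl, rfl, rfl⟩
    | pop _ _ _ _ ht => exact absurd ht (lt_irrefl _)
    | bot _ _ _ _ _ _ ht => exact absurd ht (lt_irrefl _)
    | next _ _ _ _ _ _ _ ht => exact absurd ht (lt_irrefl _)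
    | push _ _ _ _ _ _ _ _ _ _ _ ht => exact absurd ht (lt_irrefl _)
  | pop t q a q' ht hm =>
    cases h' with
    | fin => exact absurd ht (lt_irrefl _)
    | pop _ _ _ _ _ hm' =>
      have h1 := hΔ _ _ _ _ _ _ hm hm'
      injection h1 with h2
      exact ⟨rfl, h2, rfl⟩
    | next _ _ _ _ _ _ _ _ hm' =>
      have h1 := hΔ _ _ _ _ _ _ hm hm'
      exact absurd h1 (by simp)
    | push _ _ _ _ _ _ _ _ _ _ _ _ hm' =>
      have h1 := hΔ _ _ _ _ _ _ hm hm'
      exact absurd h1 (by simp)
  | bot t q q1 t' q' l ht hm h1 ih =>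
    cases h' with
    | fin => exact absurd ht (lt_irrefl _)
    | bot _ _ q1' _ _ _ _ hm' h1' =>
      have h2 := hΔ _ _ _ _ _ _ hm hm'
      injection h2 with h3
      subst h3
      exact ih h1'
    | next _ _ _ _ _ _ _ _ hm' =>
      have h1 := hΔ _ _ _ _ _ _ hm hm'
      exact absurd h1 (by simp)
    | push _ _ _ _ _ _ _ _ _ _ _ _ hm' =>
      have h1 := hΔ _ _ _ _ _ _ hm hm'
      exact absurd h1 (by simp)
  | next t q g q1 t' q' l ht hm h1 ih =>
    cases h' with
    | fin => exact absurd ht (lt_irrefl _)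
    | pop _ _ _ _ _ hm' =>
      have h1 := hΔ _ _ _ _ _ _ hm hm'
      exact absurd h1 (by simp)
    | bot _ _ _ _ _ _ _ hm' =>
      have h1 := hΔ _ _ _ _ _ _ hm hm'
      exact absurd h1 (by simp)
    | next _ _ _ q1' _ _ _ _ hm' h1' =>
      have h2 := hΔ _ _ _ _ _ _ hm hm'
      injection h2 with h3
      subst h3
      obtain ⟨h4, h5, h6⟩ := ih h1'
      subst h4
      subst h5
      subst h6
      exact ⟨rfl, rfl, rfl⟩
    | push _ _ _ _ _ _ _ _ _ _ _ _ hm' =>
      have h1 := hΔ _ _ _ _ _ _ hm hm'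
      exact absurd h1 (by simp)
  | push t q g q1 a t1 q2 t' q' l1 l2 ht hm h1 h2 ih1 ih2 =>
    cases h' with
    | fin => exact absurd ht (lt_irrefl _)
    | pop _ _ _ _ _ hm' =>
      have h1 := hΔ _ _ _ _ _ _ hm hm'
      exact absurd h1 (by simp)
    | bot _ _ _ _ _ _ _ hm' =>
      have h1 := hΔ _ _ _ _ _ _ hm hm'
      exact absurd h1 (by simp)
    | next _ _ _ _ _ _ _ _ hm' =>
      have h1 := hΔ _ _ _ _ _ _ hm hm'
      exact absurd h1 (by simp)
    | push _ _ _ q1' a' t1' q2' _ _ l1' l2' _ hm' h1' h2' =>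
      have h3 := hΔ _ _ _ _ _ _ hm hm'
      injection h3 with h4 h5
      subst h4
      subst h5
      obtain ⟨h6, h7, h8⟩ := ih1 h1'
      subst h6
      subst h7
      subst h8
      obtain ⟨h9, h10, h11⟩ := ih2 h2'
      subst h9
      subst h10
      subst h11
      exact ⟨rfl, rfl, rfl⟩

end T1

end Pool.Agent.ST
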