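import Mathlib
import Pool.Agent.Lib.MP_b573ec_lc_ST.Core
import Pool.Agent.Lib.MP_b573ec_lc_ST.Deriv

/-!
# Mixing of skeletons
-/

namespace Pool.Agent.ST

section T5
variable {w : ℕ} {Δ : Rel w} {T : ℕ} {ph : ℕ → ℕ} {z z' : ℕ → Bool}

/-- the phases of the time and of the removal do not change in a chain step -/
theorem T5_cs_ph {ν ν' : Nd w} (h : Cs Δ T ph z ν ν') :
    ph ν'.t = ph ν.t ∧ ph ν'.e = ph ν.e := by
  cases h with
  | bot => exact ⟨rfl, rfl⟩
  | next _ _ _ _ _ _ _ _ hp => exact ⟨hp, rfl⟩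
  | left _ _ _ _ _ _ _ _ _ _ _ _ _ hp => exact ⟨hp, rfl⟩
  | right _ _ _ _ _ _ _ _ _ _ _ _ _ hp => exact ⟨rfl, hp⟩

/-- the phases of the time and of the removal do not change in a chain -/
theorem T5_chain_ph {ν ν' : Nd w} (h : Relation.ReflTransGen (Cs Δ T ph z) ν ν') :
    ph ν'.t = ph ν.t ∧ ph ν'.e = ph ν.e := by
  induction h with
  | refl => exact ⟨rfl, rfl⟩
  | tail _ h2 ih =>
    have h3 := T5_cs_ph h2
    exact ⟨h3.1.trans ih.1, h3.2.trans ih.2⟩

/-- a chain step depends only on the bits of the two phases -/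
theorem T5_cs_congr (hph : Monotone ph) {ν ν' : Nd w}
    (hz : ∀ s < T, (ph s = ph ν.t ∨ ph s = ph ν.e) → z s = z' s)
    (h : Cs Δ T ph z ν ν') : Cs Δ T ph z' ν ν' := by
  cases h with
  | bot t q q1 e r ht hm =>
    refine Cs.bot t q q1 e r ht ?_
    rw [← hz t ht (Or.inl rfl)]
    exact hm
  | next t q g q1 e r ht hm hp =>
    refine Cs.next t q g q1 e r ht ?_ hp
    rw [← hz t ht (Or.inl rfl)]
    exact hm
  | left t q g q1 a t1 q2 e r l ht hm hpop hp =>
    refine Cs.left t q g q1 a t1 q2 e r l ht ?_ ?_ hp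
    · rw [← hz t ht (Or.inl rfl)]
      exact hm
    · refine Pop.congr (fun s h1 h2 h3 => hz s h3 (Or.inl ?_)) hpop
      have h4 := hph h1
      have h5 := hph h2
      show ph s = ph t
      omega
  | right t q g q1 a t1 q2 e r l ht hm hpop hp =>
    refine Cs.right t q g q1 a t1 q2 e r l ht ?_ ?_ hp
    · rw [← hz t ht (Or.inl rfl)]
      exact hm
    · refine Pop.congr (fun s h1 h2 h3 => hz s h3 (Or.inr ?_)) hpop
      have h4 := hph h1
      have h5 := hph h2
      show ph s = ph e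
      omega

/-- a chain depends only on the bits of the two phases -/
theorem T5_chain_congr (hph : Monotone ph) {ν ν' : Nd w}
    (hz : ∀ s < T, (ph s = ph ν.t ∨ ph s = ph ν.e) → z s = z' s)
    (h : Relation.ReflTransGen (Cs Δ T ph z) ν ν') :
    Relation.ReflTransGen (Cs Δ T ph z') ν ν' := by
  induction h with
  | refl => exact Relation.ReflTransGen.refl
  | tail h1 h2 ih =>
    have h3 := T5_chain_ph h1
    refine Relation.ReflTransGen.tail ih (T5_cs_congr hph ?_ h2)
    intro s hs h4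
    rw [h3.1, h3.2] at h4
    exact hz s hs h4

/-- the chain of the mixed stream -/
theorem T5_chain_mix (hph : Monotone ph) (lb : ℕ → Lab)
    (hz : ∀ t < T, lb (ph t) = .c → z t = z' t) {ν ν' : Nd w}
    (hok : (lb (ph ν'.t)).Ok (lb (ph ν'.e)))
    (h : Relation.ReflTransGen (Cs Δ T ph z) ν ν')
    (h' : Relation.ReflTransGen (Cs Δ T ph z') ν ν') :
    Relation.ReflTransGen (Cs Δ T ph (mixz lb ph z z')) ν ν' := by
  have h1 := T5_chain_ph h
  rw [h1.1, h1.2] at hok
  by_cases hb : lb (ph ν.t) = .b ∨ lb (ph ν.e) = .b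
  · refine T5_chain_congr hph ?_ h'
    intro s hs h2
    have h3 : lb (ph s) ≠ .a := by
      intro h4
      rcases hb with hb | hb <;> rcases h2 with h2 | h2
      · rw [← h2, h4] at hb
        exact absurd hb (by decide)
      · rw [← h2, hb, h4] at hok
        exact hok.2 ⟨rfl, rfl⟩
      · rw [← h2, hb, h4] at hok
        exact hok.1 ⟨rfl, rfl⟩
      · rw [← h2, h4] at hb
        exact absurd hb (by decide)
    unfold mixz
    cases h5 : lb (ph s) with
    | a => exact absurd h5 h3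
    | b => simp
    | c => simp [hz s hs h5]
  · push Not at hb
    refine T5_chain_congr hph ?_ h
    intro s hs h2
    have h3 : lb (ph s) ≠ .b := by
      rcases h2 with h2 | h2
      · rw [h2]
        exact hb.1
      · rw [h2]
        exact hb.2
    unfold mixz
    rw [if_neg h3]

/-- the move of the mixed stream -/
theorem T5_move_mix (lb : ℕ → Lab) {t : ℕ} {q : Fin w} {g : Option (Fin w)} {mv : Move w}
    (h : Δ t q g (z t) mv) (h' : Δ t q g (z' t) mv) : Δ t q g (mixz lb ph z z' t) mv := by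
  unfold mixz
  split_ifs
  · exact h'
  · exact h

end T5

theorem Dv.mix {w : ℕ} {Δ : Rel w} {T : ℕ} {ph : ℕ → ℕ} (hph : Monotone ph) (lb : ℕ → Lab)
    {z z' : ℕ → Bool} (hz : ∀ t < T, lb (ph t) = .c → z t = z' t) {ν : Nd w} {s : Sk w}
    (hs : s.Ok lb ph) (h : Dv Δ T ph z ν s) (h' : Dv Δ T ph z' ν s) :
    Dv Δ T ph (mixz lb ph z z') ν s := by
  induction h with
  | int t q g e r l hp hpop =>
    cases h' with
    | int _ _ _ _ _ l' _ hpop' =>
      by_cases hb : lb (ph t) = .b
      · refine Dv.int t q g e r l' hp (Pop.congr (fun s h1 h2 h3 => ?_) hpop')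
        have h4 := hph h1
        have h5 := hph h2
        have h6 : ph s = ph t := by omega
        unfold mixz
        rw [h6, if_pos hb]
      · refine Dv.int t q g e r l hp (Pop.congr (fun s h1 h2 h3 => ?_) hpop)
        have h4 := hph h1
        have h5 := hph h2
        have h6 : ph s = ph t := by omega
        unfold mixz
        rw [h6, if_neg hb]
  | nxt ν t q g q1 e r s hlt hch ht hm hp1 hp2 hd ih =>
    cases h' with
    | nxt _ _ _ _ _ _ _ _ _ hch' _ hm' _ _ hd' =>
      exact Dv.nxt ν t q g q1 e r s hlt (T5_chain_mix hph lb hz hs.1 hch hch') ht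
        (T5_move_mix lb hm hm') hp1 hp2 (ih hs.2 hd')
  | br ν t q g q1 a t1 q2 e r s s' hlt hch ht hm hp1 hp2 hd hd2 ih ih2 =>
    cases h' with
    | br _ _ _ _ _ _ _ _ _ _ _ _ _ hch' _ hm' _ _ hd' hd2' =>
      exact Dv.br ν t q g q1 a t1 q2 e r s s' hlt (T5_chain_mix hph lb hz hs.1 hch hch') ht
        (T5_move_mix lb hm hm') hp1 hp2 (ih hs.2.1 hd') (ih2 hs.2.2 hd2')

end Pool.Agent.ST
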