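import Mathlib
import Pool.Agent.Lib.MP_b573ec_lc_ST.Core
import Pool.Agent.Lib.MP_b573ec_lc_ST.Deriv

/-!
# Skeletons: soundness, existence, size
-/

namespace Pool.Agent.ST

section T3
variable {w : ℕ} {Δ : Rel w} {T : ℕ} {ph : ℕ → ℕ} {z : ℕ → Bool}

/-- the phase of the time does not change along a chain -/
theorem T3_cs_inv {ν ν' : Nd w} (h : Cs Δ T ph z ν ν') :
    ph ν'.t = ph ν.t ∧ ph ν'.e = ph ν.e := by
  cases h with
  | bot t q q1 e r h1 h2 => exact ⟨rfl, rfl⟩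
  | next t q g q1 e r h1 h2 h3 => exact ⟨h3, rfl⟩
  | left t q g q1 a t1 q2 e r l h1 h2 h3 h4 => exact ⟨h4, rfl⟩
  | right t q g q1 a t1 q2 e r l h1 h2 h3 h4 => exact ⟨rfl, h4⟩

/-- the phases do not change along a chain -/
theorem T3_chain_inv {ν ν' : Nd w} (h : Relation.ReflTransGen (Cs Δ T ph z) ν ν') :
    ph ν'.t = ph ν.t ∧ ph ν'.e = ph ν.e := by
  induction h with
  | refl => exact ⟨rfl, rfl⟩
  | tail _ hb ih =>
    have := T3_cs_inv hb
    exact ⟨this.1.trans ih.1, this.2.trans ih.2⟩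

/-- a derivation from the end of a chain step gives one from its beginning -/
theorem T3_cs_pop {ν ν' : Nd w} (h : Cs Δ T ph z ν ν')
    (hp : ∃ l, Pop Δ T z ν'.t ν'.q ν'.g ν'.e ν'.r l) :
    ∃ l, Pop Δ T z ν.t ν.q ν.g ν.e ν.r l := by
  obtain ⟨l', hp⟩ := hp
  cases h with
  | bot t q q1 e r h1 h2 => exact ⟨_, Pop.bot _ _ _ _ _ _ h1 h2 hp⟩
  | next t q g q1 e r h1 h2 h3 => exact ⟨_, Pop.next _ _ _ _ _ _ _ h1 h2 hp⟩
  | left t q g q1 a t1 q2 e r l h1 h2 h3 h4 =>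
    exact ⟨_, Pop.push _ _ _ _ _ _ _ _ _ _ _ h1 h2 h3 hp⟩
  | right t q g q1 a t1 q2 e r l h1 h2 h3 h4 =>
    exact ⟨_, Pop.push _ _ _ _ _ _ _ _ _ _ _ h1 h2 hp h3⟩

/-- a derivation from the end of a chain gives one from its beginning -/
theorem T3_chain_pop {ν ν' : Nd w} (h : Relation.ReflTransGen (Cs Δ T ph z) ν ν')
    (hp : ∃ l, Pop Δ T z ν'.t ν'.q ν'.g ν'.e ν'.r l) :
    ∃ l, Pop Δ T z ν.t ν.q ν.g ν.e ν.r l := by
  induction h with
  | refl => exact hp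
  | tail _ hb ih => exact ih (T3_cs_pop hb hp)

theorem Dv.sound {ν : Nd w} {s : Sk w} (h : Dv Δ T ph z ν s) :
    ∃ l, Pop Δ T z ν.t ν.q ν.g ν.e ν.r l := by
  induction h with
  | int t q g e r l h1 h2 => exact ⟨l, h2⟩
  | nxt ν t q g q1 e r s h1 h2 h3 h4 h5 h6 h7 ih =>
    obtain ⟨l, hl⟩ := ih
    exact T3_chain_pop h2 ⟨_, Pop.next _ _ _ _ _ _ _ h3 h4 hl⟩
  | br ν t q g q1 a t1 q2 e r s s' h1 h2 h3 h4 h5 h6 h7 h8 ih1 ih2 =>
    obtain ⟨l1, hl1⟩ := ih1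
    obtain ⟨l2, hl2⟩ := ih2
    exact T3_chain_pop h2 ⟨_, Pop.push _ _ _ _ _ _ _ _ _ _ _ h3 h4 hl1 hl2⟩

/-- a chain step may be added in front of a skeleton -/
theorem T3_cons {ν ν' : Nd w} {s : Sk w} (hc : Cs Δ T ph z ν ν') (hlt : ph ν.t < ph ν.e)
    (h : Dv Δ T ph z ν' s) : Dv Δ T ph z ν s := by
  have hinv := T3_cs_inv hc
  cases h with
  | int t q g e r l h1 h2 =>
    exfalso
    simp only at hinv
    omega
  | nxt _ t q g q1 e r s h1 h2 h3 h4 h5 h6 h7 =>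
    exact Dv.nxt ν t q g q1 e r s hlt (Relation.ReflTransGen.head hc h2) h3 h4 h5 h6 h7
  | br _ t q g q1 a t1 q2 e r s s' h1 h2 h3 h4 h5 h6 h7 h8 =>
    exact Dv.br ν t q g q1 a t1 q2 e r s s' hlt (Relation.ReflTransGen.head hc h2) h3 h4 h5 h6
      h7 h8

theorem Pop.exists_dv (hph : Monotone ph) (lb : ℕ → Lab) {t e : ℕ} {q r : Fin w}
    {g : Option (Fin w)} {l : List (ℕ × ℕ)} (h : Pop Δ T z t q g e r l)
    (hl : ∀ x ∈ l, (lb (ph x.1)).Ok (lb (ph x.2))) :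
    ∃ s, Dv Δ T ph z ⟨t, q, g, e, r⟩ s ∧ s.Ok lb ph := by
  induction h with
  | fin q g => exact ⟨.int, Dv.int _ _ _ _ _ _ rfl (Pop.fin q g), trivial⟩
  | pop t q a q' h1 h2 => exact ⟨.int, Dv.int _ _ _ _ _ _ rfl (Pop.pop t q a q' h1 h2), trivial⟩
  | bot t q q1 t' q' l h1 h2 h3 ih =>
    by_cases he : ph t = ph t'
    · exact ⟨.int, Dv.int _ _ _ _ _ _ he (Pop.bot _ _ _ _ _ _ h1 h2 h3), trivial⟩
    · have hlt : ph t < ph t' := lt_of_le_of_ne (hph h3.bounds.1) he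
      obtain ⟨s, hs, hok⟩ := ih hl
      exact ⟨s, T3_cons (Cs.bot t q q1 t' q' h1 h2) hlt hs, hok⟩
  | next t q g q1 t' q' l h1 h2 h3 ih =>
    by_cases he : ph t = ph t'
    · exact ⟨.int, Dv.int _ _ _ _ _ _ he (Pop.next _ _ _ _ _ _ _ h1 h2 h3), trivial⟩
    · have hb := h3.bounds.1
      have hlt : ph t < ph t' := lt_of_le_of_ne (hph (by omega)) he
      obtain ⟨s, hs, hok⟩ := ih (fun x hx => hl x (List.mem_cons_of_mem _ hx))
      by_cases h1' : ph (t + 1) = ph t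
      · exact ⟨s, T3_cons (Cs.next t q g q1 t' q' h1 h2 h1') hlt hs, hok⟩
      · have hlt' : ph t < ph (t + 1) := lt_of_le_of_ne (hph (Nat.le_succ t)) (Ne.symm h1')
        exact ⟨.nxt ⟨t, q, g, t', q'⟩ q1 s,
          Dv.nxt _ t q g q1 t' q' s hlt Relation.ReflTransGen.refl h1 h2 hlt' (hph hb) hs,
          hl (t, t') List.mem_cons_self, hok⟩
  | push t q g q1 a t1 q2 t' q' l1 l2 h1 h2 h3 h4 ih1 ih2 =>
    by_cases he : ph t = ph t'
    · exact ⟨.int, Dv.int _ _ _ _ _ _ he (Pop.push _ _ _ _ _ _ _ _ _ _ _ h1 h2 h3 h4), trivial⟩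
    · have hb1 := h3.bounds.1
      have hb2 := h4.bounds.1
      have hlt : ph t < ph t' := lt_of_le_of_ne (hph (by omega)) he
      by_cases hl1 : ph t1 = ph t
      · obtain ⟨s, hs, hok⟩ := ih2 (fun x hx => hl x (List.mem_cons_of_mem _
          (List.mem_append_right _ hx)))
        exact ⟨s, T3_cons (Cs.left t q g q1 a t1 q2 t' q' l1 h1 h2 h3 hl1) hlt hs, hok⟩
      · by_cases hl2 : ph t1 = ph t'
        · obtain ⟨s, hs, hok⟩ := ih1 (fun x hx => hl x (List.mem_cons_of_mem _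
            (List.mem_append_left _ hx)))
          exact ⟨s, T3_cons (Cs.right t q g q1 a t1 q2 t' q' l2 h1 h2 h4 hl2) hlt hs, hok⟩
        · obtain ⟨s1, hs1, hok1⟩ := ih1 (fun x hx => hl x (List.mem_cons_of_mem _
            (List.mem_append_left _ hx)))
          obtain ⟨s2, hs2, hok2⟩ := ih2 (fun x hx => hl x (List.mem_cons_of_mem _
            (List.mem_append_right _ hx)))
          exact ⟨.br ⟨t, q, g, t', q'⟩ q1 a t1 q2 s1 s2,
            Dv.br _ t q g q1 a t1 q2 t' q' s1 s2 hlt Relation.ReflTransGen.refl h1 h2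
              (lt_of_le_of_ne (hph hb1) (Ne.symm hl1)) (lt_of_le_of_ne (hph hb2) hl2) hs1 hs2,
            hl (t, t') List.mem_cons_self, hok1, hok2⟩

theorem Dv.bdd {ν : Nd w} {s : Sk w} (h : Dv Δ T ph z ν s) : s.Bdd T := by
  induction h with
  | int t q g e r l h1 h2 => trivial
  | nxt ν t q g q1 e r s h1 h2 h3 h4 h5 h6 h7 ih =>
    obtain ⟨l, hl⟩ := h7.sound
    exact ⟨h3.le, hl.bounds.2, ih⟩
  | br ν t q g q1 a t1 q2 e r s s' h1 h2 h3 h4 h5 h6 h7 h8 ih1 ih2 =>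
    obtain ⟨l1, hl1⟩ := h7.sound
    obtain ⟨l2, hl2⟩ := h8.sound
    exact ⟨h3.le, hl2.bounds.2, hl1.bounds.2, ih1, ih2⟩

/-- the exact form of the bound for the size of a skeleton -/
theorem T3_size {ν : Nd w} {s : Sk w} (h : Dv Δ T ph z ν s) :
    (ph ν.t = ph ν.e ∧ s.size = 1) ∨
      (ph ν.t < ph ν.e ∧ s.size + 1 ≤ 3 * (ph ν.e - ph ν.t)) := by
  induction h with
  | int t q g e r l h1 h2 => exact Or.inl ⟨h1, rfl⟩
  | nxt ν t q g q1 e r s h1 h2 h3 h4 h5 h6 h7 ih =>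
    have hinv := T3_chain_inv h2
    simp only [Sk.size] at *
    omega
  | br ν t q g q1 a t1 q2 e r s s' h1 h2 h3 h4 h5 h6 h7 h8 ih1 ih2 =>
    have hinv := T3_chain_inv h2
    simp only [Sk.size] at *
    omega

theorem Dv.size (hph : Monotone ph) {ν : Nd w} {s : Sk w} (h : Dv Δ T ph z ν s) :
    s.size ≤ 3 * (ph ν.e - ph ν.t) + 1 := by
  have := T3_size h
  omega

end T3

end Pool.Agent.ST
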