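import Mathlib
import Pool.Agent.Lib.MP_b573ec_lc_ST.Core
import Pool.Agent.Lib.MP_b573ec_lc_ST.Deriv

/-!
# Computations and derivations
-/

namespace Pool.Agent.ST

open Pool.Agent.LT (Inp)

/-- a derivation from the time `T` is trivial -/
theorem T2_pop_end {w : ℕ} {Δ : Rel w} {T : ℕ} {z : ℕ → Bool} {q : Fin w} {g : Option (Fin w)}
    {e : ℕ} {r : Fin w} {l : List (ℕ × ℕ)} (h : Pop Δ T z T q g e r l) : e = T ∧ r = q := by
  cases h with
  | fin => exact ⟨rfl, rfl⟩
  | pop _ _ _ _ h => exact absurd h (lt_irrefl _)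
  | bot _ _ _ _ _ _ h => exact absurd h (lt_irrefl _)
  | next _ _ _ _ _ _ _ h => exact absurd h (lt_irrefl _)
  | push _ _ _ _ _ _ _ _ _ _ _ h => exact absurd h (lt_irrefl _)

/-- one step of a computation from one move of the transition relation -/
theorem T2_step {n p w : ℕ} (P : NStackProg n p w) (x : Inp n) {t : ℕ} {q : Fin w}
    {s : List (Fin w)} {mv : Move w} (ht : t < p * n)
    (h : P.rel t q s.head? (stream P.forward x t) mv) :
    P.Step x ⟨t, q, s⟩ (Conf.after ⟨t, q, s⟩ mv) := by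
  obtain ⟨h1, h2⟩ := h
  refine ⟨ht, mv, ?_, rfl⟩
  have : stream P.forward x t = x (cell P.forward ⟨t, ht⟩) := by simp [stream, ht]
  rw [this] at h2
  exact h2

theorem T2_run {n p w : ℕ} (P : NStackProg n p w) (x : Inp n) {t : ℕ} {q : Fin w}
    {g : Option (Fin w)} {e : ℕ} {r : Fin w} {l : List (ℕ × ℕ)}
    (h : Pop P.rel (p * n) (stream P.forward x) t q g e r l) :
    ∀ s : List (Fin w), s.head? = g →
      ∃ R : List (Fin w), Relation.ReflTransGen (P.Step x) ⟨t, q, s⟩ ⟨e, r, R⟩ ∧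
        (e < p * n → R = s.tail) := by
  induction h with
  | fin q g =>
    intro s _
    exact ⟨s, .refl, fun h => absurd h (lt_irrefl _)⟩
  | pop t q a q' ht hm =>
    intro s hs
    refine ⟨s.tail, .single ?_, fun _ => rfl⟩
    rw [← hs] at hm
    exact T2_step P x ht hm
  | bot t q q1 t' q' l ht hm hp ih =>
    intro s hs
    have hs' : s = [] := by simpa using hs
    subst hs'
    obtain ⟨R, h1, h2⟩ := ih [] rfl
    exact ⟨R, .head (T2_step P x (s := []) ht hm) h1, h2⟩
  | next t q g q1 t' q' l ht hm hp ih =>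
    intro s hs
    obtain ⟨R, h1, h2⟩ := ih s hs
    rw [← hs] at hm
    exact ⟨R, .head (T2_step P x ht hm) h1, h2⟩
  | push t q g q1 a t1 q2 t' q' l1 l2 ht hm hp1 hp2 ih1 ih2 =>
    intro s hs
    obtain ⟨R1, h1, h2⟩ := ih1 (a :: s) rfl
    rw [← hs] at hm
    have h3 := T2_step P x ht hm
    by_cases h4 : t1 < p * n
    · have h5 := h2 h4
      simp only [List.tail_cons] at h5
      subst h5
      obtain ⟨R, h6, h7⟩ := ih2 R1 hs
      exact ⟨R, .head h3 (h1.trans h6), h7⟩
    · have h5 : t1 = p * n := le_antisymm hp1.bounds.2 (not_lt.mp h4)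
      subst h5
      obtain ⟨h6, h7⟩ := T2_pop_end hp2
      subst h6 h7
      exact ⟨R1, .head h3 h1, fun h => absurd h (lt_irrefl _)⟩

/-- a derivation for the whole stack -/
def T2_Full {w : ℕ} (Δ : Rel w) (T : ℕ) (z : ℕ → Bool) (r : Fin w) :
    List (Fin w) → ℕ → Fin w → Prop
  | [], t, q => ∃ l, Pop Δ T z t q none T r l
  | a :: R, t, q => ∃ e q' l, Pop Δ T z t q (some a) e q' l ∧ T2_Full Δ T z r R e q'

theorem T2_full_end {w : ℕ} (Δ : Rel w) (T : ℕ) (z : ℕ → Bool) (r : Fin w) (s : List (Fin w)) :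
    T2_Full Δ T z r s T r := by
  induction s with
  | nil => exact ⟨[], .fin _ _⟩
  | cons a R ih => exact ⟨T, r, [], .fin _ _, ih⟩

theorem T2_full_step {n p w : ℕ} (P : NStackProg n p w) (x : Inp n) (r : Fin w) {c c' : Conf w}
    (h : P.Step x c c')
    (hf : T2_Full P.rel (p * n) (stream P.forward x) r c'.stack c'.pos c'.state) :
    T2_Full P.rel (p * n) (stream P.forward x) r c.stack c.pos c.state := by
  obtain ⟨t, q, s⟩ := c
  obtain ⟨ht, mv, hm, rfl⟩ := h
  simp only at ht hm ⊢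
  have hx : stream P.forward x t = x (cell P.forward ⟨t, ht⟩) := by simp [stream, ht]
  have hrel : P.rel t q s.head? (stream P.forward x t) mv := ⟨ht, by rw [hx]; exact hm⟩
  cases mv with
  | push q1 a =>
    obtain ⟨t1, q2, l1, hp1, hf'⟩ := hf
    cases s with
    | nil =>
      obtain ⟨l2, hp2⟩ := hf'
      exact ⟨_, .push t q none q1 a t1 q2 _ r l1 l2 ht hrel hp1 hp2⟩
    | cons b R =>
      obtain ⟨e, q', l2, hp2, hf''⟩ := hf'
      exact ⟨e, q', _, .push t q (some b) q1 a t1 q2 e q' l1 l2 ht hrel hp1 hp2, hf''⟩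
  | pop q' =>
    cases s with
    | nil =>
      obtain ⟨l, hp⟩ := hf
      exact ⟨l, .bot t q q' _ r l ht hrel hp⟩
    | cons b R =>
      exact ⟨t, q', [], .pop t q b q' ht hrel, hf⟩
  | next q1 =>
    cases s with
    | nil =>
      obtain ⟨l, hp⟩ := hf
      exact ⟨_, .next t q none q1 _ r l ht hrel hp⟩
    | cons b R =>
      obtain ⟨e, q', l, hp, hf'⟩ := hf
      exact ⟨e, q', _, .next t q (some b) q1 e q' l ht hrel hp, hf'⟩

theorem accepts_iff {n p w : ℕ} (P : NStackProg n p w) (x : Inp n) :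
    P.Accepts x ↔ ∃ q r l, P.start q ∧ P.acc r ∧
      Pop P.rel (p * n) (stream P.forward x) 0 q none (p * n) r l := by
  constructor
  · rintro ⟨q, c, hq, hc, hpos, hacc⟩
    have key : T2_Full P.rel (p * n) (stream P.forward x) c.state
        (⟨0, q, []⟩ : Conf w).stack (⟨0, q, []⟩ : Conf w).pos (⟨0, q, []⟩ : Conf w).state := by
      refine Relation.ReflTransGen.head_induction_on (motive := fun c' _ =>
        T2_Full P.rel (p * n) (stream P.forward x) c.state c'.stack c'.pos c'.state) hc ?_ ?_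
      · rw [hpos]
        exact T2_full_end _ _ _ _ _
      · intro a b hab _ ih
        exact T2_full_step P x c.state hab ih
    obtain ⟨l, hl⟩ := key
    exact ⟨q, c.state, l, hq, hacc, hl⟩
  · rintro ⟨q, r, l, hq, hr, hp⟩
    obtain ⟨R, h1, _⟩ := T2_run P x hp [] rfl
    exact ⟨q, _, hq, h1, rfl, hr⟩

theorem T2_conf_succ {n p w : ℕ} (P : StackProg n p w) (x : Inp n) (k : ℕ) :
    P.conf x (k + 1) = P.step x (P.conf x k) := by
  simp only [StackProg.conf, Function.iterate_succ_apply']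

theorem T2_step_toN {n p w : ℕ} (P : StackProg n p w) (b : Bool) (x : Inp n) {c c' : Conf w} :
    (P.toN b).Step x c c' ↔ c.pos < p * n ∧ c' = P.step x c := by
  constructor
  · rintro ⟨h, mv, hm, rfl⟩
    refine ⟨h, ?_⟩
    have hm' : mv = P.move (⟨c.pos, h⟩ : Fin (p * n)).divNat (cell P.forward ⟨c.pos, h⟩) c.state
      c.stack.head? (x (cell P.forward ⟨c.pos, h⟩)) := hm
    rw [hm', StackProg.step, dif_pos h]
  · rintro ⟨h, rfl⟩
    refine ⟨h, _, rfl, ?_⟩
    rw [StackProg.step, dif_pos h]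
    rfl

theorem toN_accepts {n p w : ℕ} (P : StackProg n p w) (x : Inp n) (b : Bool) :
    (P.toN b).Accepts x ↔ P.Outputs x b := by
  constructor
  · rintro ⟨q, c, hq, hc, hpos, hacc⟩
    have hq' : q = P.start := hq
    subst hq'
    have key : ∃ k, P.conf x k = c := by
      clear hpos hacc
      induction hc with
      | refl => exact ⟨0, rfl⟩
      | tail _ h ih =>
        obtain ⟨k, hk⟩ := ih
        rw [T2_step_toN] at h
        exact ⟨k + 1, by rw [T2_conf_succ, hk, h.2]⟩
    obtain ⟨k, rfl⟩ := key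
    exact ⟨k, hpos, hacc⟩
  · rintro ⟨k, hpos, hacc⟩
    refine ⟨P.start, P.conf x k, rfl, ?_, hpos, hacc⟩
    clear hpos hacc
    induction k with
    | zero => exact .refl
    | succ k ih =>
      rw [T2_conf_succ]
      by_cases h : (P.conf x k).pos < p * n
      · exact ih.tail ((T2_step_toN P b x).2 ⟨h, rfl⟩)
      · have : P.step x (P.conf x k) = P.conf x k := by rw [StackProg.step, dif_neg h]
        rw [this]
        exact ih

theorem T2_conf_add {n p w : ℕ} (P : StackProg n p w) (x : Inp n) {k : ℕ}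
    (h : (P.conf x k).pos = p * n) (m : ℕ) : P.conf x (k + m) = P.conf x k := by
  induction m with
  | zero => rfl
  | succ m ih =>
    rw [← Nat.add_assoc, T2_conf_succ, ih, StackProg.step, dif_neg (by rw [h]; exact lt_irrefl _)]

theorem outputs_unique {n p w : ℕ} (P : StackProg n p w) (x : Inp n) {b b' : Bool}
    (h : P.Outputs x b) (h' : P.Outputs x b') : b = b' := by
  obtain ⟨k, hk, rfl⟩ := h
  obtain ⟨k', hk', rfl⟩ := h'
  rcases le_total k k' with hle | hle
  · obtain ⟨m, rfl⟩ := Nat.exists_eq_add_of_le hle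
    rw [T2_conf_add P x hk]
  · obtain ⟨m, rfl⟩ := Nat.exists_eq_add_of_le hle
    rw [T2_conf_add P x hk']

theorem toN_det {n p w : ℕ} (P : StackProg n p w) (b : Bool) : (P.toN b).Det :=
  ⟨fun _ _ _ _ _ _ _ h h' => Eq.trans h (Eq.symm h'), fun _ _ h h' => Eq.trans h (Eq.symm h')⟩

end Pool.Agent.ST
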