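import Mathlib
import Pool.Agent.Lib.MP_b573ec_lc_ST.Core

/-!
# SPASS T6: the number of skeletons
-/

namespace Pool.Agent.ST

/-- times between `0` and `T` -/
def T6_f (T t : ℕ) : Fin (T + 1) := ⟨t % (T + 1), Nat.mod_lt _ (Nat.succ_pos T)⟩

theorem T6_f_inj {T t t' : ℕ} (h : t ≤ T) (h' : t' ≤ T) (e : T6_f T t = T6_f T t') : t = t' := by
  have := congrArg Fin.val e
  simp only [T6_f] at this
  rwa [Nat.mod_eq_of_lt (by omega), Nat.mod_eq_of_lt (by omega)] at this

/-- finite type of nodes with times at most `T` -/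
abbrev T6_N (w T : ℕ) := Fin (T + 1) × Fin w × Option (Fin w) × Fin (T + 1) × Fin w

/-- tokens -/
abbrev T6_Tok (w T : ℕ) :=
  Option ((T6_N w T × Fin w) ⊕ (T6_N w T × Fin w × Fin w × Fin (T + 1) × Fin w))

/-- the token of a node -/
def T6_nd {w : ℕ} (T : ℕ) (ν : Nd w) : T6_N w T := (T6_f T ν.t, ν.q, ν.g, T6_f T ν.e, ν.r)

theorem T6_nd_inj {w T : ℕ} {ν ν' : Nd w} (h1 : ν.t ≤ T) (h2 : ν.e ≤ T) (h1' : ν'.t ≤ T)
    (h2' : ν'.e ≤ T) (e : T6_nd T ν = T6_nd T ν') : ν = ν' := by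
  simp only [T6_nd, Prod.mk.injEq] at e
  obtain ⟨e1, e2, e3, e4, e5⟩ := e
  exact Nd.ext (T6_f_inj h1 h1' e1) e2 e3 (T6_f_inj h2 h2' e4) e5

/-- the list of tokens of a skeleton -/
def T6_enc {w : ℕ} (T : ℕ) : Sk w → List (T6_Tok w T)
  | .int => [none]
  | .nxt ν q s => some (.inl (T6_nd T ν, q)) :: T6_enc T s
  | .br ν q a t1 q2 s s' =>
      some (.inr (T6_nd T ν, q, a, T6_f T t1, q2)) :: (T6_enc T s ++ T6_enc T s')

theorem T6_length {w : ℕ} (T : ℕ) (s : Sk w) : (T6_enc T s).length = s.size := by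
  induction s with
  | int => rfl
  | nxt ν q s ih => simp [T6_enc, Sk.size, ih]
  | br ν q a t1 q2 s s' ih ih' => simp [T6_enc, Sk.size, ih, ih']

theorem T6_enc_inj {w T : ℕ} (s : Sk w) : ∀ (s' : Sk w) (l l' : List (T6_Tok w T)), s.Bdd T →
    s'.Bdd T → T6_enc T s ++ l = T6_enc T s' ++ l' → s = s' ∧ l = l' := by
  induction s with
  | int =>
    intro s' l l' h h' e
    cases s' with
    | int => simpa [T6_enc] using e
    | nxt ν q s => simp [T6_enc] at e
    | br ν q a t1 q2 s s' => simp [T6_enc] at e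
  | nxt ν q s ih =>
    intro s' l l' h h' e
    cases s' with
    | int => simp [T6_enc] at e
    | nxt ν' q' s' =>
      simp only [T6_enc, List.cons_append, List.cons.injEq, Option.some.injEq, Sum.inl.injEq,
        Prod.mk.injEq] at e
      obtain ⟨⟨e1, e2⟩, e3⟩ := e
      obtain ⟨h1, h2, h3⟩ := h
      obtain ⟨h1', h2', h3'⟩ := h'
      obtain ⟨i1, i2⟩ := ih s' l l' h3 h3' e3
      exact ⟨by rw [T6_nd_inj h1 h2 h1' h2' e1, e2, i1], i2⟩
    | br ν' q' a t1 q2 s s' => simp [T6_enc] at e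
  | br ν q a t1 q2 s1 s2 ih1 ih2 =>
    intro s' l l' h h' e
    cases s' with
    | int => simp [T6_enc] at e
    | nxt ν' q' s' => simp [T6_enc] at e
    | br ν' q' a' t1' q2' s1' s2' =>
      simp only [T6_enc, List.cons_append, List.cons.injEq, Option.some.injEq, Sum.inr.injEq,
        Prod.mk.injEq, List.append_assoc] at e
      obtain ⟨⟨e1, e2, e3, e4, e5⟩, e6⟩ := e
      obtain ⟨h1, h2, h3, h4, h5⟩ := h
      obtain ⟨h1', h2', h3', h4', h5'⟩ := h'
      obtain ⟨i1, i2⟩ := ih1 s1' _ _ h4 h4' e6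
      obtain ⟨j1, j2⟩ := ih2 s2' _ _ h5 h5' i2
      exact ⟨by rw [T6_nd_inj h1 h2 h1' h2' e1, e2, e3, T6_f_inj h3 h3' e4, e5, i1, j1], j2⟩

theorem T6_card {w T : ℕ} (hw : 1 ≤ w) :
    Fintype.card (Option (T6_Tok w T)) ≤ ((T + 1) * (w + 1)) ^ 8 := by
  simp only [Fintype.card_option, Fintype.card_sum, Fintype.card_prod, Fintype.card_fin]
  set a := T + 1 with ha
  have ha1 : 1 ≤ a := by omega
  set X := a * (w + 1) with hX
  have hX2 : 2 ≤ X := by
    calc 2 = 1 * 2 := rfl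
      _ ≤ a * (w + 1) := Nat.mul_le_mul ha1 (by omega)
  have haX : a ≤ X := Nat.le_mul_of_pos_right a (by omega)
  have hwX : w ≤ X := by
    calc w ≤ 1 * (w + 1) := by omega
      _ ≤ a * (w + 1) := Nat.mul_le_mul_right _ ha1
  have h1 : a * (w * ((w + 1) * (a * w))) * w ≤ X ^ 5 := by
    have : a * (w * ((w + 1) * (a * w))) * w = (a * (w + 1)) * a * w * w * w := by ring
    rw [this]
    calc (a * (w + 1)) * a * w * w * w ≤ X * X * X * X * X := by gcongr
      _ = X ^ 5 := by ring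
  have h2 : a * (w * ((w + 1) * (a * w))) * (w * (w * (a * w))) ≤ X ^ 6 := by
    have hwX' : a * w ≤ X := Nat.mul_le_mul_left a (by omega)
    have : a * (w * ((w + 1) * (a * w))) * (w * (w * (a * w))) =
        (a * (w + 1)) * (a * w) * (a * w) * w * w * w := by ring
    rw [this]
    calc (a * (w + 1)) * (a * w) * (a * w) * w * w * w ≤ X * X * X * X * X * X := by gcongr
      _ = X ^ 6 := by ring
  have h3 : X ^ 5 ≤ X ^ 6 := Nat.pow_le_pow_right (by omega) (by norm_num)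
  have h4 : 2 ≤ X ^ 6 := by
    calc 2 ≤ X := hX2
      _ = X ^ 1 := by ring
      _ ≤ X ^ 6 := Nat.pow_le_pow_right (by omega) (by norm_num)
  have h5 : 4 * X ^ 6 ≤ X ^ 8 := by
    calc 4 * X ^ 6 = 2 ^ 2 * X ^ 6 := by norm_num
      _ ≤ X ^ 2 * X ^ 6 := Nat.mul_le_mul_right _ (Nat.pow_le_pow_left hX2 2)
      _ = X ^ 8 := by ring
  omega

theorem sk_codes (w T M : ℕ) : ∃ code : Sk w → ℕ,
    (∀ s s', s.size ≤ M → s.Bdd T → s'.size ≤ M → s'.Bdd T → code s = code s' → s = s') ∧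
    ∀ s, s.size ≤ M → s.Bdd T → code s < ((T + 1) * (w + 1)) ^ (8 * M) := by
  classical
  rcases Nat.eq_zero_or_pos w with rfl | hw
  · refine ⟨fun _ => 0, ?_, fun s _ _ => Nat.pow_pos (by positivity)⟩
    intro s s' _ _ _ _ _
    cases s with
    | int =>
      cases s' with
      | int => rfl
      | nxt ν q s => exact q.elim0
      | br ν q a t1 q2 s s' => exact q.elim0
    | nxt ν q s => exact q.elim0
    | br ν q a t1 q2 s s' => exact q.elim0
  · let c : Sk w → (Fin M → Option (T6_Tok w T)) := fun s i => (T6_enc T s)[(i : ℕ)]?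
    refine ⟨fun s => (Fintype.equivFin _ (c s)).val, ?_, ?_⟩
    · intro s s' h1 h2 h1' h2' e
      have e' : c s = c s' := (Fintype.equivFin _).injective (Fin.ext e)
      have : T6_enc T s = T6_enc T s' := by
        apply List.ext_getElem?
        intro i
        by_cases hi : i < M
        · exact congrFun e' ⟨i, hi⟩
        · rw [List.getElem?_eq_none (by rw [T6_length]; omega),
            List.getElem?_eq_none (by rw [T6_length]; omega)]
      exact (T6_enc_inj s s' [] [] h2 h2' (by simpa using this)).1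
    · intro s _ _
      refine lt_of_lt_of_le (Fintype.equivFin _ (c s)).isLt ?_
      rw [Fintype.card_fun, Fintype.card_fin, pow_mul]
      exact Nat.pow_le_pow_left (T6_card hw) M

end Pool.Agent.ST
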