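import Mathlib
import Pool.Agent.Lib.MP_b573ec_lc_ST.Core
import Pool.Agent.Lib.MP_b573ec_lc_ST.Deriv
import Pool.Agent.Lib.MP_b573ec_lc_ST.Mixing

/-!
# The star lemma for skeletons

If several streams have the same skeleton from a node, then a stream which agrees, on the times of
any two phases, with one of them, has this skeleton, too.
-/

namespace Pool.Agent.ST

/-- General mixing lemma: every chain of a derivation reads only the bits of two phases. -/
theorem Dv.star {w : ℕ} {Δ : Rel w} {T : ℕ} {ph : ℕ → ℕ} (hph : Monotone ph) {ι : Type*}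
    (zs : ι → ℕ → Bool) {z : ℕ → Bool}
    (hz : ∀ P Q : ℕ, ∃ i, ∀ s < T, (ph s = P ∨ ph s = Q) → zs i s = z s) (s : Sk w) :
    ∀ ν : Nd w, (∀ i, Dv Δ T ph (zs i) ν s) → Dv Δ T ph z ν s := by
  induction s with
  | int =>
    intro ν h
    obtain ⟨i, hi⟩ := hz (ph ν.t) (ph ν.e)
    have h1 := h i
    cases h1 with
    | int t q g e r l hp hpop =>
      refine Dv.int t q g e r l hp (Pop.congr (fun s h1 h2 h3 => hi s h3 (Or.inl ?_)) hpop)
      have h4 := hph h1
      have h5 := hph h2
      show ph s = ph t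
      omega
  | nxt ν0 q0 s ih =>
    intro ν h
    obtain ⟨i, hi⟩ := hz (ph ν.t) (ph ν.e)
    have h1 := h i
    cases h1 with
    | nxt _ t q g q1 e r s hlt hch ht hm hp1 hp2 hd =>
      have hinv := T5_chain_ph hch
      refine Dv.nxt ν t q g q0 e r s hlt (T5_chain_congr hph hi hch) ht ?_ hp1 hp2 (ih _ ?_)
      · rw [← hi t ht (Or.inl hinv.1)]
        exact hm
      · intro j
        have h2 := h j
        cases h2 with
        | nxt _ _ _ _ _ _ _ _ _ _ _ _ _ _ hd' => exact hd'
  | br ν0 q0 a0 t0 q0' s s' ih ih' =>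
    intro ν h
    obtain ⟨i, hi⟩ := hz (ph ν.t) (ph ν.e)
    have h1 := h i
    cases h1 with
    | br _ t q g q1 a t1 q2 e r s s' hlt hch ht hm hp1 hp2 hd hd2 =>
      have hinv := T5_chain_ph hch
      refine Dv.br ν t q g q0 a0 t0 q0' e r s s' hlt (T5_chain_congr hph hi hch) ht ?_ hp1 hp2
        (ih _ ?_) (ih' _ ?_)
      · rw [← hi t ht (Or.inl hinv.1)]
        exact hm
      · intro j
        have h2 := h j
        cases h2 with
        | br _ _ _ _ _ _ _ _ _ _ _ _ _ _ _ _ _ _ hd' hd2' => exact hd'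
      · intro j
        have h2 := h j
        cases h2 with
        | br _ _ _ _ _ _ _ _ _ _ _ _ _ _ _ _ _ _ hd' hd2' => exact hd2'

end Pool.Agent.ST
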