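import Mathlib
import Pool.Agent.Lib.MP_b573ec_lc_ST.Core

/-!
# Phases of a pair of blocks, streams

For a pair of blocks `i < j` every pass over the input is cut into five pieces: before the first of
the two blocks, the first block, between the blocks, the second block, after the second block.
-/

namespace Pool.Agent.ST

open Pool.Agent.LT (Inp)

/-- the number of boundaries which have been passed -/
def T7_cnt (u1 u2 u3 u4 o : ℕ) : ℕ :=
  (if u1 ≤ o then 1 else 0) + (if u2 ≤ o then 1 else 0) + (if u3 ≤ o then 1 else 0) +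
    (if u4 ≤ o then 1 else 0)

theorem T7_cnt_le (u1 u2 u3 u4 o : ℕ) : T7_cnt u1 u2 u3 u4 o ≤ 4 := by
  unfold T7_cnt
  split_ifs <;> omega

theorem T7_cnt_mono (u1 u2 u3 u4 : ℕ) {o o' : ℕ} (h : o ≤ o') :
    T7_cnt u1 u2 u3 u4 o ≤ T7_cnt u1 u2 u3 u4 o' := by
  unfold T7_cnt
  split_ifs <;> omega

theorem T7_cnt_one {u1 u2 u3 u4 : ℕ} (o : ℕ) (h2 : u2 ≤ u3) (h3 : u3 ≤ u4) :
    T7_cnt u1 u2 u3 u4 o = 1 ∧ u1 ≤ u2 ↔ u1 ≤ o ∧ o < u2 := by
  unfold T7_cnt
  split_ifs <;> omega

theorem T7_cnt_three {u1 u2 u3 u4 : ℕ} (o : ℕ) (h1 : u1 ≤ u2) (h2 : u2 ≤ u3) :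
    T7_cnt u1 u2 u3 u4 o = 3 ∧ u3 ≤ u4 ↔ u3 ≤ o ∧ o < u4 := by
  unfold T7_cnt
  split_ifs <;> omega

/-- the directions of the passes as a function on the natural numbers -/
def T7_fw {p : ℕ} (forward : Fin p → Bool) (k : ℕ) : Bool :=
  if h : k < p then forward ⟨k, h⟩ else true

/-- the pieces of a pass -/
def T7_off (n L b i j : ℕ) (fw : Bool) (o : ℕ) : ℕ :=
  if fw then T7_cnt (L + i * b) (L + (i + 1) * b) (L + j * b) (L + (j + 1) * b) o
  else T7_cnt (n - (L + (j + 1) * b)) (n - (L + j * b)) (n - (L + (i + 1) * b)) (n - (L + i * b)) o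

theorem T7_off_le (n L b i j : ℕ) (fw : Bool) (o : ℕ) : T7_off n L b i j fw o ≤ 4 := by
  unfold T7_off
  split_ifs <;> exact T7_cnt_le _ _ _ _ _

theorem T7_off_mono (n L b i j : ℕ) (fw : Bool) {o o' : ℕ} (h : o ≤ o') :
    T7_off n L b i j fw o ≤ T7_off n L b i j fw o' := by
  unfold T7_off
  split_ifs <;> exact T7_cnt_mono _ _ _ _ h

/-- the phases -/
def T7_ph (n p L b i j : ℕ) (forward : Fin p → Bool) (t : ℕ) : ℕ :=
  if t < p * n then 5 * (t / n) + T7_off n L b i j (T7_fw forward (t / n)) (t % n) else 5 * p

/-- the labels of the phases -/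
def T7_lb {p : ℕ} (forward : Fin p → Bool) (s : ℕ) : Lab :=
  if 5 * p ≤ s then .c
  else if s % 5 = 1 then (if T7_fw forward (s / 5) then .a else .b)
  else if s % 5 = 3 then (if T7_fw forward (s / 5) then .b else .a)
  else .c

theorem T7_div_lt {n p t : ℕ} (h : t < p * n) : t / n < p := Nat.div_lt_of_lt_mul (by
  rwa [Nat.mul_comm])

theorem exists_phases (n p L b m i j : ℕ) (forward : Fin p → Bool) (hij : i < j) (hj : j < m)
    (hn : L + m * b ≤ n) : ∃ (ph : ℕ → ℕ) (lb : ℕ → Lab), Monotone ph ∧ (∀ t, ph t ≤ 5 * p) ∧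
      (∀ (t : ℕ) (h : t < p * n),
        (lb (ph t) = .a ↔ InBlk L b i (cell forward ⟨t, h⟩)) ∧
        (lb (ph t) = .b ↔ InBlk L b j (cell forward ⟨t, h⟩))) ∧
      ∀ t, p * n ≤ t → lb (ph t) = .c := by
  have e1 : (i + 1) * b ≤ j * b := Nat.mul_le_mul_right b hij
  have e2 : (j + 1) * b ≤ m * b := Nat.mul_le_mul_right b hj
  have e3 : i * b ≤ (i + 1) * b := Nat.mul_le_mul_right b (Nat.le_succ i)
  have e4 : j * b ≤ (j + 1) * b := Nat.mul_le_mul_right b (Nat.le_succ j)
  refine ⟨T7_ph n p L b i j forward, T7_lb forward, ?_, ?_, ?_, ?_⟩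
  · intro t t' htt'
    unfold T7_ph
    by_cases h' : t' < p * n
    · have h : t < p * n := lt_of_le_of_lt htt' h'
      rw [if_pos h, if_pos h']
      have h1 : t / n ≤ t' / n := Nat.div_le_div_right htt'
      rcases eq_or_lt_of_le h1 with h2 | h2
      · rw [h2]
        have h3 : t % n ≤ t' % n := by
          have a1 := Nat.div_add_mod t n
          have a2 := Nat.div_add_mod t' n
          rw [h2] at a1
          omega
        have h4 := T7_off_mono n L b i j (T7_fw forward (t' / n)) h3
        omega
      · have h4 := T7_off_le n L b i j (T7_fw forward (t / n)) (t % n)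
        omega
    · rw [if_neg h']
      split_ifs with h
      · have h4 := T7_off_le n L b i j (T7_fw forward (t / n)) (t % n)
        have h5 := T7_div_lt h
        omega
      · exact le_refl _
  · intro t
    unfold T7_ph
    split_ifs with h
    · have h4 := T7_off_le n L b i j (T7_fw forward (t / n)) (t % n)
      have h5 := T7_div_lt h
      omega
    · exact le_refl _
  · intro t h
    have h5 := T7_div_lt h
    have hn0 : 0 < n := by
      rcases Nat.eq_zero_or_pos n with h0 | h0
      · subst h0
        omega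
      · exact h0
    have hmod : t % n < n := Nat.mod_lt t hn0
    have hfw : T7_fw forward (t / n) = forward (⟨t, h⟩ : Fin (p * n)).divNat := by
      unfold T7_fw
      rw [dif_pos h5]
      rfl
    have hph : T7_ph n p L b i j forward t =
        5 * (t / n) + T7_off n L b i j (T7_fw forward (t / n)) (t % n) := by
      unfold T7_ph
      rw [if_pos h]
    have h4 := T7_off_le n L b i j (T7_fw forward (t / n)) (t % n)
    have hd : T7_ph n p L b i j forward t / 5 = t / n := by omega
    have hm : T7_ph n p L b i j forward t % 5 =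
        T7_off n L b i j (T7_fw forward (t / n)) (t % n) := by omega
    have hlb : T7_lb forward (T7_ph n p L b i j forward t) =
        if T7_off n L b i j (T7_fw forward (t / n)) (t % n) = 1 then
          (if T7_fw forward (t / n) then .a else .b)
        else if T7_off n L b i j (T7_fw forward (t / n)) (t % n) = 3 then
          (if T7_fw forward (t / n) then .b else .a)
        else .c := by
      unfold T7_lb
      rw [hd, hm, if_neg (by omega)]
    rw [hlb]
    cases hb : T7_fw forward (t / n) with
    | true =>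
      have hc : ((cell forward ⟨t, h⟩ : Fin n) : ℕ) = t % n := by
        unfold cell
        rw [← hfw, hb]
        rfl
      unfold InBlk
      rw [hc]
      have k1 := T7_cnt_one (u1 := L + i * b) (u2 := L + (i + 1) * b) (u3 := L + j * b)
        (u4 := L + (j + 1) * b) (t % n) (by omega) (by omega)
      have k3 := T7_cnt_three (u1 := L + i * b) (u2 := L + (i + 1) * b) (u3 := L + j * b)
        (u4 := L + (j + 1) * b) (t % n) (by omega) (by omega)
      simp only [T7_off, if_true]
      constructor
      · rw [← k1]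
        constructor
        · intro hh
          split_ifs at hh with g1 g2
          exact ⟨g1, by omega⟩
        · intro hh
          rw [if_pos hh.1]
      · rw [← k3]
        constructor
        · intro hh
          split_ifs at hh with g1 g2
          exact ⟨g2, by omega⟩
        · intro hh
          rw [if_neg (by omega), if_pos hh.1]
    | false =>
      have hc : ((cell forward ⟨t, h⟩ : Fin n) : ℕ) = n - (t % n + 1) := by
        unfold cell
        rw [← hfw, hb]
        rfl
      unfold InBlk
      rw [hc]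
      have k1 := T7_cnt_one (u1 := n - (L + (j + 1) * b)) (u2 := n - (L + j * b))
        (u3 := n - (L + (i + 1) * b)) (u4 := n - (L + i * b)) (t % n) (by omega) (by omega)
      have k3 := T7_cnt_three (u1 := n - (L + (j + 1) * b)) (u2 := n - (L + j * b))
        (u3 := n - (L + (i + 1) * b)) (u4 := n - (L + i * b)) (t % n) (by omega) (by omega)
      have r1 : (n - (L + (j + 1) * b) ≤ t % n ∧ t % n < n - (L + j * b)) ↔
          (L + j * b ≤ n - (t % n + 1) ∧ n - (t % n + 1) < L + (j + 1) * b) := by omega
      have r3 : (n - (L + (i + 1) * b) ≤ t % n ∧ t % n < n - (L + i * b)) ↔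
          (L + i * b ≤ n - (t % n + 1) ∧ n - (t % n + 1) < L + (i + 1) * b) := by omega
      simp only [T7_off, Bool.false_eq_true, if_false]
      constructor
      · rw [← r3, ← k3]
        constructor
        · intro hh
          split_ifs at hh with g1 g2
          exact ⟨g2, by omega⟩
        · intro hh
          rw [if_neg (by omega), if_pos hh.1]
      · rw [← r1, ← k1]
        constructor
        · intro hh
          split_ifs at hh with g1 g2
          exact ⟨g1, by omega⟩
        · intro hh
          rw [if_pos hh.1]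
  · intro t h
    have hph : T7_ph n p L b i j forward t = 5 * p := by
      unfold T7_ph
      rw [if_neg (by omega)]
    rw [hph]
    unfold T7_lb
    rw [if_pos (le_refl _)]

theorem mixz_stream {n p : ℕ} (L b i j : ℕ) (forward : Fin p → Bool) (ph : ℕ → ℕ) (lb : ℕ → Lab)
    (h : ∀ (t : ℕ) (h : t < p * n), lb (ph t) = .b ↔ InBlk L b j (cell forward ⟨t, h⟩))
    (x y : Inp n) : mixz lb ph (stream forward x) (stream forward y) =
      stream forward (mixIn L b j x y) := by
  funext t
  unfold mixz stream mixIn
  by_cases ht : t < p * n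
  · simp only [dif_pos ht]
    by_cases hb : lb (ph t) = .b
    · rw [if_pos hb, if_pos ((h t ht).1 hb)]
    · rw [if_neg hb, if_neg (fun hc => hb ((h t ht).2 hc))]
  · simp only [dif_neg ht, ite_self]

theorem agree_stream {n p : ℕ} (L b i j : ℕ) (forward : Fin p → Bool) (ph : ℕ → ℕ)
    (lb : ℕ → Lab) (h : ∀ (t : ℕ) (h : t < p * n),
        (lb (ph t) = .a ↔ InBlk L b i (cell forward ⟨t, h⟩)) ∧
        (lb (ph t) = .b ↔ InBlk L b j (cell forward ⟨t, h⟩)))
    (x y : Inp n) (hxy : Agree L b i j x y) :
    ∀ t < p * n, lb (ph t) = .c → stream forward x t = stream forward y t := by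
  intro t ht hc
  unfold stream
  rw [dif_pos ht, dif_pos ht]
  refine hxy _ (fun ha => ?_) (fun hb => ?_)
  · have := (h t ht).1.2 ha
    rw [hc] at this
    cases this
  · have := (h t ht).2.2 hb
    rw [hc] at this
    cases this

end Pool.Agent.ST
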