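import Mathlib
import Pool.Agent.Lib.MP_b573ec_lc_ST.Core

/-!
# Skeletons of deterministic machines are unique
-/

namespace Pool.Agent.ST

section T4pre
variable {w : ℕ} {Δ : Rel w} {T : ℕ} {ph : ℕ → ℕ} {z : ℕ → Bool}

theorem T4_le {t e : ℕ} {q r : Fin w} {g : Option (Fin w)} {l : List (ℕ × ℕ)}
    (h : Pop Δ T z t q g e r l) : t ≤ e := by
  induction h with
  | fin => exact le_rfl
  | pop => exact le_rfl
  | bot _ _ _ _ _ _ _ _ _ ih => exact ih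
  | next _ _ _ _ _ _ _ _ _ _ ih => omega
  | push _ _ _ _ _ _ _ _ _ _ _ _ _ _ _ ih1 ih2 => omega

/-- derivations of deterministic machines are unique -/
theorem T4_pop_det (hΔ : Δ.Det) {t e e' : ℕ} {q r r' : Fin w} {g : Option (Fin w)}
    {l l' : List (ℕ × ℕ)} (h : Pop Δ T z t q g e r l) (h' : Pop Δ T z t q g e' r' l') :
    e = e' ∧ r = r' := by
  induction h generalizing e' r' l' with
  | fin q g =>
    cases h' with
    | fin => exact ⟨rfl, rfl⟩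
    | pop _ _ _ _ hT => exact absurd hT (lt_irrefl _)
    | bot _ _ _ _ _ _ hT => exact absurd hT (lt_irrefl _)
    | next _ _ _ _ _ _ _ hT => exact absurd hT (lt_irrefl _)
    | push _ _ _ _ _ _ _ _ _ _ _ hT => exact absurd hT (lt_irrefl _)
  | pop t q a q' hT hm =>
    cases h' with
    | fin => exact absurd hT (lt_irrefl _)
    | pop _ _ _ _ _ hm' =>
      have h1 := hΔ _ _ _ _ _ _ hm hm'
      injection h1 with h1
      exact ⟨rfl, h1⟩
    | next _ _ _ _ _ _ _ _ hm' => exact absurd (hΔ _ _ _ _ _ _ hm hm') (by simp)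
    | push _ _ _ _ _ _ _ _ _ _ _ _ hm' => exact absurd (hΔ _ _ _ _ _ _ hm hm') (by simp)
  | bot t q q1 t' q' l hT hm hp ih =>
    cases h' with
    | fin => exact absurd hT (lt_irrefl _)
    | bot _ _ q1' _ _ _ _ hm' hp' =>
      have h1 := hΔ _ _ _ _ _ _ hm hm'
      injection h1 with h1
      subst h1
      exact ih hp'
    | next _ _ _ _ _ _ _ _ hm' => exact absurd (hΔ _ _ _ _ _ _ hm hm') (by simp)
    | push _ _ _ _ _ _ _ _ _ _ _ _ hm' => exact absurd (hΔ _ _ _ _ _ _ hm hm') (by simp)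
  | next t q g q1 t' q' l hT hm hp ih =>
    cases h' with
    | fin => exact absurd hT (lt_irrefl _)
    | pop _ _ _ _ _ hm' => exact absurd (hΔ _ _ _ _ _ _ hm hm') (by simp)
    | bot _ _ _ _ _ _ _ hm' => exact absurd (hΔ _ _ _ _ _ _ hm hm') (by simp)
    | next _ _ _ q1' _ _ _ _ hm' hp' =>
      have h1 := hΔ _ _ _ _ _ _ hm hm'
      injection h1 with h1
      subst h1
      exact ih hp'
    | push _ _ _ _ _ _ _ _ _ _ _ _ hm' => exact absurd (hΔ _ _ _ _ _ _ hm hm') (by simp)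
  | push t q g q1 a t1 q2 t' q' l1 l2 hT hm hp1 hp2 ih1 ih2 =>
    cases h' with
    | fin => exact absurd hT (lt_irrefl _)
    | pop _ _ _ _ _ hm' => exact absurd (hΔ _ _ _ _ _ _ hm hm') (by simp)
    | bot _ _ _ _ _ _ _ hm' => exact absurd (hΔ _ _ _ _ _ _ hm hm') (by simp)
    | next _ _ _ _ _ _ _ _ hm' => exact absurd (hΔ _ _ _ _ _ _ hm hm') (by simp)
    | push _ _ _ q1' a' t1' q2' _ _ l1' l2' _ hm' hp1' hp2' =>
      have h1 := hΔ _ _ _ _ _ _ hm hm'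
      injection h1 with h1 h2
      subst h1 h2
      obtain ⟨h3, h4⟩ := ih1 hp1'
      subst h3 h4
      exact ih2 hp2'

/-- a step of a chain can be put in front of a derivation -/
theorem T4_cs_pop {ν ν' : Nd w} (h : Cs Δ T ph z ν ν')
    (hp : ∃ l, Pop Δ T z ν'.t ν'.q ν'.g ν'.e ν'.r l) : ∃ l, Pop Δ T z ν.t ν.q ν.g ν.e ν.r l := by
  obtain ⟨l', hp⟩ := hp
  cases h with
  | bot t q q1 e r hT hm => exact ⟨_, Pop.bot t q q1 e r l' hT hm hp⟩
  | next t q g q1 e r hT hm => exact ⟨_, Pop.next t q g q1 e r l' hT hm hp⟩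
  | left t q g q1 a t1 q2 e r l hT hm hq =>
    exact ⟨_, Pop.push t q g q1 a t1 q2 e r l l' hT hm hq hp⟩
  | right t q g q1 a t1 q2 e r l hT hm hq =>
    exact ⟨_, Pop.push t q g q1 a t1 q2 e r l' l hT hm hp hq⟩

/-- a chain can be put in front of a derivation -/
theorem T4_chain_pop {ν ν' : Nd w} (h : Relation.ReflTransGen (Cs Δ T ph z) ν ν')
    (hp : ∃ l, Pop Δ T z ν'.t ν'.q ν'.g ν'.e ν'.r l) : ∃ l, Pop Δ T z ν.t ν.q ν.g ν.e ν.r l := by
  induction h with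
  | refl => exact hp
  | tail _ hc ih => exact ih (T4_cs_pop hc hp)

/-- a node with a skeleton has a derivation -/
theorem T4_sound {ν : Nd w} {s : Sk w} (h : Dv Δ T ph z ν s) :
    ∃ l, Pop Δ T z ν.t ν.q ν.g ν.e ν.r l := by
  induction h with
  | int t q g e r l _ hp => exact ⟨l, hp⟩
  | nxt ν t q g q1 e r s _ hc hT hm _ _ _ ih =>
    obtain ⟨l, hp⟩ := ih
    exact T4_chain_pop hc ⟨_, Pop.next t q g q1 e r l hT hm hp⟩
  | br ν t q g q1 a t1 q2 e r s s' _ hc hT hm _ _ _ _ ih ih' =>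
    obtain ⟨l, hp⟩ := ih
    obtain ⟨l', hp'⟩ := ih'
    exact T4_chain_pop hc ⟨_, Pop.push t q g q1 a t1 q2 e r l l' hT hm hp hp'⟩

end T4pre

section T4
variable {w : ℕ} {Δ : Rel w} {T : ℕ} {ph : ℕ → ℕ} {z : ℕ → Bool}

/-- a step of a chain does not change the phases of the time and of the time of removal -/
theorem T4_cs_ph {ν ν' : Nd w} (h : Cs Δ T ph z ν ν') :
    ph ν'.t = ph ν.t ∧ ph ν'.e = ph ν.e := by
  cases h with
  | bot => exact ⟨rfl, rfl⟩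
  | next _ _ _ _ _ _ _ _ hp => exact ⟨hp, rfl⟩
  | left _ _ _ _ _ _ _ _ _ _ _ _ _ hp => exact ⟨hp, rfl⟩
  | right _ _ _ _ _ _ _ _ _ _ _ _ _ hp => exact ⟨rfl, hp⟩

/-- the head of the chain of a skeleton -/
theorem T4_head {ν : Nd w} {s : Sk w} (h : Dv Δ T ph z ν s) (hlt : ph ν.t < ph ν.e) :
    (∃ ν', Cs Δ T ph z ν ν' ∧ Dv Δ T ph z ν' s) ∨
    (∃ q1 s1, Δ ν.t ν.q ν.g (z ν.t) (.next q1) ∧ ph ν.t < ph (ν.t + 1) ∧ s = .nxt ν q1 s1 ∧
      Dv Δ T ph z ⟨ν.t + 1, q1, ν.g, ν.e, ν.r⟩ s1) ∨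
    (∃ q1 a t1 q2 s1 s2, Δ ν.t ν.q ν.g (z ν.t) (.push q1 a) ∧ ph ν.t < ph t1 ∧ ph t1 < ph ν.e ∧
      s = .br ν q1 a t1 q2 s1 s2 ∧ Dv Δ T ph z ⟨ν.t, q1, some a, t1, q2⟩ s1 ∧
      Dv Δ T ph z ⟨t1, q2, ν.g, ν.e, ν.r⟩ s2) := by
  cases h with
  | int t q g e r l he hp =>
    dsimp only at hlt
    omega
  | nxt _ t q g q1 e r s hph hc hT hm h1 h2 hd =>
    rcases Relation.ReflTransGen.cases_head hc with h0 | ⟨c, hc1, hc2⟩
    · subst h0
      exact Or.inr (Or.inl ⟨q1, s, hm, h1, rfl, hd⟩)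
    · have hpp := T4_cs_ph hc1
      exact Or.inl ⟨c, hc1, Dv.nxt c t q g q1 e r s (by rw [hpp.1, hpp.2]; exact hph) hc2 hT hm h1
        h2 hd⟩
  | br _ t q g q1 a t1 q2 e r s s' hph hc hT hm h1 h2 hd hd' =>
    rcases Relation.ReflTransGen.cases_head hc with h0 | ⟨c, hc1, hc2⟩
    · subst h0
      exact Or.inr (Or.inr ⟨q1, a, t1, q2, s, s', hm, h1, h2, rfl, hd, hd'⟩)
    · have hpp := T4_cs_ph hc1
      exact Or.inl ⟨c, hc1, Dv.br c t q g q1 a t1 q2 e r s s' (by rw [hpp.1, hpp.2]; exact hph) hc2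
        hT hm h1 h2 hd hd'⟩

/-- a skeleton of a node which is not crossing is `int` -/
theorem T4_int {ν : Nd w} {s : Sk w} (h : Dv Δ T ph z ν s) (he : ph ν.t = ph ν.e) :
    s = .int := by
  cases h with
  | int => rfl
  | nxt _ t q g q1 e r s hph => omega
  | br _ t q g q1 a t1 q2 e r s s' hph => omega

/-- after a move of the kind `bot` -/
theorem T4_bot (hΔ : Δ.Det) {t e : ℕ} {q q1 r : Fin w} {s : Sk w} (hlt : ph t < ph e)
    (hm : Δ t q none (z t) (.pop q1)) (h : Dv Δ T ph z ⟨t, q, none, e, r⟩ s) :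
    Dv Δ T ph z ⟨t, q1, none, e, r⟩ s := by
  rcases T4_head h hlt with ⟨ν', hc, hd⟩ | ⟨q1', s1, hm', -⟩ | ⟨q1', a, t1, q2, s1, s2, hm', -⟩
  · cases hc with
    | bot _ _ q1' _ _ _ hm' =>
      have h1 := hΔ _ _ _ _ _ _ hm hm'
      injection h1 with h1
      subst h1
      exact hd
    | next _ _ _ _ _ _ _ hm' => exact absurd (hΔ _ _ _ _ _ _ hm hm') (by simp)
    | left _ _ _ _ _ _ _ _ _ _ _ hm' => exact absurd (hΔ _ _ _ _ _ _ hm hm') (by simp)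
    | right _ _ _ _ _ _ _ _ _ _ _ hm' => exact absurd (hΔ _ _ _ _ _ _ hm hm') (by simp)
  · exact absurd (hΔ _ _ _ _ _ _ hm hm') (by simp)
  · exact absurd (hΔ _ _ _ _ _ _ hm hm') (by simp)

/-- after a move of the head within a phase -/
theorem T4_next (hΔ : Δ.Det) {t e : ℕ} {q q1 r : Fin w} {g : Option (Fin w)} {s : Sk w}
    (hlt : ph t < ph e) (hm : Δ t q g (z t) (.next q1)) (hs : ph (t + 1) = ph t)
    (h : Dv Δ T ph z ⟨t, q, g, e, r⟩ s) : Dv Δ T ph z ⟨t + 1, q1, g, e, r⟩ s := by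
  rcases T4_head h hlt with ⟨ν', hc, hd⟩ | ⟨q1', s1, hm', hp, -⟩ | ⟨q1', a, t1, q2, s1, s2, hm', -⟩
  · cases hc with
    | bot _ _ q1' _ _ _ hm' => exact absurd (hΔ _ _ _ _ _ _ hm hm') (by simp)
    | next _ _ _ _ _ _ _ hm' =>
      have h1 := hΔ _ _ _ _ _ _ hm hm'
      injection h1 with h1
      subst h1
      exact hd
    | left _ _ _ _ _ _ _ _ _ _ _ hm' => exact absurd (hΔ _ _ _ _ _ _ hm hm') (by simp)
    | right _ _ _ _ _ _ _ _ _ _ _ hm' => exact absurd (hΔ _ _ _ _ _ _ hm hm') (by simp)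
  · dsimp only at hp
    omega
  · exact absurd (hΔ _ _ _ _ _ _ hm hm') (by simp)

/-- after a move of the head into a new phase -/
theorem T4_next_new (hΔ : Δ.Det) {t e : ℕ} {q q1 r : Fin w} {g : Option (Fin w)} {s : Sk w}
    (hlt : ph t < ph e) (hm : Δ t q g (z t) (.next q1)) (hs : ph t < ph (t + 1))
    (h : Dv Δ T ph z ⟨t, q, g, e, r⟩ s) :
    ∃ s1, s = .nxt ⟨t, q, g, e, r⟩ q1 s1 ∧ Dv Δ T ph z ⟨t + 1, q1, g, e, r⟩ s1 := by
  rcases T4_head h hlt with ⟨ν', hc, hd⟩ | ⟨q1', s1, hm', -, h3, h4⟩ |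
    ⟨q1', a, t1, q2, s1, s2, hm', -⟩
  · cases hc with
    | bot _ _ q1' _ _ _ hm' => exact absurd (hΔ _ _ _ _ _ _ hm hm') (by simp)
    | next _ _ _ _ _ _ _ hm' hp => omega
    | left _ _ _ _ _ _ _ _ _ _ _ hm' => exact absurd (hΔ _ _ _ _ _ _ hm hm') (by simp)
    | right _ _ _ _ _ _ _ _ _ _ _ hm' => exact absurd (hΔ _ _ _ _ _ _ hm hm') (by simp)
  · have h1 := hΔ _ _ _ _ _ _ hm hm'
    injection h1 with h1
    subst h1
    exact ⟨s1, h3, h4⟩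
  · exact absurd (hΔ _ _ _ _ _ _ hm hm') (by simp)

/-- after a push -/
theorem T4_push (hΔ : Δ.Det) {t e t1 : ℕ} {q q1 a q2 r : Fin w} {g : Option (Fin w)} {s : Sk w}
    {l1 : List (ℕ × ℕ)} (hlt : ph t < ph e) (hm : Δ t q g (z t) (.push q1 a))
    (hp1 : Pop Δ T z t q1 (some a) t1 q2 l1) (h : Dv Δ T ph z ⟨t, q, g, e, r⟩ s) :
    (ph t1 = ph t ∧ Dv Δ T ph z ⟨t1, q2, g, e, r⟩ s) ∨
    (ph t1 = ph e ∧ Dv Δ T ph z ⟨t, q1, some a, t1, q2⟩ s) ∨
    (ph t < ph t1 ∧ ph t1 < ph e ∧ ∃ s1 s2, s = .br ⟨t, q, g, e, r⟩ q1 a t1 q2 s1 s2 ∧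
      Dv Δ T ph z ⟨t, q1, some a, t1, q2⟩ s1 ∧ Dv Δ T ph z ⟨t1, q2, g, e, r⟩ s2) := by
  rcases T4_head h hlt with ⟨ν', hc, hd⟩ | ⟨q1', s1, hm', -⟩ |
    ⟨q1', a', t1', q2', s1, s2, hm', h1, h2, h3, h4, h5⟩
  · cases hc with
    | bot _ _ q1' _ _ _ hm' => exact absurd (hΔ _ _ _ _ _ _ hm hm') (by simp)
    | next _ _ _ _ _ _ _ hm' hp => exact absurd (hΔ _ _ _ _ _ _ hm hm') (by simp)
    | left _ _ _ q1' a' t1' q2' _ _ l' _ hm' hp' hph' =>
      have h1 := hΔ _ _ _ _ _ _ hm hm'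
      injection h1 with h1 h2
      subst h1 h2
      obtain ⟨h3, h4⟩ := T4_pop_det hΔ hp1 hp'
      subst h3 h4
      exact Or.inl ⟨hph', hd⟩
    | right _ _ _ q1' a' t1' q2' _ _ l' _ hm' hp' hph' =>
      have h1 := hΔ _ _ _ _ _ _ hm hm'
      injection h1 with h1 h2
      subst h1 h2
      obtain ⟨l'', hp''⟩ := T4_sound hd
      obtain ⟨h3, h4⟩ := T4_pop_det hΔ hp1 hp''
      dsimp only at h3 h4
      subst h3 h4
      exact Or.inr (Or.inl ⟨hph', hd⟩)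
  · exact absurd (hΔ _ _ _ _ _ _ hm hm') (by simp)
  · have h6 := hΔ _ _ _ _ _ _ hm hm'
    injection h6 with h6 h7
    subst h6 h7
    obtain ⟨l'', hp''⟩ := T4_sound h4
    obtain ⟨h8, h9⟩ := T4_pop_det hΔ hp1 hp''
    dsimp only at h8 h9
    subst h8 h9
    exact Or.inr (Or.inr ⟨h1, h2, s1, s2, h3, h4, h5⟩)

end T4

theorem T4_det_aux {w : ℕ} {Δ : Rel w} (hΔ : Δ.Det) {T : ℕ} {ph : ℕ → ℕ} (hph : Monotone ph)
    {z : ℕ → Bool} {t : ℕ} {q : Fin w} {g : Option (Fin w)} {e : ℕ} {r : Fin w}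
    {l : List (ℕ × ℕ)} (hp : Pop Δ T z t q g e r l) :
    ∀ s s' : Sk w, Dv Δ T ph z ⟨t, q, g, e, r⟩ s → Dv Δ T ph z ⟨t, q, g, e, r⟩ s' → s = s' := by
  induction hp with
  | fin q g =>
    intro s s' h h'
    rw [T4_int h rfl, T4_int h' rfl]
  | pop t q a q' hT hm =>
    intro s s' h h'
    rw [T4_int h rfl, T4_int h' rfl]
  | bot t q q1 t' q' l hT hm hp ih =>
    intro s s' h h'
    rcases Nat.lt_or_ge (ph t) (ph t') with hlt | hge
    · exact ih s s' (T4_bot hΔ hlt hm h) (T4_bot hΔ hlt hm h')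
    · have he : ph t = ph t' := le_antisymm (hph (T4_le hp)) hge
      rw [T4_int h he, T4_int h' he]
  | next t q g q1 t' q' l hT hm hp ih =>
    intro s s' h h'
    rcases Nat.lt_or_ge (ph t) (ph t') with hlt | hge
    · rcases Nat.lt_or_ge (ph t) (ph (t + 1)) with h1 | h1
      · obtain ⟨s1, e1, d1⟩ := T4_next_new hΔ hlt hm h1 h
        obtain ⟨s2, e2, d2⟩ := T4_next_new hΔ hlt hm h1 h'
        rw [e1, e2, ih s1 s2 d1 d2]
      · have h2 : ph (t + 1) = ph t := le_antisymm h1 (hph (Nat.le_succ t))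
        exact ih s s' (T4_next hΔ hlt hm h2 h) (T4_next hΔ hlt hm h2 h')
    · have he : ph t = ph t' :=
        le_antisymm (hph (le_trans (Nat.le_succ t) (T4_le hp))) hge
      rw [T4_int h he, T4_int h' he]
  | push t q g q1 a t1 q2 t' q' l1 l2 hT hm hp1 hp2 ih1 ih2 =>
    intro s s' h h'
    rcases Nat.lt_or_ge (ph t) (ph t') with hlt | hge
    · rcases T4_push hΔ hlt hm hp1 h with ⟨c1, d1⟩ | ⟨c1, d1⟩ | ⟨c1, c2, s1, s2, e1, d1, d2⟩ <;>
        rcases T4_push hΔ hlt hm hp1 h' with ⟨c1', d1'⟩ | ⟨c1', d1'⟩ |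
          ⟨c1', c2', s1', s2', e1', d1', d2'⟩
      · exact ih2 s s' d1 d1'
      · omega
      · omega
      · omega
      · exact ih1 s s' d1 d1'
      · omega
      · omega
      · omega
      · rw [e1, e1', ih1 s1 s1' d1 d1', ih2 s2 s2' d2 d2']
    · have he : ph t = ph t' :=
        le_antisymm (hph (le_trans (T4_le hp1) (T4_le hp2))) hge
      rw [T4_int h he, T4_int h' he]

/-- the skeleton of a node is unique if the machine is deterministic -/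
theorem Dv.det {w : ℕ} {Δ : Rel w} (hΔ : Δ.Det) {T : ℕ} {ph : ℕ → ℕ} (hph : Monotone ph)
    {z : ℕ → Bool} {ν : Nd w} {s s' : Sk w} (h : Dv Δ T ph z ν s) (h' : Dv Δ T ph z ν s') :
    s = s' := by
  obtain ⟨l, hp⟩ := T4_sound h
  exact T4_det_aux hΔ hph hp s s' h h'

end Pool.Agent.ST
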