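import Mathlib
import Pool.Agent.Lib.MP_b573ec_lc_ST.Core

/-!
# The number of bad pairs of blocks
-/

namespace Pool.Agent.ST

open Pool.Agent.LT (Inp)

theorem noncross_card (M : ℕ) (E : Finset (ℕ × ℕ)) (h1 : ∀ x ∈ E, x.1 < x.2 ∧ x.2 < M)
    (h2 : ∀ x ∈ E, ∀ y ∈ E, ¬ (x.1 < y.1 ∧ y.1 < x.2 ∧ x.2 < y.2)) : E.card ≤ 2 * M := by
  classical
  have hsub : E ⊆ (E.filter fun x => ∀ y ∈ E, y.1 = x.1 → y.2 ≤ x.2) ∪
      (E.filter fun x => ∀ y ∈ E, y.2 = x.2 → x.1 ≤ y.1) := by
    intro x hx
    by_contra hcon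
    simp only [Finset.mem_union, Finset.mem_filter, hx, true_and, not_or, not_forall,
      not_le] at hcon
    obtain ⟨⟨y, hy, hyx, hlt⟩, ⟨z, hz, hzx, hlt'⟩⟩ := hcon
    have := h1 x hx
    exact h2 z hz y hy ⟨by omega, by omega, by omega⟩
  have c1 : (E.filter fun x => ∀ y ∈ E, y.1 = x.1 → y.2 ≤ x.2).card ≤ M := by
    have h := Finset.card_le_card_of_injOn (s := E.filter fun x => ∀ y ∈ E, y.1 = x.1 → y.2 ≤ x.2)
      (t := Finset.range M) Prod.fst ?_ ?_
    · simpa using h
    · intro x hx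
      have hx' := Finset.mem_filter.mp (Finset.mem_coe.mp hx)
      have := h1 x hx'.1
      simp only [Finset.coe_range, Set.mem_Iio]
      omega
    · intro x hx y hy hxy
      have hx' := Finset.mem_filter.mp (Finset.mem_coe.mp hx)
      have hy' := Finset.mem_filter.mp (Finset.mem_coe.mp hy)
      exact Prod.ext hxy (le_antisymm (hy'.2 x hx'.1 hxy) (hx'.2 y hy'.1 hxy.symm))
  have c2 : (E.filter fun x => ∀ y ∈ E, y.2 = x.2 → x.1 ≤ y.1).card ≤ M := by
    have h := Finset.card_le_card_of_injOn (s := E.filter fun x => ∀ y ∈ E, y.2 = x.2 → x.1 ≤ y.1)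
      (t := Finset.range M) Prod.snd ?_ ?_
    · simpa using h
    · intro x hx
      have hx' := Finset.mem_filter.mp (Finset.mem_coe.mp hx)
      have := h1 x hx'.1
      simp only [Finset.coe_range, Set.mem_Iio]
      omega
    · intro x hx y hy hxy
      have hx' := Finset.mem_filter.mp (Finset.mem_coe.mp hx)
      have hy' := Finset.mem_filter.mp (Finset.mem_coe.mp hy)
      exact Prod.ext (le_antisymm (hx'.2 y hy'.1 hxy.symm) (hy'.2 x hx'.1 hxy)) hxy
  calc E.card ≤ _ := Finset.card_le_card hsub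
    _ ≤ _ := Finset.card_union_le _ _
    _ ≤ 2 * M := by omega

/-- the index of the occurrence of a block which is visited at time `t` -/
def T8_occ {p : ℕ} (n m L b : ℕ) (forward : Fin p → Bool) (t : ℕ) : ℕ :=
  if h : t < p * n then
    t / n * m + (if forward (⟨t, h⟩ : Fin (p * n)).divNat then
      ((cell forward ⟨t, h⟩ : Fin n) - L) / b else m - 1 - ((cell forward ⟨t, h⟩ : Fin n) - L) / b)
  else 0

/-- the block of an occurrence -/
def T8_blk {p : ℕ} (m : ℕ) (forward : Fin p → Bool) (o : ℕ) : ℕ :=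
  if h : o / m < p then (if forward ⟨o / m, h⟩ then o % m else m - 1 - o % m) else 0

theorem T8_div {L b i c : ℕ} (h : InBlk L b i c) : (c - L) / b = i := by
  obtain ⟨h1, h2⟩ := h
  have e : (i + 1) * b = i * b + b := by ring
  have hb : 0 < b := by
    rcases Nat.eq_zero_or_pos b with rfl | hb
    · simp at h1 h2
      omega
    · exact hb
  rw [Nat.div_eq_iff hb]
  have e2 : b * i = i * b := Nat.mul_comm _ _
  constructor
  · omega
  · omega

theorem T8_occ_eq {p n m L b : ℕ} {forward : Fin p → Bool} {t : ℕ} (h : t < p * n) {i : ℕ}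
    (hi : InBlk L b i (cell forward ⟨t, h⟩)) :
    T8_occ n m L b forward t = t / n * m +
      (if forward (⟨t, h⟩ : Fin (p * n)).divNat then i else m - 1 - i) := by
  unfold T8_occ
  rw [dif_pos h, T8_div hi]

theorem T8_divlt {p n t : ℕ} (h : t < p * n) : t / n < p := by
  rw [Nat.div_lt_iff_lt_mul]
  · exact h
  · rcases Nat.eq_zero_or_pos n with rfl | hn
    · simp at h
    · exact hn

theorem T8_occ_lt {p n m L b : ℕ} {forward : Fin p → Bool} {t : ℕ} (h : t < p * n) {i : ℕ}
    (him : i < m) (hi : InBlk L b i (cell forward ⟨t, h⟩)) :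
    T8_occ n m L b forward t < p * m ∧ T8_occ n m L b forward t / m = t / n ∧
      T8_blk m forward (T8_occ n m L b forward t) = i := by
  have hk : t / n < p := T8_divlt h
  have hm : 0 < m := by omega
  rw [T8_occ_eq h hi]
  set r := (if forward (⟨t, h⟩ : Fin (p * n)).divNat then i else m - 1 - i) with hr
  have hrm : r < m := by
    rw [hr]
    split_ifs <;> omega
  have hd : (t / n * m + r) / m = t / n := by
    rw [Nat.add_comm, Nat.add_mul_div_right _ _ hm, Nat.div_eq_of_lt hrm, Nat.zero_add]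
  have hmod : (t / n * m + r) % m = r := by
    rw [Nat.add_comm, Nat.add_mul_mod_self_right, Nat.mod_eq_of_lt hrm]
  refine ⟨?_, hd, ?_⟩
  · calc t / n * m + r < t / n * m + m := by omega
      _ = (t / n + 1) * m := by ring
      _ ≤ p * m := Nat.mul_le_mul_right _ hk
  · unfold T8_blk
    have hk' : (t / n * m + r) / m < p := by rw [hd]; exact hk
    rw [dif_pos hk', hmod]
    have e : (⟨(t / n * m + r) / m, hk'⟩ : Fin p) = (⟨t, h⟩ : Fin (p * n)).divNat := by
      apply Fin.ext
      simp [Fin.divNat, hd]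
    rw [e, hr]
    split_ifs with hf
    · rfl
    · omega

theorem T8_mono {p n m L b : ℕ} {forward : Fin p → Bool} {t t' : ℕ} (h : t < p * n)
    (h' : t' < p * n) {i i' : ℕ} (him : i < m) (him' : i' < m)
    (hi : InBlk L b i (cell forward ⟨t, h⟩)) (hi' : InBlk L b i' (cell forward ⟨t', h'⟩))
    (hle : t ≤ t') : T8_occ n m L b forward t ≤ T8_occ n m L b forward t' := by
  have hm : 0 < m := by omega
  have hn : 0 < n := by
    rcases Nat.eq_zero_or_pos n with rfl | hn
    · simp at h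
    · exact hn
  have hkk : t / n ≤ t' / n := Nat.div_le_div_right hle
  rcases Nat.lt_or_ge (t / n) (t' / n) with hlt | hge
  · obtain ⟨-, hd, -⟩ := T8_occ_lt h him hi
    obtain ⟨-, hd', -⟩ := T8_occ_lt h' him' hi'
    by_contra hcon
    push Not at hcon
    have := Nat.div_le_div_right (c := m) hcon.le
    omega
  · have hk : t / n = t' / n := le_antisymm hkk hge
    rw [T8_occ_eq h hi, T8_occ_eq h' hi', hk]
    have e : (⟨t, h⟩ : Fin (p * n)).divNat = (⟨t', h'⟩ : Fin (p * n)).divNat := by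
      apply Fin.ext
      simp [Fin.divNat, hk]
    have hmod : t % n ≤ t' % n := by
      have a1 := Nat.div_add_mod t n
      have a2 := Nat.div_add_mod t' n
      rw [hk] at a1
      omega
    have hlt' : t' % n < n := Nat.mod_lt _ hn
    rw [e]
    unfold cell at hi hi'
    rw [e] at hi
    -- order of the blocks
    have key : ∀ {c c' j j' : ℕ}, InBlk L b j c → InBlk L b j' c' → c ≤ c' → j ≤ j' := by
      intro c c' j j' hj hj' hcc
      rw [← T8_div hj, ← T8_div hj']
      exact Nat.div_le_div_right (by omega)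
    split_ifs with hf
    · rw [if_pos hf] at hi hi'
      have := key hi hi' (by simpa [Fin.modNat] using hmod)
      omega
    · rw [if_neg hf] at hi hi'
      have := key hi' hi (by simp [Fin.modNat, Fin.rev]; omega)
      omega

theorem bad_pairs (n p L b m : ℕ) (forward : Fin p → Bool) (hn : L + m * b ≤ n)
    (l : List (ℕ × ℕ)) (h1 : ∀ x ∈ l, x.1 ≤ x.2)
    (h2 : ∀ x ∈ l, ∀ y ∈ l, ¬ (x.1 < y.1 ∧ y.1 < x.2 ∧ x.2 < y.2)) :
    {ij : Fin m × Fin m | ij.1 < ij.2 ∧ ∃ x ∈ l, ∃ (a1 : x.1 < p * n) (a2 : x.2 < p * n),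
      (InBlk L b ij.1 (cell forward ⟨x.1, a1⟩) ∧ InBlk L b ij.2 (cell forward ⟨x.2, a2⟩)) ∨
      (InBlk L b ij.2 (cell forward ⟨x.1, a1⟩) ∧ InBlk L b ij.1 (cell forward ⟨x.2, a2⟩))}.ncard ≤
      2 * p * m := by
  classical
  have _ := hn
  set occ := T8_occ n m L b forward with hocc
  let Good : ℕ → Prop := fun t => ∃ (h : t < p * n) (i : ℕ), i < m ∧
    InBlk L b i (cell forward ⟨t, h⟩)
  have hmono : ∀ t t', Good t → Good t' → occ t < occ t' → t < t' := by
    intro t t' ht ht' hlt
    obtain ⟨h, i, him, hi⟩ := ht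
    obtain ⟨h', i', him', hi'⟩ := ht'
    by_contra hcon
    push Not at hcon
    have := T8_mono h' h him' him hi' hi hcon
    rw [← hocc] at this
    omega
  set E : Finset (ℕ × ℕ) := (l.toFinset.filter fun x => Good x.1 ∧ Good x.2 ∧
    occ x.1 < occ x.2).image fun x => (occ x.1, occ x.2) with hE
  have hEcard : E.card ≤ 2 * (p * m) := by
    apply noncross_card
    · intro y hy
      obtain ⟨x, hx, rfl⟩ := Finset.mem_image.mp hy
      obtain ⟨hxl, hg1, hg2, hlt⟩ := Finset.mem_filter.mp hx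
      obtain ⟨h, i, him, hi⟩ := hg2
      exact ⟨hlt, (T8_occ_lt h him hi).1⟩
    · intro y hy y' hy'
      obtain ⟨x, hx, rfl⟩ := Finset.mem_image.mp hy
      obtain ⟨x', hx', rfl⟩ := Finset.mem_image.mp hy'
      obtain ⟨hxl, hg1, hg2, hlt⟩ := Finset.mem_filter.mp hx
      obtain ⟨hxl', hg1', hg2', hlt'⟩ := Finset.mem_filter.mp hx'
      rintro ⟨c1, c2, c3⟩
      exact h2 x (List.mem_toFinset.mp hxl) x' (List.mem_toFinset.mp hxl')
        ⟨hmono _ _ hg1 hg1' c1, hmono _ _ hg1' hg2 c2, hmono _ _ hg2 hg2' c3⟩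
  set f : ℕ × ℕ → ℕ × ℕ := fun o => (min (T8_blk m forward o.1) (T8_blk m forward o.2),
    max (T8_blk m forward o.1) (T8_blk m forward o.2)) with hf
  set g : Fin m × Fin m → ℕ × ℕ := fun ij => (ij.1.val, ij.2.val) with hg
  have hginj : Function.Injective g := by
    rintro ⟨i, j⟩ ⟨i', j'⟩ h
    simp only [hg, Prod.mk.injEq] at h
    exact Prod.ext (Fin.ext h.1) (Fin.ext h.2)
  rw [← Set.ncard_image_of_injective _ hginj]
  calc _ ≤ ((E.image f : Finset (ℕ × ℕ)) : Set (ℕ × ℕ)).ncard := by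
        apply Set.ncard_le_ncard _ (Finset.finite_toSet _)
        rintro _ ⟨⟨i, j⟩, ⟨hij, x, hx, a1, a2, hxx⟩, rfl⟩
        rw [Finset.mem_coe, Finset.mem_image]
        have hij' : (i : ℕ) < j := hij
        rcases hxx with ⟨hi, hj⟩ | ⟨hj, hi⟩
        · have e1 := T8_occ_lt (m := m) a1 i.isLt hi
          have e2 := T8_occ_lt (m := m) a2 j.isLt hj
          rw [← hocc] at e1 e2
          have hle := T8_mono a1 a2 i.isLt j.isLt hi hj (h1 x hx)
          rw [← hocc] at hle
          have hne : occ x.1 ≠ occ x.2 := by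
            intro he
            rw [he] at e1
            have := e1.2.2.symm.trans e2.2.2
            omega
          refine ⟨(occ x.1, occ x.2), Finset.mem_image.mpr ⟨x, Finset.mem_filter.mpr
            ⟨List.mem_toFinset.mpr hx, ⟨a1, i, i.isLt, hi⟩, ⟨a2, j, j.isLt, hj⟩,
              lt_of_le_of_ne hle hne⟩, rfl⟩, ?_⟩
          simp only [hf, hg]
          rw [e1.2.2, e2.2.2, min_eq_left hij'.le, max_eq_right hij'.le]
        · have e1 := T8_occ_lt (m := m) a1 j.isLt hj
          have e2 := T8_occ_lt (m := m) a2 i.isLt hi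
          rw [← hocc] at e1 e2
          have hle := T8_mono a1 a2 j.isLt i.isLt hj hi (h1 x hx)
          rw [← hocc] at hle
          have hne : occ x.1 ≠ occ x.2 := by
            intro he
            rw [he] at e1
            have := e1.2.2.symm.trans e2.2.2
            omega
          refine ⟨(occ x.1, occ x.2), Finset.mem_image.mpr ⟨x, Finset.mem_filter.mpr
            ⟨List.mem_toFinset.mpr hx, ⟨a1, j, j.isLt, hj⟩, ⟨a2, i, i.isLt, hi⟩,
              lt_of_le_of_ne hle hne⟩, rfl⟩, ?_⟩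
          simp only [hf, hg]
          rw [e1.2.2, e2.2.2, min_eq_right hij'.le, max_eq_left hij'.le]
    _ = (E.image f).card := Set.ncard_coe_finset _
    _ ≤ E.card := Finset.card_image_le
    _ ≤ 2 * (p * m) := hEcard
    _ = 2 * p * m := by ring

end Pool.Agent.ST
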