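import Mathlib
import Pool.Agent.Lib.MP_b573ec_lc_ST.Core
import Pool.Agent.Lib.MP_b573ec_lc_ST.Deriv
import Pool.Agent.Lib.MP_b573ec_lc_ST.Runs
import Pool.Agent.Lib.MP_b573ec_lc_ST.Skel
import Pool.Agent.Lib.MP_b573ec_lc_ST.SkelDet
import Pool.Agent.Lib.MP_b573ec_lc_ST.Mixing
import Pool.Agent.Lib.MP_b573ec_lc_ST.Codes
import Pool.Agent.Lib.MP_b573ec_lc_ST.Phases
import Pool.Agent.Lib.MP_b573ec_lc_ST.Edges

/-!
# Transcripts
-/

namespace Pool.Agent.ST

open Pool.Agent.LT (Inp)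

/-- the transition relation of a deterministic program is deterministic -/
theorem T9_rel_det {n p w : ℕ} {P : NStackProg n p w} (h : P.Det) : P.rel.Det := by
  rintro t q g b mv mv' ⟨h1, h2⟩ ⟨h3, h4⟩
  exact h.1 _ _ _ _ _ _ _ h2 h4

/-- the count of transcripts -/
theorem T9_count {n p w S : ℕ} (hp : 1 ≤ p) (hpn : p ≤ n) (hS : 1 ≤ S) (hn : n ≤ 2 ^ S)
    (hw : w ≤ 2 ^ S) :
    w * w * ((p * n + 1) * (w + 1)) ^ (8 * (16 * p)) ≤ 2 ^ (642 * p * S) := by
  have h1 : p * n ≤ 2 ^ (2 * S) := by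
    calc p * n ≤ 2 ^ S * 2 ^ S := Nat.mul_le_mul (hpn.trans hn) hn
      _ = 2 ^ (2 * S) := by rw [← pow_add]; congr 1; ring
  have h2 : p * n + 1 ≤ 2 ^ (2 * S + 1) := by
    have : 1 ≤ 2 ^ (2 * S) := Nat.one_le_two_pow
    rw [pow_succ]
    omega
  have h3 : w + 1 ≤ 2 ^ (S + 1) := by
    have : 1 ≤ 2 ^ S := Nat.one_le_two_pow
    rw [pow_succ]
    omega
  have h4 : (p * n + 1) * (w + 1) ≤ 2 ^ (5 * S) := by
    calc (p * n + 1) * (w + 1) ≤ 2 ^ (2 * S + 1) * 2 ^ (S + 1) := Nat.mul_le_mul h2 h3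
      _ = 2 ^ (3 * S + 2) := by rw [← pow_add]; congr 1; ring
      _ ≤ 2 ^ (5 * S) := Nat.pow_le_pow_right (by norm_num) (by omega)
  calc w * w * ((p * n + 1) * (w + 1)) ^ (8 * (16 * p))
      ≤ 2 ^ S * 2 ^ S * (2 ^ (5 * S)) ^ (8 * (16 * p)) :=
        Nat.mul_le_mul (Nat.mul_le_mul hw hw) (Nat.pow_le_pow_left h4 _)
    _ = 2 ^ (S + S + 5 * S * (8 * (16 * p))) := by
        rw [← pow_mul, ← pow_add, ← pow_add]
    _ ≤ 2 ^ (642 * p * S) := by
        refine Nat.pow_le_pow_right (by norm_num) ?_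
        have h5 : S ≤ p * S := Nat.le_mul_of_pos_left S hp
        have h6 : S + S + 5 * S * (8 * (16 * p)) = 2 * S + 640 * (p * S) := by ring
        have h7 : 642 * p * S = 642 * (p * S) := by ring
        rw [h6, h7]
        omega

/-- codes of triples -/
theorem T9_code_inj {w N a a' r r' c c' : ℕ} (hr : r < w) (hr' : r' < w) (hc : c < N)
    (hc' : c' < N) (h : (a * w + r) * N + c = (a' * w + r') * N + c') :
    a = a' ∧ r = r' ∧ c = c' := by
  have h1 : c = c' := by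
    have e1 : ((a * w + r) * N + c) % N = c := by
      rw [mul_comm, Nat.mul_add_mod, Nat.mod_eq_of_lt hc]
    have e2 : ((a' * w + r') * N + c') % N = c' := by
      rw [mul_comm, Nat.mul_add_mod, Nat.mod_eq_of_lt hc']
    rw [← e1, ← e2, h]
  subst h1
  have h2 : a * w + r = a' * w + r' := by
    have := Nat.add_right_cancel h
    exact Nat.eq_of_mul_eq_mul_right (by omega) this
  have h3 : r = r' := by
    have e1 : (a * w + r) % w = r := by
      rw [mul_comm, Nat.mul_add_mod, Nat.mod_eq_of_lt hr]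
    have e2 : (a' * w + r') % w = r' := by
      rw [mul_comm, Nat.mul_add_mod, Nat.mod_eq_of_lt hr']
    rw [← e1, ← e2, h2]
  subst h3
  have h4 : a * w = a' * w := Nat.add_right_cancel h2
  exact ⟨Nat.eq_of_mul_eq_mul_right (by omega) h4, rfl, rfl⟩

theorem T9_code_lt {w N a r c : ℕ} (ha : a < w) (hr : r < w) (hc : c < N) :
    (a * w + r) * N + c < w * w * N := by
  have h1 : a * w + r + 1 ≤ w * w := by
    have : (a + 1) * w ≤ w * w := Nat.mul_le_mul_right w ha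
    nlinarith
  have h2 : (a * w + r + 1) * N ≤ w * w * N := Nat.mul_le_mul_right N h1
  nlinarith

theorem transcripts : ∃ C : ℕ, ∀ (n p w S L b m : ℕ) (P : NStackProg n p w), 1 ≤ p → p ≤ n →
    1 ≤ S → n ≤ 2 ^ S → w ≤ 2 ^ S → L + m * b ≤ n →
    ∃ Tr : Fin m → Fin m → Inp n → Fin (2 ^ (C * p * S)) → Prop,
      (∀ (i j : Fin m) (x y : Inp n) θ, i < j → Agree L b i j x y → Tr i j x θ → Tr i j y θ →
        Tr i j (mixIn L b j x y) θ) ∧
      (∀ (i j : Fin m) x θ, i < j → Tr i j x θ → P.Accepts x) ∧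
      (∀ x, P.Accepts x →
        {ij : Fin m × Fin m | ij.1 < ij.2 ∧ ¬ ∃ θ, Tr ij.1 ij.2 x θ}.ncard ≤ 2 * p * m) ∧
      (P.Det → ∀ (i j : Fin m) x θ θ', i < j → Tr i j x θ → Tr i j x θ' → θ = θ') := by
  refine ⟨642, fun n p w S L b m P hp hpn hS hn hw hL => ?_⟩
  have H : ∀ i j : Fin m, i < j → ∃ (ph : ℕ → ℕ) (lb : ℕ → Lab), Monotone ph ∧
      (∀ t, ph t ≤ 5 * p) ∧
      (∀ (t : ℕ) (h : t < p * n),
        (lb (ph t) = .a ↔ InBlk L b i (cell P.forward ⟨t, h⟩)) ∧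
        (lb (ph t) = .b ↔ InBlk L b j (cell P.forward ⟨t, h⟩))) ∧
      ∀ t, p * n ≤ t → lb (ph t) = .c := fun i j hij =>
    exists_phases n p L b m i j P.forward hij j.2 hL
  have : Inhabited Lab := ⟨.a⟩
  choose! ph lb hmono hle hlab hend using H
  obtain ⟨code, hinj, hlt⟩ := sk_codes w (p * n) (16 * p)
  have hsz : ∀ (i j : Fin m) (z : ℕ → Bool) (q r : Fin w) (s : Sk w), i < j →
      Dv P.rel (p * n) (ph i j) z ⟨0, q, none, p * n, r⟩ s →
      s.size ≤ 16 * p ∧ s.Bdd (p * n) := by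
    intro i j z q r s hij h
    refine ⟨?_, h.bdd⟩
    have h1 := h.size (hmono i j hij)
    have h2 := hle i j hij (p * n)
    dsimp only at h1
    omega
  refine ⟨fun i j x θ => ∃ q r s, P.start q ∧ P.acc r ∧
    Dv P.rel (p * n) (ph i j) (stream P.forward x) ⟨0, q, none, p * n, r⟩ s ∧
    s.Ok (lb i j) (ph i j) ∧
    ((q : ℕ) * w + (r : ℕ)) * ((p * n + 1) * (w + 1)) ^ (8 * (16 * p)) + code s = (θ : ℕ),
    ?_, ?_, ?_, ?_⟩
  · rintro i j x y θ hij hxy ⟨q, r, s, hq, hr, hd, hok, hc⟩ ⟨q', r', s', hq', hr', hd', hok', hc'⟩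
    obtain ⟨h1, h2⟩ := hsz i j _ q r s hij hd
    obtain ⟨h3, h4⟩ := hsz i j _ q' r' s' hij hd'
    obtain ⟨e1, e2, e3⟩ := T9_code_inj r.2 r'.2 (hlt s h1 h2) (hlt s' h3 h4) (hc.trans hc'.symm)
    have e4 := hinj s s' h1 h2 h3 h4 e3
    have e5 : q = q' := Fin.ext e1
    have e6 : r = r' := Fin.ext e2
    subst e4 e5 e6
    refine ⟨q, r, s, hq, hr, ?_, hok, hc⟩
    have h5 := Dv.mix (hmono i j hij) (lb i j)
      (agree_stream L b i j P.forward (ph i j) (lb i j) (hlab i j hij) x y hxy) hok hd hd'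
    rw [mixz_stream L b i j P.forward (ph i j) (lb i j)
      (fun t h => (hlab i j hij t h).2) x y] at h5
    exact h5
  · rintro i j x θ hij ⟨q, r, s, hq, hr, hd, hok, hc⟩
    obtain ⟨l, hl⟩ := hd.sound
    exact (accepts_iff P x).2 ⟨q, r, l, hq, hr, hl⟩
  · intro x hx
    obtain ⟨q, r, l, hq, hr, hpop⟩ := (accepts_iff P x).1 hx
    refine le_trans (Set.ncard_le_ncard ?_ (Set.toFinite _))
      (bad_pairs n p L b m P.forward hL l (fun y hy => (hpop.within y hy).2.1) hpop.noncross)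
    rintro ⟨i, j⟩ ⟨hij, hno⟩
    refine ⟨hij, ?_⟩
    by_contra hbad
    apply hno
    dsimp only at hij hbad ⊢
    have hl : ∀ y ∈ l, (lb i j (ph i j y.1)).Ok (lb i j (ph i j y.2)) := by
      intro y hy
      have key : ∀ t, lb i j (ph i j t) ≠ .c → t < p * n := by
        intro t ht
        by_contra h
        exact ht (hend i j hij t (not_lt.1 h))
      refine ⟨?_, ?_⟩
      · rintro ⟨ha, hb⟩
        have h1 := key y.1 (by rw [ha]; simp)
        have h2 := key y.2 (by rw [hb]; simp)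
        exact hbad ⟨y, hy, h1, h2, Or.inl ⟨((hlab i j hij y.1 h1).1).1 ha,
          ((hlab i j hij y.2 h2).2).1 hb⟩⟩
      · rintro ⟨hb, ha⟩
        have h1 := key y.1 (by rw [hb]; simp)
        have h2 := key y.2 (by rw [ha]; simp)
        exact hbad ⟨y, hy, h1, h2, Or.inr ⟨((hlab i j hij y.1 h1).2).1 hb,
          ((hlab i j hij y.2 h2).1).1 ha⟩⟩
    obtain ⟨s, hs, hok⟩ := hpop.exists_dv (hmono i j hij) (lb i j) hl
    obtain ⟨h1, h2⟩ := hsz i j _ q r s hij hs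
    exact ⟨⟨_, (T9_code_lt q.2 r.2 (hlt s h1 h2)).trans_le (T9_count hp hpn hS hn hw)⟩,
      q, r, s, hq, hr, hs, hok, rfl⟩
  · rintro hdet i j x θ θ' hij ⟨q, r, s, hq, hr, hd, hok, hc⟩ ⟨q', r', s', hq', hr', hd', hok', hc'⟩
    have e1 : q = q' := hdet.2 q q' hq hq'
    subst e1
    obtain ⟨l, hl⟩ := hd.sound
    obtain ⟨l', hl'⟩ := hd'.sound
    have e2 : r = r' := (hl.det (T9_rel_det hdet) hl').2.1
    subst e2
    have e3 : s = s' := Dv.det (T9_rel_det hdet) (hmono i j hij) hd hd'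
    subst e3
    exact Fin.ext (hc.symm.trans hc')

end Pool.Agent.ST
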