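import Mathlib
import Pool.Agent.Lib.MP_b573ec_lc_ST.Core
import Pool.Agent.Lib.MP_b573ec_lc_ST.Runs
import Pool.Agent.Lib.MP_b573ec_lc_ST.Skel
import Pool.Agent.Lib.MP_b573ec_lc_ST.SkelDet
import Pool.Agent.Lib.MP_b573ec_lc_ST.Codes
import Pool.Agent.Lib.MP_b573ec_lc_ST.Phases
import Pool.Agent.Lib.MP_b573ec_lc_ST.Trans
import Pool.Agent.Lib.MP_b573ec_lc_ST.LinMix

/-!
# Three blocks: the inputs accepted by a stack program are covered by few star-closed sets

The cells are divided into three blocks `[0, a)`, `[a, b)`, `[b, n)`.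
-/

namespace Pool.Agent.ST

open Pool.Agent.LT (Inp)

/-- the block of the cell `c`: `0` for `c < a`, `1` for `a ≤ c < b`, `2` for the others -/
def blk3 (a b c : ℕ) : ℕ := if c < a then 0 else if c < b then 1 else 2

/-- `A` is closed under stars: an input `u` belongs to `A` if for each of the three blocks `A`
contains an input which agrees with `u` outside this block -/
def StarClosed {n : ℕ} (a b : ℕ) (A : Inp n → Prop) : Prop :=
  ∀ (u : Inp n) (v : Fin 3 → Inp n),
    (∀ (k : Fin 3) (c : Fin n), blk3 a b c ≠ k → v k c = u c) → (∀ k, A (v k)) → A u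

theorem blk3_le (a b c : ℕ) : blk3 a b c ≤ 2 := by
  unfold blk3
  split_ifs <;> omega

theorem blk3_mono {a b c c' : ℕ} (h : c ≤ c') : blk3 a b c ≤ blk3 a b c' := by
  unfold blk3
  split_ifs <;> omega

/-- the cell of the time `t` -/
theorem Lin_cell {n p : ℕ} (forward : Fin p → Bool) (t : ℕ) (h : t < p * n) :
    ((cell forward ⟨t, h⟩ : Fin n) : ℕ) =
      if T7_fw forward (t / n) then t % n else n - (t % n + 1) := by
  have h1 : t / n < p := T7_div_lt h
  unfold cell T7_fw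
  rw [dif_pos h1]
  have h2 : (⟨t, h⟩ : Fin (p * n)).divNat = ⟨t / n, h1⟩ := by
    apply Fin.ext
    simp [Fin.divNat]
  rw [h2]
  split_ifs
  · simp [Fin.modNat]
  · simp [Fin.modNat, Fin.rev]

/-- the phases: in every pass each of the three blocks is a phase -/
def Lin_ph {p : ℕ} (n a b : ℕ) (forward : Fin p → Bool) (t : ℕ) : ℕ :=
  if t < p * n then 3 * (t / n) + (if T7_fw forward (t / n) then blk3 a b (t % n)
    else 2 - blk3 a b (n - (t % n + 1))) else 3 * p

/-- the block of a phase -/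
def Lin_lb {p : ℕ} (forward : Fin p → Bool) (s : ℕ) : ℕ :=
  if T7_fw forward (s / 3) then s % 3 else 2 - s % 3

theorem Lin_idx_le (n a b o : ℕ) (fw : Bool) :
    (if fw then blk3 a b o else 2 - blk3 a b (n - (o + 1))) ≤ 2 := by
  have := blk3_le a b o
  split_ifs <;> omega

theorem Lin_ph_le {p : ℕ} (n a b : ℕ) (forward : Fin p → Bool) (t : ℕ) :
    Lin_ph n a b forward t ≤ 3 * p := by
  unfold Lin_ph
  split_ifs with h
  · have h1 := T7_div_lt h
    have h2 := blk3_le a b (t % n)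
    omega
  · have h1 := T7_div_lt h
    omega
  · exact le_rfl

theorem Lin_ph_mono {p : ℕ} (n a b : ℕ) (forward : Fin p → Bool) :
    Monotone (Lin_ph n a b forward) := by
  intro t t' htt
  by_cases h' : t' < p * n
  · have h : t < p * n := lt_of_le_of_lt htt h'
    unfold Lin_ph
    rw [if_pos h, if_pos h']
    have h1 : t / n ≤ t' / n := Nat.div_le_div_right htt
    rcases Nat.lt_or_eq_of_le h1 with h2 | h2
    · have h3 := Lin_idx_le n a b (t % n) (T7_fw forward (t / n))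
      omega
    · rw [h2]
      have h3 : t % n ≤ t' % n := by
        have e1 := Nat.div_add_mod t n
        have e2 := Nat.div_add_mod t' n
        rw [h2] at e1
        omega
      have h4 := blk3_mono (a := a) (b := b) h3
      have h5 : n - (t' % n + 1) ≤ n - (t % n + 1) := by omega
      have h6 := blk3_mono (a := a) (b := b) h5
      split_ifs <;> omega
  · have h1 := Lin_ph_le n a b forward t
    have h2 : Lin_ph n a b forward t' = 3 * p := by
      unfold Lin_ph
      rw [if_neg h']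
    omega

theorem Lin_lb_ph {n p : ℕ} (a b : ℕ) (forward : Fin p → Bool) (t : ℕ) (h : t < p * n) :
    Lin_lb forward (Lin_ph n a b forward t) = blk3 a b (cell forward ⟨t, h⟩ : Fin n) := by
  rw [Lin_cell]
  unfold Lin_ph
  rw [if_pos h]
  have h1 := Lin_idx_le n a b (t % n) (T7_fw forward (t / n))
  unfold Lin_lb
  have h2 : (3 * (t / n) + (if T7_fw forward (t / n) then blk3 a b (t % n)
    else 2 - blk3 a b (n - (t % n + 1)))) / 3 = t / n := by omega
  have h3 : (3 * (t / n) + (if T7_fw forward (t / n) then blk3 a b (t % n)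
    else 2 - blk3 a b (n - (t % n + 1)))) % 3 = (if T7_fw forward (t / n) then blk3 a b (t % n)
    else 2 - blk3 a b (n - (t % n + 1))) := by omega
  rw [h2, h3]
  have h4 := blk3_le a b (n - (t % n + 1))
  split_ifs <;> omega

/-- the cover of the accepted inputs by star-closed sets; for deterministic programs they are
disjoint -/
theorem lin_cover_det : ∃ C : ℕ, ∀ (n p w S a b : ℕ) (P : NStackProg n p w), 1 ≤ p → p ≤ n →
    1 ≤ S → n ≤ 2 ^ S → w ≤ 2 ^ S →
    ∃ Tr : Fin (2 ^ (C * p * S)) → Inp n → Prop, (∀ θ, StarClosed a b (Tr θ)) ∧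
      (∀ x, P.Accepts x ↔ ∃ θ, Tr θ x) ∧
      (P.Det → ∀ x θ θ', Tr θ x → Tr θ' x → θ = θ') := by
  refine ⟨642, fun n p w S a b P hp hpn hS hn hw => ?_⟩
  set ph := Lin_ph n a b P.forward with hphdef
  have hmono : Monotone ph := Lin_ph_mono n a b P.forward
  obtain ⟨code, hinj, hlt⟩ := sk_codes w (p * n) (16 * p)
  have hsz : ∀ (z : ℕ → Bool) (q r : Fin w) (s : Sk w),
      Dv P.rel (p * n) ph z ⟨0, q, none, p * n, r⟩ s → s.size ≤ 16 * p ∧ s.Bdd (p * n) := by
    intro z q r s h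
    refine ⟨?_, h.bdd⟩
    have h1 := h.size hmono
    have h2 : ph (p * n) ≤ 3 * p := Lin_ph_le n a b P.forward (p * n)
    dsimp only at h1
    omega
  refine ⟨fun θ x => ∃ q r s, P.start q ∧ P.acc r ∧
    Dv P.rel (p * n) ph (stream P.forward x) ⟨0, q, none, p * n, r⟩ s ∧
    ((q : ℕ) * w + (r : ℕ)) * ((p * n + 1) * (w + 1)) ^ (8 * (16 * p)) + code s = (θ : ℕ),
    ?_, ?_, ?_⟩
  · intro θ u v huv hv
    obtain ⟨q, r, s, hq, hr, hd, hc⟩ := hv 0
    refine ⟨q, r, s, hq, hr, ?_, hc⟩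
    refine Dv.star hmono (fun k : Fin 3 => stream P.forward (v k)) ?_ s _ ?_
    · intro Q1 Q2
      have hk : ∃ k : Fin 3, (k : ℕ) ≠ Lin_lb P.forward Q1 ∧ (k : ℕ) ≠ Lin_lb P.forward Q2 := by
        by_cases h0 : 0 ≠ Lin_lb P.forward Q1 ∧ 0 ≠ Lin_lb P.forward Q2
        · exact ⟨0, h0⟩
        by_cases h1 : 1 ≠ Lin_lb P.forward Q1 ∧ 1 ≠ Lin_lb P.forward Q2
        · exact ⟨1, h1⟩
        refine ⟨2, ?_⟩
        show 2 ≠ Lin_lb P.forward Q1 ∧ 2 ≠ Lin_lb P.forward Q2
        omega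
      obtain ⟨k, hk1, hk2⟩ := hk
      refine ⟨k, fun s hs hQ => ?_⟩
      show stream P.forward (v k) s = stream P.forward u s
      unfold stream
      rw [dif_pos hs, dif_pos hs]
      refine huv k _ ?_
      rw [← Lin_lb_ph a b P.forward s hs]
      rcases hQ with hQ | hQ
      · rw [← hQ] at hk1
        exact hk1.symm
      · rw [← hQ] at hk2
        exact hk2.symm
    · intro k
      obtain ⟨q', r', s', hq', hr', hd', hc'⟩ := hv k
      obtain ⟨h1, h2⟩ := hsz _ q r s hd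
      obtain ⟨h3, h4⟩ := hsz _ q' r' s' hd'
      obtain ⟨e1, e2, e3⟩ := T9_code_inj r.2 r'.2 (hlt s h1 h2) (hlt s' h3 h4)
        (hc.trans hc'.symm)
      have e4 := hinj s s' h1 h2 h3 h4 e3
      have e5 : q = q' := Fin.ext e1
      have e6 : r = r' := Fin.ext e2
      subst e4 e5 e6
      exact hd'
  · intro x
    constructor
    · intro hx
      obtain ⟨q, r, l, hq, hr, hpop⟩ := (accepts_iff P x).1 hx
      obtain ⟨s, hs, -⟩ := hpop.exists_dv hmono (fun _ => Lab.c)
        (fun _ _ => by unfold Lab.Ok; simp)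
      obtain ⟨h1, h2⟩ := hsz _ q r s hs
      exact ⟨⟨_, (T9_code_lt q.2 r.2 (hlt s h1 h2)).trans_le (T9_count hp hpn hS hn hw)⟩,
        q, r, s, hq, hr, hs, rfl⟩
    · rintro ⟨θ, q, r, s, hq, hr, hd, -⟩
      obtain ⟨l, hl⟩ := hd.sound
      exact (accepts_iff P x).2 ⟨q, r, l, hq, hr, hl⟩
  · rintro hdet x θ θ' ⟨q, r, s, hq, hr, hd, hc⟩ ⟨q', r', s', hq', hr', hd', hc'⟩
    have e1 : q = q' := hdet.2 q q' hq hq'
    subst e1
    obtain ⟨l, hl⟩ := hd.sound
    obtain ⟨l', hl'⟩ := hd'.sound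
    have e2 : r = r' := (hl.det (T9_rel_det hdet) hl').2.1
    subst e2
    have e3 : s = s' := Dv.det (T9_rel_det hdet) hmono hd hd'
    subst e3
    exact Fin.ext (hc.symm.trans hc')

theorem lin_cover : ∃ C : ℕ, ∀ (n p w S a b : ℕ) (P : NStackProg n p w), 1 ≤ p → p ≤ n →
    1 ≤ S → n ≤ 2 ^ S → w ≤ 2 ^ S →
    ∃ Tr : Fin (2 ^ (C * p * S)) → Inp n → Prop, (∀ θ, StarClosed a b (Tr θ)) ∧
      ∀ x, P.Accepts x ↔ ∃ θ, Tr θ x := by
  obtain ⟨C, hC⟩ := lin_cover_det
  refine ⟨C, fun n p w S a b P hp hpn hS hn hw => ?_⟩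
  obtain ⟨Tr, h1, h2, -⟩ := hC n p w S a b P hp hpn hS hn hw
  exact ⟨Tr, h1, h2⟩

end Pool.Agent.ST
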