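import Pool.Agent.Lib.MP_b573ec_lc_ST.LinDefs
import Pool.Agent.Lib.MP_b573ec_lc_ST.LinCount
import Pool.Agent.Lib.MP_b573ec_lc_ST.LinTrans
import Pool.Agent.Lib.MP_b573ec_lc_ST.Runs

/-! # The lower bound for `langC` and its complement -/

set_option autoImplicit false

namespace Pool.Agent.ST

open Pool.Agent.LT (Inp)

namespace Lin

/-- extension of a finite word by zeros -/
def ext {M : ℕ} (x : Fin M → Bool) (i : ℕ) : Bool := if h : i < M then x ⟨i, h⟩ else false

/-- the input with the three blocks `x`, `y`, `z` -/
def enc3 (n : ℕ) {M : ℕ} (x y z : Fin M → Bool) : Inp n := fun c =>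
  if (c : ℕ) < n / 3 then ext x c
  else if (c : ℕ) < 2 * (n / 3) then ext y ((c : ℕ) - n / 3)
  else ext z ((c : ℕ) - 2 * (n / 3))

theorem ext_ge {M : ℕ} (x : Fin M → Bool) {i : ℕ} (h : M ≤ i) : ext x i = false := by
  unfold ext
  rw [dif_neg (by omega)]

theorem getBit_enc_x (n : ℕ) {M : ℕ} (x y z : Fin M → Bool) {i : ℕ} (h : i < n / 3) :
    getBit (enc3 n x y z) i = ext x i := by
  unfold getBit enc3
  rw [dif_pos (by omega)]
  dsimp only
  rw [if_pos h]

theorem getBit_enc_y (n : ℕ) {M : ℕ} (x y z : Fin M → Bool) {i : ℕ} (h : i < n / 3) :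
    getBit (enc3 n x y z) (n / 3 + i) = ext y i := by
  unfold getBit enc3
  rw [dif_pos (by omega)]
  dsimp only
  rw [if_neg (by omega), if_pos (by omega)]
  congr 1
  omega

theorem getBit_enc_z (n : ℕ) {M : ℕ} (x y z : Fin M → Bool) {i : ℕ} (h : i < n / 3) :
    getBit (enc3 n x y z) (2 * (n / 3) + i) = ext z i := by
  unfold getBit enc3
  rw [dif_pos (by omega)]
  dsimp only
  rw [if_neg (by omega), if_neg (by omega)]
  congr 1
  omega

theorem grp_eq {g : ℕ} (x y z : Fin (20 * g) → Bool) {t : ℕ} (ht : t < g) :
    grp x y z t = ∑ k ∈ Finset.range 20,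
      (ext x (20 * t + k) && ext y (20 * t + k) && ext z (20 * t + k)).toNat := by
  unfold grp
  symm
  refine Finset.sum_bij (fun k hk => (⟨20 * t + k, by
    have := Finset.mem_range.mp hk; omega⟩ : Fin (20 * g))) ?_ ?_ ?_ ?_
  · intro k hk
    have hk' := Finset.mem_range.mp hk
    simp only [Finset.mem_filter, Finset.mem_univ, true_and]
    omega
  · intro k _ k' _ h
    have := congrArg Fin.val h
    dsimp only at this
    omega
  · intro s hs
    simp only [Finset.mem_filter, Finset.mem_univ, true_and] at hs
    refine ⟨(s : ℕ) - 20 * t, ?_, ?_⟩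
    · rw [Finset.mem_range]; omega
    · apply Fin.ext
      dsimp only
      omega
  · intro k hk
    have hk' := Finset.mem_range.mp hk
    have h : 20 * t + k < 20 * g := by omega
    simp only [ext, dif_pos h]

theorem langC_enc {n : ℕ} (x y z : Fin (20 * (n / 3 / 20)) → Bool) :
    langC n (enc3 n x y z) = false ↔ Zero x y z := by
  unfold langC Zero
  rw [decide_eq_false_iff_not]
  push Not
  refine forall_congr' fun t => forall_congr' fun ht => ?_
  rw [grp_eq x y z ht]
  have h : ∀ k ∈ Finset.range 20,
      (getBit (enc3 n x y z) (20 * t + k) && getBit (enc3 n x y z) (n / 3 + (20 * t + k)) &&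
        getBit (enc3 n x y z) (2 * (n / 3) + (20 * t + k))).toNat =
      (ext x (20 * t + k) && ext y (20 * t + k) && ext z (20 * t + k)).toNat := by
    intro k hk
    have hk' := Finset.mem_range.mp hk
    have h1 : 20 * t + k < n / 3 := by omega
    rw [getBit_enc_x n x y z h1, getBit_enc_y n x y z h1, getBit_enc_z n x y z h1]
  rw [Finset.sum_congr rfl h]
  omega

end Lin

open Lin

theorem lowerC : ∃ C : ℕ, ∀ n p S w : ℕ, 1 ≤ p → 1 ≤ S → n ≤ 2 ^ S → w ≤ 2 ^ S →
    C * p * S ≤ n → ¬ StackNondet (fun x => !langC n x) p w ∧ ¬ StackDet (langC n) p w := by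
  obtain ⟨C0, hC0⟩ := lin_cover
  refine ⟨60 * (C0 + 2), fun n p S w hp hS hn hw hC => ?_⟩
  have hpS : 1 ≤ p * S := Nat.mul_pos hp hS
  have hpS' : p ≤ p * S := Nat.le_mul_of_pos_right p hS
  have hC' : 60 * ((C0 + 2) * (p * S)) ≤ n := by
    calc 60 * ((C0 + 2) * (p * S)) = 60 * (C0 + 2) * p * S := by ring
      _ ≤ n := hC
  have hpn : p ≤ n := by
    have : p * S ≤ 60 * ((C0 + 2) * (p * S)) := by nlinarith
    omega
  have key : ¬ StackNondet (fun x => !langC n x) p w := by
    rintro ⟨P, hP⟩
    obtain ⟨Tr, hst, hcov⟩ := hC0 n p w S (n / 3) (2 * (n / 3)) P hp hpn hS hn hw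
    have hle := no_cover (n / 3 / 20) (2 ^ (C0 * p * S))
      (fun θ => {q | Tr θ (enc3 n q.1 q.2.1 q.2.2)})
      (by
        intro θ x x' y y' z z' h1 h2 h3
        refine hst θ (enc3 n x y z)
          (fun k => if k = 0 then enc3 n x' y z else if k = 1 then enc3 n x y' z
            else enc3 n x y z') ?_ ?_
        · intro k c hk
          unfold blk3 at hk
          fin_cases k
          · show enc3 n x' y z c = enc3 n x y z c
            unfold enc3
            have : ¬ ((c : ℕ) < n / 3) := by
              intro h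
              rw [if_pos h] at hk
              exact hk rfl
            rw [if_neg this, if_neg this]
          · show enc3 n x y' z c = enc3 n x y z c
            unfold enc3
            by_cases h : (c : ℕ) < n / 3
            · rw [if_pos h, if_pos h]
            · rw [if_neg h, if_neg h]
              have : ¬ ((c : ℕ) < 2 * (n / 3)) := by
                intro h'
                rw [if_neg h, if_pos h'] at hk
                exact hk rfl
              rw [if_neg this, if_neg this]
          · show enc3 n x y z' c = enc3 n x y z c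
            unfold enc3
            by_cases h : (c : ℕ) < n / 3
            · rw [if_pos h, if_pos h]
            · by_cases h' : (c : ℕ) < 2 * (n / 3)
              · rw [if_neg h, if_neg h, if_pos h', if_pos h']
              · rw [if_neg h, if_neg h'] at hk
                exact absurd rfl hk
        · intro k
          fin_cases k
          · exact h1
          · exact h2
          · exact h3)
      (by
        intro θ x y z h
        have h1 : P.Accepts (enc3 n x y z) := (hcov _).mpr ⟨θ, h⟩
        have h2 := (hP _).mpr h1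
        rw [Bool.not_eq_true'] at h2
        exact (langC_enc x y z).mp h2)
      (by
        intro x y z h
        have h1 := (langC_enc x y z).mpr h
        have h2 : P.Accepts (enc3 n x y z) := (hP _).mp (by simp [h1])
        exact (hcov _).mp h2)
    have h1 := (Nat.pow_le_pow_iff_right (by norm_num : 1 < 2)).mp hle
    have h2 : (C0 + 2) * (p * S) ≤ n / 3 / 20 := by
      rw [Nat.div_div_eq_div_mul, Nat.le_div_iff_mul_le (by norm_num)]
      calc (C0 + 2) * (p * S) * (3 * 20) = 60 * ((C0 + 2) * (p * S)) := by ring
        _ ≤ n := hC'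
    have h3 : C0 * p * S = C0 * (p * S) := by ring
    rw [h3] at h1
    have h4 : (C0 + 2) * (p * S) = C0 * (p * S) + 2 * (p * S) := by ring
    omega
  refine ⟨key, ?_⟩
  rintro ⟨P, hP⟩
  refine key ⟨P.toN false, fun x => ?_⟩
  rw [toN_accepts]
  constructor
  · intro h
    rw [Bool.not_eq_true'] at h
    have := hP x
    rwa [h] at this
  · intro h
    rw [Bool.not_eq_true']
    exact outputs_unique P x (hP x) h

end Pool.Agent.ST
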