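import Pool.Agent.Lib.MP_b573ec_lc_ST.Model

/-! # The language `langC` -/

set_option autoImplicit false

namespace Pool.Agent.ST

open Pool.Agent.LT (Inp)

/-- The language `langC`: the input has three blocks `x`, `y`, `z` of `N = ⌊n / 3⌋` bits (the
remaining bits do not matter), and the positions `0, ..., N - 1` are cut into groups of `20`; the
input belongs to the language if for some group `t < ⌊N / 20⌋` the number of positions `i` of this
group with `x i = y i = z i = 1` is odd. -/
def langC (n : ℕ) (x : Inp n) : Bool :=
  decide (∃ t < n / 3 / 20, (∑ k ∈ Finset.range 20,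
    (getBit x (20 * t + k) && getBit x (n / 3 + (20 * t + k)) &&
      getBit x (2 * (n / 3) + (20 * t + k))).toNat) % 2 = 1)

end Pool.Agent.ST
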