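import Mathlib
import Pool.Agent.Lib.MP_b573ec_lc_ST.Model

/-!
# SPASS B8: nondeterministic one-pass programs for `langB`

The program guesses the position `t` and counts, modulo `3`, the ones in the entries `2 * t` and
`2 * t + 1` of all blocks.
-/

namespace Pool.Agent.ST

open Pool.Agent.LT (Inp NondetOnePass NProg)

/-- the states of a deterministic run from the state `s` -/
def B8_path {n : ℕ} {S : Type} (step : ℕ → S → Bool → S) (x : Inp n) (s : S) : ℕ → S
  | 0 => s
  | k + 1 => step k (B8_path step x s k) (getBit x k)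

theorem B8_nondet {n : ℕ} {S : Type} [Fintype S] (f : Inp n → Bool) (start : S → Prop)
    (step : ℕ → S → Bool → S) (acc : S → Prop)
    (h : ∀ x, f x = true ↔ ∃ s, start s ∧ acc (B8_path step x s n)) :
    NondetOnePass f (Fintype.card S) := by
  classical
  let e := Fintype.equivFin S
  refine ⟨⟨fun i => start (e.symm i), fun i _ => i,
    fun i s b s' => e.symm s' = step i (e.symm s) b, fun s => acc (e.symm s)⟩,
    fun _ _ => rfl, fun x => ?_⟩
  rw [h]
  constructor
  · rintro ⟨s, hs, ha⟩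
    refine ⟨fun k => e (B8_path step x s k), ?_, ?_, ?_⟩
    · simpa [B8_path] using hs
    · intro i
      simp [B8_path, getBit]
    · simpa using ha
  · rintro ⟨p, hp, hi, ha⟩
    refine ⟨e.symm (p 0), hp, ?_⟩
    have key : ∀ k ≤ n, e.symm (p k) = B8_path step x (e.symm (p 0)) k := by
      intro k
      induction k with
      | zero => intro _; rfl
      | succ k ih =>
        intro hk
        have h1 := hi ⟨k, hk⟩
        have h2 := ih (by omega)
        simp only at h1
        rw [h1, h2]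
        simp [B8_path, getBit, show k < n from hk]
    rw [← key n le_rfl]
    exact ha

theorem B8_sum_mul (m b : ℕ) (f : ℕ → ℕ) :
    ∑ c ∈ Finset.range (m * b), f c = ∑ i ∈ Finset.range m, ∑ j ∈ Finset.range b, f (i * b + j) := by
  induction m with
  | zero => simp
  | succ m ih =>
    rw [Nat.succ_mul, Finset.sum_range_add, ih, Finset.sum_range_succ]

theorem B8_inner (b t : ℕ) (ht : t < b / 2) (f : ℕ → ℕ) :
    ∑ j ∈ Finset.range b, (if j / 2 = t then f j else 0) = f (2 * t) + f (2 * t + 1) := by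
  have h1 : ∑ j ∈ Finset.range b, (if j / 2 = t then f j else 0)
      = ∑ j ∈ ({2 * t, 2 * t + 1} : Finset ℕ), f j := by
    rw [← Finset.sum_filter]
    apply Finset.sum_congr _ (fun _ _ => rfl)
    ext j
    simp only [Finset.mem_filter, Finset.mem_range, Finset.mem_insert, Finset.mem_singleton]
    omega
  rw [h1, Finset.sum_pair (by omega)]

/-- the step of the program for `langB` -/
def B8_step (n : ℕ) (k : ℕ) (s : Fin n × Fin (Nat.log 2 n + 1) × ZMod 3) (b : Bool) :
    Fin n × Fin (Nat.log 2 n + 1) × ZMod 3 :=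
  if k < Nat.log 2 n then
    (s.1, (⟨min (s.2.1 + b.toNat) (Nat.log 2 n), by omega⟩, s.2.2))
  else if k - Nat.log 2 n < 2 ^ (s.2.1 : ℕ) * ((n - Nat.log 2 n) / 2 ^ (s.2.1 : ℕ)) ∧
      (k - Nat.log 2 n) % ((n - Nat.log 2 n) / 2 ^ (s.2.1 : ℕ)) / 2 = s.1 then
    (s.1, (s.2.1, s.2.2 + (b.toNat : ZMod 3)))
  else s

theorem B8_first {n : ℕ} (x : Inp n) (t : Fin n) (k : ℕ) (hk : k ≤ Nat.log 2 n) :
    (B8_path (B8_step n) x (t, (0, 0)) k).1 = t ∧
    ((B8_path (B8_step n) x (t, (0, 0)) k).2.1 : ℕ) = ∑ i ∈ Finset.range k, (getBit x i).toNat ∧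
    (B8_path (B8_step n) x (t, (0, 0)) k).2.2 = 0 := by
  induction k with
  | zero => simp [B8_path]
  | succ k ih =>
    obtain ⟨h1, h2, h3⟩ := ih (by omega)
    have hk' : k < Nat.log 2 n := hk
    have hle : ∑ i ∈ Finset.range k, (getBit x i).toNat ≤ k := by
      calc ∑ i ∈ Finset.range k, (getBit x i).toNat ≤ ∑ _i ∈ Finset.range k, 1 :=
            Finset.sum_le_sum fun i _ => Bool.toNat_le _
        _ = k := by simp
    have hb : (getBit x k).toNat ≤ 1 := Bool.toNat_le _
    simp only [B8_path, B8_step, hk', if_true]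
    refine ⟨h1, ?_, h3⟩
    rw [Finset.sum_range_succ, h2]
    omega

theorem B8_second {n : ℕ} (x : Inp n) (t : Fin n) (k : ℕ) :
    (B8_path (B8_step n) x (t, (0, 0)) (Nat.log 2 n + k)).1 = t ∧
    ((B8_path (B8_step n) x (t, (0, 0)) (Nat.log 2 n + k)).2.1 : ℕ) = expo n x ∧
    (B8_path (B8_step n) x (t, (0, 0)) (Nat.log 2 n + k)).2.2 =
      ((∑ c ∈ Finset.range k, if c < numBlocks n x * blockLen n x ∧
        c % blockLen n x / 2 = t then (getBit x (Nat.log 2 n + c)).toNat else 0 : ℕ) : ZMod 3) := by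
  induction k with
  | zero =>
    obtain ⟨h1, h2, h3⟩ := B8_first x t (Nat.log 2 n) le_rfl
    simpa [expo] using ⟨h1, h2, h3⟩
  | succ k ih =>
    obtain ⟨h1, h2, h3⟩ := ih
    have hk' : ¬ (Nat.log 2 n + k < Nat.log 2 n) := by omega
    rw [← Nat.add_assoc]
    simp only [B8_path, B8_step, hk', if_false, Nat.add_sub_cancel_left]
    rw [h1, h2, Finset.sum_range_succ]
    simp only [numBlocks, blockLen] at h3 ⊢
    by_cases hc : k < 2 ^ expo n x * ((n - Nat.log 2 n) / 2 ^ expo n x) ∧
        k % ((n - Nat.log 2 n) / 2 ^ expo n x) / 2 = (t : ℕ)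
    · rw [if_pos hc, if_pos hc]
      refine ⟨rfl, h2, ?_⟩
      simp only
      rw [h3]
      push_cast
      rfl
    · rw [if_neg hc, if_neg hc]
      refine ⟨h1, h2, ?_⟩
      rw [h3]
      push_cast
      simp

theorem B8_count {n : ℕ} (x : Inp n) (t : ℕ) (ht : t < blockLen n x / 2) :
    (∑ c ∈ Finset.range (n - Nat.log 2 n), if c < numBlocks n x * blockLen n x ∧
        c % blockLen n x / 2 = t then (getBit x (Nat.log 2 n + c)).toNat else 0) =
    ∑ i ∈ Finset.range (numBlocks n x),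
      ((blockBit n x i (2 * t)).toNat + (blockBit n x i (2 * t + 1)).toNat) := by
  set b := blockLen n x with hb
  set m := numBlocks n x with hm
  have hmb : m * b ≤ n - Nat.log 2 n := by
    rw [hb, blockLen, ← hm, Nat.mul_comm]
    exact Nat.div_mul_le_self _ _
  have h1 : (∑ c ∈ Finset.range (n - Nat.log 2 n), if c < m * b ∧
        c % b / 2 = t then (getBit x (Nat.log 2 n + c)).toNat else 0) =
      ∑ c ∈ Finset.range (m * b), if c % b / 2 = t then (getBit x (Nat.log 2 n + c)).toNat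
        else 0 := by
    rw [← Finset.sum_subset (Finset.range_subset_range.2 hmb)]
    · refine Finset.sum_congr rfl fun c hc => ?_
      rw [Finset.mem_range] at hc
      simp [hc]
    · intro c _ hc
      rw [Finset.mem_range] at hc
      simp [hc]
  rw [h1, B8_sum_mul]
  refine Finset.sum_congr rfl fun i _ => ?_
  have h2 : ∀ j ∈ Finset.range b, (if (i * b + j) % b / 2 = t then
      (getBit x (Nat.log 2 n + (i * b + j))).toNat else 0) =
      if j / 2 = t then (blockBit n x i j).toNat else 0 := by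
    intro j hj
    rw [Finset.mem_range] at hj
    have h3 : (i * b + j) % b = j := by
      rw [Nat.add_comm, Nat.add_mul_mod_self_right, Nat.mod_eq_of_lt hj]
    rw [h3, blockBit, ← hb, Nat.add_assoc]
  rw [Finset.sum_congr rfl h2]
  exact B8_inner b t ht fun j => (blockBit n x i j).toNat

theorem B8_cast (a : ℕ) : (a : ZMod 3) = 2 ↔ a % 3 = 2 := by
  have h := ZMod.natCast_eq_natCast_iff a 2 3
  rw [Nat.cast_ofNat] at h
  rw [h, Nat.ModEq]

theorem upperB : ∃ C : ℕ, ∀ n ≥ 1, ∃ w ≤ C * n ^ 2, NondetOnePass (langB n) w := by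
  refine ⟨3, fun n hn => ⟨Fintype.card (Fin n × Fin (Nat.log 2 n + 1) × ZMod 3), ?_, ?_⟩⟩
  · simp only [Fintype.card_prod, Fintype.card_fin, ZMod.card]
    have h1 : Nat.log 2 n + 1 ≤ n := Nat.log_lt_of_lt_pow (by omega) Nat.lt_two_pow_self
    nlinarith [Nat.mul_le_mul_left n h1]
  · refine B8_nondet (langB n) (fun s => s.2 = (0, 0)) (B8_step n)
      (fun s => (s.1 : ℕ) < (n - Nat.log 2 n) / 2 ^ (s.2.1 : ℕ) / 2 ∧ s.2.2 = 2) fun x => ?_
    have hL : Nat.log 2 n ≤ n := Nat.log_le_self 2 n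
    have hpath : ∀ t : Fin n,
        ((((B8_path (B8_step n) x (t, (0, 0)) n).1 : Fin n) : ℕ) <
          (n - Nat.log 2 n) / 2 ^ ((B8_path (B8_step n) x (t, (0, 0)) n).2.1 : ℕ) / 2 ∧
          (B8_path (B8_step n) x (t, (0, 0)) n).2.2 = 2) ↔
        ((t : ℕ) < blockLen n x / 2 ∧ (∑ i ∈ Finset.range (numBlocks n x),
          ((blockBit n x i (2 * t)).toNat + (blockBit n x i (2 * t + 1)).toNat)) % 3 = 2) := by
      intro t
      obtain ⟨h1, h2, h3⟩ := B8_second x t (n - Nat.log 2 n)
      rw [Nat.add_sub_cancel' hL] at h1 h2 h3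
      rw [h1, h2, h3]
      constructor
      · rintro ⟨ha, hb⟩
        have ha' : (t : ℕ) < blockLen n x / 2 := ha
        refine ⟨ha', ?_⟩
        rw [B8_cast, B8_count x t ha'] at hb
        exact hb
      · rintro ⟨ha, hb⟩
        refine ⟨ha, ?_⟩
        rw [B8_cast, B8_count x t ha]
        exact hb
    simp only [langB, decide_eq_true_eq]
    constructor
    · rintro ⟨t, ht, hs⟩
      have htn : t < n := by
        have : blockLen n x ≤ n := (Nat.div_le_self _ _).trans (Nat.sub_le _ _)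
        omega
      exact ⟨(⟨t, htn⟩, (0, 0)), rfl, (hpath ⟨t, htn⟩).2 ⟨ht, hs⟩⟩
    · rintro ⟨⟨t, s⟩, hs, ha⟩
      simp only at hs
      subst hs
      exact ⟨t, (hpath t).1 ha⟩

end Pool.Agent.ST
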