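import Mathlib
import Pool.Agent.Lib.MP_b573ec_lc_ST.LinDefs
import Pool.Agent.Lib.MP_b573ec_lc_ST.UpperB

/-!
# Nondeterministic one-pass programs for `langC`

The program guesses the group `t`, stores the `20` bits of this group of the first block, replaces
them by their products with the bits of the second block, and counts modulo `2` the products with
the bits of the third block.
-/

namespace Pool.Agent.ST

open Pool.Agent.LT (Inp NondetOnePass)

/-- the states of the program for `langC`: group, stored bits, counter -/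
abbrev LU_S (n : ℕ) := Fin n × (Fin 20 → Bool) × ZMod 2

/-- remainder modulo `20` -/
def LU_i (m : ℕ) : Fin 20 := ⟨m % 20, Nat.mod_lt _ (by norm_num)⟩

/-- the step of the program for `langC` -/
def LU_step (n : ℕ) (k : ℕ) (s : LU_S n) (b : Bool) : LU_S n :=
  if k < n / 3 then
    (if k / 20 = s.1 then (s.1, (fun j => if (j : ℕ) = k % 20 then b else s.2.1 j), s.2.2) else s)
  else if k < 2 * (n / 3) then
    (if (k - n / 3) / 20 = s.1 then
      (s.1, (fun j => if (j : ℕ) = (k - n / 3) % 20 then s.2.1 j && b else s.2.1 j), s.2.2)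
    else s)
  else if k < 3 * (n / 3) then
    (if (k - 2 * (n / 3)) / 20 = s.1 then
      (s.1, s.2.1, s.2.2 +
        ((s.2.1 (LU_i (k - 2 * (n / 3))) && b).toNat : ZMod 2))
    else s)
  else s

theorem LU_first {n : ℕ} (x : Inp n) (t : Fin n) (k : ℕ) (hk : k ≤ n / 3) :
    B8_path (LU_step n) x (t, ((fun _ => false), 0)) k =
      (t, ((fun j : Fin 20 => if 20 * (t : ℕ) + j < k then getBit x (20 * t + j) else false), 0)) := by
  induction k with
  | zero => simp [B8_path]
  | succ k ih =>
    have hk' : k < n / 3 := hk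
    rw [B8_path, ih hk'.le]
    unfold LU_step
    rw [if_pos hk']
    by_cases h : k / 20 = (t : ℕ)
    · rw [if_pos h]
      refine Prod.ext rfl (Prod.ext ?_ rfl)
      funext j
      show (if (j : ℕ) = k % 20 then getBit x k else
        if 20 * (t : ℕ) + j < k then getBit x (20 * t + j) else false) =
        if 20 * (t : ℕ) + j < k + 1 then getBit x (20 * t + j) else false
      have hj := j.2
      by_cases h1 : (j : ℕ) = k % 20
      · have h2 : 20 * (t : ℕ) + j = k := by omega
        rw [if_pos h1, h2, if_pos (Nat.lt_succ_self k)]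
      · rw [if_neg h1]
        by_cases h3 : 20 * (t : ℕ) + j < k
        · rw [if_pos h3, if_pos (by omega)]
        · rw [if_neg h3, if_neg (by omega)]
    · rw [if_neg h]
      refine Prod.ext rfl (Prod.ext ?_ rfl)
      funext j
      show (if 20 * (t : ℕ) + j < k then getBit x (20 * t + j) else false) =
        if 20 * (t : ℕ) + j < k + 1 then getBit x (20 * t + j) else false
      have hj := j.2
      by_cases h3 : 20 * (t : ℕ) + j < k
      · rw [if_pos h3, if_pos (by omega)]
      · rw [if_neg h3, if_neg (by omega)]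

theorem LU_second {n : ℕ} (x : Inp n) (t : Fin n) (ht : (t : ℕ) < n / 3 / 20) (k : ℕ)
    (hk : k ≤ n / 3) :
    B8_path (LU_step n) x (t, ((fun _ => false), 0)) (n / 3 + k) =
      (t, ((fun j : Fin 20 => if 20 * (t : ℕ) + j < k then
        getBit x (20 * t + j) && getBit x (n / 3 + (20 * t + j)) else getBit x (20 * t + j)),
        0)) := by
  induction k with
  | zero =>
    rw [Nat.add_zero, LU_first x t (n / 3) le_rfl]
    refine Prod.ext rfl (Prod.ext ?_ rfl)
    funext j
    have hj := j.2
    show (if 20 * (t : ℕ) + j < n / 3 then getBit x (20 * t + j) else false) =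
      if 20 * (t : ℕ) + j < 0 then
        getBit x (20 * t + j) && getBit x (n / 3 + (20 * t + j)) else getBit x (20 * t + j)
    rw [if_pos (by omega), if_neg (by omega)]
  | succ k ih =>
    have hk' : k < n / 3 := hk
    rw [← Nat.add_assoc, B8_path, ih hk'.le]
    unfold LU_step
    rw [if_neg (by omega), if_pos (by omega), Nat.add_sub_cancel_left]
    by_cases h : k / 20 = (t : ℕ)
    · rw [if_pos h]
      refine Prod.ext rfl (Prod.ext ?_ rfl)
      funext j
      show (if (j : ℕ) = k % 20 then (if 20 * (t : ℕ) + j < k then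
          getBit x (20 * t + j) && getBit x (n / 3 + (20 * t + j)) else getBit x (20 * t + j)) &&
            getBit x (n / 3 + k)
        else if 20 * (t : ℕ) + j < k then
          getBit x (20 * t + j) && getBit x (n / 3 + (20 * t + j)) else getBit x (20 * t + j)) =
        if 20 * (t : ℕ) + j < k + 1 then
          getBit x (20 * t + j) && getBit x (n / 3 + (20 * t + j)) else getBit x (20 * t + j)
      have hj := j.2
      by_cases h1 : (j : ℕ) = k % 20
      · have h2 : 20 * (t : ℕ) + j = k := by omega
        rw [if_pos h1, h2, if_neg (lt_irrefl k), if_pos (Nat.lt_succ_self k)]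
      · rw [if_neg h1]
        by_cases h3 : 20 * (t : ℕ) + j < k
        · rw [if_pos h3, if_pos (by omega)]
        · rw [if_neg h3, if_neg (by omega)]
    · rw [if_neg h]
      refine Prod.ext rfl (Prod.ext ?_ rfl)
      funext j
      show (if 20 * (t : ℕ) + j < k then
          getBit x (20 * t + j) && getBit x (n / 3 + (20 * t + j)) else getBit x (20 * t + j)) =
        if 20 * (t : ℕ) + j < k + 1 then
          getBit x (20 * t + j) && getBit x (n / 3 + (20 * t + j)) else getBit x (20 * t + j)
      have hj := j.2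
      by_cases h3 : 20 * (t : ℕ) + j < k
      · rw [if_pos h3, if_pos (by omega)]
      · rw [if_neg h3, if_neg (by omega)]

theorem LU_third {n : ℕ} (x : Inp n) (t : Fin n) (ht : (t : ℕ) < n / 3 / 20) (k : ℕ)
    (hk : k ≤ n / 3) :
    B8_path (LU_step n) x (t, ((fun _ => false), 0)) (2 * (n / 3) + k) =
      (t, ((fun j : Fin 20 => getBit x (20 * t + j) && getBit x (n / 3 + (20 * t + j))),
        ((∑ c ∈ Finset.range k, if c / 20 = (t : ℕ) then
          (getBit x c && getBit x (n / 3 + c) && getBit x (2 * (n / 3) + c)).toNat else 0 : ℕ) :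
            ZMod 2))) := by
  induction k with
  | zero =>
    have h0 : 2 * (n / 3) + 0 = n / 3 + n / 3 := by ring
    rw [h0, LU_second x t ht (n / 3) le_rfl]
    refine Prod.ext rfl (Prod.ext ?_ (by simp))
    funext j
    have hj := j.2
    show (if 20 * (t : ℕ) + j < n / 3 then
        getBit x (20 * t + j) && getBit x (n / 3 + (20 * t + j)) else getBit x (20 * t + j)) =
      (getBit x (20 * t + j) && getBit x (n / 3 + (20 * t + j)))
    rw [if_pos (by omega)]
  | succ k ih =>
    have hk' : k < n / 3 := hk
    rw [← Nat.add_assoc, B8_path, ih hk'.le]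
    unfold LU_step
    rw [if_neg (by omega), if_neg (by omega), if_pos (by omega), Nat.add_sub_cancel_left,
      Finset.sum_range_succ]
    by_cases h : k / 20 = (t : ℕ)
    · rw [if_pos h, if_pos h]
      refine Prod.ext rfl (Prod.ext rfl ?_)
      have h2 : 20 * (t : ℕ) + (LU_i k : ℕ) = k := by
        show 20 * (t : ℕ) + k % 20 = k
        omega
      rw [Nat.cast_add]
      simp only [h2]
    · rw [if_neg h, if_neg h, Nat.add_zero]

theorem LU_fourth {n : ℕ} (x : Inp n) (t : Fin n) (k : ℕ) :
    B8_path (LU_step n) x (t, ((fun _ => false), 0)) (3 * (n / 3) + k) =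
      B8_path (LU_step n) x (t, ((fun _ => false), 0)) (3 * (n / 3)) := by
  induction k with
  | zero => rfl
  | succ k ih =>
    rw [← Nat.add_assoc, B8_path, ih]
    unfold LU_step
    rw [if_neg (by omega), if_neg (by omega), if_neg (by omega)]

theorem LU_inner (N t : ℕ) (ht : t < N / 20) (f : ℕ → ℕ) :
    ∑ c ∈ Finset.range N, (if c / 20 = t then f c else 0) =
      ∑ k ∈ Finset.range 20, f (20 * t + k) := by
  rw [← Finset.sum_filter]
  symm
  refine Finset.sum_nbij (fun k => 20 * t + k) ?_ ?_ ?_ (fun _ _ => rfl)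
  · intro k hk
    rw [Finset.mem_range] at hk
    rw [Finset.mem_filter, Finset.mem_range]
    omega
  · intro k _ k' _ h
    simp only at h
    omega
  · intro c hc
    rw [Finset.mem_coe, Finset.mem_filter, Finset.mem_range] at hc
    refine ⟨c % 20, ?_, ?_⟩
    · rw [Finset.mem_coe, Finset.mem_range]
      omega
    · show 20 * t + c % 20 = c
      omega

theorem LU_cast (a : ℕ) : (a : ZMod 2) = 1 ↔ a % 2 = 1 := by
  have h := ZMod.natCast_eq_natCast_iff a 1 2
  rw [Nat.cast_one] at h
  rw [h, Nat.ModEq]

theorem upperC : ∃ C : ℕ, ∀ n ≥ 1, ∃ w ≤ C * n, NondetOnePass (langC n) w := by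
  refine ⟨2 ^ 21, fun n hn => ⟨Fintype.card (LU_S n), ?_, ?_⟩⟩
  · simp only [Fintype.card_prod, Fintype.card_fin, Fintype.card_fun, Fintype.card_bool, ZMod.card]
    omega
  · refine B8_nondet (langC n) (fun s => (s.1 : ℕ) < n / 3 / 20 ∧ s.2 = ((fun _ => false), 0))
      (LU_step n) (fun s => s.2.2 = 1) fun x => ?_
    have hpath : ∀ t : Fin n, (t : ℕ) < n / 3 / 20 →
        ((B8_path (LU_step n) x (t, ((fun _ => false), 0)) n).2.2 = 1 ↔
        (∑ k ∈ Finset.range 20, (getBit x (20 * t + k) && getBit x (n / 3 + (20 * t + k)) &&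
          getBit x (2 * (n / 3) + (20 * t + k))).toNat) % 2 = 1) := by
      intro t ht
      have h1 : B8_path (LU_step n) x (t, ((fun _ => false), 0)) n =
          B8_path (LU_step n) x (t, ((fun _ => false), 0)) (2 * (n / 3) + n / 3) := by
        have h2 := LU_fourth x t (n - 3 * (n / 3))
        rw [Nat.add_sub_cancel' (by omega)] at h2
        rw [h2]
        congr 1
        omega
      rw [h1, LU_third x t ht (n / 3) le_rfl]
      show ((_ : ℕ) : ZMod 2) = 1 ↔ _
      rw [LU_cast, LU_inner (n / 3) t ht (fun c =>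
        (getBit x c && getBit x (n / 3 + c) && getBit x (2 * (n / 3) + c)).toNat)]
    simp only [langC, decide_eq_true_eq]
    constructor
    · rintro ⟨t, ht, hs⟩
      have htn : t < n := by omega
      exact ⟨(⟨t, htn⟩, ((fun _ => false), 0)), ⟨ht, rfl⟩, (hpath ⟨t, htn⟩ ht).2 hs⟩
    · rintro ⟨⟨t, s⟩, ⟨ht, hs⟩, ha⟩
      simp only at ht hs
      subst hs
      exact ⟨t, ht, (hpath t ht).1 ha⟩

end Pool.Agent.ST
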