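import Mathlib
import Pool.Agent.Lib.MP_b573ec_lc_ST.Core

/-!
# Inputs with given blocks
-/

set_option autoImplicit false

namespace Pool.Agent.ST

open Pool.Agent.LT (Inp)

theorem E1_room (n g : ℕ) :
    Nat.log 2 n + 2 ^ g * ((n - Nat.log 2 n) / 2 ^ g) ≤ n := by
  have h1 := Nat.mul_div_le (n - Nat.log 2 n) (2 ^ g)
  have h2 := Nat.log_le_self 2 n
  omega

theorem E1_cell {m b i t : ℕ} (hi : i < m) (ht : t < b) : i * b + t < m * b := by
  have h : (i + 1) * b ≤ m * b := Nat.mul_le_mul_right b hi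
  rw [add_mul, one_mul] at h
  omega

/-- the value of a cell in the block region -/
theorem E1_encM_blk (n g : ℕ) (B : ℕ → ℕ → Bool) (c : Fin n) (h0 : Nat.log 2 n ≤ (c : ℕ))
    (h1 : (c : ℕ) - Nat.log 2 n < 2 ^ g * ((n - Nat.log 2 n) / 2 ^ g)) :
    encM n g B c = B (((c : ℕ) - Nat.log 2 n) / ((n - Nat.log 2 n) / 2 ^ g))
      (((c : ℕ) - Nat.log 2 n) % ((n - Nat.log 2 n) / 2 ^ g)) := by
  unfold encM
  rw [if_neg (by omega), if_pos h1]

/-- the block of a cell in the block region -/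
theorem E1_inBlk_iff {L b c j : ℕ} (h0 : L ≤ c) (hb : 0 < b) :
    InBlk L b j c ↔ (c - L) / b = j := by
  unfold InBlk
  constructor
  · rintro ⟨h1, h2⟩
    apply Nat.div_eq_of_lt_le
    · omega
    · have : (j + 1) * b = j.succ * b := rfl
      omega
  · intro h
    have h3 := Nat.div_mul_le_self (c - L) b
    have h4 := Nat.lt_div_mul_add (a := c - L) hb
    rw [h] at h3 h4
    rw [add_mul, one_mul]
    omega

section E1
variable {n g : ℕ} (hg : g ≤ Nat.log 2 n) (B B' : ℕ → ℕ → Bool)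

include hg

theorem expo_encM : expo n (encM n g B) = g := by
  unfold expo
  have h1 : ∀ k ∈ Finset.range (Nat.log 2 n), (getBit (encM n g B) k).toNat =
      if k < g then 1 else 0 := by
    intro k hk
    have hk' : k < Nat.log 2 n := Finset.mem_range.1 hk
    have hn := Nat.log_le_self 2 n
    unfold getBit encM
    rw [dif_pos (by omega)]
    simp only
    rw [if_pos hk']
    by_cases h : k < g <;> simp [h]
  rw [Finset.sum_congr rfl h1, ← Finset.sum_filter]
  have h2 : (Finset.range (Nat.log 2 n)).filter (fun k => k < g) = Finset.range g := by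
    ext k
    simp only [Finset.mem_filter, Finset.mem_range]
    omega
  rw [h2]
  simp

theorem blockLen_encM : blockLen n (encM n g B) = (n - Nat.log 2 n) / 2 ^ g := by
  unfold blockLen numBlocks
  rw [expo_encM hg]

theorem blockBit_encM {i t : ℕ} (hi : i < 2 ^ g) (ht : t < (n - Nat.log 2 n) / 2 ^ g) :
    blockBit n (encM n g B) i t = B i t := by
  unfold blockBit
  rw [blockLen_encM hg]
  have hr := E1_room n g
  have hc := E1_cell hi ht
  have hb : 0 < (n - Nat.log 2 n) / 2 ^ g := by omega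
  unfold getBit
  rw [dif_pos (by omega)]
  rw [E1_encM_blk n g B _ (by simp only; omega) (by simp only; omega)]
  simp only
  have e1 : Nat.log 2 n + i * ((n - Nat.log 2 n) / 2 ^ g) + t - Nat.log 2 n =
      t + i * ((n - Nat.log 2 n) / 2 ^ g) := by omega
  rw [e1, Nat.add_mul_div_right _ _ hb, Nat.add_mul_mod_self_right, Nat.div_eq_of_lt ht,
    Nat.mod_eq_of_lt ht, zero_add]

theorem langA_encM : langA n (encM n g B) = true ↔ ∃ t < (n - Nat.log 2 n) / 2 ^ g,
    (∑ i ∈ Finset.range (2 ^ g), (B i t).toNat) % 2 = 1 := by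
  unfold langA
  rw [decide_eq_true_iff, blockLen_encM hg]
  have h1 : numBlocks n (encM n g B) = 2 ^ g := by
    unfold numBlocks
    rw [expo_encM hg]
  rw [h1]
  refine exists_congr fun t => and_congr_right fun ht => ?_
  rw [Finset.sum_congr rfl (fun i hi => by
    rw [blockBit_encM hg B (Finset.mem_range.1 hi) ht])]

theorem langB_encM : langB n (encM n g B) = true ↔ ∃ t < (n - Nat.log 2 n) / 2 ^ g / 2,
    (∑ i ∈ Finset.range (2 ^ g), ((B i (2 * t)).toNat + (B i (2 * t + 1)).toNat)) % 3 = 2 := by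
  unfold langB
  rw [decide_eq_true_iff, blockLen_encM hg]
  have h1 : numBlocks n (encM n g B) = 2 ^ g := by
    unfold numBlocks
    rw [expo_encM hg]
  rw [h1]
  refine exists_congr fun t => and_congr_right fun ht => ?_
  rw [Finset.sum_congr rfl (fun i hi => by
    rw [blockBit_encM hg B (Finset.mem_range.1 hi) (by omega),
      blockBit_encM hg B (Finset.mem_range.1 hi) (by omega)])]

theorem encM_congr (h : ∀ i < 2 ^ g, ∀ t < (n - Nat.log 2 n) / 2 ^ g, B i t = B' i t) :
    encM n g B = encM n g B' := by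
  funext c
  unfold encM
  split_ifs with h1 h2
  · rfl
  · have hb : 0 < (n - Nat.log 2 n) / 2 ^ g := by
      rcases Nat.eq_zero_or_pos ((n - Nat.log 2 n) / 2 ^ g) with h0 | h0
      · rw [h0, mul_zero] at h2
        omega
      · exact h0
    refine h _ ?_ _ (Nat.mod_lt _ hb)
    exact (Nat.div_lt_iff_lt_mul hb).2 h2
  · rfl

theorem encM_inj (h : encM n g B = encM n g B') :
    ∀ i < 2 ^ g, ∀ t < (n - Nat.log 2 n) / 2 ^ g, B i t = B' i t := by
  intro i hi t ht
  rw [← blockBit_encM hg B hi ht, h, blockBit_encM hg B' hi ht]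

omit hg in
theorem E1_pos {c : ℕ} (h2 : c < 2 ^ g * ((n - Nat.log 2 n) / 2 ^ g)) :
    0 < (n - Nat.log 2 n) / 2 ^ g := by
  rcases Nat.eq_zero_or_pos ((n - Nat.log 2 n) / 2 ^ g) with h0 | h0
  · rw [h0, mul_zero] at h2
    omega
  · exact h0

theorem mixIn_encM (j : ℕ) (hj : j < 2 ^ g) :
    mixIn (Nat.log 2 n) ((n - Nat.log 2 n) / 2 ^ g) j (encM n g B) (encM n g B') =
      encM n g (fun i t => if i = j then B' i t else B i t) := by
  have _ := hg
  have _ := hj
  funext c
  unfold mixIn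
  by_cases h1 : (c : ℕ) < Nat.log 2 n
  · have e : ∀ D : ℕ → ℕ → Bool, encM n g D c = decide ((c : ℕ) < g) := by
      intro D
      unfold encM
      rw [if_pos h1]
    rw [e, e, e, ite_self]
  by_cases h2 : (c : ℕ) - Nat.log 2 n < 2 ^ g * ((n - Nat.log 2 n) / 2 ^ g)
  · have hb := E1_pos h2
    have h0 : Nat.log 2 n ≤ (c : ℕ) := by omega
    rw [E1_encM_blk n g _ c h0 h2, E1_encM_blk n g _ c h0 h2, E1_encM_blk n g _ c h0 h2]
    by_cases h3 : InBlk (Nat.log 2 n) ((n - Nat.log 2 n) / 2 ^ g) j (c : ℕ)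
    · rw [if_pos h3, if_pos ((E1_inBlk_iff h0 hb).1 h3)]
    · rw [if_neg h3, if_neg (fun h => h3 ((E1_inBlk_iff h0 hb).2 h))]
  · have e : ∀ D : ℕ → ℕ → Bool, encM n g D c = false := by
      intro D
      unfold encM
      rw [if_neg h1, if_neg h2]
    rw [e, e, e, ite_self]

theorem agree_encM (i j : ℕ) (h : ∀ k, k ≠ i → k ≠ j → ∀ t, B k t = B' k t) :
    Agree (Nat.log 2 n) ((n - Nat.log 2 n) / 2 ^ g) i j (encM n g B) (encM n g B') := by
  have _ := hg
  intro c hi hj
  by_cases h1 : (c : ℕ) < Nat.log 2 n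
  · unfold encM
    rw [if_pos h1, if_pos h1]
  by_cases h2 : (c : ℕ) - Nat.log 2 n < 2 ^ g * ((n - Nat.log 2 n) / 2 ^ g)
  · have hb := E1_pos h2
    have h0 : Nat.log 2 n ≤ (c : ℕ) := by omega
    rw [E1_encM_blk n g _ c h0 h2, E1_encM_blk n g _ c h0 h2]
    exact h _ (fun h' => hi ((E1_inBlk_iff h0 hb).2 h')) (fun h' => hj ((E1_inBlk_iff h0 hb).2 h')) _
  · unfold encM
    rw [if_neg h1, if_neg h2, if_neg h1, if_neg h2]

end E1

end Pool.Agent.ST
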