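import Mathlib

/-!
Fooling pairs: an abstract pigeonhole argument.
-/

set_option autoImplicit false

namespace Pool.Agent.ST

theorem A1_card_lt_pairs' (m : ℕ) (hm : 1 ≤ m) :
    2 * (Finset.univ.filter (fun p : Fin m × Fin m => p.1 < p.2)).card < m ^ 2 := by
  classical
  have h1 : (Finset.univ.filter (fun p : Fin m × Fin m => p.1 < p.2)).card =
      (Finset.univ.filter (fun p : Fin m × Fin m => p.2 < p.1)).card := by
    apply Finset.card_nbij' Prod.swap Prod.swap <;> simp [Set.MapsTo, Set.LeftInvOn]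
  have h2 : Disjoint (Finset.univ.filter (fun p : Fin m × Fin m => p.1 < p.2))
      (Finset.univ.filter (fun p : Fin m × Fin m => p.2 < p.1)) := by
    rw [Finset.disjoint_filter]
    intro p _ h h'
    exact absurd (lt_trans h h') (lt_irrefl _)
  have h3 := Finset.card_union_of_disjoint h2
  have h4 : ((Finset.univ.filter (fun p : Fin m × Fin m => p.1 < p.2)) ∪
      (Finset.univ.filter (fun p : Fin m × Fin m => p.2 < p.1))).card <
      (Finset.univ : Finset (Fin m × Fin m)).card := by
    apply Finset.card_lt_card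
    rw [Finset.ssubset_univ_iff]
    intro h
    have h5 : ((⟨0, hm⟩ : Fin m), (⟨0, hm⟩ : Fin m)) ∈
        ((Finset.univ.filter (fun p : Fin m × Fin m => p.1 < p.2)) ∪
        (Finset.univ.filter (fun p : Fin m × Fin m => p.2 < p.1))) := by
      rw [h]
      exact Finset.mem_univ _
    simp at h5
  rw [Finset.card_univ, Fintype.card_prod, Fintype.card_fin] at h4
  nlinarith [h1, h3, h4]

/-- The shift vector. -/
def A1_sh {H : Type} [AddCommGroup H] {m : ℕ} (i j : Fin m) (v : H) : Fin m → H :=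
  fun k => (if k = i then v else 0) - (if k = j then v else 0)

theorem A1_sum_sh {H : Type} [AddCommGroup H] {m : ℕ} (i j : Fin m) (v : H) :
    ∑ k, A1_sh i j v k = 0 := by
  simp [A1_sh, Finset.sum_sub_distrib]

theorem A1_sum_shift {H : Type} [AddCommGroup H] {m : ℕ} (i j : Fin m) (Y : Fin m → H) (v : H) :
    ∑ k, (Y + A1_sh i j v) k = ∑ k, Y k := by
  simp only [Pi.add_apply, Finset.sum_add_distrib, A1_sum_sh, add_zero]

theorem exists_fooling {H : Type} [AddCommGroup H] [Fintype H] [DecidableEq H] (m K : ℕ)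
    (hm : 1 ≤ m) (σ : H) (Acc : (Fin m → H) → Prop)
    (Tr : Fin m → Fin m → (Fin m → H) → Fin K → Prop)
    (hR : ∀ i j, i < j → ∀ Y Y' θ, (∀ k, k ≠ i → k ≠ j → Y k = Y' k) → Tr i j Y θ → Tr i j Y' θ →
      Acc (Function.update Y j (Y' j)))
    (hG : ∀ Y, Acc Y → ∃ i j, i < j ∧ ∃ θ, Tr i j Y θ)
    (hA : Nat.card {Y : Fin m → H // ∑ k, Y k = σ} ≤
      2 * Nat.card {Y : Fin m → H // ∑ k, Y k = σ ∧ Acc Y})
    (hK : m ^ 2 * K < Fintype.card H) :
    ∃ i j Y Y', i < j ∧ ∑ k, Y k = σ ∧ ∑ k, Y' k = σ ∧ Y i ≠ Y' i ∧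
      (∀ k, k ≠ i → k ≠ j → Y k = Y' k) ∧ Acc (Function.update Y j (Y' j)) ∧
      Acc (Function.update Y' j (Y j)) := by
  classical
  set X0 : Finset (Fin m → H) := Finset.univ.filter (fun Y => ∑ k, Y k = σ) with hX0
  have hX0pos : 0 < X0.card := by
    rw [Finset.card_pos]
    refine ⟨Pi.single (⟨0, hm⟩ : Fin m) σ, ?_⟩
    rw [hX0, Finset.mem_filter]
    exact ⟨Finset.mem_univ _, by simp⟩
  have hc1 : Nat.card {Y : Fin m → H // ∑ k, Y k = σ} = X0.card := by
    rw [Nat.card_eq_fintype_card, Fintype.card_subtype]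
  have hc2 : Nat.card {Y : Fin m → H // ∑ k, Y k = σ ∧ Acc Y} = (X0.filter Acc).card := by
    rw [Nat.card_eq_fintype_card, Fintype.card_subtype, hX0, Finset.filter_filter]
  rw [hc1, hc2] at hA
  set A : Fin m → Fin m → Finset (Fin m → H) := fun i j => X0.filter (fun Y => ∃ θ, Tr i j Y θ)
    with hAdef
  -- a pair with many inputs
  obtain ⟨i, j, hij, hbig⟩ : ∃ i j, i < j ∧ X0.card < (A i j).card * m ^ 2 := by
    by_contra hcon
    push_neg at hcon
    set P := Finset.univ.filter (fun p : Fin m × Fin m => p.1 < p.2) with hP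
    have h1 : (X0.filter Acc).card ≤ ∑ p ∈ P, (A p.1 p.2).card := by
      refine le_trans (Finset.card_le_card ?_) Finset.card_biUnion_le
      intro Y hY
      rw [Finset.mem_filter] at hY
      obtain ⟨i, j, hij, θ, hθ⟩ := hG Y hY.2
      rw [Finset.mem_biUnion]
      refine ⟨(i, j), ?_, ?_⟩
      · rw [hP, Finset.mem_filter]
        exact ⟨Finset.mem_univ _, hij⟩
      · rw [hAdef, Finset.mem_filter]
        exact ⟨hY.1, θ, hθ⟩
    have h2 : (∑ p ∈ P, (A p.1 p.2).card) * m ^ 2 ≤ P.card * X0.card := by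
      rw [Finset.sum_mul]
      refine le_trans (Finset.sum_le_card_nsmul P _ X0.card ?_) (by simp)
      intro p hp
      rw [hP, Finset.mem_filter] at hp
      exact hcon p.1 p.2 hp.2
    rcases Nat.eq_zero_or_pos P.card with h0 | h0
    · rw [h0, Nat.zero_mul] at h2
      have hm2 : 0 < m ^ 2 := by positivity
      have h4 : (X0.filter Acc).card * m ^ 2 ≤ 0 := le_trans (Nat.mul_le_mul_right _ h1) h2
      have h5 : (X0.filter Acc).card * m ^ 2 = 0 := Nat.le_zero.mp h4
      rcases Nat.mul_eq_zero.mp h5 with h6 | h6 <;> omega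
    · -- here some pair exists, so the count of pairs is strictly smaller than m^2/2
      have h7 : 2 * P.card < m ^ 2 := A1_card_lt_pairs' m hm
      have hm2 : 0 < m ^ 2 := by positivity
      have h4 : (X0.filter Acc).card * m ^ 2 ≤ P.card * X0.card :=
        le_trans (Nat.mul_le_mul_right _ h1) h2
      have h8 : X0.card * m ^ 2 ≤ 2 * P.card * X0.card := by
        calc X0.card * m ^ 2 ≤ 2 * (X0.filter Acc).card * m ^ 2 := Nat.mul_le_mul_right _ hA
          _ = 2 * ((X0.filter Acc).card * m ^ 2) := by ring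
          _ ≤ 2 * (P.card * X0.card) := Nat.mul_le_mul_left _ h4
          _ = 2 * P.card * X0.card := by ring
      have h9 : 2 * P.card * X0.card < m ^ 2 * X0.card := Nat.mul_lt_mul_of_pos_right h7 hX0pos
      rw [mul_comm (m ^ 2)] at h9
      omega
  -- a translate with many inputs
  obtain ⟨Y0, hY0, hv⟩ : ∃ Y0 ∈ X0,
      K < (Finset.univ.filter (fun v : H => Y0 + A1_sh i j v ∈ A i j)).card := by
    by_contra hcon
    push_neg at hcon
    have h1 : ∑ Y0 ∈ X0, (Finset.univ.filter (fun v : H => Y0 + A1_sh i j v ∈ A i j)).card ≤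
        X0.card * K := by
      refine le_trans (Finset.sum_le_card_nsmul X0 _ K hcon) (by simp)
    have h2 : ∑ Y0 ∈ X0, (Finset.univ.filter (fun v : H => Y0 + A1_sh i j v ∈ A i j)).card =
        ∑ v : H, (X0.filter (fun Y0 => Y0 + A1_sh i j v ∈ A i j)).card := by
      simp only [Finset.card_filter]
      exact Finset.sum_comm
    have h3 : ∀ v : H, (X0.filter (fun Y0 => Y0 + A1_sh i j v ∈ A i j)).card = (A i j).card := by
      intro v
      apply Finset.card_nbij' (fun Y => Y + A1_sh i j v) (fun Y => Y - A1_sh i j v)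
      · intro Y hY
        simp only [Finset.coe_filter, Set.mem_setOf_eq] at hY
        exact hY.2
      · intro Y hY
        have hY' : Y ∈ A i j := hY
        have hYX : Y ∈ X0 := (Finset.mem_filter.mp hY').1
        simp only [Finset.coe_filter, Set.mem_setOf_eq, sub_add_cancel]
        refine ⟨?_, hY'⟩
        rw [hX0, Finset.mem_filter] at hYX ⊢
        refine ⟨Finset.mem_univ _, ?_⟩
        rw [← A1_sum_shift i j (Y - A1_sh i j v) v, sub_add_cancel]
        exact hYX.2
      · intro Y _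
        simp
      · intro Y _
        simp
    rw [h2, Finset.sum_congr rfl (fun v _ => h3 v), Finset.sum_const, Finset.card_univ,
      smul_eq_mul] at h1
    have h4 : Fintype.card H * X0.card < Fintype.card H * ((A i j).card * m ^ 2) :=
      Nat.mul_lt_mul_of_pos_left hbig (by omega)
    have h5 : Fintype.card H * ((A i j).card * m ^ 2) ≤ X0.card * (m ^ 2 * K) := by
      calc Fintype.card H * ((A i j).card * m ^ 2) = (Fintype.card H * (A i j).card) * m ^ 2 := by
            ring
        _ ≤ (X0.card * K) * m ^ 2 := Nat.mul_le_mul_right _ h1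
        _ = X0.card * (m ^ 2 * K) := by ring
    have h6 : X0.card * (m ^ 2 * K) < X0.card * Fintype.card H :=
      Nat.mul_lt_mul_of_pos_left hK hX0pos
    rw [mul_comm X0.card (Fintype.card H)] at h6
    omega
  -- two shifts with the same value
  set V := Finset.univ.filter (fun v : H => Y0 + A1_sh i j v ∈ A i j) with hV
  have hVθ : ∀ v ∈ V, ∃ θ, Tr i j (Y0 + A1_sh i j v) θ := by
    intro v hv
    rw [hV, Finset.mem_filter] at hv
    exact (Finset.mem_filter.mp hv.2).2
  haveI : Nonempty (Fin K) := by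
    obtain ⟨v, hv1⟩ := Finset.card_pos.mp (lt_of_le_of_lt (Nat.zero_le K) hv)
    obtain ⟨θ, _⟩ := hVθ v hv1
    exact ⟨θ⟩
  choose! th hth using hVθ
  obtain ⟨v, hvV, v', hv'V, hne, heq⟩ : ∃ v ∈ V, ∃ v' ∈ V, v ≠ v' ∧ th v = th v' := by
    apply Finset.exists_ne_map_eq_of_card_lt_of_maps_to (t := (Finset.univ : Finset (Fin K)))
    · rw [Finset.card_univ, Fintype.card_fin]
      exact hv
    · intro v _
      simp
  have hY0s : ∑ k, Y0 k = σ := (Finset.mem_filter.mp hY0).2
  have hne' : i ≠ j := ne_of_lt hij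
  have hagree : ∀ k, k ≠ i → k ≠ j → (Y0 + A1_sh i j v) k = (Y0 + A1_sh i j v') k := by
    intro k hk1 hk2
    simp [A1_sh, hk1, hk2]
  refine ⟨i, j, Y0 + A1_sh i j v, Y0 + A1_sh i j v', hij, ?_, ?_, ?_, hagree, ?_, ?_⟩
  · rw [A1_sum_shift, hY0s]
  · rw [A1_sum_shift, hY0s]
  · intro h
    apply hne
    simpa [A1_sh, hne'] using h
  · exact hR i j hij _ _ (th v) hagree (hth v hvV) (by rw [heq]; exact hth v' hv'V)
  · exact hR i j hij _ _ (th v') (fun k h1 h2 => (hagree k h1 h2).symm) (hth v' hv'V)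
      (by rw [← heq]; exact hth v hvV)

end Pool.Agent.ST
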