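import Mathlib

/-!
# Few bad coordinates

In a large family `W` of subsets of a finite set there are few elements which belong to a small
part of the members of `W`.
-/

namespace Pool.Agent.ST

/-- the weight of a subset, with respect to `J` and `a` -/
theorem B1_weight {α : Type} [DecidableEq α] (A J x : Finset α) (hJ : J ⊆ A) (hx : x ⊆ A)
    (a : Bool) :
    (∏ c ∈ x, (if c ∈ J then (if true = a then 1 else 3) else 1 : ℕ)) *
      (∏ c ∈ A \ x, (if c ∈ J then (if false = a then 1 else 3) else 1 : ℕ)) *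
      3 ^ (J.filter fun c => decide (c ∈ x) = a).card = 3 ^ J.card := by
  have h1 : (∏ c ∈ x, (if c ∈ J then (if true = a then 1 else 3) else 1 : ℕ)) *
      (∏ c ∈ A \ x, (if c ∈ J then (if false = a then 1 else 3) else 1 : ℕ)) =
      ∏ c ∈ A, (if c ∈ J then (if decide (c ∈ x) = a then 1 else 3) else 1 : ℕ) := by
    rw [← Finset.prod_sdiff hx, Nat.mul_comm]
    congr 1
    · refine Finset.prod_congr rfl fun c hc => ?_
      have : c ∉ x := (Finset.mem_sdiff.1 hc).2
      simp [this]
    · refine Finset.prod_congr rfl fun c hc => ?_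
      simp [hc]
  have h2 : (∏ c ∈ A, (if c ∈ J then (if decide (c ∈ x) = a then 1 else 3) else 1 : ℕ)) =
      ∏ c ∈ J, (if decide (c ∈ x) = a then 1 else 3 : ℕ) := by
    rw [Finset.prod_ite, Finset.prod_const_one, mul_one]
    refine Finset.prod_congr ?_ fun _ _ => rfl
    ext c
    simp only [Finset.mem_filter]
    exact ⟨fun h => h.2, fun h => ⟨hJ h, h⟩⟩
  have h3 : (3 : ℕ) ^ (J.filter fun c => decide (c ∈ x) = a).card =
      ∏ c ∈ J, (if decide (c ∈ x) = a then 3 else 1 : ℕ) := by
    rw [Finset.prod_ite, Finset.prod_const_one, mul_one, Finset.prod_const]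
  rw [h1, h2, h3, ← Finset.prod_mul_distrib, ← Finset.prod_const]
  refine Finset.prod_congr rfl fun c _ => ?_
  split_ifs <;> rfl

/-- the sum of all weights -/
theorem B1_sum {α : Type} [DecidableEq α] (A J : Finset α) (hJ : J ⊆ A) (a : Bool) :
    ∑ x ∈ A.powerset, (∏ c ∈ x, (if c ∈ J then (if true = a then 1 else 3) else 1 : ℕ)) *
      (∏ c ∈ A \ x, (if c ∈ J then (if false = a then 1 else 3) else 1 : ℕ)) =
      2 ^ (A.card + J.card) := by
  rw [← Finset.prod_add]
  have h1 : ∀ c ∈ A, ((if c ∈ J then (if true = a then 1 else 3) else 1 : ℕ) +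
      (if c ∈ J then (if false = a then 1 else 3) else 1 : ℕ)) =
      2 * (if c ∈ J then 2 else 1 : ℕ) := by
    intro c _
    cases a <;> by_cases h : c ∈ J <;> simp [h]
  rw [Finset.prod_congr rfl h1, Finset.prod_mul_distrib, Finset.prod_const, pow_add]
  congr 1
  rw [Finset.prod_ite, Finset.prod_const_one, mul_one, Finset.prod_const]
  congr 2
  ext c
  simp only [Finset.mem_filter]
  exact ⟨fun h => h.2, fun h => ⟨hJ h, h⟩⟩

theorem few_bad {α : Type} [DecidableEq α] (A : Finset α) (W : Finset (Finset α))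
    (hW : ∀ x ∈ W, x ⊆ A) (J : Finset α) (hJ : J ⊆ A) (a : Bool)
    (h : ∀ c ∈ J, 8 * (W.filter fun x => decide (c ∈ x) = a).card < W.card) :
    W.card ^ 4 * 27 ^ J.card ≤ 16 * 2 ^ (4 * A.card) * 16 ^ J.card := by
  classical
  set κ := J.card with hκ
  set num : Finset α → ℕ := fun x => (J.filter fun c => decide (c ∈ x) = a).card with hnum
  -- the members with few elements of `J` of the rare kind
  set W' := W.filter fun x => 4 * num x ≤ κ with hW'
  -- double counting
  have hdc : ∑ x ∈ W, num x = ∑ c ∈ J, (W.filter fun x => decide (c ∈ x) = a).card := by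
    simp only [hnum, Finset.card_filter]
    exact Finset.sum_comm
  have hdc8 : 8 * ∑ x ∈ W, num x ≤ κ * W.card := by
    rw [hdc, Finset.mul_sum, hκ, ← smul_eq_mul (a := J.card), ← Finset.sum_const]
    exact Finset.sum_le_sum fun c hc => (h c hc).le
  have hhalf : W.card ≤ 2 * W'.card := by
    by_contra hlt
    push Not at hlt
    have hcompl : (W.filter fun x => ¬ 4 * num x ≤ κ).card + W'.card = W.card := by
      rw [Nat.add_comm, hW']
      exact Finset.card_filter_add_card_filter_not _
    have h1 : (W.filter fun x => ¬ 4 * num x ≤ κ).card * (κ + 1) ≤ ∑ x ∈ W, 4 * num x := by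
      calc (W.filter fun x => ¬ 4 * num x ≤ κ).card * (κ + 1)
          = ∑ x ∈ W.filter (fun x => ¬ 4 * num x ≤ κ), (κ + 1) := by
            rw [Finset.sum_const, smul_eq_mul]
        _ ≤ ∑ x ∈ W.filter (fun x => ¬ 4 * num x ≤ κ), 4 * num x := by
            refine Finset.sum_le_sum fun x hx => ?_
            have := (Finset.mem_filter.1 hx).2
            omega
        _ ≤ ∑ x ∈ W, 4 * num x :=
            Finset.sum_le_sum_of_subset (Finset.filter_subset _ _)
    rw [← Finset.mul_sum] at h1
    set B := (W.filter fun x => ¬ 4 * num x ≤ κ).card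
    have h2 : W.card < 2 * B := by omega
    have h3 : 2 * B * (κ + 1) ≤ κ * W.card := by
      calc 2 * B * (κ + 1) = 2 * (B * (κ + 1)) := by ring
        _ ≤ 2 * (4 * ∑ x ∈ W, num x) := Nat.mul_le_mul_left _ h1
        _ = 8 * ∑ x ∈ W, num x := by ring
        _ ≤ κ * W.card := hdc8
    have h4 : W.card * (κ + 1) ≤ κ * W.card :=
      le_trans (Nat.mul_le_mul_right _ h2.le) h3
    nlinarith
  -- weights
  set f : Finset α → ℕ := fun x => (∏ c ∈ x, (if c ∈ J then (if true = a then 1 else 3) else 1)) *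
      (∏ c ∈ A \ x, (if c ∈ J then (if false = a then 1 else 3) else 1)) with hf
  have hsum : W'.card * 3 ^ (κ - κ / 4) ≤ 2 ^ (A.card + κ) := by
    rw [← B1_sum A J hJ a, ← smul_eq_mul, ← Finset.sum_const]
    calc ∑ x ∈ W', 3 ^ (κ - κ / 4) ≤ ∑ x ∈ W', f x := by
          refine Finset.sum_le_sum fun x hx => ?_
          have hx1 := (Finset.mem_filter.1 hx).1
          have hx2 := (Finset.mem_filter.1 hx).2
          have h5 := B1_weight A J x hJ (hW x hx1) a
          have h6 : num x ≤ κ / 4 := by omega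
          have h7 : f x * 3 ^ num x = 3 ^ κ := h5
          have h8 : 3 ^ κ = 3 ^ (κ - num x) * 3 ^ num x := by
            rw [← pow_add]
            congr 1
            omega
          rw [h8] at h7
          have h9 : f x = 3 ^ (κ - num x) :=
            Nat.eq_of_mul_eq_mul_right (by positivity) h7
          rw [h9]
          exact Nat.pow_le_pow_right (by norm_num) (by omega)
      _ ≤ ∑ x ∈ A.powerset, f x := by
          refine Finset.sum_le_sum_of_subset fun x hx => ?_
          exact Finset.mem_powerset.2 (hW x (Finset.mem_filter.1 hx).1)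
  have h27 : 27 ^ κ ≤ (3 ^ (κ - κ / 4)) ^ 4 := by
    rw [← pow_mul, show (27 : ℕ) = 3 ^ 3 by norm_num, ← pow_mul]
    exact Nat.pow_le_pow_right (by norm_num) (by omega)
  calc W.card ^ 4 * 27 ^ κ ≤ (2 * W'.card) ^ 4 * (3 ^ (κ - κ / 4)) ^ 4 :=
        Nat.mul_le_mul (Nat.pow_le_pow_left hhalf 4) h27
    _ = 16 * (W'.card * 3 ^ (κ - κ / 4)) ^ 4 := by ring
    _ ≤ 16 * (2 ^ (A.card + κ)) ^ 4 := Nat.mul_le_mul_left _ (Nat.pow_le_pow_left hsum 4)
    _ = 16 * 2 ^ (4 * A.card) * 16 ^ κ := by
        rw [show (16 : ℕ) ^ κ = 2 ^ (4 * κ) by rw [pow_mul]; norm_num, mul_assoc, ← pow_mul,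
          ← pow_add]
        congr 2
        ring

end Pool.Agent.ST
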