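import Mathlib
import Pool.Agent.Lib.MP_b573ec_lc_ST.LemC

/-!
# Corruption lemma for pairs of disjoint sets

Two large families `U`, `V` of subsets of `Fin N` which contain many disjoint pairs also contain
many pairs which meet in exactly one point.
-/

set_option autoImplicit false

namespace Pool.Agent.ST

/-- the null mass -/
def totalD (N : ℕ) (U V : Finset (Finset (Fin N))) : ℕ :=
  ∑ D : Finset (Fin N), (U.filter fun x => x ⊆ D).card * (V.filter fun y => y ⊆ Dᶜ).card

/-- the planted mass -/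
def oneD (N : ℕ) (U V : Finset (Finset (Fin N))) : ℕ :=
  ∑ t : Fin N, ∑ D ∈ Finset.univ.filter (fun D : Finset (Fin N) => t ∉ D),
    (U.filter fun x => x ⊆ insert t D ∧ t ∈ x).card * (V.filter fun y => y ⊆ Dᶜ ∧ t ∈ y).card

/-- the number of members of `U` inside `D` -/
def B2_u {N : ℕ} (U : Finset (Finset (Fin N))) (D : Finset (Fin N)) : ℕ :=
  (U.filter fun x => x ⊆ D).card

/-- the number of members of `U` inside `D` which contain `t` (`a` true) or not (`a` false) -/
def B2_a {N : ℕ} (U : Finset (Finset (Fin N))) (D : Finset (Fin N)) (t : Fin N) (a : Bool) : ℕ :=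
  ((U.filter fun x => x ⊆ D).filter fun x => decide (t ∈ x) = a).card

/-- the bad elements -/
def B2_J {N : ℕ} (U : Finset (Finset (Fin N))) (D : Finset (Fin N)) (a : Bool) :
    Finset (Fin N) :=
  D.filter fun t => 8 * B2_a U D t a < B2_u U D

theorem B2_add {N : ℕ} (U : Finset (Finset (Fin N))) (D : Finset (Fin N)) (t : Fin N) :
    B2_a U D t true + B2_a U D t false = B2_u U D := by
  unfold B2_a B2_u
  rw [← Finset.card_filter_add_card_filter_not (s := U.filter fun x => x ⊆ D)
    (fun x => decide (t ∈ x) = true)]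
  congr 2
  refine Finset.filter_congr fun x _ => ?_
  simp

theorem B2_erase {N : ℕ} (U : Finset (Finset (Fin N))) (D : Finset (Fin N)) (t : Fin N) :
    B2_u U (D.erase t) = B2_a U D t false := by
  unfold B2_a B2_u
  rw [Finset.filter_filter]
  congr 1
  refine Finset.filter_congr fun x _ => ?_
  rw [Finset.subset_erase]
  simp

theorem B2_true {N : ℕ} (U : Finset (Finset (Fin N))) (D : Finset (Fin N)) (t : Fin N) :
    (U.filter fun x => x ⊆ D ∧ t ∈ x).card = B2_a U D t true := by
  unfold B2_a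
  rw [Finset.filter_filter]
  congr 1
  refine Finset.filter_congr fun x _ => ?_
  simp

theorem B2_le {N : ℕ} (U : Finset (Finset (Fin N))) (D : Finset (Fin N)) :
    B2_u U D ≤ 2 ^ D.card := by
  unfold B2_u
  rw [← Finset.card_powerset]
  refine Finset.card_le_card fun x hx => ?_
  exact Finset.mem_powerset.2 (Finset.mem_filter.1 hx).2

theorem B2_J_le {N : ℕ} (U : Finset (Finset (Fin N))) (D : Finset (Fin N)) (a : Bool) :
    (B2_J U D a).card ≤ D.card := Finset.card_le_card (Finset.filter_subset _ _)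

theorem B2_bad {N : ℕ} (hN : 4000 ≤ N) (U : Finset (Finset (Fin N))) (D : Finset (Fin N))
    (a : Bool) (h : 2 ^ D.card ≤ 2 ^ (N / 400) * B2_u U D) : 68 * (B2_J U D a).card ≤ N := by
  set k := (B2_J U D a).card with hk
  set e := N / 400 with he
  have h1 : B2_u U D ^ 4 * 27 ^ k ≤ 16 * 2 ^ (4 * D.card) * 16 ^ k := by
    refine few_bad D (U.filter fun x => x ⊆ D) (fun x hx => (Finset.mem_filter.1 hx).2)
      (B2_J U D a) (Finset.filter_subset _ _) a fun c hc => ?_
    exact (Finset.mem_filter.1 hc).2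
  have h2 : (2 : ℕ) ^ (4 * D.card) ≤ 2 ^ (4 * e) * B2_u U D ^ 4 := by
    have := Nat.pow_le_pow_left h 4
    rw [mul_pow, ← pow_mul, ← pow_mul, mul_comm D.card 4, mul_comm e 4] at this
    exact this
  have h3 : (27 : ℕ) ^ k ≤ 2 ^ (4 * e + 4) * 16 ^ k := by
    have hpos : 0 < (2 : ℕ) ^ (4 * D.card) := by positivity
    refine Nat.le_of_mul_le_mul_left ?_ hpos
    calc 2 ^ (4 * D.card) * 27 ^ k ≤ (2 ^ (4 * e) * B2_u U D ^ 4) * 27 ^ k :=
          Nat.mul_le_mul_right _ h2
      _ = 2 ^ (4 * e) * (B2_u U D ^ 4 * 27 ^ k) := by ring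
      _ ≤ 2 ^ (4 * e) * (16 * 2 ^ (4 * D.card) * 16 ^ k) := Nat.mul_le_mul_left _ h1
      _ = 2 ^ (4 * D.card) * (2 ^ (4 * e + 4) * 16 ^ k) := by rw [pow_add]; ring
  have h4 : (2 : ℕ) ^ (3 * k) ≤ 2 ^ (16 * e + 16) := by
    have hpos : 0 < ((16 : ℕ) ^ k) ^ 4 := by positivity
    refine Nat.le_of_mul_le_mul_right ?_ hpos
    have hm : (2 : ℕ) ^ (3 * k) * (16 ^ k) ^ 4 = (8 * 16 ^ 4) ^ k := by
      rw [mul_pow, pow_mul, ← pow_mul 16 k 4, ← pow_mul 16 4 k, mul_comm k 4]
      norm_num
    calc (2 : ℕ) ^ (3 * k) * (16 ^ k) ^ 4 = (8 * 16 ^ 4) ^ k := hm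
      _ ≤ (27 ^ 4) ^ k := Nat.pow_le_pow_left (by norm_num) k
      _ = (27 ^ k) ^ 4 := by rw [← pow_mul, ← pow_mul, mul_comm]
      _ ≤ (2 ^ (4 * e + 4) * 16 ^ k) ^ 4 := Nat.pow_le_pow_left h3 4
      _ = 2 ^ (16 * e + 16) * (16 ^ k) ^ 4 := by
          rw [mul_pow, ← pow_mul]
          congr 2
          ring
  have h5 : 3 * k ≤ 16 * e + 16 := (Nat.pow_le_pow_iff_right (by norm_num)).1 h4
  omega

/-- exchange of the sums, first form -/
theorem B2_sum1 {N : ℕ} (F : Fin N → Finset (Fin N) → ℕ) :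
    ∑ t : Fin N, ∑ D ∈ Finset.univ.filter (fun D : Finset (Fin N) => t ∉ D), F t (insert t D) =
      ∑ D : Finset (Fin N), ∑ t ∈ D, F t D := by
  have h1 : ∀ t : Fin N,
      ∑ D ∈ Finset.univ.filter (fun D : Finset (Fin N) => t ∉ D), F t (insert t D) =
        ∑ D ∈ Finset.univ.filter (fun D : Finset (Fin N) => t ∈ D), F t D := by
    intro t
    refine Finset.sum_bij' (fun D _ => insert t D) (fun D _ => D.erase t) ?_ ?_ ?_ ?_ ?_
    · intro D _
      simp
    · intro D _
      simp
    · intro D hD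
      exact Finset.erase_insert (Finset.mem_filter.1 hD).2
    · intro D hD
      exact Finset.insert_erase (Finset.mem_filter.1 hD).2
    · intro D _
      rfl
  rw [Finset.sum_congr rfl fun t _ => h1 t]
  refine Finset.sum_comm' ?_
  intro t D
  simp

/-- exchange of the sums, second form -/
theorem B2_sum2 {N : ℕ} (F : Fin N → Finset (Fin N) → ℕ) :
    ∑ t : Fin N, ∑ D ∈ Finset.univ.filter (fun D : Finset (Fin N) => t ∉ D), F t D =
      ∑ D : Finset (Fin N), ∑ t ∈ Dᶜ, F t D := by
  refine Finset.sum_comm' ?_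
  intro t D
  simp

theorem B2_compl {N : ℕ} (D : Finset (Fin N)) : D.card + Dᶜ.card = N := by
  have := Finset.card_add_card_compl D
  rwa [Fintype.card_fin] at this

theorem lemD (N : ℕ) (hN : 4000 ≤ N) (U V : Finset (Finset (Fin N))) :
    2 ^ (N / 400) * (N * totalD N U V) ≤
      2 ^ (N / 400) * (2048 * oneD N U V) + 96 * N * 4 ^ N := by
  classical
  set f : Finset (Fin N) → ℕ := fun D => B2_u U D * B2_u V Dᶜ with hf
  have htot : totalD N U V = ∑ D, f D := rfl
  set S0 : ℕ := ∑ t : Fin N, ∑ D ∈ Finset.univ.filter (fun D : Finset (Fin N) => t ∉ D),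
    B2_u U D * B2_u V (insert t D)ᶜ with hS0
  have hins : ∀ (t : Fin N) (D : Finset (Fin N)), (insert t D)ᶜ = Dᶜ.erase t := by
    intro t D
    ext c
    simp
  -- two formulas for `S0`
  have e1 : S0 = ∑ D : Finset (Fin N), ∑ t ∈ D, B2_a U D t false * B2_u V Dᶜ := by
    rw [← B2_sum1 (fun t D => B2_a U D t false * B2_u V Dᶜ), hS0]
    refine Finset.sum_congr rfl fun t _ => Finset.sum_congr rfl fun D hD => ?_
    rw [← B2_erase, Finset.erase_insert (Finset.mem_filter.1 hD).2]
  have e2 : S0 = ∑ D : Finset (Fin N), ∑ t ∈ Dᶜ, B2_u U D * B2_a V Dᶜ t false := by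
    rw [← B2_sum2 (fun t D => B2_u U D * B2_a V Dᶜ t false), hS0]
    refine Finset.sum_congr rfl fun t _ => Finset.sum_congr rfl fun D hD => ?_
    rw [← B2_erase, hins]
  -- the small sets
  set g : Finset (Fin N) → ℕ := fun D =>
    if 2 ^ D.card ≤ 2 ^ (N / 400) * B2_u U D ∧ 2 ^ Dᶜ.card ≤ 2 ^ (N / 400) * B2_u V Dᶜ
      then 0 else f D with hg
  have hsmall : 2 ^ (N / 400) * ∑ D, g D ≤ 4 ^ N := by
    have h1 : ∀ D ∈ (Finset.univ : Finset (Finset (Fin N))), 2 ^ (N / 400) * g D ≤ 2 ^ N := by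
      intro D _
      rw [hg]
      dsimp only
      split_ifs with h
      · simp
      · have hN2 : (2 : ℕ) ^ N = 2 ^ D.card * 2 ^ Dᶜ.card := by
          rw [← pow_add, B2_compl]
        rw [hN2, hf]
        dsimp only
        rw [not_and_or, not_le, not_le] at h
        rcases h with h | h
        · calc 2 ^ (N / 400) * (B2_u U D * B2_u V Dᶜ)
              = (2 ^ (N / 400) * B2_u U D) * B2_u V Dᶜ := by ring
            _ ≤ 2 ^ D.card * 2 ^ Dᶜ.card := Nat.mul_le_mul h.le (B2_le _ _)
        · calc 2 ^ (N / 400) * (B2_u U D * B2_u V Dᶜ)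
              = B2_u U D * (2 ^ (N / 400) * B2_u V Dᶜ) := by ring
            _ ≤ 2 ^ D.card * 2 ^ Dᶜ.card := Nat.mul_le_mul (B2_le _ _) h.le
    rw [Finset.mul_sum]
    refine (Finset.sum_le_sum h1).trans ?_
    rw [Finset.sum_const, Finset.card_univ, Fintype.card_finset, Fintype.card_fin, smul_eq_mul,
      ← mul_pow]
    norm_num
  -- the bad pairs
  have hbad : ∀ (a : Bool) (D : Finset (Fin N)),
      68 * (((B2_J U D a).card + (B2_J V Dᶜ a).card) * f D) ≤ 2 * N * f D + 68 * N * g D := by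
    intro a D
    rw [hg]
    dsimp only
    split_ifs with h
    · have h1 := B2_bad hN U D a h.1
      have h2 := B2_bad hN V Dᶜ a h.2
      nlinarith [Nat.mul_le_mul_right (f D) h1, Nat.mul_le_mul_right (f D) h2]
    · have h1 := B2_J_le U D a
      have h2 := B2_J_le V Dᶜ a
      have h3 := B2_compl D
      have h4 : (B2_J U D a).card + (B2_J V Dᶜ a).card ≤ N := by omega
      nlinarith [Nat.mul_le_mul_right (f D) h4]
  have hbadS : ∀ a : Bool, 68 * ∑ D, ((B2_J U D a).card + (B2_J V Dᶜ a).card) * f D ≤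
      2 * N * ∑ D, f D + 68 * N * ∑ D, g D := by
    intro a
    rw [Finset.mul_sum, Finset.mul_sum, Finset.mul_sum, ← Finset.sum_add_distrib]
    exact Finset.sum_le_sum fun D _ => hbad a D
  -- lower bound for `S0`
  have hlow1 : ∀ D : Finset (Fin N), D.card * f D ≤
      8 * ∑ t ∈ D, B2_a U D t false * B2_u V Dᶜ + (B2_J U D false).card * f D := by
    intro D
    have h1 : ∀ t ∈ D, f D ≤ 8 * (B2_a U D t false * B2_u V Dᶜ) +
        (if t ∈ B2_J U D false then f D else 0) := by
      intro t ht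
      split_ifs with h
      · omega
      · have h2 : B2_u U D ≤ 8 * B2_a U D t false := by
          by_contra h3
          exact h (Finset.mem_filter.2 ⟨ht, not_le.1 h3⟩)
        calc f D = B2_u U D * B2_u V Dᶜ := rfl
          _ ≤ (8 * B2_a U D t false) * B2_u V Dᶜ := Nat.mul_le_mul_right _ h2
          _ = _ := by ring
    have h2 := Finset.sum_le_sum h1
    rw [Finset.sum_const, smul_eq_mul, Finset.sum_add_distrib, ← Finset.mul_sum,
      ← Finset.sum_filter, Finset.sum_const, smul_eq_mul] at h2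
    have h3 : D.filter (fun t => t ∈ B2_J U D false) = B2_J U D false := by
      ext t
      simp only [Finset.mem_filter, and_iff_right_iff_imp]
      exact fun h => (Finset.mem_filter.1 h).1
    rwa [h3] at h2
  have hlow2 : ∀ D : Finset (Fin N), Dᶜ.card * f D ≤
      8 * ∑ t ∈ Dᶜ, B2_u U D * B2_a V Dᶜ t false + (B2_J V Dᶜ false).card * f D := by
    intro D
    have h1 : ∀ t ∈ Dᶜ, f D ≤ 8 * (B2_u U D * B2_a V Dᶜ t false) +
        (if t ∈ B2_J V Dᶜ false then f D else 0) := by
      intro t ht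
      split_ifs with h
      · omega
      · have h2 : B2_u V Dᶜ ≤ 8 * B2_a V Dᶜ t false := by
          by_contra h3
          exact h (Finset.mem_filter.2 ⟨ht, not_le.1 h3⟩)
        calc f D = B2_u U D * B2_u V Dᶜ := rfl
          _ ≤ B2_u U D * (8 * B2_a V Dᶜ t false) := Nat.mul_le_mul_left _ h2
          _ = _ := by ring
    have h2 := Finset.sum_le_sum h1
    rw [Finset.sum_const, smul_eq_mul, Finset.sum_add_distrib, ← Finset.mul_sum,
      ← Finset.sum_filter, Finset.sum_const, smul_eq_mul] at h2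
    have h3 : Dᶜ.filter (fun t => t ∈ B2_J V Dᶜ false) = B2_J V Dᶜ false := by
      ext t
      simp only [Finset.mem_filter, and_iff_right_iff_imp]
      exact fun h => (Finset.mem_filter.1 h).1
    rwa [h3] at h2
  have hlow : N * ∑ D, f D ≤
      16 * S0 + ∑ D, ((B2_J U D false).card + (B2_J V Dᶜ false).card) * f D := by
    have h1 : ∑ D, D.card * f D ≤ 8 * S0 + ∑ D, (B2_J U D false).card * f D := by
      rw [e1, Finset.mul_sum, ← Finset.sum_add_distrib]
      exact Finset.sum_le_sum fun D _ => hlow1 D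
    have h2 : ∑ D, Dᶜ.card * f D ≤ 8 * S0 + ∑ D, (B2_J V Dᶜ false).card * f D := by
      rw [e2, Finset.mul_sum, ← Finset.sum_add_distrib]
      exact Finset.sum_le_sum fun D _ => hlow2 D
    have h3 : N * ∑ D, f D = ∑ D, D.card * f D + ∑ D, Dᶜ.card * f D := by
      rw [Finset.mul_sum, ← Finset.sum_add_distrib]
      refine Finset.sum_congr rfl fun D _ => ?_
      rw [← add_mul, B2_compl]
    have h4 : ∑ D, ((B2_J U D false).card + (B2_J V Dᶜ false).card) * f D =
        ∑ D, (B2_J U D false).card * f D + ∑ D, (B2_J V Dᶜ false).card * f D := by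
      rw [← Finset.sum_add_distrib]
      exact Finset.sum_congr rfl fun D _ => add_mul _ _ _
    omega
  -- upper bound for `S0`
  have hpt : ∀ (t : Fin N) (D : Finset (Fin N)), t ∉ D →
      B2_u U D * B2_u V (insert t D)ᶜ ≤
        64 * ((U.filter fun x => x ⊆ insert t D ∧ t ∈ x).card *
          (V.filter fun y => y ⊆ Dᶜ ∧ t ∈ y).card) +
        ((if t ∈ B2_J U (insert t D) true then f (insert t D) else 0) +
          (if t ∈ B2_J V Dᶜ true then f D else 0)) := by
    intro t D ht
    have hU : B2_u U D = B2_a U (insert t D) t false := by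
      rw [← B2_erase, Finset.erase_insert ht]
    have hV : B2_u V (insert t D)ᶜ = B2_a V Dᶜ t false := by
      rw [← B2_erase, hins]
    have aU := B2_add U (insert t D) t
    have aV := B2_add V Dᶜ t
    rw [B2_true, B2_true]
    by_cases h1 : t ∈ B2_J U (insert t D) true
    · rw [if_pos h1]
      have : B2_u U D * B2_u V (insert t D)ᶜ ≤ f (insert t D) :=
        Nat.mul_le_mul_right _ (by omega)
      omega
    · by_cases h2 : t ∈ B2_J V Dᶜ true
      · rw [if_pos h2]
        have : B2_u U D * B2_u V (insert t D)ᶜ ≤ f D :=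
          Nat.mul_le_mul_left _ (by omega)
        omega
      · have h3 : B2_u U D ≤ 8 * B2_a U (insert t D) t true := by
          by_contra h3
          exact h1 (Finset.mem_filter.2 ⟨Finset.mem_insert_self _ _, by omega⟩)
        have h4 : B2_u V (insert t D)ᶜ ≤ 8 * B2_a V Dᶜ t true := by
          by_contra h4
          exact h2 (Finset.mem_filter.2 ⟨Finset.mem_compl.2 ht, by omega⟩)
        have h5 := Nat.mul_le_mul h3 h4
        have h6 : 8 * B2_a U (insert t D) t true * (8 * B2_a V Dᶜ t true) =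
          64 * (B2_a U (insert t D) t true * B2_a V Dᶜ t true) := by ring
        omega
  have hup : S0 ≤ 64 * oneD N U V +
      ∑ D, ((B2_J U D true).card + (B2_J V Dᶜ true).card) * f D := by
    have h1 : S0 ≤ 64 * oneD N U V +
        (∑ t : Fin N, ∑ D ∈ Finset.univ.filter (fun D : Finset (Fin N) => t ∉ D),
            (if t ∈ B2_J U (insert t D) true then f (insert t D) else 0) +
          ∑ t : Fin N, ∑ D ∈ Finset.univ.filter (fun D : Finset (Fin N) => t ∉ D),
            (if t ∈ B2_J V Dᶜ true then f D else 0)) := by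
      unfold oneD
      rw [hS0, Finset.mul_sum, ← Finset.sum_add_distrib, ← Finset.sum_add_distrib]
      refine Finset.sum_le_sum fun t _ => ?_
      rw [Finset.mul_sum, ← Finset.sum_add_distrib, ← Finset.sum_add_distrib]
      exact Finset.sum_le_sum fun D hD => hpt t D (Finset.mem_filter.1 hD).2
    rw [B2_sum1 (fun t D => if t ∈ B2_J U D true then f D else 0),
      B2_sum2 (fun t D => if t ∈ B2_J V Dᶜ true then f D else 0)] at h1
    have h2 : ∀ D : Finset (Fin N), (∑ t ∈ D, if t ∈ B2_J U D true then f D else 0) =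
        (B2_J U D true).card * f D := by
      intro D
      rw [← Finset.sum_filter, Finset.sum_const, smul_eq_mul]
      congr 2
      ext t
      simp only [Finset.mem_filter, and_iff_right_iff_imp]
      exact fun h => (Finset.mem_filter.1 h).1
    have h3 : ∀ D : Finset (Fin N), (∑ t ∈ Dᶜ, if t ∈ B2_J V Dᶜ true then f D else 0) =
        (B2_J V Dᶜ true).card * f D := by
      intro D
      rw [← Finset.sum_filter, Finset.sum_const, smul_eq_mul]
      congr 2
      ext t
      simp only [Finset.mem_filter, and_iff_right_iff_imp]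
      exact fun h => (Finset.mem_filter.1 h).1
    rw [Finset.sum_congr rfl fun D _ => h2 D, Finset.sum_congr rfl fun D _ => h3 D,
      ← Finset.sum_add_distrib] at h1
    refine h1.trans (le_of_eq ?_)
    congr 1
    exact Finset.sum_congr rfl fun D _ => (add_mul _ _ _).symm
  -- conclusion
  have b0 := hbadS false
  have b1 := hbadS true
  rw [htot]
  set T : ℕ := ∑ D, f D with hT
  set G : ℕ := ∑ D, g D with hG
  set NT : ℕ := N * T with hNT
  set NG : ℕ := N * G with hNG
  have c0 : 68 * ∑ D, ((B2_J U D false).card + (B2_J V Dᶜ false).card) * f D ≤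
      2 * NT + 68 * NG := by
    rw [hNT, hNG]; linarith [b0]
  have c1 : 68 * ∑ D, ((B2_J U D true).card + (B2_J V Dᶜ true).card) * f D ≤
      2 * NT + 68 * NG := by
    rw [hNT, hNG]; linarith [b1]
  have key : NT ≤ 2048 * oneD N U V + 34 * NG := by omega
  calc 2 ^ (N / 400) * NT ≤ 2 ^ (N / 400) * (2048 * oneD N U V + 34 * NG) :=
        Nat.mul_le_mul_left _ key
    _ = 2 ^ (N / 400) * (2048 * oneD N U V) + 34 * N * (2 ^ (N / 400) * G) := by
        rw [hNG]; ring
    _ ≤ 2 ^ (N / 400) * (2048 * oneD N U V) + 34 * N * 4 ^ N :=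
        Nat.add_le_add_left (Nat.mul_le_mul_left _ hsmall) _
    _ ≤ 2 ^ (N / 400) * (2048 * oneD N U V) + 96 * N * 4 ^ N :=
        Nat.add_le_add_left (Nat.mul_le_mul_right _ (Nat.mul_le_mul_right _ (by norm_num))) _

end Pool.Agent.ST
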