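import Mathlib
import Pool.Agent.Lib.MP_b573ec_lc_ST.LemD

/-!
# Corruption lemma modulo 3
-/

namespace Pool.Agent.ST

open Finset

/-- the sets `x` with `α + 1_x` in `U` -/
def B3_up {N : ℕ} (U : Finset (Fin N → ZMod 3)) (α : Fin N → ZMod 3) : Finset (Finset (Fin N)) :=
  univ.filter fun x => (fun t => α t + if t ∈ x then 1 else 0) ∈ U

theorem B3_mem {N : ℕ} (x : Finset (Fin N)) (α : Fin N → ZMod 3) (t : Fin N) :
    (α t + (if t ∈ x then 1 else 0) = α t + 1) ↔ t ∈ x := by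
  by_cases h : t ∈ x
  · simp [h]
  · simp [h]

theorem B3_card {N : ℕ} (U : Finset (Fin N → ZMod 3)) (α : Fin N → ZMod 3)
    (Q : Finset (Fin N) → Prop) [DecidablePred Q] :
    ((B3_up U α).filter Q).card = ∑ a ∈ U, if (∀ t, a t = α t ∨ a t = α t + 1) ∧
      Q (univ.filter fun t => a t = α t + 1) then 1 else 0 := by
  rw [← Finset.card_filter]
  refine Finset.card_nbij' (fun x => fun t => α t + if t ∈ x then 1 else 0)
    (fun a => univ.filter fun t => a t = α t + 1) ?_ ?_ ?_ ?_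
  · intro x hx
    simp only [B3_up, coe_filter, mem_filter, mem_univ, true_and, Set.mem_ofPred_eq] at hx ⊢
    refine ⟨hx.1, fun t => ?_, ?_⟩
    · by_cases h : t ∈ x
      · simp [h]
      · simp [h]
    · have : (univ.filter fun t => α t + (if t ∈ x then 1 else 0) = α t + 1) = x := by
        ext t
        rw [mem_filter, B3_mem]
        simp
      rw [this]
      exact hx.2
  · intro a ha
    simp only [B3_up, coe_filter, mem_filter, mem_univ, true_and, Set.mem_ofPred_eq] at ha ⊢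
    refine ⟨?_, ha.2.2⟩
    have : (fun t => α t + if a t = α t + 1 then (1 : ZMod 3) else 0) = a := by
      funext t
      by_cases h : a t = α t + 1
      · simp [h]
      · rcases ha.2.1 t with h' | h'
        · simp [h']
        · exact absurd h' h
    rw [this]
    exact ha.1
  · intro x hx
    ext t
    dsimp only
    rw [mem_filter, B3_mem]
    simp
  · intro a ha
    simp only [coe_filter, Set.mem_ofPred_eq] at ha
    funext t
    simp only [mem_filter, mem_univ, true_and]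
    by_cases h : a t = α t + 1
    · simp [h]
    · rcases ha.2.1 t with h' | h'
      · simp [h']
      · exact absurd h' h

/-- the pairs (`α`, `D`) as functions -/
def B3_eq (N : ℕ) : (Fin N → ZMod 3 × Bool) ≃ (Fin N → ZMod 3) × Finset (Fin N) where
  toFun F := (fun t => (F t).1, univ.filter fun t => (F t).2 = true)
  invFun p := fun t => (p.1 t, decide (t ∈ p.2))
  left_inv F := by
    funext t
    simp
  right_inv p := by
    ext <;> simp

theorem B3_sum {N : ℕ} (h : (Fin N → ZMod 3) → Finset (Fin N) → ℕ) :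
    ∑ α, ∑ D, h α D = ∑ F : Fin N → ZMod 3 × Bool,
      h (fun t => (F t).1) (univ.filter fun t => (F t).2 = true) := by
  rw [← Fintype.sum_prod_type']
  exact ((B3_eq N).sum_comp (fun p : (Fin N → ZMod 3) × Finset (Fin N) => h p.1 p.2)).symm

theorem B3_prod {N : ℕ} (f : Fin N → ZMod 3 × Bool → ℕ) :
    ∑ F : Fin N → ZMod 3 × Bool, ∏ t, f t (F t) = ∏ t, ∑ v, f t v := by
  rw [Finset.prod_univ_sum, Fintype.piFinset_univ]

theorem B3_prod_ite {N : ℕ} (p : Fin N → Prop) [DecidablePred p] [Decidable (∀ t, p t)] (c : ℕ) :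
    ∏ t, (if p t then c else 0) = if ∀ t, p t then c ^ N else 0 := by
  by_cases h : ∀ t, p t
  · rw [if_pos h, Finset.prod_congr rfl fun t _ => if_pos (h t)]
    simp
  · rw [if_neg h]
    push Not at h
    obtain ⟨t, ht⟩ := h
    exact Finset.prod_eq_zero (mem_univ t) (if_neg ht)

/-- the condition on one coordinate, first player -/
def B3_R1 (a : ZMod 3) (v : ZMod 3 × Bool) : Prop :=
  (a = v.1 ∨ a = v.1 + 1) ∧ (a = v.1 + 1 → v.2 = true)

/-- the condition on one coordinate, second player -/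
def B3_R2 (b : ZMod 3) (v : ZMod 3 × Bool) : Prop :=
  (b = -v.1 ∨ b = -v.1 + 1) ∧ (b = -v.1 + 1 → v.2 = false)

instance (a : ZMod 3) (v : ZMod 3 × Bool) : Decidable (B3_R1 a v) := by
  unfold B3_R1; infer_instance

instance (a : ZMod 3) (v : ZMod 3 × Bool) : Decidable (B3_R2 a v) := by
  unfold B3_R2; infer_instance

theorem B3_two (a b : ZMod 3) :
    ∑ v : ZMod 3 × Bool, ((if B3_R1 a v then 1 else 0) * (if B3_R2 b v then 1 else 0)) =
      if a + b ≠ 2 then 2 else 0 := by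
  revert a b
  decide

theorem B3_one (a b : ZMod 3) :
    ∑ v : ZMod 3 × Bool, (if v.2 = false ∧ a = v.1 + 1 ∧ b = -v.1 + 1 then 1 else 0) =
      if a + b = 2 then 1 else 0 := by
  revert a b
  decide

theorem B3_indU {N : ℕ} (a : Fin N → ZMod 3) (F : Fin N → ZMod 3 × Bool) :
    (if (∀ t, a t = (F t).1 ∨ a t = (F t).1 + 1) ∧
      (univ.filter fun t => a t = (F t).1 + 1) ⊆ univ.filter (fun t => (F t).2 = true)
      then 1 else 0) = ∏ t, if B3_R1 (a t) (F t) then 1 else 0 := by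
  rw [B3_prod_ite (fun t => B3_R1 (a t) (F t)), one_pow]
  refine if_congr ?_ rfl rfl
  simp only [B3_R1, Finset.subset_iff, mem_filter, mem_univ, true_and]
  exact forall_and.symm

theorem B3_indV {N : ℕ} (b : Fin N → ZMod 3) (F : Fin N → ZMod 3 × Bool) :
    (if (∀ t, b t = -(F t).1 ∨ b t = -(F t).1 + 1) ∧
      (univ.filter fun t => b t = -(F t).1 + 1) ⊆ (univ.filter (fun t => (F t).2 = true))ᶜ
      then 1 else 0) = ∏ t, if B3_R2 (b t) (F t) then 1 else 0 := by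
  rw [B3_prod_ite (fun t => B3_R2 (b t) (F t)), one_pow]
  refine if_congr ?_ rfl rfl
  simp only [B3_R2, Finset.subset_iff, mem_filter, mem_univ, true_and, mem_compl,
    Bool.not_eq_true]
  exact forall_and.symm

theorem B3_total {N : ℕ} (U V : Finset (Fin N → ZMod 3)) :
    ∑ α : Fin N → ZMod 3, totalD N (B3_up U α) (B3_up V fun t => -α t) =
      ∑ a ∈ U, ∑ b ∈ V, if ∀ t, a t + b t ≠ 2 then 2 ^ N else 0 := by
  unfold totalD
  rw [B3_sum (fun α D => ((B3_up U α).filter fun x => x ⊆ D).card *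
    ((B3_up V fun t => -α t).filter fun y => y ⊆ Dᶜ).card)]
  simp only [B3_card, B3_indU, B3_indV, Finset.sum_mul_sum]
  rw [Finset.sum_comm]
  refine Finset.sum_congr rfl fun a _ => ?_
  rw [Finset.sum_comm]
  refine Finset.sum_congr rfl fun b _ => ?_
  simp only [← Finset.prod_mul_distrib]
  rw [B3_prod (fun t v => (if B3_R1 (a t) v then 1 else 0) * (if B3_R2 (b t) v then 1 else 0))]
  simp only [B3_two]
  exact B3_prod_ite (fun t => a t + b t ≠ 2) 2

/-! ### The planted mass -/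

theorem B3_indU1 {N : ℕ} (t₀ : Fin N) (a : Fin N → ZMod 3) (F : Fin N → ZMod 3 × Bool) :
    (if (∀ t, a t = (F t).1 ∨ a t = (F t).1 + 1) ∧
      ((univ.filter fun t => a t = (F t).1 + 1) ⊆
        insert t₀ (univ.filter (fun t => (F t).2 = true)) ∧
        t₀ ∈ univ.filter fun t => a t = (F t).1 + 1)
      then 1 else 0) = ∏ t, if (t = t₀ ∧ a t = (F t).1 + 1) ∨ (t ≠ t₀ ∧ B3_R1 (a t) (F t))
        then 1 else 0 := by
  rw [B3_prod_ite (fun t => (t = t₀ ∧ a t = (F t).1 + 1) ∨ (t ≠ t₀ ∧ B3_R1 (a t) (F t))),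
    one_pow]
  refine if_congr ?_ rfl rfl
  simp only [B3_R1, Finset.subset_iff, mem_filter, mem_univ, true_and, mem_insert]
  constructor
  · rintro ⟨h1, h2, h3⟩ t
    by_cases ht : t = t₀
    · subst ht
      exact Or.inl ⟨rfl, h3⟩
    · exact Or.inr ⟨ht, h1 t, fun h => (h2 h).resolve_left ht⟩
  · intro h
    refine ⟨fun t => ?_, fun {t} ht => ?_, ?_⟩
    · rcases h t with h' | h'
      · exact Or.inr h'.2
      · exact h'.2.1
    · rcases h t with h' | h'
      · exact Or.inl h'.1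
      · exact Or.inr (h'.2.2 ht)
    · rcases h t₀ with h' | h'
      · exact h'.2
      · exact absurd rfl h'.1

theorem B3_indV1 {N : ℕ} (t₀ : Fin N) (b : Fin N → ZMod 3) (F : Fin N → ZMod 3 × Bool) :
    (if (∀ t, b t = -(F t).1 ∨ b t = -(F t).1 + 1) ∧
      ((univ.filter fun t => b t = -(F t).1 + 1) ⊆ (univ.filter (fun t => (F t).2 = true))ᶜ ∧
        t₀ ∈ univ.filter fun t => b t = -(F t).1 + 1)
      then 1 else 0) = ∏ t, if (t = t₀ ∧ (F t).2 = false ∧ b t = -(F t).1 + 1) ∨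
        (t ≠ t₀ ∧ B3_R2 (b t) (F t)) then 1 else 0 := by
  rw [B3_prod_ite (fun t => (t = t₀ ∧ (F t).2 = false ∧ b t = -(F t).1 + 1) ∨
        (t ≠ t₀ ∧ B3_R2 (b t) (F t))), one_pow]
  refine if_congr ?_ rfl rfl
  simp only [B3_R2, Finset.subset_iff, mem_filter, mem_univ, true_and, mem_compl,
    Bool.not_eq_true]
  constructor
  · rintro ⟨h1, h2, h3⟩ t
    by_cases ht : t = t₀
    · subst ht
      exact Or.inl ⟨rfl, h2 h3, h3⟩
    · exact Or.inr ⟨ht, h1 t, fun h => h2 h⟩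
  · intro h
    refine ⟨fun t => ?_, fun {t} ht => ?_, ?_⟩
    · rcases h t with h' | h'
      · exact Or.inr h'.2.2
      · exact h'.2.1
    · rcases h t with h' | h'
      · exact h'.2.1
      · exact h'.2.2 ht
    · rcases h t₀ with h' | h'
      · exact h'.2.2
      · exact absurd rfl h'.1

theorem B3_site (N : ℕ) (t₀ t : Fin N) (a b : ZMod 3) :
    ∑ v : ZMod 3 × Bool, ((if (t = t₀ ∧ a = v.1 + 1) ∨ (t ≠ t₀ ∧ B3_R1 a v) then 1 else 0) *
      (if (t = t₀ ∧ v.2 = false ∧ b = -v.1 + 1) ∨ (t ≠ t₀ ∧ B3_R2 b v) then 1 else 0)) =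
      if t = t₀ then (if a + b = 2 then 1 else 0) else (if a + b ≠ 2 then 2 else 0) := by
  by_cases ht : t = t₀
  · subst ht
    rw [if_pos rfl, ← B3_one]
    refine Finset.sum_congr rfl fun v _ => ?_
    by_cases h1 : a = v.1 + 1 <;> by_cases h2 : v.2 = false <;> by_cases h3 : b = -v.1 + 1 <;>
      simp [h1, h2, h3]
  · rw [if_neg ht, ← B3_two]
    refine Finset.sum_congr rfl fun v _ => ?_
    simp [ht]

theorem B3_prod1 {N : ℕ} (t₀ : Fin N) (a b : Fin N → ZMod 3) :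
    ∏ t, (if t = t₀ then (if a t + b t = 2 then 1 else 0)
      else (if a t + b t ≠ 2 then 2 else 0)) =
      if a t₀ + b t₀ = 2 ∧ ∀ t, t ≠ t₀ → a t + b t ≠ 2 then 2 ^ (N - 1) else 0 := by
  rw [← Finset.mul_prod_erase univ _ (mem_univ t₀), if_pos rfl]
  have h1 : ∀ t ∈ univ.erase t₀, (if t = t₀ then (if a t + b t = 2 then 1 else 0)
      else (if a t + b t ≠ 2 then 2 else 0)) = if a t + b t ≠ 2 then 2 else 0 := fun t ht =>
    if_neg (Finset.ne_of_mem_erase ht)
  rw [Finset.prod_congr rfl h1]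
  by_cases h2 : a t₀ + b t₀ = 2
  · rw [if_pos h2, one_mul]
    by_cases h3 : ∀ t, t ≠ t₀ → a t + b t ≠ 2
    · rw [if_pos ⟨h2, h3⟩, Finset.prod_congr rfl fun t ht =>
        if_pos (h3 t (Finset.ne_of_mem_erase ht)), Finset.prod_const,
        Finset.card_erase_of_mem (mem_univ _), Finset.card_univ, Fintype.card_fin]
    · rw [if_neg fun h => h3 h.2]
      push Not at h3
      obtain ⟨t, ht, ht2⟩ := h3
      exact Finset.prod_eq_zero (Finset.mem_erase.2 ⟨ht, mem_univ t⟩) (if_neg (by simp [ht2]))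
  · rw [if_neg h2, zero_mul, if_neg fun h => h2 h.1]

theorem B3_onemass {N : ℕ} (U V : Finset (Fin N → ZMod 3)) :
    ∑ α : Fin N → ZMod 3, oneD N (B3_up U α) (B3_up V fun t => -α t) =
      ∑ a ∈ U, ∑ b ∈ V, ∑ t₀ : Fin N,
        if a t₀ + b t₀ = 2 ∧ ∀ t, t ≠ t₀ → a t + b t ≠ 2 then 2 ^ (N - 1) else 0 := by
  unfold oneD
  rw [Finset.sum_comm]
  have h1 : ∀ t₀ : Fin N, ∑ α : Fin N → ZMod 3,
      ∑ D ∈ univ.filter (fun D : Finset (Fin N) => t₀ ∉ D),
        ((B3_up U α).filter fun x => x ⊆ insert t₀ D ∧ t₀ ∈ x).card *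
          ((B3_up V fun t => -α t).filter fun y => y ⊆ Dᶜ ∧ t₀ ∈ y).card =
      ∑ a ∈ U, ∑ b ∈ V,
        if a t₀ + b t₀ = 2 ∧ ∀ t, t ≠ t₀ → a t + b t ≠ 2 then 2 ^ (N - 1) else 0 := by
    intro t₀
    have h2 : ∀ α : Fin N → ZMod 3, ∑ D ∈ univ.filter (fun D : Finset (Fin N) => t₀ ∉ D),
        ((B3_up U α).filter fun x => x ⊆ insert t₀ D ∧ t₀ ∈ x).card *
          ((B3_up V fun t => -α t).filter fun y => y ⊆ Dᶜ ∧ t₀ ∈ y).card =
        ∑ D : Finset (Fin N), ((B3_up U α).filter fun x => x ⊆ insert t₀ D ∧ t₀ ∈ x).card *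
          ((B3_up V fun t => -α t).filter fun y => y ⊆ Dᶜ ∧ t₀ ∈ y).card := by
      intro α
      rw [Finset.sum_filter]
      refine Finset.sum_congr rfl fun D _ => ?_
      by_cases hD : t₀ ∈ D
      · rw [if_neg (not_not.2 hD)]
        have : (B3_up V fun t => -α t).filter (fun y => y ⊆ Dᶜ ∧ t₀ ∈ y) = ∅ := by
          rw [Finset.filter_eq_empty_iff]
          rintro y _ ⟨h3, h4⟩
          exact (mem_compl.1 (h3 h4)) hD
        rw [this, Finset.card_empty, mul_zero]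
      · rw [if_pos hD]
    rw [Finset.sum_congr rfl fun α _ => h2 α]
    rw [B3_sum (fun α D => ((B3_up U α).filter fun x => x ⊆ insert t₀ D ∧ t₀ ∈ x).card *
      ((B3_up V fun t => -α t).filter fun y => y ⊆ Dᶜ ∧ t₀ ∈ y).card)]
    simp only [B3_card, B3_indU1, B3_indV1, Finset.sum_mul_sum]
    rw [Finset.sum_comm]
    refine Finset.sum_congr rfl fun a _ => ?_
    rw [Finset.sum_comm]
    refine Finset.sum_congr rfl fun b _ => ?_
    simp only [← Finset.prod_mul_distrib]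
    rw [B3_prod (fun t v => (if (t = t₀ ∧ a t = v.1 + 1) ∨ (t ≠ t₀ ∧ B3_R1 (a t) v)
      then 1 else 0) * (if (t = t₀ ∧ v.2 = false ∧ b t = -v.1 + 1) ∨ (t ≠ t₀ ∧ B3_R2 (b t) v)
      then 1 else 0))]
    simp only [B3_site]
    exact B3_prod1 t₀ a b
  rw [Finset.sum_congr rfl fun t₀ _ => h1 t₀, Finset.sum_comm]
  refine Finset.sum_congr rfl fun a _ => ?_
  rw [Finset.sum_comm]

theorem B3_unique {N : ℕ} (a b : Fin N → ZMod 3) [Decidable (∃! t, a t + b t = 2)] :
    (∑ t₀ : Fin N, if a t₀ + b t₀ = 2 ∧ ∀ t, t ≠ t₀ → a t + b t ≠ 2 then 2 ^ (N - 1) else 0) =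
      if ∃! t, a t + b t = 2 then 2 ^ (N - 1) else 0 := by
  by_cases h : ∃! t, a t + b t = 2
  · rw [if_pos h]
    obtain ⟨t, h1, h2⟩ := h
    rw [Finset.sum_eq_single t]
    · rw [if_pos]
      exact ⟨h1, fun s hs hs2 => hs (h2 s hs2)⟩
    · intro s _ hs
      rw [if_neg]
      rintro ⟨h3, h4⟩
      exact hs (h2 s h3)
    · intro h3
      exact absurd (mem_univ t) h3
  · rw [if_neg h]
    refine Finset.sum_eq_zero fun t _ => ?_
    rw [if_neg]
    rintro ⟨h1, h2⟩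
    refine h ⟨t, h1, fun s hs => ?_⟩
    by_contra hne
    exact h2 s hne hs

theorem B3_natcard {N : ℕ} (U V : Finset (Fin N → ZMod 3))
    (Q : (Fin N → ZMod 3) → (Fin N → ZMod 3) → Prop) [∀ a b, Decidable (Q a b)] (c : ℕ) :
    ∑ a ∈ U, ∑ b ∈ V, (if Q a b then c else 0) =
      c * Nat.card {y : (Fin N → ZMod 3) × (Fin N → ZMod 3) // y.1 ∈ U ∧ y.2 ∈ V ∧ Q y.1 y.2} := by
  rw [← Finset.sum_product', Nat.card_eq_fintype_card, Fintype.card_subtype, Finset.sum_ite,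
    Finset.sum_const_zero, add_zero, Finset.sum_const, smul_eq_mul, mul_comm]
  congr 2
  ext y
  simp only [mem_filter, mem_product, mem_univ, true_and, and_assoc]

theorem lemZ (N : ℕ) (hN : 4000 ≤ N) (U V : Finset (Fin N → ZMod 3)) :
    2 ^ (N / 400) * (N * Nat.card {y : (Fin N → ZMod 3) × (Fin N → ZMod 3) //
        y.1 ∈ U ∧ y.2 ∈ V ∧ ∀ t, y.1 t + y.2 t ≠ 2}) ≤
      2 ^ (N / 400) * (1024 * Nat.card {y : (Fin N → ZMod 3) × (Fin N → ZMod 3) //
        y.1 ∈ U ∧ y.2 ∈ V ∧ ∃! t, y.1 t + y.2 t = 2}) + 96 * N * 6 ^ N := by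
  classical
  have h1 := B3_total U V
  have h2 := B3_onemass U V
  simp only [B3_unique] at h2
  rw [B3_natcard U V (fun a b => ∀ t, a t + b t ≠ 2)] at h1
  rw [B3_natcard U V (fun a b => ∃! t, a t + b t = 2)] at h2
  have h3 : ∑ α : Fin N → ZMod 3, 2 ^ (N / 400) *
      (N * totalD N (B3_up U α) (B3_up V fun t => -α t)) ≤
      ∑ α : Fin N → ZMod 3, (2 ^ (N / 400) *
        (2048 * oneD N (B3_up U α) (B3_up V fun t => -α t)) + 96 * N * 4 ^ N) :=
    Finset.sum_le_sum fun α _ => lemD N hN _ _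
  rw [Finset.sum_add_distrib, ← Finset.mul_sum, ← Finset.mul_sum, ← Finset.mul_sum,
    ← Finset.mul_sum, h1, h2, Finset.sum_const, Finset.card_univ, Fintype.card_fun,
    ZMod.card, Fintype.card_fin, smul_eq_mul] at h3
  set A := Nat.card {y : (Fin N → ZMod 3) × (Fin N → ZMod 3) //
        y.1 ∈ U ∧ y.2 ∈ V ∧ ∀ t, y.1 t + y.2 t ≠ 2} with hA
  set B := Nat.card {y : (Fin N → ZMod 3) × (Fin N → ZMod 3) //
        y.1 ∈ U ∧ y.2 ∈ V ∧ ∃! t, y.1 t + y.2 t = 2} with hB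
  have e1 : (2 : ℕ) ^ N = 2 * 2 ^ (N - 1) := by
    rw [← pow_succ']
    congr 1
    omega
  have e2 : (3 : ℕ) ^ N * (96 * N * 4 ^ N) = 2 ^ N * (96 * N * 6 ^ N) := by
    have e3 : (4 : ℕ) ^ N = 2 ^ N * 2 ^ N := by rw [← mul_pow]; norm_num
    have e4 : (6 : ℕ) ^ N = 2 ^ N * 3 ^ N := by rw [← mul_pow]; norm_num
    rw [e3, e4]
    ring
  rw [e2] at h3
  have e5 : 2 ^ N * (2 ^ (N / 400) * (N * A)) ≤
      2 ^ N * (2 ^ (N / 400) * (1024 * B) + 96 * N * 6 ^ N) := by
    calc 2 ^ N * (2 ^ (N / 400) * (N * A)) = 2 ^ (N / 400) * (N * (2 ^ N * A)) := by ring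
      _ ≤ 2 ^ (N / 400) * (2048 * (2 ^ (N - 1) * B)) + 2 ^ N * (96 * N * 6 ^ N) := h3
      _ = 2 ^ N * (2 ^ (N / 400) * (1024 * B) + 96 * N * 6 ^ N) := by
          rw [mul_add, e1]
          ring
  exact Nat.le_of_mul_le_mul_left e5 (by positivity)

end Pool.Agent.ST
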