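import Mathlib
import Pool.Agent.Lib.MP_b573ec_lc_ST.LemZ

/-!
# Rectangles in matrices modulo 3
-/

namespace Pool.Agent.ST

section B4
variable {m N K : ℕ}

/-- the matrix with the rows `i` and `j` replaced -/
def B4_upd (i j : Fin m) (Y : Fin m → Fin N → ZMod 3) (y : (Fin N → ZMod 3) × (Fin N → ZMod 3)) :
    Fin m → Fin N → ZMod 3 := Function.update (Function.update Y i y.1) j y.2

theorem B4_upd_i {i j : Fin m} (hij : i ≠ j) (Y : Fin m → Fin N → ZMod 3)
    (y : (Fin N → ZMod 3) × (Fin N → ZMod 3)) : B4_upd i j Y y i = y.1 := by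
  unfold B4_upd
  rw [Function.update_of_ne hij, Function.update_self]

theorem B4_upd_j (i j : Fin m) (Y : Fin m → Fin N → ZMod 3)
    (y : (Fin N → ZMod 3) × (Fin N → ZMod 3)) : B4_upd i j Y y j = y.2 := by
  unfold B4_upd
  rw [Function.update_self]

theorem B4_upd_k {i j k : Fin m} (hi : k ≠ i) (hj : k ≠ j) (Y : Fin m → Fin N → ZMod 3)
    (y : (Fin N → ZMod 3) × (Fin N → ZMod 3)) : B4_upd i j Y y k = Y k := by
  unfold B4_upd
  rw [Function.update_of_ne hj, Function.update_of_ne hi]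

theorem B4_upd_upd {i j : Fin m} (hij : i ≠ j) (Y : Fin m → Fin N → ZMod 3)
    (y : (Fin N → ZMod 3) × (Fin N → ZMod 3)) :
    B4_upd i j (B4_upd i j Y y) (Y i, Y j) = Y := by
  funext k
  by_cases hj : k = j
  · subst hj
    rw [B4_upd_j]
  · by_cases hi : k = i
    · subst hi
      rw [B4_upd_i hij]
    · rw [B4_upd_k hi hj, B4_upd_k hi hj]

/-- exchange of the rows `i`, `j` with a pair -/
def B4_eqv (i j : Fin m) (hij : i ≠ j) :
    ((Fin m → Fin N → ZMod 3) × ((Fin N → ZMod 3) × (Fin N → ZMod 3))) ≃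
    ((Fin m → Fin N → ZMod 3) × ((Fin N → ZMod 3) × (Fin N → ZMod 3))) where
  toFun a := (B4_upd i j a.1 a.2, (a.1 i, a.1 j))
  invFun a := (B4_upd i j a.1 a.2, (a.1 i, a.1 j))
  left_inv := by
    rintro ⟨Y, y⟩
    simp only [B4_upd_upd hij, B4_upd_i hij, B4_upd_j]
  right_inv := by
    rintro ⟨Y, y⟩
    simp only [B4_upd_upd hij, B4_upd_i hij, B4_upd_j]

theorem B4_count (i j : Fin m) (hij : i ≠ j)
    (Tr : (Fin m → Fin N → ZMod 3) → Option (Fin K)) (Q : (Fin m → Fin N → ZMod 3) → Prop) :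
    ∑ Y : Fin m → Fin N → ZMod 3, ∑ θ : Fin K, Nat.card
      {y : (Fin N → ZMod 3) × (Fin N → ZMod 3) // Tr (B4_upd i j Y y) = some θ ∧
        Q (B4_upd i j Y y)} =
    (3 ^ N) ^ 2 * Nat.card {Y : Fin m → Fin N → ZMod 3 // Q Y ∧ Tr Y ≠ none} := by
  classical
  have h1 : ∀ Y : Fin m → Fin N → ZMod 3, ∑ θ : Fin K, Nat.card
      {y : (Fin N → ZMod 3) × (Fin N → ZMod 3) // Tr (B4_upd i j Y y) = some θ ∧
        Q (B4_upd i j Y y)} =
      ∑ y : (Fin N → ZMod 3) × (Fin N → ZMod 3),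
        (if Q (B4_upd i j Y y) ∧ Tr (B4_upd i j Y y) ≠ none then 1 else 0) := by
    intro Y
    have h2 : ∀ θ : Fin K, Nat.card
      {y : (Fin N → ZMod 3) × (Fin N → ZMod 3) // Tr (B4_upd i j Y y) = some θ ∧
        Q (B4_upd i j Y y)} = ∑ y : (Fin N → ZMod 3) × (Fin N → ZMod 3),
        (if Tr (B4_upd i j Y y) = some θ ∧ Q (B4_upd i j Y y) then 1 else 0) := by
      intro θ
      rw [Nat.card_eq_fintype_card, Fintype.card_subtype, Finset.card_filter]
    simp only [h2]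
    rw [Finset.sum_comm]
    apply Finset.sum_congr rfl
    intro y _
    cases hT : Tr (B4_upd i j Y y) with
    | none => simp
    | some a =>
      by_cases hQ : Q (B4_upd i j Y y)
      · simp [hQ]
      · simp [hQ]
  simp only [h1]
  rw [← Finset.sum_product', Finset.univ_product_univ]
  set F : (Fin m → Fin N → ZMod 3) → ℕ := fun Y => if Q Y ∧ Tr Y ≠ none then 1 else 0 with hF
  have h3 := Equiv.sum_comp (B4_eqv (N := N) i j hij)
    (fun a : (Fin m → Fin N → ZMod 3) × ((Fin N → ZMod 3) × (Fin N → ZMod 3)) => F a.1)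
  have h5 : (∑ a : (Fin m → Fin N → ZMod 3) × ((Fin N → ZMod 3) × (Fin N → ZMod 3)),
      F a.1) = (3 ^ N) ^ 2 * ∑ Y, F Y := by
    rw [← Finset.univ_product_univ, Finset.sum_product, Finset.mul_sum]
    apply Finset.sum_congr rfl
    intro Y _
    simp only [Finset.sum_const, Finset.card_univ, Fintype.card_prod, Fintype.card_fun,
      ZMod.card, Fintype.card_fin, smul_eq_mul]
    ring
  rw [Nat.card_eq_fintype_card, Fintype.card_subtype, Finset.card_filter]
  exact h3.trans h5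

theorem B4_sum_update (Y : Fin m → Fin N → ZMod 3) (i : Fin m) (v : Fin N → ZMod 3) (t : Fin N) :
    ∑ k, Function.update Y i v k t = ∑ k, Y k t + (v t - Y i t) := by
  rw [← Finset.add_sum_erase Finset.univ (fun k => Function.update Y i v k t) (Finset.mem_univ i),
    ← Finset.add_sum_erase Finset.univ (fun k => Y k t) (Finset.mem_univ i),
    Finset.sum_congr rfl (g := fun k => Y k t)]
  · simp only [Function.update_self]
    ring
  · intro k hk
    rw [Function.update_of_ne (Finset.ne_of_mem_erase hk)]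

theorem B4_sum_upd {i j : Fin m} (hij : i ≠ j) (Y : Fin m → Fin N → ZMod 3)
    (y : (Fin N → ZMod 3) × (Fin N → ZMod 3)) (t : Fin N) :
    ∑ k, B4_upd i j Y y k t = y.1 t + (y.2 t + (∑ k, Y k t - Y i t - Y j t)) := by
  unfold B4_upd
  rw [B4_sum_update, B4_sum_update, Function.update_of_ne hij.symm]
  ring

theorem B4_rect {i j : Fin m} (Tr : (Fin m → Fin N → ZMod 3) → Option (Fin K))
    (hR : ∀ Y Y' θ, (∀ k, k ≠ i → k ≠ j → Y k = Y' k) → Tr Y = some θ → Tr Y' = some θ →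
      Tr (Function.update Y j (Y' j)) = some θ) (Y : Fin m → Fin N → ZMod 3) (θ : Fin K)
    (a a' b b' : Fin N → ZMod 3) (h : Tr (B4_upd i j Y (a, b')) = some θ)
    (h' : Tr (B4_upd i j Y (a', b)) = some θ) : Tr (B4_upd i j Y (a, b)) = some θ := by
  have := hR (B4_upd i j Y (a, b')) (B4_upd i j Y (a', b)) θ ?_ h h'
  · rw [B4_upd_j] at this
    unfold B4_upd at this ⊢
    rwa [Function.update_idem] at this
  · intro k hi hj
    rw [B4_upd_k hi hj, B4_upd_k hi hj]

theorem B4_one {i j : Fin m} (hij : i ≠ j) (hN : 4000 ≤ N)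
    (Tr : (Fin m → Fin N → ZMod 3) → Option (Fin K))
    (hR : ∀ Y Y' θ, (∀ k, k ≠ i → k ≠ j → Y k = Y' k) → Tr Y = some θ → Tr Y' = some θ →
      Tr (Function.update Y j (Y' j)) = some θ) (Y : Fin m → Fin N → ZMod 3) (θ : Fin K) :
    2 ^ (N / 400) * (N * Nat.card
      {y : (Fin N → ZMod 3) × (Fin N → ZMod 3) // Tr (B4_upd i j Y y) = some θ ∧
        ∀ t, ∑ k, B4_upd i j Y y k t ≠ 2}) ≤
    2 ^ (N / 400) * (1024 * Nat.card
      {y : (Fin N → ZMod 3) × (Fin N → ZMod 3) // Tr (B4_upd i j Y y) = some θ ∧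
        ∃! t, ∑ k, B4_upd i j Y y k t = 2}) + 96 * N * 6 ^ N := by
  classical
  set s : Fin N → ZMod 3 := fun t => ∑ k, Y k t - Y i t - Y j t with hs
  set U : Finset (Fin N → ZMod 3) := Finset.univ.filter fun a =>
    ∃ b, Tr (B4_upd i j Y (a, b)) = some θ with hU
  set V : Finset (Fin N → ZMod 3) := Finset.univ.filter fun b =>
    ∃ a, Tr (B4_upd i j Y (a, b - s)) = some θ with hV
  set e : ((Fin N → ZMod 3) × (Fin N → ZMod 3)) ≃ ((Fin N → ZMod 3) × (Fin N → ZMod 3)) :=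
    (Equiv.refl _).prodCongr (Equiv.addRight s) with he
  have key : ∀ y : (Fin N → ZMod 3) × (Fin N → ZMod 3), Tr (B4_upd i j Y y) = some θ ↔
      (e y).1 ∈ U ∧ (e y).2 ∈ V := by
    rintro ⟨a, b⟩
    have e2 : (e (a, b)).2 - s = b := by simp [he]
    constructor
    · intro h
      refine ⟨?_, ?_⟩
      · simp only [hU, Finset.mem_filter, Finset.mem_univ, true_and]
        exact ⟨b, h⟩
      · simp only [hV, Finset.mem_filter, Finset.mem_univ, true_and]
        exact ⟨a, by rw [e2]; exact h⟩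
    · rintro ⟨h1, h2⟩
      simp only [hU, Finset.mem_filter, Finset.mem_univ, true_and] at h1
      simp only [hV, Finset.mem_filter, Finset.mem_univ, true_and] at h2
      obtain ⟨b', hb'⟩ := h1
      obtain ⟨a', ha'⟩ := h2
      rw [e2] at ha'
      exact B4_rect Tr hR Y θ a a' b b' hb' ha'
  have hsum : ∀ (y : (Fin N → ZMod 3) × (Fin N → ZMod 3)) (t : Fin N),
      ∑ k, B4_upd i j Y y k t = (e y).1 t + (e y).2 t := by
    rintro ⟨a, b⟩ t
    rw [B4_sum_upd hij]
    rfl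
  have c0 : Nat.card {y : (Fin N → ZMod 3) × (Fin N → ZMod 3) //
      Tr (B4_upd i j Y y) = some θ ∧ ∀ t, ∑ k, B4_upd i j Y y k t ≠ 2} =
      Nat.card {y : (Fin N → ZMod 3) × (Fin N → ZMod 3) //
        y.1 ∈ U ∧ y.2 ∈ V ∧ ∀ t, y.1 t + y.2 t ≠ 2} := by
    apply Nat.card_congr
    apply e.subtypeEquiv
    intro y
    rw [key y]
    simp only [hsum, and_assoc]
  have c1 : Nat.card {y : (Fin N → ZMod 3) × (Fin N → ZMod 3) //
      Tr (B4_upd i j Y y) = some θ ∧ ∃! t, ∑ k, B4_upd i j Y y k t = 2} =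
      Nat.card {y : (Fin N → ZMod 3) × (Fin N → ZMod 3) //
        y.1 ∈ U ∧ y.2 ∈ V ∧ ∃! t, y.1 t + y.2 t = 2} := by
    apply Nat.card_congr
    apply e.subtypeEquiv
    intro y
    rw [key y]
    simp only [hsum, and_assoc]
  rw [c0, c1]
  exact lemZ N hN U V

end B4

theorem null_one (m N K : ℕ) (hN : 4000 ≤ N) (i j : Fin m) (hij : i < j)
    (Tr : (Fin m → Fin N → ZMod 3) → Option (Fin K))
    (hR : ∀ Y Y' θ, (∀ k, k ≠ i → k ≠ j → Y k = Y' k) → Tr Y = some θ → Tr Y' = some θ →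
      Tr (Function.update Y j (Y' j)) = some θ) :
    2 ^ (N / 400) * (N * Nat.card {Y : Fin m → Fin N → ZMod 3 //
        (∀ t, ∑ k, Y k t ≠ 2) ∧ Tr Y ≠ none}) ≤
      2 ^ (N / 400) * (1024 * Nat.card {Y : Fin m → Fin N → ZMod 3 //
        (∃! t, ∑ k, Y k t = 2) ∧ Tr Y ≠ none}) + 96 * N * K * 6 ^ N * 3 ^ (N * (m - 2)) := by
  have hne : i ≠ j := ne_of_lt hij
  have h0 := B4_count i j hne Tr (fun Y => ∀ t, ∑ k, Y k t ≠ 2)
  have h1 := B4_count i j hne Tr (fun Y => ∃! t, ∑ k, Y k t = 2)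
  have h2 : ∑ Y : Fin m → Fin N → ZMod 3, ∑ θ : Fin K, 2 ^ (N / 400) * (N * Nat.card
      {y : (Fin N → ZMod 3) × (Fin N → ZMod 3) // Tr (B4_upd i j Y y) = some θ ∧
        ∀ t, ∑ k, B4_upd i j Y y k t ≠ 2}) ≤
      ∑ Y : Fin m → Fin N → ZMod 3, ∑ θ : Fin K, (2 ^ (N / 400) * (1024 * Nat.card
      {y : (Fin N → ZMod 3) × (Fin N → ZMod 3) // Tr (B4_upd i j Y y) = some θ ∧
        ∃! t, ∑ k, B4_upd i j Y y k t = 2}) + 96 * N * 6 ^ N) :=
    Finset.sum_le_sum fun Y _ => Finset.sum_le_sum fun θ _ => B4_one hne hN Tr hR Y θ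
  simp only [Finset.sum_add_distrib, ← Finset.mul_sum] at h2
  rw [h0, h1] at h2
  simp only [Finset.sum_const, Finset.card_univ, Fintype.card_fun, ZMod.card, Fintype.card_fin,
    smul_eq_mul] at h2
  have hm : 2 ≤ m := by
    have := j.isLt
    have h3 : (i : ℕ) < j := hij
    omega
  have h4 : ((3 : ℕ) ^ N) ^ m = (3 ^ N) ^ 2 * 3 ^ (N * (m - 2)) := by
    rw [pow_mul 3 N (m - 2), ← pow_add]
    congr 1
    omega
  rw [h4] at h2
  have hpos : 0 < ((3 : ℕ) ^ N) ^ 2 := by positivity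
  apply Nat.le_of_mul_le_mul_left _ hpos
  calc _ = 2 ^ (N / 400) * (N * ((3 ^ N) ^ 2 * Nat.card {Y : Fin m → Fin N → ZMod 3 //
        (∀ t, ∑ k, Y k t ≠ 2) ∧ Tr Y ≠ none})) := by ring
    _ ≤ _ := h2
    _ = _ := by ring

/-! ## Counting -/

theorem B4_card_pi (m N : ℕ) (P : Fin N → (Fin m → ZMod 3) → Prop) :
    Nat.card {Y : Fin m → Fin N → ZMod 3 // ∀ t, P t fun k => Y k t} =
      ∏ t, Nat.card {c : Fin m → ZMod 3 // P t c} := by
  rw [← Nat.card_pi]
  apply Nat.card_congr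
  exact ((Equiv.piComm fun (_ : Fin m) (_ : Fin N) => ZMod 3).subtypeEquiv
    (q := fun Z : Fin N → Fin m → ZMod 3 => ∀ t, P t (Z t)) fun Y => Iff.rfl).trans
    Equiv.subtypePiEquivPi

theorem B4_col (m : ℕ) (hm : 1 ≤ m) (v : ZMod 3) :
    Nat.card {c : Fin m → ZMod 3 // ∑ k, c k = v} = 3 ^ (m - 1) := by
  obtain ⟨l, rfl⟩ : ∃ l, m = l + 1 := ⟨m - 1, by omega⟩
  have e : {c : Fin (l + 1) → ZMod 3 // ∑ k, c k = v} ≃ (Fin l → ZMod 3) :=
    { toFun := fun c => Fin.tail c.1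
      invFun := fun r => ⟨Fin.cons (v - ∑ k, r k) r, by
        rw [Fin.sum_univ_succ]
        simp⟩
      left_inv := by
        rintro ⟨c, hc⟩
        apply Subtype.ext
        rw [Fin.sum_univ_succ] at hc
        have : v - ∑ k, Fin.tail c k = c 0 := by
          rw [← hc]
          simp [Fin.tail]
        simp only [this, Fin.cons_self_tail]
      right_inv := by
        intro r
        simp }
  rw [Nat.card_congr e, Nat.card_eq_fintype_card]
  simp

theorem B4_col' (m : ℕ) (hm : 1 ≤ m) (v : ZMod 3) :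
    Nat.card {c : Fin m → ZMod 3 // ∑ k, c k ≠ v} = 2 * 3 ^ (m - 1) := by
  classical
  have h := B4_col m hm v
  rw [Nat.card_eq_fintype_card] at h ⊢
  have h2 := Fintype.card_subtype_compl (fun c : Fin m → ZMod 3 => ∑ k, c k = v)
  have h3 : Fintype.card (Fin m → ZMod 3) = 3 * 3 ^ (m - 1) := by
    rw [Fintype.card_fun, ZMod.card, Fintype.card_fin, ← pow_succ']
    congr 1
    omega
  rw [h, h3] at h2
  have h4 : Fintype.card {c : Fin m → ZMod 3 // ∑ k, c k ≠ v} =
      Fintype.card {c : Fin m → ZMod 3 // ¬ ∑ k, c k = v} := rfl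
  omega

theorem card_null (m N : ℕ) (hm : 1 ≤ m) : Nat.card {Y : Fin m → Fin N → ZMod 3 //
    ∀ t, ∑ k, Y k t ≠ 2} = (2 * 3 ^ (m - 1)) ^ N := by
  rw [B4_card_pi m N (fun _ c => ∑ k, c k ≠ 2)]
  simp only [B4_col' m hm]
  simp

theorem card_one (m N : ℕ) (hm : 1 ≤ m) : 2 * Nat.card {Y : Fin m → Fin N → ZMod 3 //
    ∃! t, ∑ k, Y k t = 2} = N * (2 * 3 ^ (m - 1)) ^ N := by
  classical
  have h1 : ∀ t0 : Fin N, 2 * Nat.card {Y : Fin m → Fin N → ZMod 3 //
      ∀ t, if t = t0 then ∑ k, Y k t = 2 else ∑ k, Y k t ≠ 2} = (2 * 3 ^ (m - 1)) ^ N := by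
    intro t0
    rw [B4_card_pi m N (fun t c => if t = t0 then ∑ k, c k = 2 else ∑ k, c k ≠ 2),
      ← Finset.mul_prod_erase _ _ (Finset.mem_univ t0)]
    simp only [if_true]
    rw [B4_col m hm, Finset.prod_congr rfl (g := fun _ => 2 * 3 ^ (m - 1))]
    · rw [Finset.prod_const, Finset.card_erase_of_mem (Finset.mem_univ _), Finset.card_univ,
        Fintype.card_fin, ← mul_assoc, ← pow_succ']
      congr 1
      have := t0.isLt
      omega
    · intro t ht
      simp only [if_neg (Finset.ne_of_mem_erase ht)]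
      exact B4_col' m hm 2
  have h2 : Nat.card {Y : Fin m → Fin N → ZMod 3 // ∃! t, ∑ k, Y k t = 2} =
      ∑ t0 : Fin N, Nat.card {Y : Fin m → Fin N → ZMod 3 //
      ∀ t, if t = t0 then ∑ k, Y k t = 2 else ∑ k, Y k t ≠ 2} := by
    simp only [Nat.card_eq_fintype_card, Fintype.card_subtype]
    rw [← Finset.card_biUnion]
    · congr 1
      ext Y
      simp only [Finset.mem_filter, Finset.mem_univ, true_and, Finset.mem_biUnion]
      constructor
      · rintro ⟨t0, h0, hu⟩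
        refine ⟨t0, fun t => ?_⟩
        split_ifs with h
        · rw [h]
          exact h0
        · exact fun h' => h (hu t h')
      · rintro ⟨t0, h0⟩
        refine ⟨t0, ?_, fun t ht => ?_⟩
        · have := h0 t0
          rwa [if_pos rfl] at this
        · by_contra hne
          have := h0 t
          rw [if_neg hne] at this
          exact this ht
    · intro t0 _ t1 _ hne
      rw [Function.onFun, Finset.disjoint_left]
      intro Y h0 h1'
      simp only [Finset.mem_filter, Finset.mem_univ, true_and] at h0 h1'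
      have a0 := h0 t0
      have a1 := h1' t0
      rw [if_pos rfl] at a0
      rw [if_neg hne] at a1
      exact a1 a0
  rw [h2, Finset.mul_sum]
  simp only [h1]
  simp

end Pool.Agent.ST
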