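import Mathlib
import Pool.Agent.Lib.MP_b573ec_lc_ST.Rect

/-! Module B5 of the project SPASS: eleven independent programs (helper4). -/

namespace Pool.Agent.ST

section B5

open Finset

open Classical in
/-- combined transcripts of eleven programs -/
noncomputable def B5tr {Γ Y I : Type} {K : ℕ} (Tr : Γ → I → Y → Option (Fin K))
    (c : Fin 11 → Γ) (i : I) (y : Y) : Option (Fin (K ^ 11)) :=
  if h : ∃ θ : Fin 11 → Fin K, ∀ s, Tr (c s) i y = some (θ s) then
    some (finFunctionFinEquiv (Classical.choose h)) else none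

theorem B5tr_some {Γ Y I : Type} {K : ℕ} (Tr : Γ → I → Y → Option (Fin K))
    (c : Fin 11 → Γ) (i : I) (y : Y) (θ : Fin (K ^ 11)) :
    B5tr Tr c i y = some θ ↔
      ∀ s, Tr (c s) i y = some (finFunctionFinEquiv.symm θ s) := by
  classical
  unfold B5tr
  constructor
  · intro h
    split_ifs at h with hex
    have h1 := Classical.choose_spec hex
    have h2 : finFunctionFinEquiv (Classical.choose hex) = θ := Option.some.inj h
    intro s
    rw [← h2, Equiv.symm_apply_apply]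
    exact h1 s
  · intro h
    have hex : ∃ θ : Fin 11 → Fin K, ∀ s, Tr (c s) i y = some (θ s) := ⟨_, h⟩
    rw [dif_pos hex]
    have h1 := Classical.choose_spec hex
    have h2 : Classical.choose hex = finFunctionFinEquiv.symm θ := by
      funext s
      have := (h1 s).symm.trans (h s)
      exact Option.some.inj this
    rw [h2, Equiv.apply_symm_apply]

theorem B5tr_ne_none {Γ Y I : Type} {K : ℕ} (Tr : Γ → I → Y → Option (Fin K))
    (c : Fin 11 → Γ) (i : I) (y : Y) :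
    B5tr Tr c i y ≠ none ↔ ∀ s, Tr (c s) i y ≠ none := by
  classical
  constructor
  · intro h s
    obtain ⟨θ, hθ⟩ := Option.ne_none_iff_exists'.1 h
    rw [B5tr_some] at hθ
    rw [hθ s]
    exact Option.some_ne_none _
  · intro h
    have h1 : ∀ s, ∃ θ, Tr (c s) i y = some θ := fun s => Option.ne_none_iff_exists'.1 (h s)
    choose θ hθ using h1
    have : B5tr Tr c i y = some (finFunctionFinEquiv θ) := by
      rw [B5tr_some]
      intro s
      rw [Equiv.symm_apply_apply]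
      exact hθ s
    rw [this]
    exact Option.some_ne_none _

theorem B5_pairs (m : ℕ) :
    2 * (Finset.univ.filter fun ij : Fin m × Fin m => ij.1 < ij.2).card = m * (m - 1) := by
  have h1 : (Finset.univ.filter fun ij : Fin m × Fin m => ij.1 < ij.2).card
      = ∑ j : Fin m, (j : ℕ) := by
    rw [Finset.card_filter, ← Finset.univ_product_univ, Finset.sum_product_right]
    refine Finset.sum_congr rfl fun j _ => ?_
    rw [← Finset.card_filter]
    have : (Finset.univ.filter fun i : Fin m => i < j) = Finset.Iio j := by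
      ext i; simp
    rw [this, Fin.card_Iio]
  rw [h1, Fin.sum_univ_eq_sum_range (fun i => i) m, mul_comm, Finset.sum_range_id_mul_two]

/-- arithmetic at the end -/
theorem B5_arith (A B G K e N Z : ℕ) (hN : 0 < N) (hZ : 0 < Z) (hG : 0 < G)
    (h : 2 ^ e * N * (A ^ 11 * Z) ≤
      1024 * (2 ^ e * (B ^ 11 * (N * Z))) + 192 * N * K ^ 11 * Z * G ^ 11)
    (hAB : 2 * B ≤ A) (hA2 : 2 * G ≤ 3 * A) (hK : 2 ^ 16 * K ^ 11 < 2 ^ e) : False := by
  have h1 : 2 ^ e * A ^ 11 ≤ 1024 * (2 ^ e * B ^ 11) + 192 * K ^ 11 * G ^ 11 := by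
    have hNZ : 0 < N * Z := Nat.mul_pos hN hZ
    refine Nat.le_of_mul_le_mul_left ?_ hNZ
    calc N * Z * (2 ^ e * A ^ 11) = 2 ^ e * N * (A ^ 11 * Z) := by ring
      _ ≤ _ := h
      _ = N * Z * (1024 * (2 ^ e * B ^ 11) + 192 * K ^ 11 * G ^ 11) := by ring
  have h2 : 2 ^ 11 * B ^ 11 ≤ A ^ 11 := by
    rw [← mul_pow]; exact Nat.pow_le_pow_left hAB 11
  have h3 : 2 ^ 11 * G ^ 11 ≤ 3 ^ 11 * A ^ 11 := by
    rw [← mul_pow, ← mul_pow]; exact Nat.pow_le_pow_left hA2 11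
  have hE : 0 < 2 ^ e := by positivity
  have h4 : 2 ^ e * A ^ 11 ≤ 384 * (K ^ 11 * G ^ 11) := by
    have : 2 ^ e * (2 ^ 11 * B ^ 11) ≤ 2 ^ e * A ^ 11 := Nat.mul_le_mul_left _ h2
    nlinarith
  have h5 : 2 ^ e * (2 ^ 11 * G ^ 11) ≤ 3 ^ 11 * (384 * (K ^ 11 * G ^ 11)) := by
    calc 2 ^ e * (2 ^ 11 * G ^ 11) ≤ 2 ^ e * (3 ^ 11 * A ^ 11) := Nat.mul_le_mul_left _ h3
      _ = 3 ^ 11 * (2 ^ e * A ^ 11) := by ring
      _ ≤ _ := Nat.mul_le_mul_left _ h4
  have hG11 : 0 < G ^ 11 := by positivity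
  have h6 : 2 ^ e * 2 ^ 11 ≤ 3 ^ 11 * 384 * K ^ 11 := by
    refine Nat.le_of_mul_le_mul_right ?_ hG11
    calc 2 ^ e * 2 ^ 11 * G ^ 11 = 2 ^ e * (2 ^ 11 * G ^ 11) := by ring
      _ ≤ _ := h5
      _ = _ := by ring
  have h7 : 2 ^ 16 * K ^ 11 * 2 ^ 11 < 2 ^ e * 2 ^ 11 :=
    Nat.mul_lt_mul_of_pos_right hK (by norm_num)
  have h8 : 2 ^ 16 * K ^ 11 * 2 ^ 11 < 3 ^ 11 * 384 * K ^ 11 := lt_of_lt_of_le h7 h6
  norm_num at h8
  nlinarith [h8, Nat.zero_le (K ^ 11)]

/-- one tuple of eleven programs -/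
theorem B5_tuple (m N K : ℕ) (hm : 2 ≤ m) (hN : 4000 ≤ N) {Γ : Type}
    (Out : Γ → (Fin m → Fin N → ZMod 3) → Prop)
    (Tr : Γ → Fin m → Fin m → (Fin m → Fin N → ZMod 3) → Option (Fin K))
    (hR : ∀ c i j Y Y' θ, i < j → (∀ k, k ≠ i → k ≠ j → Y k = Y' k) → Tr c i j Y = some θ →
      Tr c i j Y' = some θ → Tr c i j (Function.update Y j (Y' j)) = some θ)
    (hO : ∀ c i j Y, i < j → Tr c i j Y ≠ none → Out c Y)
    (hG : ∀ c Y, Out c Y →
      44 * {ij : Fin m × Fin m | ij.1 < ij.2 ∧ Tr c ij.1 ij.2 Y = none}.ncard ≤ m * (m - 1))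
    (c : Fin 11 → Γ) :
    2 ^ (N / 400) * N * Nat.card {Y : Fin m → Fin N → ZMod 3 //
        (∀ t, ∑ k, Y k t ≠ 2) ∧ ∀ s, Out (c s) Y} ≤
      2048 * (2 ^ (N / 400) * Nat.card {Y : Fin m → Fin N → ZMod 3 //
        (∃! t, ∑ k, Y k t = 2) ∧ ∀ s, Out (c s) Y}) +
        192 * N * K ^ 11 * (2 * 3 ^ (m - 1)) ^ N := by
  classical
  set Z : ℕ := (2 * 3 ^ (m - 1)) ^ N with hZ
  have hZ6 : 6 ^ N * 3 ^ (N * (m - 2)) = Z := by
    rw [hZ, mul_comm N (m - 2), pow_mul, ← mul_pow]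
    congr 1
    obtain ⟨r, rfl⟩ : ∃ r, m = r + 2 := ⟨m - 2, by omega⟩
    have : r + 2 - 1 = r + 1 := by omega
    rw [this, Nat.add_sub_cancel, pow_succ]
    ring
  set Pr := (Finset.univ.filter fun ij : Fin m × Fin m => ij.1 < ij.2) with hPr
  have hPc : 2 * Pr.card = m * (m - 1) := B5_pairs m
  -- combined transcripts
  let T : Fin m × Fin m → (Fin m → Fin N → ZMod 3) → Option (Fin (K ^ 11)) :=
    fun ij Y => B5tr (fun g (ij : Fin m × Fin m) Y => Tr g ij.1 ij.2 Y) c ij Y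
  set NU := (Finset.univ.filter fun Y : Fin m → Fin N → ZMod 3 => ∀ t, ∑ k, Y k t ≠ 2) with hNU
  set ON := (Finset.univ.filter fun Y : Fin m → Fin N → ZMod 3 => ∃! t, ∑ k, Y k t = 2) with hON
  have hA0 : Nat.card {Y : Fin m → Fin N → ZMod 3 //
      (∀ t, ∑ k, Y k t ≠ 2) ∧ ∀ s, Out (c s) Y} = (NU.filter fun Y => ∀ s, Out (c s) Y).card := by
    rw [Nat.card_eq_fintype_card, Fintype.card_subtype, hNU, Finset.filter_filter]
  have hA1 : Nat.card {Y : Fin m → Fin N → ZMod 3 //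
      (∃! t, ∑ k, Y k t = 2) ∧ ∀ s, Out (c s) Y} = (ON.filter fun Y => ∀ s, Out (c s) Y).card := by
    rw [Nat.card_eq_fintype_card, Fintype.card_subtype, hON, Finset.filter_filter]
  rw [hA0, hA1]
  -- the inequality for each pair
  have hpair : ∀ ij ∈ Pr, 2 ^ (N / 400) * (N * (NU.filter fun Y => T ij Y ≠ none).card) ≤
      2 ^ (N / 400) * (1024 * (ON.filter fun Y => ∀ s, Out (c s) Y).card) +
        96 * N * K ^ 11 * Z := by
    intro ij hij
    have hlt : ij.1 < ij.2 := by simpa [hPr] using hij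
    have h := null_one m N (K ^ 11) hN ij.1 ij.2 hlt (T ij) (by
      intro Y Y' θ hag h1 h2
      simp only [T] at h1 h2 ⊢
      rw [B5tr_some] at h1 h2 ⊢
      intro s
      exact hR (c s) ij.1 ij.2 Y Y' _ hlt hag (h1 s) (h2 s))
    rw [Nat.card_eq_fintype_card, Fintype.card_subtype, Nat.card_eq_fintype_card,
      Fintype.card_subtype] at h
    have e1 : (Finset.univ.filter fun Y : Fin m → Fin N → ZMod 3 =>
        (∀ t, ∑ k, Y k t ≠ 2) ∧ T ij Y ≠ none) = NU.filter fun Y => T ij Y ≠ none := by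
      rw [hNU, Finset.filter_filter]
    have e2 : (Finset.univ.filter fun Y : Fin m → Fin N → ZMod 3 =>
        (∃! t, ∑ k, Y k t = 2) ∧ T ij Y ≠ none).card ≤
          (ON.filter fun Y => ∀ s, Out (c s) Y).card := by
      refine Finset.card_le_card fun Y hY => ?_
      rw [Finset.mem_filter] at hY
      rw [Finset.mem_filter, hON, Finset.mem_filter]
      refine ⟨⟨Finset.mem_univ _, hY.2.1⟩, fun s => ?_⟩
      have h3 := (B5tr_ne_none _ c ij Y).1 hY.2.2 s
      exact hO (c s) ij.1 ij.2 Y hlt h3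
    rw [e1] at h
    calc 2 ^ (N / 400) * (N * (NU.filter fun Y => T ij Y ≠ none).card) ≤ _ := h
      _ ≤ 2 ^ (N / 400) * (1024 * (ON.filter fun Y => ∀ s, Out (c s) Y).card) +
          96 * N * K ^ 11 * 6 ^ N * 3 ^ (N * (m - 2)) := by gcongr
      _ = _ := by rw [← hZ6]; ring
  have hsum := Finset.sum_le_sum hpair
  rw [Finset.sum_const, ← Finset.mul_sum, ← Finset.mul_sum, smul_eq_mul] at hsum
  -- double counting
  have hdc : m * (m - 1) * (NU.filter fun Y => ∀ s, Out (c s) Y).card ≤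
      4 * ∑ ij ∈ Pr, (NU.filter fun Y => T ij Y ≠ none).card := by
    have h1 : ∑ ij ∈ Pr, (NU.filter fun Y => T ij Y ≠ none).card =
        ∑ Y ∈ NU, (Pr.filter fun ij => T ij Y ≠ none).card := by
      simp only [Finset.card_filter]
      exact Finset.sum_comm
    rw [h1]
    have h2 : ∀ Y ∈ NU.filter (fun Y => ∀ s, Out (c s) Y),
        m * (m - 1) ≤ 4 * (Pr.filter fun ij => T ij Y ≠ none).card := by
      intro Y hY
      have hout : ∀ s, Out (c s) Y := (Finset.mem_filter.1 hY).2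
      have h3 : (Pr.filter fun ij => ¬ T ij Y ≠ none).card ≤
          ∑ s : Fin 11, (Pr.filter fun ij => Tr (c s) ij.1 ij.2 Y = none).card := by
        have hsub : (Pr.filter fun ij => ¬ T ij Y ≠ none) ⊆
            (Finset.univ : Finset (Fin 11)).biUnion
              fun s => Pr.filter fun ij => Tr (c s) ij.1 ij.2 Y = none := by
          intro ij hij
          rw [Finset.mem_filter] at hij
          rw [Finset.mem_biUnion]
          have h4 := hij.2
          simp only [T] at h4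
          rw [B5tr_ne_none] at h4
          push Not at h4
          obtain ⟨s, hs⟩ := h4
          exact ⟨s, Finset.mem_univ _, Finset.mem_filter.2 ⟨hij.1, hs⟩⟩
        exact (Finset.card_le_card hsub).trans Finset.card_biUnion_le
      have h5 : ∀ s : Fin 11, 44 * (Pr.filter fun ij => Tr (c s) ij.1 ij.2 Y = none).card ≤
          m * (m - 1) := by
        intro s
        have h6 := hG (c s) Y (hout s)
        have h7 : {ij : Fin m × Fin m | ij.1 < ij.2 ∧ Tr (c s) ij.1 ij.2 Y = none} =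
            ((Pr.filter fun ij => Tr (c s) ij.1 ij.2 Y = none : Finset (Fin m × Fin m)) :
              Set (Fin m × Fin m)) := by
          ext ij
          simp [hPr]
        rw [h7, Set.ncard_coe_finset] at h6
        exact h6
      have h8 : 44 * ∑ s : Fin 11, (Pr.filter fun ij => Tr (c s) ij.1 ij.2 Y = none).card ≤
          11 * (m * (m - 1)) := by
        rw [Finset.mul_sum]
        calc _ ≤ ∑ _s : Fin 11, m * (m - 1) := Finset.sum_le_sum fun s _ => h5 s
          _ = _ := by simp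
      have h9 := Finset.card_filter_add_card_filter_not (s := Pr) (fun ij => T ij Y ≠ none)
      omega
    calc m * (m - 1) * (NU.filter fun Y => ∀ s, Out (c s) Y).card
        = ∑ _Y ∈ NU.filter (fun Y => ∀ s, Out (c s) Y), m * (m - 1) := by
          rw [Finset.sum_const, smul_eq_mul, mul_comm]
      _ ≤ ∑ Y ∈ NU.filter (fun Y => ∀ s, Out (c s) Y),
          4 * (Pr.filter fun ij => T ij Y ≠ none).card := Finset.sum_le_sum h2
      _ ≤ ∑ Y ∈ NU, 4 * (Pr.filter fun ij => T ij Y ≠ none).card :=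
          Finset.sum_le_sum_of_subset (Finset.filter_subset _ _)
      _ = _ := by rw [Finset.mul_sum]
  -- conclusion
  have hmm : 0 < m * (m - 1) := Nat.mul_pos (by omega) (by omega)
  refine Nat.le_of_mul_le_mul_left ?_ hmm
  set a0 := (NU.filter fun Y => ∀ s, Out (c s) Y).card with ha0
  set a1 := (ON.filter fun Y => ∀ s, Out (c s) Y).card with ha1
  set S := ∑ ij ∈ Pr, (NU.filter fun Y => T ij Y ≠ none).card with hS
  calc m * (m - 1) * (2 ^ (N / 400) * N * a0) = 2 ^ (N / 400) * N * (m * (m - 1) * a0) := by ring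
    _ ≤ 2 ^ (N / 400) * N * (4 * S) := Nat.mul_le_mul_left _ hdc
    _ = 4 * (2 ^ (N / 400) * (N * S)) := by ring
    _ ≤ 4 * (Pr.card * (2 ^ (N / 400) * (1024 * a1) + 96 * N * K ^ 11 * Z)) :=
        Nat.mul_le_mul_left _ hsum
    _ = 2 * Pr.card * (2048 * (2 ^ (N / 400) * a1) + 192 * N * K ^ 11 * Z) := by ring
    _ = m * (m - 1) * (2048 * (2 ^ (N / 400) * a1) + 192 * N * K ^ 11 * Z) := by rw [hPc]

/-- tuples of programs with the same output -/
theorem B5_power {Γ Y : Type} [Fintype Γ] (Out : Γ → Y → Prop) (y : Y) :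
    Nat.card {c : Fin 11 → Γ // ∀ s, Out (c s) y} = Nat.card {c // Out c y} ^ 11 := by
  classical
  have e : {c : Fin 11 → Γ // ∀ s, Out (c s) y} ≃ (Fin 11 → {c // Out c y}) :=
    { toFun := fun c s => ⟨c.1 s, c.2 s⟩
      invFun := fun c => ⟨fun s => (c s).1, fun s => (c s).2⟩
      left_inv := fun c => rfl
      right_inv := fun c => rfl }
  rw [Nat.card_congr e, Nat.card_fun]
  simp

theorem B5_swap {Γ Y : Type} [Fintype Γ] (Out : Γ → Y → Prop) (Q : Y → Prop)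
    [Fintype {y : Y // Q y}] :
    ∑ c : Fin 11 → Γ, Nat.card {y : Y // Q y ∧ ∀ s, Out (c s) y} =
      ∑ y : {y : Y // Q y}, Nat.card {c // Out c y.1} ^ 11 := by
  classical
  have h1 : ∀ c : Fin 11 → Γ, Nat.card {y : Y // Q y ∧ ∀ s, Out (c s) y} =
      ∑ y : {y : Y // Q y}, if ∀ s, Out (c s) y.1 then 1 else 0 := by
    intro c
    rw [← Finset.card_filter, ← Fintype.card_subtype, ← Nat.card_eq_fintype_card]
    exact (Nat.card_congr (Equiv.subtypeSubtypeEquivSubtypeInter Q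
      (fun y => ∀ s, Out (c s) y))).symm
  rw [Finset.sum_congr rfl fun c _ => h1 c, Finset.sum_comm]
  refine Finset.sum_congr rfl fun y _ => ?_
  rw [← B5_power, ← Finset.card_filter, ← Fintype.card_subtype, ← Nat.card_eq_fintype_card]

end B5

theorem corrupt (m N K : ℕ) (hm : 2 ≤ m) (hN : 4000 ≤ N) {Γ : Type} [Fintype Γ] [Nonempty Γ]
    (Out : Γ → (Fin m → Fin N → ZMod 3) → Prop)
    (Tr : Γ → Fin m → Fin m → (Fin m → Fin N → ZMod 3) → Option (Fin K))
    (hR : ∀ c i j Y Y' θ, i < j → (∀ k, k ≠ i → k ≠ j → Y k = Y' k) → Tr c i j Y = some θ →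
      Tr c i j Y' = some θ → Tr c i j (Function.update Y j (Y' j)) = some θ)
    (hO : ∀ c i j Y, i < j → Tr c i j Y ≠ none → Out c Y)
    (hG : ∀ c Y, Out c Y →
      44 * {ij : Fin m × Fin m | ij.1 < ij.2 ∧ Tr c ij.1 ij.2 Y = none}.ncard ≤ m * (m - 1))
    (A B : ℕ) (hA : ∀ Y, (∀ t, ∑ k, Y k t ≠ 2) → A ≤ Nat.card {c // Out c Y})
    (hB : ∀ Y, (∃! t, ∑ k, Y k t = 2) → Nat.card {c // Out c Y} ≤ B)
    (hAB : 2 * B ≤ A) (hA2 : 2 * Fintype.card Γ ≤ 3 * A)
    (hK : 2 ^ 16 * K ^ 11 < 2 ^ (N / 400)) : False := by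
  classical
  set Z : ℕ := (2 * 3 ^ (m - 1)) ^ N with hZ
  have hZpos : 0 < Z := by positivity
  have hsum : ∑ c : Fin 11 → Γ, 2 ^ (N / 400) * N * Nat.card {Y : Fin m → Fin N → ZMod 3 //
        (∀ t, ∑ k, Y k t ≠ 2) ∧ ∀ s, Out (c s) Y} ≤
      ∑ c : Fin 11 → Γ, (2048 * (2 ^ (N / 400) * Nat.card {Y : Fin m → Fin N → ZMod 3 //
        (∃! t, ∑ k, Y k t = 2) ∧ ∀ s, Out (c s) Y}) + 192 * N * K ^ 11 * Z) :=
    Finset.sum_le_sum fun c _ => B5_tuple m N K hm hN Out Tr hR hO hG c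
  rw [← Finset.mul_sum, Finset.sum_add_distrib, ← Finset.mul_sum, ← Finset.mul_sum,
    B5_swap Out (fun Y : Fin m → Fin N → ZMod 3 => ∀ t, ∑ k, Y k t ≠ 2),
    B5_swap Out (fun Y : Fin m → Fin N → ZMod 3 => ∃! t, ∑ k, Y k t = 2),
    Finset.sum_const, Finset.card_univ, Fintype.card_fun, Fintype.card_fin, smul_eq_mul] at hsum
  have hn := card_null m N (by omega)
  have ho := card_one m N (by omega)
  rw [← hZ] at hn ho
  have h1 : A ^ 11 * Z ≤ ∑ y : {Y : Fin m → Fin N → ZMod 3 // ∀ t, ∑ k, Y k t ≠ 2},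
      Nat.card {c // Out c y.1} ^ 11 := by
    calc A ^ 11 * Z = ∑ _y : {Y : Fin m → Fin N → ZMod 3 // ∀ t, ∑ k, Y k t ≠ 2}, A ^ 11 := by
          rw [Finset.sum_const, Finset.card_univ, ← Nat.card_eq_fintype_card, hn, smul_eq_mul,
            mul_comm]
      _ ≤ _ := Finset.sum_le_sum fun y _ => Nat.pow_le_pow_left (hA y.1 y.2) 11
  have h2 : 2 * ∑ y : {Y : Fin m → Fin N → ZMod 3 // ∃! t, ∑ k, Y k t = 2},
      Nat.card {c // Out c y.1} ^ 11 ≤ B ^ 11 * (N * Z) := by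
    calc _ ≤ 2 * ∑ _y : {Y : Fin m → Fin N → ZMod 3 // ∃! t, ∑ k, Y k t = 2}, B ^ 11 :=
          Nat.mul_le_mul_left _ (Finset.sum_le_sum fun y _ => Nat.pow_le_pow_left (hB y.1 y.2) 11)
      _ = B ^ 11 * (2 * Nat.card {Y : Fin m → Fin N → ZMod 3 // ∃! t, ∑ k, Y k t = 2}) := by
          rw [Finset.sum_const, Finset.card_univ, ← Nat.card_eq_fintype_card, smul_eq_mul]
          ring
      _ = _ := by rw [ho]
  refine B5_arith A B (Fintype.card Γ) K (N / 400) N Z (by omega) hZpos Fintype.card_pos ?_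
    hAB hA2 hK
  set s0 := ∑ y : {Y : Fin m → Fin N → ZMod 3 // ∀ t, ∑ k, Y k t ≠ 2},
      Nat.card {c // Out c y.1} ^ 11 with hs0
  set s1 := ∑ y : {Y : Fin m → Fin N → ZMod 3 // ∃! t, ∑ k, Y k t = 2},
      Nat.card {c // Out c y.1} ^ 11 with hs1
  calc 2 ^ (N / 400) * N * (A ^ 11 * Z) ≤ 2 ^ (N / 400) * N * s0 := Nat.mul_le_mul_left _ h1
    _ ≤ 2048 * (2 ^ (N / 400) * s1) + Fintype.card Γ ^ 11 * (192 * N * K ^ 11 * Z) := hsum
    _ = 1024 * (2 ^ (N / 400) * (2 * s1)) + 192 * N * K ^ 11 * Z * Fintype.card Γ ^ 11 := by ring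
    _ ≤ 1024 * (2 ^ (N / 400) * (B ^ 11 * (N * Z))) +
        192 * N * K ^ 11 * Z * Fintype.card Γ ^ 11 := by gcongr

end Pool.Agent.ST
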