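import Mathlib
import Pool.Agent.Lib.MP_b573ec_lc_ST.Core
import Pool.Agent.Lib.MP_b573ec_lc_ST.Enc
import Pool.Agent.Lib.MP_b573ec_lc_ST.Trans
import Pool.Agent.Lib.MP_b573ec_lc_ST.Fool

/-!
# Lower bound for the complement of the second language

The hard inputs are those all of whose column sums are `1` modulo `3`.
-/

set_option autoImplicit false

namespace Pool.Agent.ST

open Pool.Agent.LT (Inp)

/-- the bits of the blocks: two bits for each entry of a matrix over the integers modulo `3`, whose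
number of ones is the value of the entry -/
def B7_bits {m N : ℕ} (Y : Fin m → Fin N → ZMod 3) (i s : ℕ) : Bool :=
  if h : i < m ∧ s / 2 < N then
    (if s % 2 = 0 then decide (Y ⟨i, h.1⟩ ⟨s / 2, h.2⟩ ≠ 0)
      else decide (Y ⟨i, h.1⟩ ⟨s / 2, h.2⟩ = 2))
  else false

theorem B7_bits_even {m N : ℕ} (Y : Fin m → Fin N → ZMod 3) (i : Fin m) (t : Fin N) :
    B7_bits Y i (2 * (t : ℕ)) = decide (Y i t ≠ 0) := by
  have h : (i : ℕ) < m ∧ 2 * (t : ℕ) / 2 < N := ⟨i.2, by have := t.2; omega⟩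
  unfold B7_bits
  rw [dif_pos h, if_pos (by omega)]
  have e : (⟨2 * (t : ℕ) / 2, h.2⟩ : Fin N) = t := Fin.ext (by simp only; omega)
  rw [e]

theorem B7_bits_odd {m N : ℕ} (Y : Fin m → Fin N → ZMod 3) (i : Fin m) (t : Fin N) :
    B7_bits Y i (2 * (t : ℕ) + 1) = decide (Y i t = 2) := by
  have h : (i : ℕ) < m ∧ (2 * (t : ℕ) + 1) / 2 < N := ⟨i.2, by have := t.2; omega⟩
  unfold B7_bits
  rw [dif_pos h, if_neg (by omega)]
  have e : (⟨(2 * (t : ℕ) + 1) / 2, h.2⟩ : Fin N) = t := Fin.ext (by simp only; omega)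
  rw [e]

theorem B7_val (a : ZMod 3) : (decide (a ≠ 0)).toNat + (decide (a = 2)).toNat = a.val := by
  revert a
  decide

theorem B7_sep (a a' : ZMod 3) (h0 : decide (a ≠ 0) = decide (a' ≠ 0))
    (h2 : decide (a = 2) = decide (a' = 2)) : a = a' := by
  revert a a'
  decide

/-- the language in terms of the column sums -/
theorem B7_langB {n g : ℕ} (hg : g ≤ Nat.log 2 n)
    (Y : Fin (2 ^ g) → Fin ((n - Nat.log 2 n) / 2 ^ g / 2) → ZMod 3) :
    langB n (encM n g (B7_bits Y)) = true ↔ ∃ t, ∑ k, Y k t = 2 := by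
  have key : ∀ t : Fin ((n - Nat.log 2 n) / 2 ^ g / 2),
      ((∑ i ∈ Finset.range (2 ^ g), ((B7_bits Y i (2 * (t : ℕ))).toNat +
        (B7_bits Y i (2 * (t : ℕ) + 1)).toNat)) % 3 = 2 ↔ ∑ k, Y k t = 2) := by
    intro t
    rw [Finset.sum_range]
    have e : ∀ i : Fin (2 ^ g), ((B7_bits Y i (2 * (t : ℕ))).toNat +
        (B7_bits Y i (2 * (t : ℕ) + 1)).toNat) = (Y i t).val := by
      intro i
      rw [B7_bits_even, B7_bits_odd, B7_val]
    rw [Finset.sum_congr rfl (fun i _ => e i)]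
    have h1 : ((∑ i, (Y i t).val : ℕ) : ZMod 3) = ∑ k, Y k t := by
      rw [Nat.cast_sum]
      exact Finset.sum_congr rfl (fun i _ => ZMod.natCast_zmod_val _)
    rw [← h1, ← ZMod.val_natCast]
    constructor
    · intro h
      apply ZMod.val_injective 3
      rw [h]
      rfl
    · intro h
      rw [h]
      rfl
  rw [langB_encM hg]
  constructor
  · rintro ⟨t, ht, h⟩
    exact ⟨⟨t, ht⟩, (key ⟨t, ht⟩).1 h⟩
  · rintro ⟨t, h⟩
    exact ⟨t, t.2, (key t).2 h⟩

theorem B7_inj {n g : ℕ} (hg : g ≤ Nat.log 2 n) :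
    Function.Injective (fun Y : Fin (2 ^ g) → Fin ((n - Nat.log 2 n) / 2 ^ g / 2) → ZMod 3 =>
      encM n g (B7_bits Y)) := by
  intro Y Y' h
  have h1 := encM_inj hg (B7_bits Y) (B7_bits Y') h
  funext i t
  have ht := t.2
  apply B7_sep
  · have := h1 i i.2 (2 * (t : ℕ)) (by omega)
    rwa [B7_bits_even, B7_bits_even] at this
  · have := h1 i i.2 (2 * (t : ℕ) + 1) (by omega)
    rwa [B7_bits_odd, B7_bits_odd] at this

/-- the mixture of two encodings -/
theorem B7_mix {n g : ℕ} (hg : g ≤ Nat.log 2 n)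
    (Y Y' : Fin (2 ^ g) → Fin ((n - Nat.log 2 n) / 2 ^ g / 2) → ZMod 3) (j : Fin (2 ^ g)) :
    mixIn (Nat.log 2 n) ((n - Nat.log 2 n) / 2 ^ g) j (encM n g (B7_bits Y))
      (encM n g (B7_bits Y')) = encM n g (B7_bits (Function.update Y j (Y' j))) := by
  rw [mixIn_encM hg (B7_bits Y) (B7_bits Y') j j.2]
  congr 1
  funext i t
  unfold B7_bits
  by_cases hij : i = j
  · subst hij
    rw [if_pos rfl]
    split_ifs with h1 h2
    · have e : (⟨(j : ℕ), h1.1⟩ : Fin (2 ^ g)) = j := rfl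
      rw [e, Function.update_self]
    · have e : (⟨(j : ℕ), h1.1⟩ : Fin (2 ^ g)) = j := rfl
      rw [e, Function.update_self]
    · rfl
  · rw [if_neg hij]
    split_ifs with h1 h2
    · have e : (⟨i, h1.1⟩ : Fin (2 ^ g)) ≠ j := fun h => hij (congrArg Fin.val h)
      rw [Function.update_of_ne e]
    · have e : (⟨i, h1.1⟩ : Fin (2 ^ g)) ≠ j := fun h => hij (congrArg Fin.val h)
      rw [Function.update_of_ne e]
    · rfl

theorem B7_agree {n g : ℕ} (hg : g ≤ Nat.log 2 n)
    (Y Y' : Fin (2 ^ g) → Fin ((n - Nat.log 2 n) / 2 ^ g / 2) → ZMod 3) (i j : Fin (2 ^ g))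
    (h : ∀ k, k ≠ i → k ≠ j → Y k = Y' k) :
    Agree (Nat.log 2 n) ((n - Nat.log 2 n) / 2 ^ g) i j (encM n g (B7_bits Y))
      (encM n g (B7_bits Y')) := by
  apply agree_encM hg
  intro k hi hj t
  unfold B7_bits
  split_ifs with h1 h2
  · rw [h ⟨k, h1.1⟩ (fun e => hi (congrArg Fin.val e)) (fun e => hj (congrArg Fin.val e))]
  · rw [h ⟨k, h1.1⟩ (fun e => hi (congrArg Fin.val e)) (fun e => hj (congrArg Fin.val e))]
  · rfl

/-- the number of pairs of blocks -/
theorem B7_pairs (m : ℕ) :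
    m * m ≤ 2 * {ij : Fin m × Fin m | ij.1 < ij.2}.ncard + m := by
  classical
  have e : {ij : Fin m × Fin m | ij.1 < ij.2}.ncard =
      (Finset.univ.filter (fun ij : Fin m × Fin m => ij.1 < ij.2)).card := by
    rw [← Set.ncard_coe_finset]
    congr 1
    ext ij
    simp
  have e2 : (Finset.univ.filter (fun ij : Fin m × Fin m => ij.2 < ij.1)).card =
      (Finset.univ.filter (fun ij : Fin m × Fin m => ij.1 < ij.2)).card := by
    apply Finset.card_bij (fun ij _ => (ij.2, ij.1))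
    · intro ij h
      simpa using h
    · rintro ⟨a, b⟩ _ ⟨c, d⟩ _ h
      simp only [Prod.mk.injEq] at h
      simp [h.1, h.2]
    · rintro ⟨a, b⟩ h
      exact ⟨(b, a), by simpa using h, rfl⟩
  have e3 : (Finset.univ.filter (fun ij : Fin m × Fin m => ij.1 = ij.2)).card ≤ m := by
    calc (Finset.univ.filter (fun ij : Fin m × Fin m => ij.1 = ij.2)).card
        ≤ (Finset.univ.image (fun i : Fin m => (i, i))).card := by
          apply Finset.card_le_card
          rintro ⟨a, b⟩ h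
          simp only [Finset.mem_filter, Finset.mem_univ, true_and] at h
          simp [h]
      _ ≤ Fintype.card (Fin m) := Finset.card_image_le
      _ = m := Fintype.card_fin m
  have e4 : m * m = (Finset.univ : Finset (Fin m × Fin m)).card := by
    rw [Finset.card_univ, Fintype.card_prod, Fintype.card_fin]
  have e5 : (Finset.univ : Finset (Fin m × Fin m)) =
      (Finset.univ.filter (fun ij : Fin m × Fin m => ij.1 < ij.2)) ∪
      ((Finset.univ.filter (fun ij : Fin m × Fin m => ij.2 < ij.1)) ∪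
      (Finset.univ.filter (fun ij : Fin m × Fin m => ij.1 = ij.2))) := by
    ext ⟨a, b⟩
    simp only [Finset.mem_univ, Finset.mem_union, Finset.mem_filter, true_and, true_iff]
    rcases lt_trichotomy a b with h | h | h
    · exact Or.inl h
    · exact Or.inr (Or.inr h)
    · exact Or.inr (Or.inl h)
  have h5 : (Finset.univ : Finset (Fin m × Fin m)).card ≤
      (Finset.univ.filter (fun ij : Fin m × Fin m => ij.1 < ij.2)).card +
      ((Finset.univ.filter (fun ij : Fin m × Fin m => ij.2 < ij.1)) ∪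
      (Finset.univ.filter (fun ij : Fin m × Fin m => ij.1 = ij.2))).card :=
    (le_of_eq (congrArg Finset.card e5)).trans (Finset.card_union_le _ _)
  have h6 := Finset.card_union_le
    (Finset.univ.filter (fun ij : Fin m × Fin m => ij.2 < ij.1))
    (Finset.univ.filter (fun ij : Fin m × Fin m => ij.1 = ij.2))
  rw [e, e4]
  omega

theorem B7_two_mul_log (n : ℕ) : 2 * Nat.log 2 n ≤ n := by
  rcases Nat.eq_zero_or_pos n with h | h
  · subst h
    simp
  · have h1 : 2 ^ Nat.log 2 n ≤ n := Nat.pow_log_le_self 2 (by omega)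
    have h2 : ∀ L : ℕ, 2 * L ≤ 2 ^ L := by
      intro L
      induction L with
      | zero => simp
      | succ L ih =>
        have h3 : 1 ≤ 2 ^ L := Nat.one_le_two_pow
        rcases Nat.eq_zero_or_pos L with h4 | h4
        · subst h4
          norm_num
        · have h5 : 2 ≤ 2 ^ L := by
            calc 2 = 2 ^ 1 := rfl
              _ ≤ 2 ^ L := Nat.pow_le_pow_right (by norm_num) h4
          rw [pow_succ]
          omega
    exact (h2 _).trans h1

/-- the parameters -/
theorem B7_param (D n p S : ℕ) (hp : 1 ≤ p) (hS : 1 ≤ S) (hn : n ≤ 2 ^ S)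
    (hC : 48 * (10 + D) * p ^ 2 * S ≤ n) : p ≤ n ∧ ∃ g : ℕ, g ≤ Nat.log 2 n ∧ 4 * p + 2 ≤ 2 ^ g ∧
      (2 ^ g) ^ 2 * 2 ^ (D * p * S) < 3 ^ ((n - Nat.log 2 n) / 2 ^ g / 2) := by
  have hpS : 1 ≤ p * S := Nat.mul_le_mul hp hS
  have h1 : 48 * (10 + D) * (p * (p * S)) ≤ n := by
    calc 48 * (10 + D) * (p * (p * S)) = 48 * (10 + D) * p ^ 2 * S := by ring
      _ ≤ n := hC
  have h2 : 480 * p ≤ n := by
    calc 480 * p = 480 * (p * 1) := by ring
      _ ≤ 48 * (10 + D) * (p * (p * S)) := by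
        apply Nat.mul_le_mul
        · omega
        · exact Nat.mul_le_mul_left p hpS
      _ ≤ n := h1
  refine ⟨by omega, Nat.clog 2 (4 * p + 2), ?_, Nat.le_pow_clog (by norm_num) _, ?_⟩
  · apply Nat.le_log_of_pow_le (by norm_num)
    have h3 : 2 ^ (Nat.clog 2 (4 * p + 2) - 1) < 4 * p + 2 :=
      Nat.pow_pred_clog_lt_self (b := 2) (x := 4 * p + 2) (by norm_num) (by omega)
    have h4 : 0 < Nat.clog 2 (4 * p + 2) := Nat.clog_pos (by norm_num) (by omega)
    have h5 : 2 ^ Nat.clog 2 (4 * p + 2) = 2 * 2 ^ (Nat.clog 2 (4 * p + 2) - 1) := by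
      rw [← pow_succ', Nat.sub_one_add_one_eq_of_pos h4]
    omega
  · have h3 : 2 ^ (Nat.clog 2 (4 * p + 2) - 1) < 4 * p + 2 :=
      Nat.pow_pred_clog_lt_self (b := 2) (x := 4 * p + 2) (by norm_num) (by omega)
    have h4 : 0 < Nat.clog 2 (4 * p + 2) := Nat.clog_pos (by norm_num) (by omega)
    have h5 : 2 ^ Nat.clog 2 (4 * p + 2) = 2 * 2 ^ (Nat.clog 2 (4 * p + 2) - 1) := by
      rw [← pow_succ', Nat.sub_one_add_one_eq_of_pos h4]
    set m := 2 ^ Nat.clog 2 (4 * p + 2) with hm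
    have hm1 : m ≤ 12 * p := by omega
    have hm0 : 0 < m := by rw [hm]; positivity
    have hL := B7_two_mul_log n
    set L := Nat.log 2 n with hLdef
    set b := (n - L) / m with hb
    set N := b / 2 with hN
    have h6 : n - L < m * (b + 1) := by
      rw [hb]
      exact Nat.lt_mul_div_succ (n - L) hm0
    have h7 : m * (b + 1) ≤ 12 * p * (2 * (N + 1)) := Nat.mul_le_mul hm1 (by omega)
    have h8 : n < p * (48 * (N + 1)) := by
      have e : p * (48 * (N + 1)) = 2 * (12 * p * (2 * (N + 1))) := by ring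
      rw [e]
      omega
    have h9 : p * (48 * ((10 + D) * (p * S))) < p * (48 * (N + 1)) := by
      calc p * (48 * ((10 + D) * (p * S))) = 48 * (10 + D) * (p * (p * S)) := by ring
        _ ≤ n := h1
        _ < p * (48 * (N + 1)) := h8
    have h10 : (10 + D) * (p * S) ≤ N := by
      have h11 := Nat.lt_of_mul_lt_mul_left h9
      omega
    have hpn : p ≤ 2 ^ S := by omega
    have hm2 : m < 2 ^ (4 + S) := by
      calc m ≤ 12 * p := hm1
        _ < 16 * p := by omega
        _ ≤ 16 * 2 ^ S := Nat.mul_le_mul_left 16 hpn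
        _ = 2 ^ (4 + S) := by rw [pow_add]; norm_num
    calc m ^ 2 * 2 ^ (D * p * S) < (2 ^ (4 + S)) ^ 2 * 2 ^ (D * p * S) :=
          Nat.mul_lt_mul_of_pos_right (Nat.pow_lt_pow_left hm2 (by norm_num)) (by positivity)
      _ = 2 ^ ((4 + S) * 2 + D * p * S) := by rw [← pow_mul, ← pow_add]
      _ ≤ 2 ^ N := by
          apply Nat.pow_le_pow_right (by norm_num)
          have h12 : S ≤ p * S := Nat.le_mul_of_pos_left S (by omega)
          have e : (10 + D) * (p * S) = 10 * (p * S) + D * p * S := by ring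
          rw [e] at h10
          omega
      _ ≤ 3 ^ N := Nat.pow_le_pow_left (by norm_num) N

/-- one of the two mixtures has a column with sum `2` -/
theorem B7_contra {m N : ℕ} (Y Y' : Fin m → Fin N → ZMod 3) (i j : Fin m) (hij : i < j)
    (h1 : ∑ k, Y k = fun _ => (1 : ZMod 3)) (h2 : ∑ k, Y' k = fun _ => (1 : ZMod 3))
    (hne : Y i ≠ Y' i) (hag : ∀ k, k ≠ i → k ≠ j → Y k = Y' k) :
    (∃ t, ∑ k, (Function.update Y j (Y' j)) k t = 2) ∨
      ∃ t, ∑ k, (Function.update Y' j (Y j)) k t = 2 := by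
  obtain ⟨t, ht⟩ : ∃ t, Y i t ≠ Y' i t := by
    by_contra hc
    push Not at hc
    exact hne (funext hc)
  have upd : ∀ (Z : Fin m → Fin N → ZMod 3) (v : Fin N → ZMod 3),
      ∑ k, (Function.update Z j v) k t = ∑ k, Z k t + (v t - Z j t) := by
    intro Z v
    have e1 : ∀ k, (Function.update Z j v) k t = Z k t + if k = j then v t - Z j t else 0 := by
      intro k
      by_cases hk : k = j
      · subst hk
        simp
      · rw [Function.update_of_ne hk, if_neg hk, add_zero]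
    rw [Finset.sum_congr rfl (fun k _ => e1 k), Finset.sum_add_distrib]
    simp
  have s1 : ∑ k, Y k t = 1 := by
    have := congrFun h1 t
    simpa using this
  have s2 : ∑ k, Y' k t = 1 := by
    have := congrFun h2 t
    simpa using this
  have s3 : ∑ k, (Y k t - Y' k t) = 0 := by
    rw [Finset.sum_sub_distrib, s1, s2, sub_self]
  have s4 : ∑ k, (Y k t - Y' k t) = (Y i t - Y' i t) + (Y j t - Y' j t) := by
    have hne' : i ≠ j := ne_of_lt hij
    rw [← Finset.sum_subset (Finset.subset_univ ({i, j} : Finset (Fin m)))]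
    · rw [Finset.sum_pair hne']
    · intro k _ hk
      simp only [Finset.mem_insert, Finset.mem_singleton, not_or] at hk
      rw [hag k hk.1 hk.2, sub_self]
  rw [s4] at s3
  have key : ∀ a a' c c' : ZMod 3, a ≠ a' → (a - a') + (c - c') = 0 →
      1 + (c' - c) = 2 ∨ 1 + (c - c') = 2 := by decide
  rcases key _ _ _ _ ht s3 with h | h
  · exact Or.inl ⟨t, by rw [upd, s1, h]⟩
  · exact Or.inr ⟨t, by rw [upd, s2, h]⟩

theorem lowerCoB : ∃ C : ℕ, ∀ n p S w : ℕ, 1 ≤ p → 1 ≤ S → n ≤ 2 ^ S → w ≤ 2 ^ S →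
    C * p ^ 2 * S ≤ n → ∃ X : Finset (Inp n), X.Nonempty ∧ (∀ x ∈ X, langB n x = false) ∧
      ∀ P : NStackProg n p w, (∀ x, P.Accepts x → langB n x = false) →
        2 * Nat.card {x : Inp n // x ∈ X ∧ P.Accepts x} < X.card := by
  classical
  obtain ⟨D, hD⟩ := transcripts
  refine ⟨48 * (10 + D), fun n p S w hp hS hn hw hC => ?_⟩
  obtain ⟨hpn, g, hg, hm, hK⟩ := B7_param D n p S hp hS hn hC
  set enc : (Fin (2 ^ g) → Fin ((n - Nat.log 2 n) / 2 ^ g / 2) → ZMod 3) → Inp n :=
    fun Y => encM n g (B7_bits Y) with henc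
  have hinj : Function.Injective enc := B7_inj hg
  set σ : Fin ((n - Nat.log 2 n) / 2 ^ g / 2) → ZMod 3 := fun _ => 1 with hσ
  have h2g : 0 < 2 ^ g := by positivity
  refine ⟨(Finset.univ.filter (fun Y => ∑ k, Y k = σ)).image enc, ?_, ?_, ?_⟩
  · refine ⟨enc (Pi.single ⟨0, h2g⟩ σ), Finset.mem_image_of_mem _ ?_⟩
    simp
  · intro x hx
    obtain ⟨Y, hY, rfl⟩ := Finset.mem_image.1 hx
    have hY' : ∑ k, Y k = σ := by simpa using hY
    rw [Bool.eq_false_iff]
    intro hc
    obtain ⟨t, ht⟩ := (B7_langB hg Y).1 hc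
    have h3 : ∑ k, Y k t = 1 := by
      have := congrFun hY' t
      simpa using this
    rw [h3] at ht
    exact absurd ht (by decide)
  · intro P hP
    by_contra hcon
    push Not at hcon
    obtain ⟨Tr, hR, hO, hG, -⟩ := hD n p w S (Nat.log 2 n) ((n - Nat.log 2 n) / 2 ^ g) (2 ^ g) P
      hp hpn hS hn hw (E1_room n g)
    have hA : Nat.card {Y : Fin (2 ^ g) → Fin ((n - Nat.log 2 n) / 2 ^ g / 2) → ZMod 3 //
        ∑ k, Y k = σ} ≤ 2 * Nat.card {Y : Fin (2 ^ g) → Fin ((n - Nat.log 2 n) / 2 ^ g / 2) →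
          ZMod 3 // ∑ k, Y k = σ ∧ P.Accepts (enc Y)} := by
      have e1 : ((Finset.univ.filter (fun Y : Fin (2 ^ g) →
          Fin ((n - Nat.log 2 n) / 2 ^ g / 2) → ZMod 3 => ∑ k, Y k = σ)).image enc).card =
          Nat.card {Y : Fin (2 ^ g) → Fin ((n - Nat.log 2 n) / 2 ^ g / 2) → ZMod 3 //
            ∑ k, Y k = σ} := by
        rw [Finset.card_image_of_injective _ hinj, Nat.card_eq_fintype_card,
          Fintype.card_subtype]
      have e2 : Nat.card {x : Inp n // x ∈ (Finset.univ.filter (fun Y : Fin (2 ^ g) →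
          Fin ((n - Nat.log 2 n) / 2 ^ g / 2) → ZMod 3 => ∑ k, Y k = σ)).image enc ∧
            P.Accepts x} = Nat.card {Y : Fin (2 ^ g) → Fin ((n - Nat.log 2 n) / 2 ^ g / 2) →
          ZMod 3 // ∑ k, Y k = σ ∧ P.Accepts (enc Y)} := by
        symm
        apply Nat.card_congr
        refine Equiv.ofBijective (fun Y => ⟨enc Y.1, Finset.mem_image_of_mem _ (by
          simpa using Y.2.1), Y.2.2⟩) ⟨?_, ?_⟩
        · rintro ⟨Y, hY⟩ ⟨Y', hY'⟩ h
          simp only [Subtype.mk.injEq] at h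
          exact Subtype.ext (hinj h)
        · rintro ⟨x, hx, hxa⟩
          obtain ⟨Y, hY, rfl⟩ := Finset.mem_image.1 hx
          exact ⟨⟨Y, by simpa using hY, hxa⟩, rfl⟩
      rw [← e1, ← e2]
      exact hcon
    obtain ⟨i, j, Y, Y', hij, h1, h2, hne, hag, ha1, ha2⟩ :=
      exists_fooling (H := Fin ((n - Nat.log 2 n) / 2 ^ g / 2) → ZMod 3) (2 ^ g)
        (2 ^ (D * p * S)) h2g σ (fun Y => P.Accepts (enc Y))
        (fun i j Y θ => Tr i j (enc Y) θ)
        (by
          intro i j hij Y Y' θ hag ht ht'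
          have h3 := hR i j _ _ θ hij (B7_agree hg Y Y' i j hag) ht ht'
          have h4 := hO i j _ θ hij h3
          rw [B7_mix hg] at h4
          exact h4)
        (by
          intro Y hY
          by_contra hc
          push Not at hc
          have h3 := hG (enc Y) hY
          have h4 : {ij : Fin (2 ^ g) × Fin (2 ^ g) | ij.1 < ij.2 ∧
              ¬ ∃ θ, Tr ij.1 ij.2 (enc Y) θ} =
              {ij : Fin (2 ^ g) × Fin (2 ^ g) | ij.1 < ij.2} := by
            ext ij
            simp only [Set.mem_ofPred_eq, and_iff_left_iff_imp]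
            intro hlt hex
            obtain ⟨θ, hθ⟩ := hex
            exact hc ij.1 ij.2 hlt θ hθ
          rw [h4] at h3
          have h5 := B7_pairs (2 ^ g)
          have h6 : (4 * p + 2) * 2 ^ g ≤ 2 ^ g * 2 ^ g := Nat.mul_le_mul_right _ hm
          have h7 : (4 * p + 2) * 2 ^ g = 2 * (2 * p * 2 ^ g) + 2 * 2 ^ g := by ring
          omega)
        hA (by
          rw [Fintype.card_fun, ZMod.card, Fintype.card_fin]
          exact hK)
    rcases B7_contra Y Y' i j hij h1 h2 hne hag with h | h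
    · have h3 := hP _ ha1
      rw [(B7_langB hg _).2 h] at h3
      exact absurd h3 (by decide)
    · have h3 := hP _ ha2
      rw [(B7_langB hg _).2 h] at h3
      exact absurd h3 (by decide)

end Pool.Agent.ST
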