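import Mathlib
import Pool.Agent.Lib.MP_b573ec_lc_ST.Model

/-!
# One-sided one-pass programs for `langA`
-/

namespace Pool.Agent.ST

open Pool.Agent.LT (Inp Prog OneSidedOnePass)

/-- one step of the program with random bits `r` -/
def A3_step (n : ℕ) (r : Inp n) (k : ℕ) (s : ℕ × ℕ) (b : Bool) : ℕ × ℕ :=
  if k < Nat.log 2 n then (s.1 + b.toNat, s.2) else
  if k - Nat.log 2 n < 2 ^ s.1 * ((n - Nat.log 2 n) / 2 ^ s.1) then
    (s.1, (s.2 + b.toNat *
      (getBit r ((k - Nat.log 2 n) % ((n - Nat.log 2 n) / 2 ^ s.1))).toNat) % 2)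
  else s

/-- the codes of the states -/
def A3_enc (n : ℕ) (s : ℕ × ℕ) : Fin (2 * (Nat.log 2 n + 1)) :=
  ⟨(2 * s.1 + s.2) % (2 * (Nat.log 2 n + 1)), Nat.mod_lt _ (by positivity)⟩

/-- the program -/
def A3_prog (n : ℕ) (r : Inp n) : Prog n n (2 * (Nat.log 2 n + 1)) where
  start := A3_enc n (0, 0)
  var := fun i _ => i
  next := fun i s b => A3_enc n (A3_step n r i ((s : ℕ) / 2, (s : ℕ) % 2) b)
  acc := fun s => decide ((s : ℕ) % 2 = 1)

/-- the run of the program -/
def A3_run (n : ℕ) (r x : Inp n) : ℕ → ℕ × ℕ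
  | 0 => (0, 0)
  | i + 1 => A3_step n r i (A3_run n r x i) (getBit x i)

theorem A3_run_valid (n : ℕ) (r x : Inp n) (i : ℕ) :
    (A3_run n r x i).1 ≤ min i (Nat.log 2 n) ∧ (A3_run n r x i).2 < 2 := by
  induction i with
  | zero => simp [A3_run]
  | succ i ih =>
    obtain ⟨h1, h2⟩ := ih
    have hb : (getBit x i).toNat ≤ 1 := Bool.toNat_le _
    rw [A3_run, A3_step]
    split_ifs with h3 h4
    · refine ⟨?_, h2⟩
      simp only
      omega
    · refine ⟨?_, Nat.mod_lt _ (by norm_num)⟩
      simp only
      omega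
    · exact ⟨by omega, h2⟩

theorem A3_dec (n : ℕ) (s : ℕ × ℕ) (h1 : s.1 ≤ Nat.log 2 n) (h2 : s.2 < 2) :
    (((A3_enc n s : Fin _) : ℕ) / 2, ((A3_enc n s : Fin _) : ℕ) % 2) = s := by
  have h : (2 * s.1 + s.2) % (2 * (Nat.log 2 n + 1)) = 2 * s.1 + s.2 :=
    Nat.mod_eq_of_lt (by omega)
  simp only [A3_enc, h]
  ext <;> simp only <;> omega

theorem A3_state (n : ℕ) (r x : Inp n) (i : ℕ) (hi : i ≤ n) :
    (A3_prog n r).state x i = A3_enc n (A3_run n r x i) := by
  induction i with
  | zero => rfl
  | succ i ih =>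
    have hin : i < n := hi
    obtain ⟨h1, h2⟩ := A3_run_valid n r x i
    rw [Prog.state, dif_pos hin, ih hin.le, A3_run]
    have hg : getBit x i = x ⟨i, hin⟩ := by simp [getBit, hin]
    rw [hg]
    show A3_enc n (A3_step n r i _ _) = _
    rw [A3_dec n _ (h1.trans (min_le_right _ _)) h2]
    rfl

theorem A3_run_low (n : ℕ) (r x : Inp n) (i : ℕ) (hi : i ≤ Nat.log 2 n) :
    A3_run n r x i = (∑ k ∈ Finset.range i, (getBit x k).toNat, 0) := by
  induction i with
  | zero => simp [A3_run]
  | succ i ih =>
    have h : i < Nat.log 2 n := hi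
    rw [A3_run, ih h.le, A3_step, if_pos h, Finset.sum_range_succ]

theorem A3_run_high (n : ℕ) (r x : Inp n) (s : ℕ) :
    A3_run n r x (Nat.log 2 n + s) = (expo n x, (∑ k ∈ Finset.range s,
      if k < numBlocks n x * blockLen n x then
        (getBit x (Nat.log 2 n + k)).toNat * (getBit r (k % blockLen n x)).toNat else 0) % 2) := by
  induction s with
  | zero =>
    rw [add_zero, A3_run_low n r x _ le_rfl]
    simp [expo]
  | succ s ih =>
    rw [← add_assoc, A3_run, ih, A3_step, if_neg (by omega), Finset.sum_range_succ]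
    simp only [add_tsub_cancel_left]
    by_cases h : s < numBlocks n x * blockLen n x
    · rw [if_pos h]
      rw [if_pos (show s < 2 ^ expo n x * ((n - Nat.log 2 n) / 2 ^ expo n x) from h)]
      simp only [blockLen, numBlocks, Nat.mod_add_mod]
    · rw [if_neg h]
      rw [if_neg (show ¬ s < 2 ^ expo n x * ((n - Nat.log 2 n) / 2 ^ expo n x) from h), add_zero]

theorem A3_sum_blocks (f : ℕ → ℕ) (m b : ℕ) :
    ∑ k ∈ Finset.range (m * b), f k = ∑ i ∈ Finset.range m, ∑ t ∈ Finset.range b, f (i * b + t) := by
  induction m with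
  | zero => simp
  | succ m ih => rw [Finset.sum_range_succ, ← ih, Nat.succ_mul, Finset.sum_range_add]

theorem A3_eval (n : ℕ) (hn : 1 ≤ n) (r x : Inp n) :
    (A3_prog n r).eval x = decide ((∑ t ∈ Finset.range (blockLen n x),
      (getBit r t).toNat * ∑ i ∈ Finset.range (numBlocks n x), (blockBit n x i t).toNat) % 2
        = 1) := by
  have hL : Nat.log 2 n < n := Nat.log_lt_self 2 (by omega)
  have hmb : numBlocks n x * blockLen n x ≤ n - Nat.log 2 n := Nat.mul_div_le _ _
  rw [Prog.eval, A3_state n r x n le_rfl]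
  obtain ⟨h1, h2⟩ := A3_run_valid n r x n
  have hd := A3_dec n _ (h1.trans (min_le_right _ _)) h2
  have hd2 : ((A3_enc n (A3_run n r x n) : Fin _) : ℕ) % 2 = (A3_run n r x n).2 :=
    congrArg Prod.snd hd
  show decide (((A3_enc n (A3_run n r x n) : Fin _) : ℕ) % 2 = 1) = _
  rw [hd2]
  have hns : n = Nat.log 2 n + (n - Nat.log 2 n) := by omega
  have hrun : A3_run n r x n = A3_run n r x (Nat.log 2 n + (n - Nat.log 2 n)) := by
    rw [← hns]
  rw [hrun, A3_run_high]
  simp only
  congr 2
  congr 1
  rw [← Finset.sum_filter]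
  have hf : (Finset.range (n - Nat.log 2 n)).filter
      (fun k => k < numBlocks n x * blockLen n x) =
      Finset.range (numBlocks n x * blockLen n x) := by
    ext k
    simp only [Finset.mem_filter, Finset.mem_range]
    omega
  rw [hf, A3_sum_blocks, Finset.sum_comm]
  apply Finset.sum_congr rfl
  intro t ht
  rw [Finset.mem_range] at ht
  rw [Finset.mul_sum]
  apply Finset.sum_congr rfl
  intro i _
  have h3 : (i * blockLen n x + t) % blockLen n x = t := by
    rw [add_comm, Nat.add_mul_mod_self_right, Nat.mod_eq_of_lt ht]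
  rw [h3, blockBit, add_assoc, mul_comm]

/-- flipping one bit -/
def A3_flip (n : ℕ) (t : Fin n) (r : Inp n) : Inp n := Function.update r t (!(r t))

theorem A3_flip_flip (n : ℕ) (t : Fin n) (r : Inp n) : A3_flip n t (A3_flip n t r) = r := by
  unfold A3_flip
  simp

theorem A3_half (n : ℕ) (c : ℕ → ℕ) (b t : ℕ) (hb : b ≤ n) (ht : t < b) (hc : c t % 2 = 1) :
    2 ^ n ≤ 2 * (Finset.univ.filter fun r : Inp n =>
      (∑ s ∈ Finset.range b, (getBit r s).toNat * c s) % 2 = 1).card := by
  classical
  set A := Finset.univ.filter fun r : Inp n =>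
      (∑ s ∈ Finset.range b, (getBit r s).toNat * c s) % 2 = 1 with hA
  set B := Finset.univ.filter fun r : Inp n =>
      ¬ (∑ s ∈ Finset.range b, (getBit r s).toNat * c s) % 2 = 1 with hB
  have htn : t < n := lt_of_lt_of_le ht hb
  have hcard : A.card + B.card = 2 ^ n := by
    rw [hA, hB, Finset.card_filter_add_card_filter_not]
    simp
  have hle : B.card ≤ A.card := by
    apply Finset.card_le_card_of_injOn (A3_flip n ⟨t, htn⟩)
    · intro r hr
      simp only [hB, hA, Finset.coe_filter, Finset.mem_univ, true_and, Set.mem_ofPred_eq] at hr ⊢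
      have hsplit : ∀ r' : Inp n, (∑ s ∈ Finset.range b, (getBit r' s).toNat * c s) =
          (getBit r' t).toNat * c t + ∑ s ∈ (Finset.range b).erase t,
            (getBit r' s).toNat * c s := by
        intro r'
        exact (Finset.add_sum_erase (Finset.range b) (fun s => (getBit r' s).toNat * c s)
          (Finset.mem_range.2 ht)).symm
      have hrest : ∑ s ∈ (Finset.range b).erase t,
          (getBit (A3_flip n ⟨t, htn⟩ r) s).toNat * c s =
          ∑ s ∈ (Finset.range b).erase t, (getBit r s).toNat * c s := by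
        apply Finset.sum_congr rfl
        intro s hs
        have hst : s ≠ t := (Finset.mem_erase.1 hs).1
        have : getBit (A3_flip n ⟨t, htn⟩ r) s = getBit r s := by
          unfold getBit A3_flip
          split_ifs with h
          · rw [Function.update_of_ne]
            intro h2
            exact hst (by simpa using congrArg Fin.val h2)
          · rfl
        rw [this]
      have hbit : getBit (A3_flip n ⟨t, htn⟩ r) t = !(getBit r t) := by
        unfold getBit A3_flip
        simp [htn]
      rw [hsplit, hrest, hbit]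
      rw [hsplit] at hr
      cases hbt : getBit r t
      · rw [hbt] at hr
        simp only [Bool.toNat_false, zero_mul, zero_add, Bool.not_false, Bool.toNat_true,
          one_mul] at hr ⊢
        omega
      · rw [hbt] at hr
        simp only [Bool.toNat_true, one_mul, Bool.not_true, Bool.toNat_false, zero_mul,
          zero_add] at hr ⊢
        omega
    · intro r _ r' _ h
      have := congrArg (A3_flip n ⟨t, htn⟩) h
      rwa [A3_flip_flip, A3_flip_flip] at this
  omega

theorem upperA : ∃ C : ℕ, ∀ n ≥ 1, ∃ w ≤ C * n, OneSidedOnePass (langA n) w := by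
  refine ⟨2, fun n hn => ⟨2 * (Nat.log 2 n + 1), ?_, n, A3_prog n, fun c i s => rfl, ?_, ?_⟩⟩
  · have := Nat.log_lt_self 2 (show n ≠ 0 by omega)
    omega
  · intro x hx
    simp only [langA, decide_eq_true_eq] at hx
    obtain ⟨t, ht, htc⟩ := hx
    have hb : blockLen n x ≤ n := (Nat.div_le_self _ _).trans (Nat.sub_le _ _)
    have h := A3_half n (fun t => ∑ i ∈ Finset.range (numBlocks n x), (blockBit n x i t).toNat)
      (blockLen n x) t hb ht htc
    have he : (Finset.univ.filter fun c => (A3_prog n c).eval x = true) =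
        Finset.univ.filter fun r : Inp n => (∑ s ∈ Finset.range (blockLen n x),
          (getBit r s).toNat *
            ∑ i ∈ Finset.range (numBlocks n x), (blockBit n x i s).toNat) % 2 = 1 := by
      ext r
      simp only [Finset.mem_filter, Finset.mem_univ, true_and]
      rw [A3_eval n hn, decide_eq_true_eq]
    rw [he]
    exact h
  · intro x hx r
    rw [A3_eval n hn, decide_eq_false_iff_not]
    simp only [langA, decide_eq_false_iff_not, not_exists, not_and] at hx
    have h0 : (∑ t ∈ Finset.range (blockLen n x), (getBit r t).toNat *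
        ∑ i ∈ Finset.range (numBlocks n x), (blockBit n x i t).toNat) % 2 = 0 := by
      rw [Finset.sum_nat_mod]
      have : ∀ t ∈ Finset.range (blockLen n x), ((getBit r t).toNat *
          ∑ i ∈ Finset.range (numBlocks n x), (blockBit n x i t).toNat) % 2 = 0 := by
        intro t ht
        have h1 := hx t (Finset.mem_range.1 ht)
        have h2 : (∑ i ∈ Finset.range (numBlocks n x), (blockBit n x i t).toNat) % 2 = 0 := by
          omega
        rw [Nat.mul_mod, h2, mul_zero, Nat.zero_mod]
      rw [Finset.sum_congr rfl this]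
      simp
    omega

end Pool.Agent.ST
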