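import Mathlib
import Pool.Agent.Lib.MP_b573ec_lc_ST.Core
import Pool.Agent.Lib.MP_b573ec_lc_ST.Trans
import Pool.Agent.Lib.MP_b573ec_lc_ST.Fool
import Pool.Agent.Lib.MP_b573ec_lc_ST.Enc

/-!
# Lower bound for the complement of `langA`
-/

namespace Pool.Agent.ST

open Pool.Agent.LT (Inp)

/-- the bits of a tuple of vectors modulo `2` -/
private def bitsA {m b : ℕ} (Y : Fin m → Fin b → ZMod 2) : ℕ → ℕ → Bool := fun i t =>
  if h : i < m ∧ t < b then decide (Y ⟨i, h.1⟩ ⟨t, h.2⟩ = 1) else false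

private theorem bitsA_apply {m b : ℕ} (Y : Fin m → Fin b → ZMod 2) (i : Fin m) (t : Fin b) :
    bitsA Y i t = decide (Y i t = 1) := by
  simp [bitsA]

private theorem zmod2_toNat (a : ZMod 2) : (((decide (a = 1)).toNat : ℕ) : ZMod 2) = a := by
  revert a; decide

private theorem bitsA_injOn {m b : ℕ} (Y Y' : Fin m → Fin b → ZMod 2)
    (h : ∀ i < m, ∀ t < b, bitsA Y i t = bitsA Y' i t) : Y = Y' := by
  funext i t
  have h1 := h i i.2 t t.2
  rw [bitsA_apply, bitsA_apply] at h1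
  have h2 := congrArg (fun c : Bool => ((c.toNat : ℕ) : ZMod 2)) h1
  simpa only [zmod2_toNat] using h2

private theorem sum_bitsA {m b : ℕ} (Y : Fin m → Fin b → ZMod 2) (t : Fin b) :
    (((∑ i ∈ Finset.range m, (bitsA Y i t).toNat : ℕ)) : ZMod 2) = (∑ k, Y k) t := by
  rw [Finset.sum_range, Nat.cast_sum, Finset.sum_apply]
  exact Finset.sum_congr rfl fun i _ => by rw [bitsA_apply, zmod2_toNat]

private theorem bitsA_update {m b : ℕ} (Y Y' : Fin m → Fin b → ZMod 2) (j : Fin m) :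
    (fun i t => if i = (j : ℕ) then bitsA Y' i t else bitsA Y i t) =
      bitsA (Function.update Y j (Y' j)) := by
  funext i t
  by_cases h : i < m ∧ t < b
  · by_cases hij : i = (j : ℕ)
    · subst hij
      simp [bitsA]
    · have : (⟨i, h.1⟩ : Fin m) ≠ j := fun e => hij (by rw [← e])
      simp [bitsA, h, hij, Function.update_of_ne this]
  · simp [bitsA, h]

/-- the input belonging to a tuple of vectors -/
private def encA (n g : ℕ) (Y : Fin (2 ^ g) → Fin ((n - Nat.log 2 n) / 2 ^ g) → ZMod 2) : Inp n :=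
  encM n g (bitsA Y)

private theorem langA_encA {n g : ℕ} (hg : g ≤ Nat.log 2 n)
    (Y : Fin (2 ^ g) → Fin ((n - Nat.log 2 n) / 2 ^ g) → ZMod 2) :
    langA n (encA n g Y) = true ↔ ∑ k, Y k ≠ 0 := by
  rw [encA, langA_encM hg]
  constructor
  · rintro ⟨t, ht, h1⟩ h0
    have h2 := sum_bitsA Y ⟨t, ht⟩
    rw [h0, Pi.zero_apply, ZMod.natCast_eq_zero_iff] at h2
    simp only at h2
    omega
  · intro h0
    obtain ⟨t, ht⟩ := Function.ne_iff.mp h0
    refine ⟨t, t.2, ?_⟩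
    have h2 := sum_bitsA Y t
    by_contra h3
    apply ht
    rw [← h2, Pi.zero_apply, ZMod.natCast_eq_zero_iff]
    omega

private theorem encA_injective {n g : ℕ} (hg : g ≤ Nat.log 2 n) :
    Function.Injective (encA n g) := fun Y Y' h =>
  bitsA_injOn Y Y' (encM_inj hg _ _ h)

private theorem card_lt_pairs (m : ℕ) :
    2 * {ij : Fin m × Fin m | ij.1 < ij.2}.ncard = m * (m - 1) := by
  have h1 : {ij : Fin m × Fin m | ij.1 < ij.2} =
      ((Finset.univ.filter fun ij : Fin m × Fin m => ij.1 < ij.2) : Set (Fin m × Fin m)) := by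
    ext x; simp
  rw [h1, Set.ncard_coe_finset, Finset.card_filter, Fintype.sum_prod_type_right]
  have h2 : ∀ j : Fin m, (∑ i : Fin m, if (i, j).1 < (i, j).2 then 1 else 0) = (j : ℕ) := by
    intro j
    rw [← Finset.card_filter]
    have : (Finset.univ.filter fun i : Fin m => (i, j).1 < (i, j).2) = Finset.Iio j := by
      ext i; simp
    rw [this, Fin.card_Iio]
  rw [Finset.sum_congr rfl fun j _ => h2 j, Fin.sum_univ_eq_sum_range (fun j => j) m, mul_comm,
    Finset.sum_range_id_mul_two]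

theorem lowerA : ∃ C : ℕ, ∀ n p S w : ℕ, 1 ≤ p → 1 ≤ S → n ≤ 2 ^ S → w ≤ 2 ^ S →
    C * p ^ 2 * S ≤ n → ∃ X : Finset (Inp n), X.Nonempty ∧ (∀ x ∈ X, langA n x = false) ∧
      ∀ P : NStackProg n p w, (∀ x, P.Accepts x → langA n x = false) →
        2 * Nat.card {x : Inp n // x ∈ X ∧ P.Accepts x} < X.card := by
  classical
  obtain ⟨C0, hC0⟩ := transcripts
  refine ⟨12 * (11 + C0) + 12, ?_⟩
  intro n p S w hp hS hn hw hC
  -- sizes
  have hpp : p ≤ p ^ 2 * S := by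
    calc p = p * 1 * 1 := by ring
      _ ≤ p * p * S := Nat.mul_le_mul (Nat.mul_le_mul_left _ hp) hS
      _ = p ^ 2 * S := by ring
  have hSp : S ≤ p ^ 2 * S := by
    have : 1 ≤ p ^ 2 := Nat.one_le_pow _ _ hp
    nlinarith
  have h12 : 12 * p ≤ n := by nlinarith
  obtain ⟨g, hg1, hg2⟩ : ∃ g, 4 * p + 2 ≤ 2 ^ g ∧ 2 ^ g ≤ 12 * p := by
    refine ⟨Nat.clog 2 (4 * p + 2), Nat.le_pow_clog (by norm_num) _, ?_⟩
    have h1 : 2 ^ (Nat.clog 2 (4 * p + 2)).pred < 4 * p + 2 :=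
      Nat.pow_pred_clog_lt_self (by norm_num) (by omega)
    have h2 : 0 < Nat.clog 2 (4 * p + 2) := Nat.clog_pos (by norm_num) (by omega)
    obtain ⟨k, hk⟩ := Nat.exists_eq_succ_of_ne_zero h2.ne'
    rw [hk] at h1 ⊢
    simp only [Nat.succ_eq_add_one, Nat.pred_succ] at h1
    rw [Nat.succ_eq_add_one, pow_succ]
    omega
  have hgL : g ≤ Nat.log 2 n := Nat.le_log_of_pow_le (by norm_num) (hg2.trans h12)
  have hLn : Nat.log 2 n ≤ n := Nat.log_le_self _ _
  have hLS : Nat.log 2 n ≤ S := by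
    calc Nat.log 2 n ≤ Nat.log 2 (2 ^ S) := Nat.log_mono_right hn
      _ = S := Nat.log_pow (by norm_num) _
  have hLm : Nat.log 2 n + 2 ^ g * ((n - Nat.log 2 n) / 2 ^ g) ≤ n := by
    have := Nat.mul_div_le (n - Nat.log 2 n) (2 ^ g)
    omega
  have hb : 9 + 2 * S + C0 * p * S ≤ (n - Nat.log 2 n) / 2 ^ g := by
    rw [Nat.le_div_iff_mul_le (by positivity)]
    have h1 : (9 + 2 * S + C0 * p * S) * 2 ^ g ≤ (9 + 2 * S + C0 * p * S) * (12 * p) :=
      Nat.mul_le_mul_left _ hg2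
    have h2 : (9 + 2 * S + C0 * p * S) * (12 * p) + S ≤ (12 * (11 + C0) + 12) * p ^ 2 * S := by
      have h3 : S * p ≤ p ^ 2 * S := by nlinarith
      nlinarith
    omega
  have hm1 : 1 ≤ 2 ^ g := Nat.one_le_two_pow
  have hK : (2 ^ g) ^ 2 * 2 ^ (C0 * p * S) <
      Fintype.card (Fin ((n - Nat.log 2 n) / 2 ^ g) → ZMod 2) := by
    rw [Fintype.card_fun, ZMod.card, Fintype.card_fin]
    have hpS : p ≤ 2 ^ S := le_trans (by omega) hn
    calc (2 ^ g) ^ 2 * 2 ^ (C0 * p * S) ≤ (12 * p) ^ 2 * 2 ^ (C0 * p * S) := by gcongr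
      _ ≤ (2 ^ 4 * 2 ^ S) ^ 2 * 2 ^ (C0 * p * S) := by gcongr; norm_num
      _ = 2 ^ (8 + 2 * S + C0 * p * S) := by ring
      _ < 2 ^ ((n - Nat.log 2 n) / 2 ^ g) := Nat.pow_lt_pow_right (by norm_num) (by omega)
  -- the set of inputs
  refine ⟨(Finset.univ.filter fun Y => ∑ k, Y k = 0).image (encA n g), ?_, ?_, ?_⟩
  · exact ⟨_, Finset.mem_image_of_mem _ (Finset.mem_filter.mpr ⟨Finset.mem_univ 0, by simp⟩)⟩
  · intro x hx
    obtain ⟨Y, hY, rfl⟩ := Finset.mem_image.mp hx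
    rw [Finset.mem_filter] at hY
    by_contra h
    exact (langA_encA hgL Y).mp (Bool.eq_true_of_not_eq_false h) hY.2
  intro P hP
  by_contra hcon
  rw [not_lt] at hcon
  obtain ⟨Tr, hTR, hTO, hTG, -⟩ := hC0 n p w S (Nat.log 2 n) ((n - Nat.log 2 n) / 2 ^ g) (2 ^ g) P
    hp (by omega) hS hn hw hLm
  have hA : Nat.card {Y : Fin (2 ^ g) → Fin ((n - Nat.log 2 n) / 2 ^ g) → ZMod 2 //
      ∑ k, Y k = 0} ≤ 2 * Nat.card {Y : Fin (2 ^ g) → Fin ((n - Nat.log 2 n) / 2 ^ g) → ZMod 2 //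
      ∑ k, Y k = 0 ∧ P.Accepts (encA n g Y)} := by
    rw [Finset.card_image_of_injective _ (encA_injective hgL)] at hcon
    rw [Nat.card_eq_fintype_card, Fintype.card_subtype]
    refine hcon.trans (Nat.mul_le_mul_left 2 ?_)
    refine Nat.card_le_card_of_injective (fun x => ⟨(Finset.mem_image.mp x.2.1).choose,
      (Finset.mem_filter.mp (Finset.mem_image.mp x.2.1).choose_spec.1).2, ?_⟩) ?_
    · rw [(Finset.mem_image.mp x.2.1).choose_spec.2]
      exact x.2.2
    · intro x y hxy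
      have h1 := congrArg (fun z => encA n g z.1) hxy
      simp only at h1
      rw [(Finset.mem_image.mp x.2.1).choose_spec.2, (Finset.mem_image.mp y.2.1).choose_spec.2]
        at h1
      exact Subtype.ext h1
  have hR : ∀ i j : Fin (2 ^ g), i < j → ∀ (Y Y' : Fin (2 ^ g) →
      Fin ((n - Nat.log 2 n) / 2 ^ g) → ZMod 2) (θ : Fin (2 ^ (C0 * p * S))),
      (∀ k, k ≠ i → k ≠ j → Y k = Y' k) → Tr i j (encA n g Y) θ → Tr i j (encA n g Y') θ →
      P.Accepts (encA n g (Function.update Y j (Y' j))) := by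
    intro i j hij Y Y' θ hag h1 h2
    have h3 : Agree (Nat.log 2 n) ((n - Nat.log 2 n) / 2 ^ g) i j (encA n g Y) (encA n g Y') := by
      refine agree_encM hgL _ _ _ _ ?_
      intro k hki hkj t
      by_cases h : k < 2 ^ g ∧ t < (n - Nat.log 2 n) / 2 ^ g
      · have := hag ⟨k, h.1⟩ (fun e => hki (by rw [← e])) (fun e => hkj (by rw [← e]))
        simp only [bitsA, h, and_self, dif_pos, this]
      · simp only [bitsA, h, dif_neg, not_false_eq_true]
    have h4 := hTO i j _ θ hij (hTR i j _ _ θ hij h3 h1 h2)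
    rw [encA, encA, mixIn_encM hgL _ _ _ j.2, bitsA_update] at h4
    exact h4
  have hG : ∀ Y : Fin (2 ^ g) → Fin ((n - Nat.log 2 n) / 2 ^ g) → ZMod 2,
      P.Accepts (encA n g Y) → ∃ i j, i < j ∧ ∃ θ, Tr i j (encA n g Y) θ := by
    intro Y hacc
    by_contra hcon2
    push Not at hcon2
    have h1 := hTG _ hacc
    have h2 : {ij : Fin (2 ^ g) × Fin (2 ^ g) | ij.1 < ij.2 ∧
        ¬ ∃ θ, Tr ij.1 ij.2 (encA n g Y) θ} = {ij : Fin (2 ^ g) × Fin (2 ^ g) | ij.1 < ij.2} := by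
      ext ij
      simp only [Set.mem_ofPred_eq, and_iff_left_iff_imp, not_exists]
      exact fun h θ => hcon2 _ _ h θ
    rw [h2] at h1
    have h3 := card_lt_pairs (2 ^ g)
    have h4 : 2 ^ g * (2 ^ g - 1) ≤ 2 ^ g * (4 * p) := by
      rw [← h3]
      calc 2 * _ ≤ 2 * (2 * p * 2 ^ g) := Nat.mul_le_mul_left _ h1
        _ = 2 ^ g * (4 * p) := by ring
    have h5 := Nat.le_of_mul_le_mul_left h4 (by positivity)
    omega
  obtain ⟨i, j, Y, Y', hij, hY, hY', hne, hag, hacc, -⟩ := exists_fooling (2 ^ g)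
    (2 ^ (C0 * p * S)) hm1 0 (fun Y => P.Accepts (encA n g Y))
    (fun i j Y θ => Tr i j (encA n g Y) θ) hR hG hA hK
  -- contradiction
  have h1 := hP _ hacc
  have h2 : ∑ k, Function.update Y j (Y' j) k = 0 := by
    by_contra h3
    rw [(langA_encA hgL _).mpr h3] at h1
    exact absurd h1 (by simp)
  have h3 : Y' j = Y j := by
    rw [Finset.sum_update_of_mem (Finset.mem_univ j)] at h2
    rw [← Finset.add_sum_erase _ _ (Finset.mem_univ j)] at hY
    rw [Finset.sdiff_singleton_eq_erase] at h2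
    exact add_right_cancel (h2.trans hY.symm)
  apply hne
  have h4 : ∑ k, (Y k - Y' k) = 0 := by rw [Finset.sum_sub_distrib, hY, hY', sub_zero]
  have h5 : ∑ k, (Y k - Y' k) = Y i - Y' i := by
    refine Finset.sum_eq_single i (fun k _ hk => ?_) (fun h => absurd (Finset.mem_univ i) h)
    by_cases hkj : k = j
    · rw [hkj, h3, sub_self]
    · rw [hag k hk hkj, sub_self]
  rw [h5] at h4
  exact sub_eq_zero.mp h4

end Pool.Agent.ST
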