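import Mathlib
import Pool.Agent.Lib.MP_b573ec_lc_ST.Core
import Pool.Agent.Lib.MP_b573ec_lc_ST.Runs
import Pool.Agent.Lib.MP_b573ec_lc_ST.Trans
import Pool.Agent.Lib.MP_b573ec_lc_ST.Enc
import Pool.Agent.Lib.MP_b573ec_lc_ST.Corrupt

/-!
# Lower bounds for `langB`: two-sided and one-sided error
-/

namespace Pool.Agent.ST

open Pool.Agent.LT (Inp)

/-- the entries of `Y` as a function of two natural numbers -/
def B6_ext {m N : ℕ} (Y : Fin m → Fin N → ZMod 3) (i t : ℕ) : ZMod 3 :=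
  if h : i < m ∧ t < N then Y ⟨i, h.1⟩ ⟨t, h.2⟩ else 0

/-- the bits of the blocks: two bits for each entry of `Y` -/
def B6_bits {m N : ℕ} (Y : Fin m → Fin N → ZMod 3) (i t : ℕ) : Bool :=
  if t % 2 = 0 then decide (B6_ext Y i (t / 2) ≠ 0) else decide (B6_ext Y i (t / 2) = 2)

theorem B6_bits_sum {m N : ℕ} (Y : Fin m → Fin N → ZMod 3) (i t : ℕ) :
    (B6_bits Y i (2 * t)).toNat + (B6_bits Y i (2 * t + 1)).toNat = (B6_ext Y i t).val := by
  have h1 : B6_bits Y i (2 * t) = decide (B6_ext Y i t ≠ 0) := by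
    unfold B6_bits
    rw [if_pos (by omega), show 2 * t / 2 = t by omega]
  have h2 : B6_bits Y i (2 * t + 1) = decide (B6_ext Y i t = 2) := by
    unfold B6_bits
    rw [if_neg (by omega), show (2 * t + 1) / 2 = t by omega]
  rw [h1, h2]
  generalize B6_ext Y i t = a
  revert a
  decide

theorem B6_mod3 (a : ℕ) : a % 3 = 2 ↔ (a : ZMod 3) = 2 := by
  have h : ((2 : ℕ) : ZMod 3) = 2 := by norm_num
  rw [← h, ZMod.natCast_eq_natCast_iff']

theorem B6_colsum {m N : ℕ} (Y : Fin m → Fin N → ZMod 3) (t : Fin N) :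
    (∑ i ∈ Finset.range m, ((B6_bits Y i (2 * t)).toNat + (B6_bits Y i (2 * t + 1)).toNat)) % 3 = 2
      ↔ ∑ k, Y k t = 2 := by
  rw [B6_mod3, Finset.sum_congr rfl (fun i _ => B6_bits_sum Y i t)]
  push_cast
  rw [Finset.sum_range]
  have : ∀ k : Fin m, ((((B6_ext Y k t).val : ℕ)) : ZMod 3) = Y k t := by
    intro k
    rw [ZMod.natCast_zmod_val]
    unfold B6_ext
    rw [dif_pos ⟨k.2, t.2⟩]
  rw [Finset.sum_congr rfl (fun k _ => this k)]

theorem B6_bits_update {m N : ℕ} (Y Y' : Fin m → Fin N → ZMod 3) (j : Fin m) :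
    (fun i t => if i = (j : ℕ) then B6_bits Y' i t else B6_bits Y i t) =
      B6_bits (Function.update Y j (Y' j)) := by
  funext i t
  have h : B6_ext (Function.update Y j (Y' j)) i (t / 2) =
      if i = (j : ℕ) then B6_ext Y' i (t / 2) else B6_ext Y i (t / 2) := by
    unfold B6_ext
    by_cases h : i < m ∧ t / 2 < N
    · rw [dif_pos h, dif_pos h, dif_pos h]
      by_cases hij : i = (j : ℕ)
      · have : (⟨i, h.1⟩ : Fin m) = j := Fin.ext hij
        rw [if_pos hij, this, Function.update_self]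
      · rw [if_neg hij, Function.update_of_ne]
        intro h'
        exact hij (by rw [← h'])
    · rw [dif_neg h, dif_neg h, dif_neg h]
      simp
  unfold B6_bits
  rw [h]
  split_ifs <;> rfl

theorem B6_bits_congr {m N : ℕ} (Y Y' : Fin m → Fin N → ZMod 3) (i j : Fin m)
    (h : ∀ k, k ≠ i → k ≠ j → Y k = Y' k) (k : ℕ) (hi : k ≠ i) (hj : k ≠ j) (t : ℕ) :
    B6_bits Y k t = B6_bits Y' k t := by
  have h' : B6_ext Y k (t / 2) = B6_ext Y' k (t / 2) := by
    unfold B6_ext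
    by_cases h1 : k < m ∧ t / 2 < N
    · rw [dif_pos h1, dif_pos h1]
      rw [h ⟨k, h1.1⟩ (fun h2 => hi (by rw [← h2])) (fun h2 => hj (by rw [← h2]))]
    · rw [dif_neg h1, dif_neg h1]
  unfold B6_bits
  rw [h']

/-- the number of blocks and the length of the blocks -/
theorem B6_numbers (C0 n p S : ℕ) (hp : 1 ≤ p) (hS : 1 ≤ S) (hn : n ≤ 2 ^ S)
    (hC : (140800 * (17 + 11 * C0) + 1) * p ^ 2 * S ≤ n) :
    ∃ g, g ≤ Nat.log 2 n ∧ 88 * p + 1 ≤ 2 ^ g ∧ p ≤ n ∧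
      Nat.log 2 n + 2 ^ g * ((n - Nat.log 2 n) / 2 ^ g) ≤ n ∧
      4000 ≤ (n - Nat.log 2 n) / 2 ^ g / 2 ∧
      2 ^ 16 * (2 ^ (C0 * p * S)) ^ 11 < 2 ^ ((n - Nat.log 2 n) / 2 ^ g / 2 / 400) := by
  have hpp : p ≤ p ^ 2 * S := by nlinarith [Nat.mul_le_mul hp hS]
  have hpS : p ≤ p * S := by nlinarith
  have hSp : S ≤ p ^ 2 * S := Nat.le_mul_of_pos_left S (pow_pos hp 2)
  have h0 : (140800 * (17 + 11 * C0) + 1) * (p ^ 2 * S) ≤ n := by
    rw [← mul_assoc]; exact hC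
  have hn1 : 176 * p ≤ n := by nlinarith
  have hn0 : n ≠ 0 := by omega
  have hL : Nat.log 2 n ≤ S := by
    calc Nat.log 2 n ≤ Nat.log 2 (2 ^ S) := Nat.log_mono_right hn
      _ = S := Nat.log_pow (by norm_num) S
  have h88 : 88 * p ≠ 0 := by omega
  have hg1 : 2 ^ (Nat.log 2 (88 * p)) ≤ 88 * p := Nat.pow_log_le_self 2 h88
  have hg2 : 88 * p < 2 ^ (Nat.log 2 (88 * p) + 1) := Nat.lt_pow_succ_log_self (by norm_num) _
  set g := Nat.log 2 (88 * p) + 1 with hg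
  have hm : 2 ^ g ≤ 176 * p := by
    rw [hg, pow_succ]; omega
  have hLn : Nat.log 2 n ≤ n := le_trans hL (le_trans hSp (by nlinarith))
  have hmul : 2 ^ g * ((n - Nat.log 2 n) / 2 ^ g) ≤ n - Nat.log 2 n := Nat.mul_div_le _ _
  have hE : 800 * (17 + 11 * (C0 * p * S)) ≤ (n - Nat.log 2 n) / 2 ^ g := by
    rw [Nat.le_div_iff_mul_le (by positivity)]
    have h1 : 800 * (17 + 11 * (C0 * p * S)) * 2 ^ g ≤
        800 * (17 + 11 * (C0 * p * S)) * (176 * p) := Nat.mul_le_mul_left _ hm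
    have h2 : 17 * p ≤ 17 * (p ^ 2 * S) := Nat.mul_le_mul_left _ hpp
    have h3 : 800 * (17 + 11 * (C0 * p * S)) * (176 * p) =
        140800 * (17 * p) + 140800 * (11 * C0) * (p ^ 2 * S) := by ring
    have h4 : (140800 * (17 + 11 * C0) + 1) * (p ^ 2 * S) =
        140800 * (17 * (p ^ 2 * S)) + 140800 * (11 * C0) * (p ^ 2 * S) + p ^ 2 * S := by ring
    omega
  have hN : 17 + 11 * (C0 * p * S) ≤ (n - Nat.log 2 n) / 2 ^ g / 2 / 400 := by
    rw [Nat.div_div_eq_div_mul, Nat.le_div_iff_mul_le (by norm_num)]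
    omega
  refine ⟨g, ?_, hg2, by omega, by omega, by omega, ?_⟩
  · exact Nat.le_log_of_pow_le (by norm_num) (by omega)
  · rw [← pow_mul, ← pow_add]
    apply Nat.pow_lt_pow_right (by norm_num)
    have : C0 * p * S * 11 = 11 * (C0 * p * S) := by ring
    omega

theorem B6_core (C0 : ℕ) (htr : ∀ (n p w S L b m : ℕ) (P : NStackProg n p w), 1 ≤ p → p ≤ n →
    1 ≤ S → n ≤ 2 ^ S → w ≤ 2 ^ S → L + m * b ≤ n →
    ∃ Tr : Fin m → Fin m → Inp n → Fin (2 ^ (C0 * p * S)) → Prop,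
      (∀ (i j : Fin m) (x y : Inp n) θ, i < j → Agree L b i j x y → Tr i j x θ → Tr i j y θ →
        Tr i j (mixIn L b j x y) θ) ∧
      (∀ (i j : Fin m) x θ, i < j → Tr i j x θ → P.Accepts x) ∧
      (∀ x, P.Accepts x →
        {ij : Fin m × Fin m | ij.1 < ij.2 ∧ ¬ ∃ θ, Tr ij.1 ij.2 x θ}.ncard ≤ 2 * p * m) ∧
      (P.Det → ∀ (i j : Fin m) x θ θ', i < j → Tr i j x θ → Tr i j x θ' → θ = θ'))
    {n p S w : ℕ} (hp : 1 ≤ p) (hS : 1 ≤ S) (hn : n ≤ 2 ^ S) (hw : w ≤ 2 ^ S)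
    (hC : (140800 * (17 + 11 * C0) + 1) * p ^ 2 * S ≤ n)
    {Γ : Type} [Fintype Γ] [Nonempty Γ] (P : Γ → StackProg n p w) (A B : ℕ)
    (hA : ∀ x, langB n x = false → A ≤ Nat.card {c // (P c).Outputs x false})
    (hB : ∀ x, langB n x = true → Nat.card {c // (P c).Outputs x false} ≤ B)
    (hAB : 2 * B ≤ A) (hA2 : 2 * Fintype.card Γ ≤ 3 * A) : False := by
  classical
  obtain ⟨g, hg, hm, hpn, hL, hN, hK⟩ := B6_numbers C0 n p S hp hS hn hC
  set L := Nat.log 2 n with hLdef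
  set b := (n - L) / 2 ^ g with hb
  have h1 := fun c => htr n p w S L b (2 ^ g) ((P c).toN false) hp hpn hS hn hw hL
  choose Tr hR hO hG hU using h1
  let enc : (Fin (2 ^ g) → Fin (b / 2) → ZMod 3) → Inp n := fun Y => encM n g (B6_bits Y)
  let Tr' : Γ → Fin (2 ^ g) → Fin (2 ^ g) → (Fin (2 ^ g) → Fin (b / 2) → ZMod 3) →
      Option (Fin (2 ^ (C0 * p * S))) := fun c i j Y =>
    if h : ∃ θ, Tr c i j (enc Y) θ then some h.choose else none
  have hTr1 : ∀ c i j Y θ, Tr' c i j Y = some θ → Tr c i j (enc Y) θ := by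
    intro c i j Y θ h
    by_cases h' : ∃ θ, Tr c i j (enc Y) θ
    · have : Tr' c i j Y = some h'.choose := dif_pos h'
      rw [this] at h
      rw [← Option.some.inj h]
      exact h'.choose_spec
    · have : Tr' c i j Y = none := dif_neg h'
      rw [this] at h
      exact absurd h (by simp)
  have hTr2 : ∀ c i j Y θ, i < j → Tr c i j (enc Y) θ → Tr' c i j Y = some θ := by
    intro c i j Y θ hij h
    have h' : ∃ θ, Tr c i j (enc Y) θ := ⟨θ, h⟩
    have : Tr' c i j Y = some h'.choose := dif_pos h'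
    rw [this, hU c (toN_det _ _) i j (enc Y) _ θ hij h'.choose_spec h]
  have hTr3 : ∀ c i j Y, Tr' c i j Y = none ↔ ¬ ∃ θ, Tr c i j (enc Y) θ := by
    intro c i j Y
    constructor
    · intro h h'
      have : Tr' c i j Y = some h'.choose := dif_pos h'
      rw [this] at h
      exact absurd h (by simp)
    · intro h
      exact dif_neg h
  have hlang : ∀ Y : Fin (2 ^ g) → Fin (b / 2) → ZMod 3,
      langB n (enc Y) = true ↔ ∃ t, ∑ k, Y k t = 2 := by
    intro Y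
    rw [langB_encM hg (B6_bits Y)]
    constructor
    · rintro ⟨t, ht, h⟩
      exact ⟨⟨t, ht⟩, (B6_colsum Y ⟨t, ht⟩).1 h⟩
    · rintro ⟨t, h⟩
      exact ⟨t, t.2, (B6_colsum Y t).2 h⟩
  refine corrupt (2 ^ g) (b / 2) (2 ^ (C0 * p * S)) (by omega) hN
    (fun c Y => (P c).Outputs (enc Y) false) Tr' ?_ ?_ ?_ A B ?_ ?_ hAB hA2 hK
  · intro c i j Y Y' θ hij h h1 h2
    apply hTr2 c i j _ θ hij
    have h3 := hR c i j (enc Y) (enc Y') θ hij
      (agree_encM hg (B6_bits Y) (B6_bits Y') i j (B6_bits_congr Y Y' i j h))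
      (hTr1 _ _ _ _ _ h1) (hTr1 _ _ _ _ _ h2)
    rw [mixIn_encM hg (B6_bits Y) (B6_bits Y') j j.2, B6_bits_update Y Y' j] at h3
    exact h3
  · intro c i j Y hij h
    have h1 : ∃ θ, Tr c i j (enc Y) θ := by
      by_contra h2
      exact h ((hTr3 c i j Y).2 h2)
    obtain ⟨θ, hθ⟩ := h1
    exact (toN_accepts _ _ _).1 (hO c i j (enc Y) θ hij hθ)
  · intro c Y h
    have h1 := hG c (enc Y) ((toN_accepts _ _ _).2 h)
    have h2 : {ij : Fin (2 ^ g) × Fin (2 ^ g) | ij.1 < ij.2 ∧ Tr' c ij.1 ij.2 Y = none} =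
        {ij : Fin (2 ^ g) × Fin (2 ^ g) | ij.1 < ij.2 ∧ ¬ ∃ θ, Tr c ij.1 ij.2 (enc Y) θ} := by
      ext ij
      simp only [Set.mem_ofPred_eq, hTr3]
    rw [h2]
    calc 44 * _ ≤ 44 * (2 * p * 2 ^ g) := Nat.mul_le_mul_left _ h1
      _ = 2 ^ g * (88 * p) := by ring
      _ ≤ 2 ^ g * (2 ^ g - 1) := Nat.mul_le_mul_left _ (by omega)
  · intro Y h
    apply hA
    rw [← Bool.not_eq_true, hlang]
    rintro ⟨t, ht⟩
    exact h t ht
  · intro Y h
    apply hB
    rw [hlang]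
    exact h.exists

theorem B6_count {n p w ρ : ℕ} (P : (Fin ρ → Bool) → StackProg n p w) (x : Inp n) :
    Nat.card {c : Fin ρ → Bool // (P c).Outputs x true} +
      Nat.card {c : Fin ρ → Bool // (P c).Outputs x false} ≤ 2 ^ ρ := by
  classical
  have hcard : Fintype.card (Fin ρ → Bool) = 2 ^ ρ := by simp
  rw [Nat.card_eq_fintype_card, Nat.card_eq_fintype_card, Fintype.card_subtype,
    Fintype.card_subtype, ← hcard, ← Finset.card_univ, ← Finset.card_union_of_disjoint]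
  · exact Finset.card_le_card (Finset.subset_univ _)
  · rw [Finset.disjoint_left]
    intro c h1 h2
    rw [Finset.mem_filter] at h1 h2
    exact absurd (outputs_unique (P c) x h1.2 h2.2) (by simp)

theorem lowerB : ∃ C : ℕ, ∀ n p S w : ℕ, 1 ≤ p → 1 ≤ S → n ≤ 2 ^ S → w ≤ 2 ^ S →
    C * p ^ 2 * S ≤ n → ¬ StackTwoSided (langB n) p w ∧ ¬ StackOneSided (langB n) p w := by
  obtain ⟨C0, htr⟩ := transcripts
  refine ⟨140800 * (17 + 11 * C0) + 1, fun n p S w hp hS hn hw hC => ⟨?_, ?_⟩⟩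
  · rintro ⟨ρ, P, h⟩
    have hcard : Fintype.card (Fin ρ → Bool) = 2 ^ ρ := by simp
    refine B6_core C0 htr hp hS hn hw hC P ((2 * 2 ^ ρ + 2) / 3) (2 ^ ρ / 3) ?_ ?_ (by omega)
      (by rw [hcard]; omega)
    · intro x hx
      have h1 := h x
      rw [hx] at h1
      omega
    · intro x hx
      have h1 := h x
      rw [hx] at h1
      have h2 := B6_count P x
      omega
  · rintro ⟨ρ, P, h, h'⟩
    have hcard : Fintype.card (Fin ρ → Bool) = 2 ^ ρ := by simp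
    refine B6_core C0 htr hp hS hn hw hC P (2 ^ ρ) (2 ^ ρ / 2) ?_ ?_ (by omega)
      (by rw [hcard]; omega)
    · intro x hx
      have h1 : Nat.card {c : Fin ρ → Bool // (P c).Outputs x false} =
          Nat.card (Fin ρ → Bool) :=
        Nat.card_congr (Equiv.subtypeUnivEquiv (fun c => h' x hx c))
      rw [h1, Nat.card_eq_fintype_card, hcard]
    · intro x hx
      have h1 := h x hx
      have h2 := B6_count P x
      omega

end Pool.Agent.ST
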