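import Mathlib
import Pool.Agent.Lib.MP_b573ec_lc_ST.Model
import Pool.Agent.Lib.MP_b573ec_lc_ST.Runs
import Pool.Agent.Lib.MP_b573ec_lc_ST.UpperA
import Pool.Agent.Lib.MP_b573ec_lc_ST.LowerA
import Pool.Agent.Lib.MP_b573ec_lc_ST.UpperB
import Pool.Agent.Lib.MP_b573ec_lc_ST.LowerB
import Pool.Agent.Lib.MP_b573ec_lc_ST.LowerCoB

/-!
# P, RP, coRP, NP, coNP for stack programs with few passes
-/

namespace Pool.Agent.ST

open Pool.Agent.LT (Inp OneSidedOnePass NondetOnePass)


/-- a deterministic program is a nondeterministic one -/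
theorem F_half {n p w : ℕ} (f : Inp n → Bool) (X : Finset (Inp n))
    (hf : ∀ x ∈ X, f x = false)
    (h : ∀ P : NStackProg n p w, (∀ x, P.Accepts x → f x = false) →
      2 * Nat.card {x : Inp n // x ∈ X ∧ P.Accepts x} < X.card) :
    ¬ StackNondet (fun x => !f x) p w ∧ ¬ StackOneSided (fun x => !f x) p w := by
  classical
  constructor
  · rintro ⟨P, hP⟩
    have h1 := h P (fun x hx => by
      have := (hP x).mpr hx
      simpa using this)
    have h2 : Nat.card {x : Inp n // x ∈ X ∧ P.Accepts x} = X.card := by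
      rw [← Fintype.card_coe, ← Nat.card_eq_fintype_card]
      refine Nat.card_congr (Equiv.subtypeEquivRight fun x => ⟨fun hx => hx.1, fun hx => ⟨hx, ?_⟩⟩)
      refine (hP x).mp ?_
      simp [hf x hx]
    omega
  · rintro ⟨ρ, P, h1, h2⟩
    -- for every `c` less than half of `X`
    have h3 : ∀ c, 2 * (X.filter fun x => (P c).Outputs x true).card < X.card := by
      intro c
      have h4 := h ((P c).toN true) (fun x hx => by
        rw [toN_accepts] at hx
        by_contra hne
        have h5 : (!f x) = false := by simpa using hne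
        exact absurd (outputs_unique (P c) x hx (h2 x h5 c)) (by decide))
      have h5 : Nat.card {x : Inp n // x ∈ X ∧ ((P c).toN true).Accepts x} =
          (X.filter fun x => (P c).Outputs x true).card := by
        rw [← Fintype.card_coe, ← Nat.card_eq_fintype_card]
        refine Nat.card_congr (Equiv.subtypeEquivRight fun x => ?_)
        rw [toN_accepts, Finset.mem_filter]
      omega
    -- for every `x` at least half of the `c`
    have h6 : ∀ x ∈ X, 2 ^ ρ ≤
        2 * (Finset.univ.filter fun c : Fin ρ → Bool => (P c).Outputs x true).card := by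
      intro x hx
      have h7 := h1 x (by simp [hf x hx])
      rwa [Nat.card_eq_fintype_card, Fintype.card_subtype] at h7
    have h8 : ∑ x ∈ X, (Finset.univ.filter fun c : Fin ρ → Bool => (P c).Outputs x true).card =
        ∑ c : Fin ρ → Bool, (X.filter fun x => (P c).Outputs x true).card := by
      simp only [Finset.card_filter]
      exact Finset.sum_comm
    have h9 : X.card * 2 ^ ρ ≤
        2 * ∑ x ∈ X, (Finset.univ.filter fun c : Fin ρ → Bool => (P c).Outputs x true).card := by
      rw [Finset.mul_sum, ← smul_eq_mul]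
      exact Finset.card_nsmul_le_sum _ _ _ h6
    have h10 : 2 * ∑ c : Fin ρ → Bool, (X.filter fun x => (P c).Outputs x true).card <
        X.card * 2 ^ ρ := by
      rw [Finset.mul_sum]
      have h11 : ∑ c : Fin ρ → Bool, X.card = X.card * 2 ^ ρ := by
        simp [mul_comm]
      rw [← h11]
      exact Finset.sum_lt_sum_of_nonempty Finset.univ_nonempty fun c _ => h3 c
    rw [h8] at h9
    omega

/-- the program with the negated output -/
def StackProg.neg {n p w : ℕ} (P : StackProg n p w) : StackProg n p w where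
  forward := P.forward
  start := P.start
  move := P.move
  acc q := !P.acc q

theorem StackProg.neg_outputs {n p w : ℕ} (P : StackProg n p w) (x : Inp n) {b : Bool}
    (h : P.Outputs x b) : P.neg.Outputs x (!b) := by
  obtain ⟨k, h1, h2⟩ := h
  refine ⟨k, h1, ?_⟩
  show (!P.acc (P.conf x k).state) = !b
  rw [h2]

theorem F_det {n p w : ℕ} (f : Inp n → Bool) (h : StackDet f p w) :
    StackOneSided (fun x => !f x) p w := by
  obtain ⟨P, hP⟩ := h
  refine ⟨0, fun _ => P.neg, fun x hx => ?_, fun x hx c => ?_⟩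
  · have h1 : P.neg.Outputs x true := by
      have := P.neg_outputs x (hP x)
      rwa [show (!f x) = true from hx] at this
    have h2 : Nat.card {c : Fin 0 → Bool // P.neg.Outputs x true} = 1 := by
      rw [Nat.card_eq_one_iff_unique]
      exact ⟨⟨fun a b => Subtype.ext (Subsingleton.elim _ _)⟩, ⟨⟨fun i => i.elim0, h1⟩⟩⟩
    rw [h2]
    norm_num
  · have := P.neg_outputs x (hP x)
    rwa [show (!f x) = false from hx] at this

theorem resultRP : ∃ C : ℕ, (∀ n ≥ 1, ∃ w ≤ C * n, OneSidedOnePass (langA n) w) ∧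
    ∀ n p S w : ℕ, 1 ≤ p → 1 ≤ S → n ≤ 2 ^ S → w ≤ 2 ^ S → C * p ^ 2 * S ≤ n →
      ¬ StackNondet (fun x => !langA n x) p w ∧ ¬ StackOneSided (fun x => !langA n x) p w ∧
        ¬ StackDet (langA n) p w := by
  obtain ⟨C1, h1⟩ := upperA
  obtain ⟨C2, h2⟩ := lowerA
  refine ⟨max C1 C2, fun n hn => ?_, fun n p S w hp hS hn hw hC => ?_⟩
  · obtain ⟨w, hw, h3⟩ := h1 n hn
    exact ⟨w, hw.trans (Nat.mul_le_mul_right _ (le_max_left _ _)), h3⟩
  · obtain ⟨X, -, hXf, h3⟩ := h2 n p S w hp hS hn hw
      ((Nat.mul_le_mul_right _ (Nat.mul_le_mul_right _ (le_max_right _ _))).trans hC)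
    have h4 := F_half (langA n) X hXf h3
    exact ⟨h4.1, h4.2, fun h5 => h4.2 (F_det _ h5)⟩

theorem resultNP : ∃ C : ℕ, (∀ n ≥ 1, ∃ w ≤ C * n ^ 2, NondetOnePass (langB n) w) ∧
    ∀ n p S w : ℕ, 1 ≤ p → 1 ≤ S → n ≤ 2 ^ S → w ≤ 2 ^ S → C * p ^ 2 * S ≤ n →
      ¬ StackTwoSided (langB n) p w ∧ ¬ StackOneSided (langB n) p w ∧
        ¬ StackNondet (fun x => !langB n x) p w := by
  obtain ⟨C1, h1⟩ := upperB
  obtain ⟨C2, h2⟩ := lowerB
  obtain ⟨C3, h3⟩ := lowerCoB
  refine ⟨max C1 (max C2 C3), fun n hn => ?_, fun n p S w hp hS hn hw hC => ?_⟩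
  · obtain ⟨w, hw, h3⟩ := h1 n hn
    exact ⟨w, hw.trans (Nat.mul_le_mul_right _ (le_max_left _ _)), h3⟩
  · have hC2 : C2 * p ^ 2 * S ≤ n := (Nat.mul_le_mul_right _ (Nat.mul_le_mul_right _
      ((le_max_left _ _).trans (le_max_right _ _)))).trans hC
    have hC3 : C3 * p ^ 2 * S ≤ n := (Nat.mul_le_mul_right _ (Nat.mul_le_mul_right _
      ((le_max_right _ _).trans (le_max_right _ _)))).trans hC
    have h4 := h2 n p S w hp hS hn hw hC2
    obtain ⟨X, -, hXf, h5⟩ := h3 n p S w hp hS hn hw hC3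
    exact ⟨h4.1, h4.2, (F_half (langB n) X hXf h5).1⟩

end Pool.Agent.ST
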