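import Mathlib

/-! # Discrepancy of cylinder intersections for three players (Babai, Nisan, Szegedy)

For 0-1 (more generally `[-1,1]`-valued) functions `A x y`, `B x z`, `C y z` of two of three
blocks of `M` bits, the correlation with the parity of `∑ x_s y_s z_s` is small:
`(∑ A B C χ) ^ 4 ≤ 3072 ^ M = (3/4) ^ M * (8 ^ M) ^ 4`. -/

set_option autoImplicit false

namespace Pool.Agent.ST.Lin

open Finset

/-- the sign of one bit -/
def sg (b : Bool) : ℝ := if b then -1 else 1

/-- the parity of the generalised inner product, as a sign -/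
def chi {M : ℕ} (x y z : Fin M → Bool) : ℝ := ∏ s, sg (x s && y s && z s)

theorem sg_sq (b : Bool) : sg b * sg b = 1 := by cases b <;> simp [sg]

/-- Cauchy-Schwarz with a factor bounded by one -/
theorem cs_one {ι : Type*} [Fintype ι] (f g : ι → ℝ) (hf : ∀ i, f i ^ 2 ≤ 1) :
    (∑ i, f i * g i) ^ 2 ≤ (Fintype.card ι : ℝ) * ∑ i, g i ^ 2 := by
  have h1 : (∑ i, f i * g i) ^ 2 ≤ (∑ i, f i ^ 2) * ∑ i, g i ^ 2 :=
    Finset.sum_mul_sq_le_sq_mul_sq _ _ _
  have h2 : ∑ i, f i ^ 2 ≤ (Fintype.card ι : ℝ) := by
    calc ∑ i, f i ^ 2 ≤ ∑ _i : ι, (1 : ℝ) := Finset.sum_le_sum fun i _ => hf i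
      _ = (Fintype.card ι : ℝ) := by simp
  exact h1.trans (mul_le_mul_of_nonneg_right h2 (Finset.sum_nonneg fun i _ => sq_nonneg _))

theorem sum_pow_prod {M : ℕ} (f : Fin M → Bool → ℝ) :
    ∑ x : Fin M → Bool, ∏ s, f s (x s) = ∏ s, (f s true + f s false) := by
  have := Finset.prod_univ_sum (fun _ : Fin M => (Finset.univ : Finset Bool)) f
  rw [Fintype.piFinset_univ] at this
  rw [← this]
  refine Finset.prod_congr rfl fun s _ => ?_
  simp

/-- the four-fold sum of the fully squared sign -/
theorem cube_sum (M : ℕ) :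
    ∑ z : Fin M → Bool, ∑ z' : Fin M → Bool, ∑ y : Fin M → Bool, ∑ y' : Fin M → Bool,
      ∏ s, (1 + sg (y s && z s) * sg (y s && z' s) * sg (y' s && z s) * sg (y' s && z' s)) =
      24 ^ M := by
  have e1 : ∀ z z' y : Fin M → Bool,
      ∑ y' : Fin M → Bool,
        ∏ s, (1 + sg (y s && z s) * sg (y s && z' s) * sg (y' s && z s) * sg (y' s && z' s)) =
      ∏ s, ((1 + sg (y s && z s) * sg (y s && z' s) * sg (true && z s) * sg (true && z' s)) +
        (1 + sg (y s && z s) * sg (y s && z' s) * sg (false && z s) * sg (false && z' s))) :=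
    fun z z' y => sum_pow_prod
      (fun s b => 1 + sg (y s && z s) * sg (y s && z' s) * sg (b && z s) * sg (b && z' s))
  simp only [e1]
  have e2 : ∀ z z' : Fin M → Bool,
      ∑ y : Fin M → Bool,
        ∏ s, ((1 + sg (y s && z s) * sg (y s && z' s) * sg (true && z s) * sg (true && z' s)) +
        (1 + sg (y s && z s) * sg (y s && z' s) * sg (false && z s) * sg (false && z' s))) = _ :=
    fun z z' => sum_pow_prod
      (fun s b => (1 + sg (b && z s) * sg (b && z' s) * sg (true && z s) * sg (true && z' s)) +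
        (1 + sg (b && z s) * sg (b && z' s) * sg (false && z s) * sg (false && z' s)))
  simp only [e2]
  have e3 : ∀ z : Fin M → Bool,
      ∑ z' : Fin M → Bool, ∏ s,
        (((1 + sg (true && z s) * sg (true && z' s) * sg (true && z s) * sg (true && z' s)) +
          (1 + sg (true && z s) * sg (true && z' s) * sg (false && z s) * sg (false && z' s))) +
        ((1 + sg (false && z s) * sg (false && z' s) * sg (true && z s) * sg (true && z' s)) +
          (1 + sg (false && z s) * sg (false && z' s) * sg (false && z s) *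
            sg (false && z' s)))) = _ :=
    fun z => sum_pow_prod
      (fun s b =>
        (((1 + sg (true && z s) * sg (true && b) * sg (true && z s) * sg (true && b)) +
          (1 + sg (true && z s) * sg (true && b) * sg (false && z s) * sg (false && b))) +
        ((1 + sg (false && z s) * sg (false && b) * sg (true && z s) * sg (true && b)) +
          (1 + sg (false && z s) * sg (false && b) * sg (false && z s) *
            sg (false && b)))))
  simp only [e3]
  have e4 := sum_pow_prod (M := M) (fun _ c =>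
        ((((1 + sg (true && c) * sg (true && true) * sg (true && c) * sg (true && true)) +
          (1 + sg (true && c) * sg (true && true) * sg (false && c) * sg (false && true))) +
        ((1 + sg (false && c) * sg (false && true) * sg (true && c) * sg (true && true)) +
          (1 + sg (false && c) * sg (false && true) * sg (false && c) *
            sg (false && true)))) +
        (((1 + sg (true && c) * sg (true && false) * sg (true && c) * sg (true && false)) +
          (1 + sg (true && c) * sg (true && false) * sg (false && c) * sg (false && false))) +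
        ((1 + sg (false && c) * sg (false && false) * sg (true && c) * sg (true && false)) +
          (1 + sg (false && c) * sg (false && false) * sg (false && c) *
            sg (false && false))))))
  rw [e4]
  simp only [Finset.prod_const, Finset.card_univ, Fintype.card_fin]
  congr 1
  simp [sg]
  norm_num

theorem chi_mul {M : ℕ} (x y z z' : Fin M → Bool) :
    chi x y z * chi x y z' = ∏ s, (sg (x s && y s && z s) * sg (x s && y s && z' s)) := by
  unfold chi
  rw [← Finset.prod_mul_distrib]

/-- summing the fully squared sign over the first block -/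
theorem sum_x {M : ℕ} (y y' z z' : Fin M → Bool) :
    ∑ x : Fin M → Bool, (chi x y z * chi x y z') * (chi x y' z * chi x y' z') =
      ∏ s, (1 + sg (y s && z s) * sg (y s && z' s) * sg (y' s && z s) * sg (y' s && z' s)) := by
  have h : ∀ x : Fin M → Bool, (chi x y z * chi x y z') * (chi x y' z * chi x y' z') =
      ∏ s, (sg (x s && y s && z s) * sg (x s && y s && z' s) *
        (sg (x s && y' s && z s) * sg (x s && y' s && z' s))) := by
    intro x
    rw [chi_mul, chi_mul, ← Finset.prod_mul_distrib]
  simp only [h]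
  rw [sum_pow_prod (fun s b => sg (b && y s && z s) * sg (b && y s && z' s) *
        (sg (b && y' s && z s) * sg (b && y' s && z' s)))]
  refine Finset.prod_congr rfl fun s _ => ?_
  simp [sg]
  ring

theorem prod_nonneg_cube {M : ℕ} (y y' z z' : Fin M → Bool) :
    0 ≤ ∏ s, (1 + sg (y s && z s) * sg (y s && z' s) * sg (y' s && z s) * sg (y' s && z' s)) := by
  refine Finset.prod_nonneg fun s _ => ?_
  cases y s <;> cases y' s <;> cases z s <;> cases z' s <;> simp [sg]

/-- **Babai-Nisan-Szegedy for three players.** -/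
theorem discrepancy (M : ℕ) (A B C : (Fin M → Bool) → (Fin M → Bool) → ℝ)
    (hA : ∀ x y, A x y ^ 2 ≤ 1) (hB : ∀ x z, B x z ^ 2 ≤ 1) (hC : ∀ y z, C y z ^ 2 ≤ 1) :
    (∑ x, ∑ y, ∑ z, A x y * B x z * C y z * chi x y z) ^ 4 ≤ 3072 ^ M := by
  classical
  set S := ∑ x, ∑ y, ∑ z, A x y * B x z * C y z * chi x y z with hS
  have hcard : (Fintype.card (Fin M → Bool) : ℝ) = 2 ^ M := by simp
  -- first Cauchy-Schwarz
  have h1 : S ^ 2 ≤ 4 ^ M * ∑ z, ∑ z', ∑ x, ∑ y,
      (B x z * B x z') * (C y z * C y z') * (chi x y z * chi x y z') := by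
    have e : S = ∑ p : (Fin M → Bool) × (Fin M → Bool), A p.1 p.2 *
        ∑ z, B p.1 z * C p.2 z * chi p.1 p.2 z := by
      rw [Fintype.sum_prod_type, hS]
      refine Finset.sum_congr rfl fun x _ => Finset.sum_congr rfl fun y _ => ?_
      rw [Finset.mul_sum]
      refine Finset.sum_congr rfl fun z _ => ?_
      ring
    have h := cs_one (fun p : (Fin M → Bool) × (Fin M → Bool) => A p.1 p.2)
      (fun p => ∑ z, B p.1 z * C p.2 z * chi p.1 p.2 z) (fun p => hA _ _)
    rw [← e] at h
    refine h.trans (le_of_eq ?_)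
    have hc : (Fintype.card ((Fin M → Bool) × (Fin M → Bool)) : ℝ) = 4 ^ M := by
      rw [Fintype.card_prod]
      push_cast
      rw [hcard, ← mul_pow]
      norm_num
    rw [hc]
    congr 1
    rw [Fintype.sum_prod_type]
    have : ∀ x y : Fin M → Bool, (∑ z, B x z * C y z * chi x y z) ^ 2 =
        ∑ z, ∑ z', (B x z * B x z') * (C y z * C y z') * (chi x y z * chi x y z') := by
      intro x y
      rw [sq, Finset.sum_mul_sum]
      refine Finset.sum_congr rfl fun z _ => Finset.sum_congr rfl fun z' _ => ?_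
      ring
    simp only [this]
    calc ∑ x, ∑ y, ∑ z, ∑ z', (B x z * B x z') * (C y z * C y z') * (chi x y z * chi x y z')
        = ∑ x, ∑ z, ∑ y, ∑ z', (B x z * B x z') * (C y z * C y z') *
            (chi x y z * chi x y z') := by
          refine Finset.sum_congr rfl fun x _ => ?_
          rw [Finset.sum_comm]
      _ = ∑ z, ∑ x, ∑ y, ∑ z', (B x z * B x z') * (C y z * C y z') *
            (chi x y z * chi x y z') := by
          rw [Finset.sum_comm]
      _ = ∑ z, ∑ x, ∑ z', ∑ y, (B x z * B x z') * (C y z * C y z') *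
            (chi x y z * chi x y z') := by
          refine Finset.sum_congr rfl fun z _ => Finset.sum_congr rfl fun x _ => ?_
          rw [Finset.sum_comm]
      _ = ∑ z, ∑ z', ∑ x, ∑ y, (B x z * B x z') * (C y z * C y z') *
            (chi x y z * chi x y z') := by
          refine Finset.sum_congr rfl fun z _ => ?_
          rw [Finset.sum_comm]
  -- bound of one inner sum
  have h2 : ∀ z z' : Fin M → Bool, (∑ x, ∑ y,
      (B x z * B x z') * (C y z * C y z') * (chi x y z * chi x y z')) ^ 2 ≤
      2 ^ M * ∑ y : Fin M → Bool, ∑ y' : Fin M → Bool, ∏ s,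
        (1 + sg (y s && z s) * sg (y s && z' s) * sg (y' s && z s) * sg (y' s && z' s)) := by
    intro z z'
    have e : ∑ x, ∑ y, (B x z * B x z') * (C y z * C y z') * (chi x y z * chi x y z') =
        ∑ x, (B x z * B x z') * ∑ y, (C y z * C y z') * (chi x y z * chi x y z') := by
      refine Finset.sum_congr rfl fun x _ => ?_
      rw [Finset.mul_sum]
      refine Finset.sum_congr rfl fun y _ => ?_
      ring
    have hbb : ∀ a b : ℝ, a ^ 2 ≤ 1 → b ^ 2 ≤ 1 → (a * b) ^ 2 ≤ 1 := by
      intro a b ha hb
      rw [mul_pow]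
      exact mul_le_one₀ ha (sq_nonneg _) hb
    have h := cs_one (fun x => B x z * B x z')
      (fun x => ∑ y, (C y z * C y z') * (chi x y z * chi x y z'))
      (fun x => hbb _ _ (hB _ _) (hB _ _))
    rw [← e, hcard] at h
    refine h.trans (mul_le_mul_of_nonneg_left ?_ (by positivity))
    have e2 : ∑ x, (∑ y, (C y z * C y z') * (chi x y z * chi x y z')) ^ 2 =
        ∑ y, ∑ y', (C y z * C y z') * (C y' z * C y' z') *
          ∑ x, (chi x y z * chi x y z') * (chi x y' z * chi x y' z') := by
      have : ∀ x : Fin M → Bool, (∑ y, (C y z * C y z') * (chi x y z * chi x y z')) ^ 2 =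
          ∑ y, ∑ y', (C y z * C y z') * (C y' z * C y' z') *
            ((chi x y z * chi x y z') * (chi x y' z * chi x y' z')) := by
        intro x
        rw [sq, Finset.sum_mul_sum]
        refine Finset.sum_congr rfl fun y _ => Finset.sum_congr rfl fun y' _ => ?_
        ring
      simp only [this]
      rw [Finset.sum_comm]
      refine Finset.sum_congr rfl fun y _ => ?_
      rw [Finset.sum_comm]
      refine Finset.sum_congr rfl fun y' _ => ?_
      rw [Finset.mul_sum]
    rw [e2]
    refine Finset.sum_le_sum fun y _ => Finset.sum_le_sum fun y' _ => ?_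
    rw [sum_x]
    have hc : (C y z * C y z') * (C y' z * C y' z') ≤ 1 := by
      have := hbb _ _ (hbb _ _ (hC y z) (hC y z')) (hbb _ _ (hC y' z) (hC y' z'))
      nlinarith [this]
    calc _ ≤ 1 * ∏ s, (1 + sg (y s && z s) * sg (y s && z' s) * sg (y' s && z s) *
            sg (y' s && z' s)) := mul_le_mul_of_nonneg_right hc (prod_nonneg_cube _ _ _ _)
      _ = _ := one_mul _
  -- second Cauchy-Schwarz
  set R := ∑ z, ∑ z', ∑ x, ∑ y,
      (B x z * B x z') * (C y z * C y z') * (chi x y z * chi x y z') with hR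
  have h3 : R ^ 2 ≤ 4 ^ M * ∑ z, ∑ z', (∑ x, ∑ y,
      (B x z * B x z') * (C y z * C y z') * (chi x y z * chi x y z')) ^ 2 := by
    have h := cs_one (fun _ : (Fin M → Bool) × (Fin M → Bool) => (1 : ℝ))
      (fun p => ∑ x, ∑ y,
      (B x p.1 * B x p.2) * (C y p.1 * C y p.2) * (chi x y p.1 * chi x y p.2))
      (fun p => by norm_num)
    have hc : (Fintype.card ((Fin M → Bool) × (Fin M → Bool)) : ℝ) = 4 ^ M := by
      rw [Fintype.card_prod]
      push_cast
      rw [hcard, ← mul_pow]
      norm_num
    rw [hc] at h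
    simp only [one_mul] at h
    rw [Fintype.sum_prod_type, Fintype.sum_prod_type] at h
    exact h
  have h4 : ∑ z, ∑ z', (∑ x, ∑ y,
      (B x z * B x z') * (C y z * C y z') * (chi x y z * chi x y z')) ^ 2 ≤ 2 ^ M * 24 ^ M := by
    rw [← cube_sum, Finset.mul_sum]
    refine Finset.sum_le_sum fun z _ => ?_
    rw [Finset.mul_sum]
    exact Finset.sum_le_sum fun z' _ => h2 z z'
  calc S ^ 4 = (S ^ 2) ^ 2 := by ring
    _ ≤ (4 ^ M * R) ^ 2 := by
        refine pow_le_pow_left₀ (sq_nonneg _) h1 2
    _ = 16 ^ M * R ^ 2 := by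
        rw [mul_pow, ← pow_mul, mul_comm M 2, pow_mul]
        norm_num
    _ ≤ 16 ^ M * (4 ^ M * (2 ^ M * 24 ^ M)) := by
        refine mul_le_mul_of_nonneg_left ?_ (by positivity)
        exact h3.trans (mul_le_mul_of_nonneg_left h4 (by positivity))
    _ = 3072 ^ M := by
        rw [← mul_pow, ← mul_pow, ← mul_pow]
        norm_num

/-- a set of triples closed under stars (a cylinder intersection) on which the parity of
`∑ x_s y_s z_s` vanishes has at most `(3/4)^(M/4) 8^M` elements -/
theorem card_star (M : ℕ) (T : Finset ((Fin M → Bool) × (Fin M → Bool) × (Fin M → Bool)))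
    (hT : ∀ x x' y y' z z', (x', y, z) ∈ T → (x, y', z) ∈ T → (x, y, z') ∈ T → (x, y, z) ∈ T)
    (hpar : ∀ p ∈ T, chi p.1 p.2.1 p.2.2 = 1) :
    4 ^ M * T.card ^ 4 ≤ 3 ^ M * 8 ^ (4 * M) := by
  classical
  let A : (Fin M → Bool) → (Fin M → Bool) → ℝ := fun x y => if ∃ z, (x, y, z) ∈ T then 1 else 0
  let B : (Fin M → Bool) → (Fin M → Bool) → ℝ := fun x z => if ∃ y, (x, y, z) ∈ T then 1 else 0
  let C : (Fin M → Bool) → (Fin M → Bool) → ℝ := fun y z => if ∃ x, (x, y, z) ∈ T then 1 else 0
  have h01 : ∀ (P : Prop) [Decidable P], (if P then (1 : ℝ) else 0) ^ 2 ≤ 1 := by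
    intro P _
    split_ifs <;> norm_num
  have hd := discrepancy M A B C (fun _ _ => h01 _) (fun _ _ => h01 _) (fun _ _ => h01 _)
  have he : ∑ x, ∑ y, ∑ z, A x y * B x z * C y z * chi x y z = (T.card : ℝ) := by
    have h1 : ∀ x y z, A x y * B x z * C y z * chi x y z = if (x, y, z) ∈ T then (1 : ℝ) else 0 := by
      intro x y z
      by_cases h : (x, y, z) ∈ T
      · rw [if_pos h, hpar _ h]
        simp only [A, B, C]
        rw [if_pos ⟨z, h⟩, if_pos ⟨y, h⟩, if_pos ⟨x, h⟩]
        norm_num
      · rw [if_neg h]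
        by_cases ha : ∃ z', (x, y, z') ∈ T
        · by_cases hb : ∃ y', (x, y', z) ∈ T
          · by_cases hc : ∃ x', (x', y, z) ∈ T
            · obtain ⟨z', ha⟩ := ha
              obtain ⟨y', hb⟩ := hb
              obtain ⟨x', hc⟩ := hc
              exact absurd (hT x x' y y' z z' hc hb ha) h
            · simp [C, if_neg hc]
          · simp [B, if_neg hb]
        · simp [A, if_neg ha]
    simp only [h1]
    have h2 : ((∑ p : (Fin M → Bool) × (Fin M → Bool) × (Fin M → Bool),
        if p ∈ T then (1 : ℝ) else 0)) = (T.card : ℝ) := by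
      simp
    rw [← h2, Fintype.sum_prod_type]
    refine Finset.sum_congr rfl fun x _ => ?_
    rw [Fintype.sum_prod_type]
  rw [he] at hd
  have : ((4 ^ M * T.card ^ 4 : ℕ) : ℝ) ≤ ((3 ^ M * 8 ^ (4 * M) : ℕ) : ℝ) := by
    push_cast
    calc (4 : ℝ) ^ M * (T.card : ℝ) ^ 4 ≤ 4 ^ M * 3072 ^ M :=
          mul_le_mul_of_nonneg_left hd (by positivity)
      _ = 3 ^ M * 8 ^ (4 * M) := by
          rw [pow_mul, ← mul_pow, ← mul_pow]
          norm_num
  exact_mod_cast this

end Pool.Agent.ST.Lin
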