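import Pool.Agent.Lib.MP_b573ec_lc_ST.LinLower

/-! # The generalised inner product of three blocks is hard with two-sided error

No family of stack programs with `p` passes and width `2 ^ S` computes, with error `1/3`, the
parity of `∑ x_s y_s z_s` if `C p S ≤ n`. -/

set_option autoImplicit false

namespace Pool.Agent.ST

open Pool.Agent.LT (Inp)

/-- The parity of the generalised inner product of three blocks of `⌊n / 3⌋` bits. -/
def gip (n : ℕ) (x : Inp n) : Bool :=
  decide ((∑ s ∈ Finset.range (n / 3),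
    (getBit x s && getBit x (n / 3 + s) && getBit x (2 * (n / 3) + s)).toNat) % 2 = 1)

namespace Lin

theorem chi_gip (n : ℕ) (x y z : Fin (n / 3) → Bool) :
    chi x y z = if gip n (enc3 n x y z) = true then -1 else 1 := by
  have h1 : chi x y z = (-1) ^ (∑ s, (x s && y s && z s).toNat) := by
    unfold chi
    simp only [sg_eq]
    exact Finset.prod_pow_eq_pow_sum _ _ _
  have h2 : ∑ s : Fin (n / 3), (x s && y s && z s).toNat =
      ∑ s ∈ Finset.range (n / 3), (getBit (enc3 n x y z) s &&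
        getBit (enc3 n x y z) (n / 3 + s) && getBit (enc3 n x y z) (2 * (n / 3) + s)).toNat := by
    rw [← Fin.sum_univ_eq_sum_range (fun s => (getBit (enc3 n x y z) s &&
        getBit (enc3 n x y z) (n / 3 + s) &&
        getBit (enc3 n x y z) (2 * (n / 3) + s)).toNat)]
    refine Finset.sum_congr rfl fun s _ => ?_
    rw [getBit_enc_x n x y z s.isLt, getBit_enc_y n x y z s.isLt, getBit_enc_z n x y z s.isLt]
    simp only [ext, dif_pos s.isLt]
  rw [h1, h2, neg_one_pow_eq_pow_mod_two]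
  unfold gip
  rcases Nat.mod_two_eq_zero_or_one (∑ s ∈ Finset.range (n / 3), (getBit (enc3 n x y z) s &&
        getBit (enc3 n x y z) (n / 3 + s) && getBit (enc3 n x y z) (2 * (n / 3) + s)).toNat)
    with h | h
  · rw [h]; simp
  · rw [h]; simp

/-- triples of words -/
abbrev Tri (M : ℕ) := (Fin M → Bool) × (Fin M → Bool) × (Fin M → Bool)

open Classical in
/-- the correlation of a star-closed set with the sign -/
theorem disc_star (M : ℕ) (T : Tri M → Prop)
    (hT : ∀ x x' y y' z z', T (x', y, z) → T (x, y', z) → T (x, y, z') → T (x, y, z)) :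
    (∑ q : Tri M, (if T q then (1 : ℝ) else 0) * chi q.1 q.2.1 q.2.2) ^ 4 ≤ 3072 ^ M := by
  let A : (Fin M → Bool) → (Fin M → Bool) → ℝ := fun x y => if ∃ z, T (x, y, z) then 1 else 0
  let B : (Fin M → Bool) → (Fin M → Bool) → ℝ := fun x z => if ∃ y, T (x, y, z) then 1 else 0
  let C : (Fin M → Bool) → (Fin M → Bool) → ℝ := fun y z => if ∃ x, T (x, y, z) then 1 else 0
  have h01 : ∀ (P : Prop) [Decidable P], (if P then (1 : ℝ) else 0) ^ 2 ≤ 1 := by
    intro P _
    split_ifs <;> norm_num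
  have hd := discrepancy M A B C (fun _ _ => h01 _) (fun _ _ => h01 _) (fun _ _ => h01 _)
  have he : ∑ x, ∑ y, ∑ z, A x y * B x z * C y z * chi x y z =
      ∑ q : Tri M, (if T q then (1 : ℝ) else 0) * chi q.1 q.2.1 q.2.2 := by
    have h1 : ∀ x y z, A x y * B x z * C y z * chi x y z =
        (if T (x, y, z) then (1 : ℝ) else 0) * chi x y z := by
      intro x y z
      congr 1
      by_cases h : T (x, y, z)
      · rw [if_pos h]
        simp only [A, B, C]
        rw [if_pos ⟨z, h⟩, if_pos ⟨y, h⟩, if_pos ⟨x, h⟩]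
        norm_num
      · rw [if_neg h]
        by_cases ha : ∃ z', T (x, y, z')
        · by_cases hb : ∃ y', T (x, y', z)
          · by_cases hc : ∃ x', T (x', y, z)
            · obtain ⟨z', ha⟩ := ha
              obtain ⟨y', hb⟩ := hb
              obtain ⟨x', hc⟩ := hc
              exact absurd (hT x x' y y' z z' hc hb ha) h
            · simp [C, if_neg hc]
          · simp [B, if_neg hb]
        · simp [A, if_neg ha]
    simp only [h1]
    rw [Fintype.sum_prod_type]
    refine Finset.sum_congr rfl fun x _ => ?_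
    rw [Fintype.sum_prod_type]
  rw [← he]
  exact hd

/-- star-closed sets of inputs give star-closed sets of triples -/
theorem star_enc {n M : ℕ} {A : Inp n → Prop} (hA : StarClosed (n / 3) (2 * (n / 3)) A)
    (x x' y y' z z' : Fin M → Bool) (h1 : A (enc3 n x' y z)) (h2 : A (enc3 n x y' z))
    (h3 : A (enc3 n x y z')) : A (enc3 n x y z) := by
  refine hA (enc3 n x y z)
    (fun k => if k = 0 then enc3 n x' y z else if k = 1 then enc3 n x y' z
      else enc3 n x y z') ?_ ?_
  · intro k c hk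
    unfold blk3 at hk
    fin_cases k
    · show enc3 n x' y z c = enc3 n x y z c
      unfold enc3
      have : ¬ ((c : ℕ) < n / 3) := by
        intro h
        rw [if_pos h] at hk
        exact hk rfl
      rw [if_neg this, if_neg this]
    · show enc3 n x y' z c = enc3 n x y z c
      unfold enc3
      by_cases h : (c : ℕ) < n / 3
      · rw [if_pos h, if_pos h]
      · rw [if_neg h, if_neg h]
        have : ¬ ((c : ℕ) < 2 * (n / 3)) := by
          intro h'
          rw [if_neg h, if_pos h'] at hk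
          exact hk rfl
        rw [if_neg this, if_neg this]
    · show enc3 n x y z' c = enc3 n x y z c
      unfold enc3
      by_cases h : (c : ℕ) < n / 3
      · rw [if_pos h, if_pos h]
      · by_cases h' : (c : ℕ) < 2 * (n / 3)
        · rw [if_neg h, if_neg h, if_pos h', if_pos h']
        · rw [if_neg h, if_neg h'] at hk
          exact absurd rfl hk
  · intro k
    fin_cases k
    · exact h1
    · exact h2
    · exact h3

/-- the fourth root of `3072 ^ M` -/
noncomputable def rt (M : ℕ) : ℝ := Real.sqrt (Real.sqrt (3072 ^ M))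

theorem rt_pow (M : ℕ) : rt M ^ 4 = 3072 ^ M := by
  unfold rt
  rw [show (4 : ℕ) = 2 * 2 from rfl, pow_mul, Real.sq_sqrt (Real.sqrt_nonneg _),
    Real.sq_sqrt (by positivity)]

theorem rt_nonneg (M : ℕ) : 0 ≤ rt M := Real.sqrt_nonneg _

theorem abs_le_rt {M : ℕ} {s : ℝ} (h : s ^ 4 ≤ 3072 ^ M) : |s| ≤ rt M := by
  rw [← rt_pow] at h
  have h' : |s| ^ 4 ≤ rt M ^ 4 := by
    have : |s| ^ 4 = s ^ 4 := by
      rw [show (4 : ℕ) = 2 * 2 from rfl, pow_mul, pow_mul, sq_abs]
    rw [this]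
    exact h
  exact (pow_le_pow_iff_left₀ (abs_nonneg _) (rt_nonneg _) (by norm_num)).mp h'

end Lin

open Lin

open Classical in
/-- the correlation of the output of one program with the sign of the inner product -/
theorem corr_prog : ∃ C : ℕ, ∀ (n p w S : ℕ) (P : StackProg n p w) (b : Bool), 1 ≤ p → p ≤ n →
    1 ≤ S → n ≤ 2 ^ S → w ≤ 2 ^ S →
    |∑ q : Tri (n / 3), (if P.Outputs (enc3 n q.1 q.2.1 q.2.2) b then (1 : ℝ) else 0) *
      chi q.1 q.2.1 q.2.2| ≤ 2 ^ (C * p * S) * rt (n / 3) := by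
  obtain ⟨C, hC⟩ := lin_cover_det
  refine ⟨C, fun n p w S P b hp hpn hS hn hw => ?_⟩
  obtain ⟨Tr, hst, hcov, hdet⟩ := hC n p w S (n / 3) (2 * (n / 3)) (P.toN b) hp hpn hS hn hw
  have hdet' := hdet (toN_det P b)
  have e1 : ∀ u : Inp n, (if P.Outputs u b then (1 : ℝ) else 0) =
      ∑ θ, if Tr θ u then (1 : ℝ) else 0 := by
    intro u
    by_cases h : P.Outputs u b
    · rw [if_pos h]
      obtain ⟨θ, hθ⟩ := (hcov u).mp ((toN_accepts P u b).mpr h)
      rw [Finset.sum_eq_single θ, if_pos hθ]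
      · intro θ' _ hne
        rw [if_neg]
        intro h'
        exact hne (hdet' u _ _ h' hθ)
      · intro h'
        exact absurd (Finset.mem_univ _) h'
    · rw [if_neg h]
      symm
      refine Finset.sum_eq_zero fun θ _ => ?_
      rw [if_neg]
      intro h'
      exact h ((toN_accepts P u b).mp ((hcov u).mpr ⟨θ, h'⟩))
  have e2 : ∑ q : Tri (n / 3), (if P.Outputs (enc3 n q.1 q.2.1 q.2.2) b then (1 : ℝ) else 0) *
      chi q.1 q.2.1 q.2.2 = ∑ θ, ∑ q : Tri (n / 3),
        (if Tr θ (enc3 n q.1 q.2.1 q.2.2) then (1 : ℝ) else 0) * chi q.1 q.2.1 q.2.2 := by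
    rw [Finset.sum_comm]
    refine Finset.sum_congr rfl fun q _ => ?_
    rw [e1, Finset.sum_mul]
  rw [e2]
  refine (Finset.abs_sum_le_sum_abs _ _).trans ?_
  calc _ ≤ ∑ _θ : Fin (2 ^ (C * p * S)), rt (n / 3) := by
        refine Finset.sum_le_sum fun θ _ => abs_le_rt ?_
        exact disc_star (n / 3) (fun q => Tr θ (enc3 n q.1 q.2.1 q.2.2))
          (fun x x' y y' z z' h1 h2 h3 => star_enc (hst θ) x x' y y' z z' h1 h2 h3)
    _ = _ := by simp

theorem four_pow_gt {k M : ℕ} (h : 3 * k < M) : 2 ^ k * 3 ^ M < 4 ^ M := by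
  obtain ⟨r, rfl⟩ : ∃ r, M = 3 * k + (r + 1) := ⟨M - 3 * k - 1, by omega⟩
  rw [pow_add, pow_add 4, pow_mul, pow_mul]
  have h1 : 2 ^ k * (3 ^ 3) ^ k ≤ (4 ^ 3) ^ k := by
    rw [← mul_pow]
    exact Nat.pow_le_pow_left (by norm_num) k
  have h2 : 3 ^ (r + 1) < 4 ^ (r + 1) := Nat.pow_lt_pow_left (by norm_num) (by omega)
  calc 2 ^ k * ((3 ^ 3) ^ k * 3 ^ (r + 1)) = (2 ^ k * (3 ^ 3) ^ k) * 3 ^ (r + 1) := by ring
    _ ≤ (4 ^ 3) ^ k * 3 ^ (r + 1) := Nat.mul_le_mul_right _ h1
    _ < (4 ^ 3) ^ k * 4 ^ (r + 1) := Nat.mul_lt_mul_of_pos_left h2 (by positivity)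

theorem lowerG : ∃ C : ℕ, ∀ n p S w : ℕ, 1 ≤ p → 1 ≤ S → n ≤ 2 ^ S → w ≤ 2 ^ S →
    C * p * S ≤ n → ¬ StackTwoSided (gip n) p w := by
  classical
  obtain ⟨C0, hC0⟩ := corr_prog
  refine ⟨9 * (4 * C0 + 12), fun n p S w hp hS hn hw hC => ?_⟩
  have hpS : 1 ≤ p * S := Nat.mul_pos hp hS
  have hpS' : p ≤ p * S := Nat.le_mul_of_pos_right p hS
  have hC' : 9 * ((4 * C0 + 12) * (p * S)) ≤ n := by
    calc 9 * ((4 * C0 + 12) * (p * S)) = 9 * (4 * C0 + 12) * p * S := by ring
      _ ≤ n := hC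
  have hpn : p ≤ n := by
    have : p * S ≤ 9 * ((4 * C0 + 12) * (p * S)) := by nlinarith
    omega
  rintro ⟨ρ, P, hP⟩
  set K : ℝ := 2 ^ (C0 * p * S) with hK
  have hc : ∀ c b, |∑ q : Tri (n / 3),
      (if (P c).Outputs (enc3 n q.1 q.2.1 q.2.2) b then (1 : ℝ) else 0) *
      chi q.1 q.2.1 q.2.2| ≤ K * rt (n / 3) := fun c b => hC0 n p w S (P c) b hp hpn hS hn hw
  -- upper bound for the total correlation
  have hup : ∑ c : Fin ρ → Bool, ∑ q : Tri (n / 3),
      ((if (P c).Outputs (enc3 n q.1 q.2.1 q.2.2) false then (1 : ℝ) else 0) -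
      (if (P c).Outputs (enc3 n q.1 q.2.1 q.2.2) true then (1 : ℝ) else 0)) *
      chi q.1 q.2.1 q.2.2 ≤ 2 ^ ρ * (2 * (K * rt (n / 3))) := by
    calc _ ≤ ∑ _c : Fin ρ → Bool, (2 * (K * rt (n / 3))) := by
          refine Finset.sum_le_sum fun c _ => ?_
          simp only [sub_mul]
          rw [Finset.sum_sub_distrib]
          have h1 := (abs_le.mp (hc c false)).2
          have h2 := (abs_le.mp (hc c true)).1
          linarith
      _ = _ := by simp
  -- lower bound
  have hlow : (8 : ℝ) ^ (n / 3) * (2 ^ ρ / 3) ≤ ∑ c : Fin ρ → Bool, ∑ q : Tri (n / 3),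
      ((if (P c).Outputs (enc3 n q.1 q.2.1 q.2.2) false then (1 : ℝ) else 0) -
      (if (P c).Outputs (enc3 n q.1 q.2.1 q.2.2) true then (1 : ℝ) else 0)) *
      chi q.1 q.2.1 q.2.2 := by
    rw [Finset.sum_comm]
    have hcard : (8 : ℝ) ^ (n / 3) * (2 ^ ρ / 3) = ∑ _q : Tri (n / 3), ((2 : ℝ) ^ ρ / 3) := by
      rw [Finset.sum_const, Finset.card_univ, nsmul_eq_mul]
      congr 1
      simp only [Tri, Fintype.card_prod, Fintype.card_pi, Fintype.card_bool, Finset.prod_const,
        Finset.card_univ, Fintype.card_fin]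
      push_cast
      rw [← mul_pow, ← mul_pow]
      norm_num
    rw [hcard]
    refine Finset.sum_le_sum fun q _ => ?_
    set u := enc3 n q.1 q.2.1 q.2.2 with hu
    have hcnt : ∀ b, (∑ c : Fin ρ → Bool, if (P c).Outputs u b then (1 : ℝ) else 0) =
        (Nat.card {c : Fin ρ → Bool // (P c).Outputs u b} : ℝ) := by
      intro b
      rw [Nat.card_eq_fintype_card, Fintype.card_subtype]
      simp
    have hsum : (Nat.card {c : Fin ρ → Bool // (P c).Outputs u true} : ℝ) +
        (Nat.card {c : Fin ρ → Bool // (P c).Outputs u false} : ℝ) ≤ 2 ^ ρ := by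
      rw [← hcnt, ← hcnt, ← Finset.sum_add_distrib]
      calc _ ≤ ∑ _c : Fin ρ → Bool, (1 : ℝ) := by
            refine Finset.sum_le_sum fun c _ => ?_
            by_cases h1 : (P c).Outputs u true
            · have h2 : ¬ (P c).Outputs u false := by
                intro h2
                exact absurd (outputs_unique (P c) u h1 h2) (by decide)
              rw [if_pos h1, if_neg h2]
              norm_num
            · rw [if_neg h1]
              split_ifs <;> norm_num
        _ = _ := by simp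
    have hPu : 2 * (2 : ℝ) ^ ρ ≤
        3 * (Nat.card {c : Fin ρ → Bool // (P c).Outputs u (gip n u)} : ℝ) := by
      exact_mod_cast hP u
    rw [← Finset.sum_mul, Finset.sum_sub_distrib, hcnt, hcnt, chi_gip, ← hu]
    cases hg : gip n u
    · rw [hg] at hPu
      simp only [Bool.false_eq_true, if_false]
      linarith
    · rw [hg] at hPu
      simp only [if_true]
      linarith
  have h1 : (8 : ℝ) ^ (n / 3) ≤ 6 * K * rt (n / 3) := by
    have h2 := hlow.trans hup
    have h3 : (0 : ℝ) < 2 ^ ρ := by positivity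
    have h4 : 2 ^ ρ * ((8 : ℝ) ^ (n / 3) / 3) ≤ 2 ^ ρ * (2 * (K * rt (n / 3))) := by
      calc _ = (8 : ℝ) ^ (n / 3) * (2 ^ ρ / 3) := by ring
        _ ≤ _ := h2
    have h5 := le_of_mul_le_mul_left h4 h3
    linarith
  have h2 : ((8 : ℝ) ^ (n / 3)) ^ 4 ≤ 1296 * K ^ 4 * 3072 ^ (n / 3) := by
    calc ((8 : ℝ) ^ (n / 3)) ^ 4 ≤ (6 * K * rt (n / 3)) ^ 4 :=
          pow_le_pow_left₀ (by positivity) h1 4
      _ = 1296 * K ^ 4 * rt (n / 3) ^ 4 := by ring
      _ = _ := by rw [rt_pow]
  have h3 : 4 ^ (n / 3) ≤ 2 ^ (4 * (C0 * (p * S)) + 11) * 3 ^ (n / 3) := by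
    have e1 : ((8 : ℝ) ^ (n / 3)) ^ 4 = 4 ^ (n / 3) * 1024 ^ (n / 3) := by
      rw [← pow_mul, mul_comm (n / 3) 4, pow_mul, ← mul_pow]
      norm_num
    have e2 : (3072 : ℝ) ^ (n / 3) = 3 ^ (n / 3) * 1024 ^ (n / 3) := by
      rw [← mul_pow]
      norm_num
    rw [e1, e2, ← mul_assoc] at h2
    have h4 := le_of_mul_le_mul_right h2 (by positivity)
    have h5 : 1296 * K ^ 4 ≤ 2 ^ (4 * (C0 * (p * S)) + 11) := by
      have e3 : K ^ 4 = 2 ^ (4 * (C0 * (p * S))) := by
        rw [hK, ← pow_mul]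
        congr 1
        ring
      rw [e3, pow_add, mul_comm]
      exact mul_le_mul_of_nonneg_left (by norm_num) (by positivity)
    have h6 : (4 : ℝ) ^ (n / 3) ≤ 2 ^ (4 * (C0 * (p * S)) + 11) * 3 ^ (n / 3) :=
      h4.trans (mul_le_mul_of_nonneg_right h5 (by positivity))
    exact_mod_cast h6
  have h4 : 3 * (4 * (C0 * (p * S)) + 11) < n / 3 := by
    have e : (4 * C0 + 12) * (p * S) = 4 * (C0 * (p * S)) + 12 * (p * S) := by ring
    rw [e] at hC'
    omega
  have h5 := four_pow_gt h4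
  omega

end Pool.Agent.ST
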